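import Pool.Agent.H40.TG.BPdat

/-!
# The symbols of bounding pair maps
-/

open scoped commutatorElement

namespace TG

open Aug

variable {g : ℕ}

theorem stdBP_al (k i : Fin g) : stdBP k (al i) = bpAl k i := by
  change bpHom k (al i) = _
  rw [bpHom, surfLift_al]

theorem stdBP_be (k i : Fin g) : stdBP k (be i) = bpBe k i := by
  change bpHom k (be i) = _
  rw [bpHom, surfLift_be]

/-! ### The Torelli group and the Johnson kernel as subgroups -/

theorem inv_mul_cancel_left_aux {G : Type*} [Group G] (x y z : G) :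
    x * y⁻¹ * (y * z) = x * z := by
  group

/-- automorphisms acting trivially on the homology of the surface -/
def torelliAut (g : ℕ) : Subgroup (MulAut (Surf g)) where
  carrier := {F | ∀ x, cls (F x) = cls x}
  mul_mem' := by
    intro F F' h h' x
    rw [MulAut.mul_apply, h, h']
  one_mem' := fun x => rfl
  inv_mem' := by
    intro F h x
    have := h (F⁻¹ x)
    rw [MulAut.apply_inv_self] at this
    exact this.symm

/-- the Torelli group, as a group of outer automorphisms of the surface group -/
def torelli (g : ℕ) : Subgroup (OutG (Surf g)) := (torelliAut g).map toOut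

/-- the automorphisms acting trivially on `π / γ₃(π)` -/
def johnsonAut (g : ℕ) : Subgroup (MulAut (Surf g)) where
  carrier := {F | ∀ x, F x * x⁻¹ ∈ gam3 g}
  mul_mem' := by
    intro F F' h h' x
    have h3 : F (F' x) * (F' x)⁻¹ * (F' x * x⁻¹) ∈ gam3 g := mul_mem (h (F' x)) (h' x)
    rw [inv_mul_cancel_left_aux] at h3
    exact h3
  one_mem' := fun x => by
    rw [MulAut.one_apply, mul_inv_cancel]
    exact one_mem _
  inv_mem' := by
    intro F h x
    have h3 : (F (F⁻¹ x) * (F⁻¹ x)⁻¹)⁻¹ ∈ gam3 g := inv_mem (h (F⁻¹ x))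
    rw [MulAut.apply_inv_self, mul_inv_rev, inv_inv] at h3
    exact h3

/-- the Johnson kernel: the outer automorphisms which act trivially on `π / γ₃(π)` -/
def johnsonKernel (g : ℕ) : Subgroup (OutG (Surf g)) := (johnsonAut g).map toOut

/-! ### Triviality on the abelianisation -/

/-- automorphisms acting trivially on the abelianisation -/
def trivSub (g : ℕ) : Subgroup (MulAut (Surf g)) where
  carrier := {F | Triv F}
  mul_mem' := by
    intro F F' h h' x
    have h3 : F (F' x) * (F' x)⁻¹ * (F' x * x⁻¹) ∈ commutator (Surf g) :=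
      mul_mem (h (F' x)) (h' x)
    rw [inv_mul_cancel_left_aux] at h3
    exact h3
  one_mem' := fun x => by
    rw [MulAut.one_apply, mul_inv_cancel]
    exact one_mem _
  inv_mem' := by
    intro F h x
    have h3 : (F (F⁻¹ x) * (F⁻¹ x)⁻¹)⁻¹ ∈ commutator (Surf g) := inv_mem (h (F⁻¹ x))
    rw [MulAut.apply_inv_self, mul_inv_rev, inv_inv] at h3
    exact h3

theorem mem_trivSub {F : MulAut (Surf g)} : F ∈ trivSub g ↔ Triv F := Iff.rfl

theorem johnson_le_triv : johnsonAut g ≤ trivSub g := by
  intro F hF x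
  have h : gam3 g ≤ commutator (Surf g) := by
    unfold gam3
    rw [commutator_def]
    exact Subgroup.commutator_mono le_top le_top
  exact h (hF x)

theorem conj_triv (c : Surf g) : Triv (MulAut.conj c) := by
  intro x
  have h : MulAut.conj c x * x⁻¹ = ⁅c, x⁆ := by
    rw [MulAut.conj_apply, commutatorElement_def]
  rw [h, commutator_def]
  exact Subgroup.commutator_mem_commutator (Subgroup.mem_top _) (Subgroup.mem_top _)

theorem conjAut_triv {F φ : MulAut (Surf g)} (h : Triv F) : Triv (φ * F * φ⁻¹) := by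
  intro x
  have h1 : (φ * F * φ⁻¹) x * x⁻¹ = φ (F (φ⁻¹ x) * (φ⁻¹ x)⁻¹) := by
    rw [map_mul, map_inv, MulAut.apply_inv_self]
    rfl
  rw [h1]
  have h2 : (commutator (Surf g)).map φ.toMonoidHom ≤ commutator (Surf g) := by
    rw [commutator_def, Subgroup.map_commutator]
    exact Subgroup.commutator_mono le_top le_top
  exact h2 ⟨_, h (φ⁻¹ x), rfl⟩

theorem cls_of_comm {x : Surf g} (h : x ∈ commutator (Surf g)) : cls x = 0 := by
  have h1 : commutator (Surf g) ≤ (clsHom (g := g)).ker := by
    rw [commutator_def, Subgroup.commutator_le]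
    intro a _ b _
    rw [MonoidHom.mem_ker, map_commutatorElement]
    exact commutatorElement_eq_one_iff_mul_comm.2 (mul_comm _ _)
  have h2 := h1 h
  rw [MonoidHom.mem_ker] at h2
  unfold cls
  rw [h2]; rfl

theorem triv_le_torelli : trivSub g ≤ torelliAut g := by
  intro F hF x
  have h := cls_of_comm (hF x)
  rw [cls_mul, cls_inv] at h
  exact eq_of_sub_eq_zero (by rw [sub_eq_add_neg]; exact h)

theorem pp_comm (k : Fin g) : pp k ∈ commutator (Surf g) := by
  have h : (Abelianization.of (pp k) : Abelianization (Surf g)) = 1 := by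
    unfold pp
    rw [map_cpart]
    unfold cpart
    apply List.prod_eq_one
    intro x hx
    have := List.mem_of_mem_take hx
    rw [List.mem_ofFn] at this
    obtain ⟨i, rfl⟩ := this
    exact commutatorElement_eq_one_iff_mul_comm.2 (mul_comm _ _)
  rw [← Abelianization.ker_of, MonoidHom.mem_ker]
  exact h

theorem stdBP_triv (k : Fin g) : Triv (stdBP k) := by
  have h : (Abelianization.of.comp (stdBP k).toMonoidHom : Surf g →* Abelianization (Surf g)) =
      Abelianization.of := by
    have hp : (Abelianization.of (pp k) : Abelianization (Surf g)) = 1 := by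
      rw [← MonoidHom.mem_ker, Abelianization.ker_of]
      exact pp_comm k
    apply surf_hom_ext
    · intro i
      change Abelianization.of (stdBP k (al i)) = _
      rw [stdBP_al, bpAl]
      split_ifs with h1 h2
      · rw [map_mul, map_mul, map_inv, mul_comm (Abelianization.of (bb k)), mul_assoc,
          mul_inv_cancel, mul_one]
      · rw [map_mul, map_mul, map_inv, hp, h2]
        simp
      · rfl
    · intro i
      change Abelianization.of (stdBP k (be i)) = _
      rw [stdBP_be, bpBe]
      split_ifs with h1 h2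
      · rw [map_mul, map_mul, map_inv, mul_comm (Abelianization.of (bb k)), mul_assoc,
          mul_inv_cancel, mul_one]
      · rw [map_mul, map_inv, hp, h2]
        simp
      · rfl
  intro x
  rw [← Abelianization.ker_of, MonoidHom.mem_ker, map_mul, map_inv]
  have := DFunLike.congr_fun h x
  change Abelianization.of (stdBP k x) = _ at this
  rw [this, mul_inv_cancel]

/-! ### Symbols -/

/-- the symbol of the bounding pair map, for one side -/
def tauS (D : Dat (om : Hq g →ₗ[ℚ] Hq g →ₗ[ℚ] ℚ)) (s : Bool) (ξ y z : Hq g) : ℚ :=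
  om ξ D.a * om y (D.p s z) - om ξ (D.p s z) * om y D.a - om z D.a * om y (D.p s ξ)

theorem tauS_add (D : Dat (om : Hq g →ₗ[ℚ] Hq g →ₗ[ℚ] ℚ)) (s : Bool) (ξ y z z' : Hq g) :
    tauS D s ξ y (z + z') = tauS D s ξ y z + tauS D s ξ y z' := by
  unfold tauS
  simp only [map_add, LinearMap.add_apply]
  ring

/-- the automorphism representing the map, for each side -/
def BP.autS (d : BP g) (s : Bool) : MulAut (Surf g) :=
  if s then d.aut else MulAut.conj (d.φ (bb d.k))⁻¹ * d.aut

theorem BP.aut_apply (d : BP g) (x : Surf g) : d.aut x = d.φ (stdBP d.k (d.φ⁻¹ x)) := rfl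

theorem om_cpart (d : BP g) (ξ : Hq g) : om ξ (cls (d.φ (pp d.k))) = 0 :=
  addF_cpart (addF_om' d.φ ξ) d.k

theorem cls_bb (d : BP g) (ξ : Hq g) : om ξ (cls (d.φ (bb d.k))) = om ξ d.a := by
  unfold bb BP.a
  rw [map_mul, cls_mul, map_add, om_cpart, zero_add]

theorem om_proj_true (d : BP g) (ξ y : Hq g) : om y (d.projL true ξ) =
    -∑ i : Fin g with i.val < d.k.val,
      (om ξ (d.A i) * om y (d.B i) - om ξ (d.B i) * om y (d.A i)) := by
  rw [d.proj_apply, map_sum, ← Finset.sum_neg_distrib]
  have h : d.side true = Finset.univ.filter fun i : Fin g => i.val < d.k.val := by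
    ext i
    rw [d.mem_side]
    simp only [if_true, Finset.mem_filter, Finset.mem_univ, true_and]
    exact Iff.rfl
  rw [h]
  refine Finset.sum_congr rfl fun i _ => ?_
  rw [map_sub, map_smul, map_smul, smul_eq_mul, smul_eq_mul]
  ring

theorem tau_aut (d : BP g) (ξ y : Hq g) :
    Tau d.aut (fun x => om ξ (cls x)) (fun x => om y (cls x))
      (fun x => tauS d.dat true ξ y (cls x)) := by
  intro κ f hf
  -- pull back by `φ`
  set v : Surf g → ℚ := fun x => om ξ (cls (d.φ x)) with hv
  set w : Surf g → ℚ := fun x => om y (cls (d.φ x)) with hw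
  set h : Surf g → ℚ := fun x => f (d.φ x) with hh
  have hvA : AddF v := addF_om' d.φ ξ
  have hwA : AddF w := addF_om' d.φ y
  have hq : Quad κ v w h := fun x z => by
    change f (d.φ (x * z)) = _
    rw [map_mul]; exact hf _ _
  have hpv : v (pp d.k) = 0 := addF_cpart hvA d.k
  have hpw : w (pp d.k) = 0 := addF_cpart hwA d.k
  have hbv : v (bb d.k) = om ξ d.a := cls_bb d ξ
  have hbw : w (bb d.k) = om y d.a := cls_bb d y
  have key : ∀ x, h (stdBP d.k x) - h x = κ * tauS d.dat true ξ y (cls (d.φ x)) := by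
    have hcls : ∀ x, cls (stdBP d.k x) = cls x := triv_le_torelli (stdBP_triv d.k)
    have hvw : ∀ ζ x, om ζ (cls (d.φ (stdBP d.k x))) = om ζ (cls (d.φ x)) := by
      intro ζ x
      have h1 : Triv (d.φ * stdBP d.k * d.φ⁻¹) := conjAut_triv (stdBP_triv d.k)
      have h2 := triv_le_torelli h1 (d.φ x)
      have h3 : (d.φ * stdBP d.k * d.φ⁻¹) (d.φ x) = d.φ (stdBP d.k x) := by
        change d.φ (stdBP d.k (d.φ⁻¹ (d.φ x))) = _
        rw [MulAut.inv_apply_self]
      rw [h3] at h2
      rw [h2]
    have hA1 : AddF fun x => h (stdBP d.k x) - h x := by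
      intro a b
      have e1 := hq (stdBP d.k a) (stdBP d.k b)
      have e2 := hq a b
      have e3 : v (stdBP d.k a) = v a := hvw ξ a
      have e4 : w (stdBP d.k b) = w b := hvw y b
      simp only [map_mul]
      rw [e1, e2, e3, e4]
      ring
    have hA2 : AddF fun x => κ * tauS d.dat true ξ y (cls (d.φ x)) := by
      intro a b
      simp only [map_mul, cls_mul, tauS_add]
      ring
    apply AddF.ext hA1 hA2
    · intro i
      change h (stdBP d.k (al i)) - h (al i) = κ * tauS d.dat true ξ y (d.A i)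
      have ha : om (d.A i) d.a = 0 := d.AA _ _
      unfold tauS
      change _ = κ * (om ξ d.a * om y (d.projL true (d.A i)) - om ξ (d.projL true (d.A i)) *
        om y d.a - om (d.A i) d.a * om y (d.projL true ξ))
      rw [ha, d.proj_A, stdBP_al, bpAl]
      simp only [d.mem_side, if_true]
      split_ifs with h1 h2
      · rw [hq.conj hvA hwA, hbv, hbw]
        change _ = κ * (om ξ d.a * w (al i) - v (al i) * om y d.a - 0 * _)
        ring
      · rw [hq.conj hvA hwA, hpv, hpw, h2]
        simp
      · simp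
    · intro i
      change h (stdBP d.k (be i)) - h (be i) = κ * tauS d.dat true ξ y (d.B i)
      unfold tauS
      change _ = κ * (om ξ d.a * om y (d.projL true (d.B i)) - om ξ (d.projL true (d.B i)) *
        om y d.a - om (d.B i) d.a * om y (d.projL true ξ))
      rw [d.a_eq, d.BA, d.proj_B, stdBP_be, bpBe]
      simp only [d.mem_side, if_true]
      rcases lt_trichotomy i d.k with h1 | h1 | h1
      · have h2 : i ≠ d.k := h1.ne
        rw [if_pos h1, if_pos h1, if_neg h2, hq.conj hvA hwA, hbv, hbw, d.a_eq]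
        change _ = κ * (om ξ (d.A d.k) * w (be i) - v (be i) * om y (d.A d.k) - 0 * _)
        ring
      · rw [if_neg (by rw [h1]; exact lt_irrefl _), if_pos h1,
          if_neg (by rw [h1]; exact lt_irrefl _), if_pos h1,
          hq, hq.inv hvA hwA, hpv, hwA.inv, hpw, om_proj_true, h1]
        have h6 := hq.cpart hvA hwA d.k
        change h (pp d.k) = _ at h6
        rw [h6, ← Finset.mul_sum]
        change _ = κ * (om ξ (d.A d.k) * (om y) 0 - (om ξ) 0 * om y (d.A d.k) - (-1) *
          (-∑ i : Fin g with i.val < d.k.val, (v (al i) * w (be i) - v (be i) * w (al i))))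
        rw [map_zero, map_zero]
        ring
      · have h2 : ¬ i < d.k := not_lt.2 h1.le
        have h3 : i ≠ d.k := h1.ne'
        rw [if_neg h2, if_neg h2, if_neg h3, if_neg h3, map_zero, map_zero]
        ring
  intro x
  have h1 := key (d.φ⁻¹ x)
  rw [MulAut.apply_inv_self] at h1
  rw [d.aut_apply]
  have h2 : h (d.φ⁻¹ x) = f x := by
    change f (d.φ (d.φ⁻¹ x)) = f x
    rw [MulAut.apply_inv_self]
  rw [h2] at h1
  change f (d.φ (stdBP d.k (d.φ⁻¹ x))) - f x = _ at h1
  linarith

theorem aut_triv (d : BP g) : Triv d.aut := conjAut_triv (stdBP_triv d.k)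

theorem autS_triv (d : BP g) (s : Bool) : Triv (d.autS s) := by
  unfold BP.autS
  split_ifs
  · exact aut_triv d
  · exact (trivSub g).mul_mem (conj_triv _) (aut_triv d)

/-- the sum of the symbols of the two sides -/
theorem tauS_sum (D : Dat (om : Hq g →ₗ[ℚ] Hq g →ₗ[ℚ] ℚ)) (ξ y z : Hq g) :
    tauS D true ξ y z + tauS D false ξ y z =
      om ξ D.a * om y z - om ξ z * om y D.a - om z D.a * om y ξ := by
  have h1 : ∀ u x, om u (D.p true x) + om u (D.p false x) =
      om u x - om x D.b * om u D.a + om x D.a * om u D.b := by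
    intro u x
    have := congrArg (om u) (D.decomp x)
    rw [map_sub, map_add, map_add, map_smul, map_smul, smul_eq_mul, smul_eq_mul] at this
    linarith
  unfold tauS
  have e1 := h1 y z
  have e2 := h1 ξ z
  have e3 := h1 y ξ
  have e4 : om y (D.p false z) = om y z - om z D.b * om y D.a + om z D.a * om y D.b -
    om y (D.p true z) := by linarith
  have e5 : om ξ (D.p false z) = om ξ z - om z D.b * om ξ D.a + om z D.a * om ξ D.b -
    om ξ (D.p true z) := by linarith
  have e6 : om y (D.p false ξ) = om y ξ - om ξ D.b * om y D.a + om ξ D.a * om y D.b -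
    om y (D.p true ξ) := by linarith
  rw [e4, e5, e6]
  ring

/-- the sign of a side -/
def sgn (s : Bool) : ℚ := if s then 1 else -1

theorem sgn_ne (s : Bool) : sgn s ≠ 0 := by
  cases s <;> simp [sgn]

/-- **the symbol of a bounding pair map** -/
theorem tau_autS (d : BP g) (s : Bool) (ξ y : Hq g) :
    Tau (d.autS s) (fun x => om ξ (cls x)) (fun x => om y (cls x))
      (fun x => sgn s * tauS d.dat s ξ y (cls x)) := by
  cases s
  swap
  · intro κ f hf x
    have := tau_aut d ξ y κ f hf x
    simpa [BP.autS, sgn] using this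
  · intro κ f hf x
    have h1 := tau_aut d ξ y κ f hf x
    have h2 : d.autS false x = (d.φ (bb d.k))⁻¹ * d.aut x * (d.φ (bb d.k))⁻¹⁻¹ := by
      simp only [BP.autS, Bool.false_eq_true, if_false]
      rfl
    have hq : Quad κ (fun x => om ξ (cls x)) (fun x => om y (cls x)) f := hf
    rw [h2, hq.conj (addF_om ξ) (addF_om y), h1]
    have h3 := hq.orth
    have h4 := tauS_sum d.dat ξ y (cls x)
    have h5 : cls (d.aut x) = cls x := triv_le_torelli (aut_triv d) x
    have h6 : om ξ (cls (d.φ (bb d.k))⁻¹) = -om ξ d.a := by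
      rw [cls_inv, map_neg, cls_bb]
    have h7 : om y (cls (d.φ (bb d.k))⁻¹) = -om y d.a := by
      rw [cls_inv, map_neg, cls_bb]
    simp only [h6, h7, h5, sgn, Bool.false_eq_true, if_false]
    have h8 : om y ξ = -om ξ y := om_symp.anti _ _
    have h9 : d.dat.a = d.a := rfl
    rw [h9, h8] at h4
    have h10 : κ * (tauS d.dat true ξ y (cls x) + tauS d.dat false ξ y (cls x)) =
        κ * (om ξ d.a * om y (cls x) - om ξ (cls x) * om y d.a) +
          om (cls x) d.a * (κ * om ξ y) := by
      rw [h4]; ring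
    rw [h3, mul_zero, add_zero] at h10
    linarith

/-! ### Products, powers, the Johnson kernel -/

theorem tau_mul {F F' : MulAut (Surf g)} {v w : Surf g → ℚ} {t t' : Hq g → ℚ}
    (h : Tau F v w fun x => t (cls x)) (h' : Tau F' v w fun x => t' (cls x)) (hF : Triv F') :
    Tau (F * F') v w fun x => t (cls x) + t' (cls x) := by
  intro κ f hf x
  rw [MulAut.mul_apply, h κ f hf, h' κ f hf]
  have : cls (F' x) = cls x := triv_le_torelli hF x
  simp only [this]
  ring

theorem tau_inv {F : MulAut (Surf g)} {v w : Surf g → ℚ} {t : Hq g → ℚ}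
    (h : Tau F v w fun x => t (cls x)) (hF : Triv F) :
    Tau F⁻¹ v w fun x => -t (cls x) := by
  intro κ f hf x
  have h1 := h κ f hf (F⁻¹ x)
  rw [MulAut.apply_inv_self] at h1
  have h2 : cls (F⁻¹ x) = cls x := triv_le_torelli ((trivSub g).inv_mem hF) x
  simp only [h2] at h1
  linarith

theorem tau_one (v w : Surf g → ℚ) : Tau (1 : MulAut (Surf g)) v w 0 := by
  intro κ f _ x
  simp

theorem tau_zpow {F : MulAut (Surf g)} {v w : Surf g → ℚ} {t : Hq g → ℚ}
    (h : Tau F v w fun x => t (cls x)) (hF : Triv F) (m : ℤ) :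
    Tau (F ^ m) v w fun x => m * t (cls x) := by
  induction m using Int.induction_on with
  | zero =>
    intro κ f hf x
    simp
  | succ m ih =>
    rw [zpow_add_one]
    have := tau_mul (t := fun z => ((m : ℤ) : ℚ) * t z) (t' := t) ih h hF
    intro κ f hf x
    rw [this κ f hf x]
    push_cast
    ring
  | pred m ih =>
    rw [zpow_sub_one]
    have := tau_mul (t := fun z => ((-(m : ℤ) : ℤ) : ℚ) * t z) (t' := fun z => -t z) ih
      (tau_inv h hF) ((trivSub g).inv_mem hF)
    intro κ f hf x
    rw [this κ f hf x]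
    push_cast
    ring

theorem quad_gam3 {κ : ℚ} {v w f : Surf g → ℚ} (hf : Quad κ v w f) (hv : AddF v) (hw : AddF w)
    {c : Surf g} (hc : c ∈ gam3 g) : f c = 0 ∧ v c = 0 ∧ w c = 0 := by
  have h0 : ∀ c ∈ commutator (Surf g), v c = 0 ∧ w c = 0 := by
    let K : Subgroup (Surf g) :=
      { carrier := {c | v c = 0 ∧ w c = 0}
        mul_mem' := fun {a b} ha hb => ⟨by rw [hv, ha.1, hb.1, add_zero],
          by rw [hw, ha.2, hb.2, add_zero]⟩
        one_mem' := ⟨hv.one, hw.one⟩
        inv_mem' := fun {a} ha => ⟨by rw [hv.inv, ha.1, neg_zero], by rw [hw.inv, ha.2, neg_zero]⟩ }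
    have h1 : commutator (Surf g) ≤ K := by
      rw [commutator_def, Subgroup.commutator_le]
      intro a _ b _
      exact ⟨hv.comm _ _, hw.comm _ _⟩
    exact fun c hc => h1 hc
  let K : Subgroup (Surf g) :=
    { carrier := {c | f c = 0 ∧ v c = 0 ∧ w c = 0}
      mul_mem' := fun {a b} ha hb => ⟨by rw [hf, ha.1, hb.1, ha.2.1]; ring,
        by rw [hv, ha.2.1, hb.2.1, add_zero], by rw [hw, ha.2.2, hb.2.2, add_zero]⟩
      one_mem' := ⟨hf.one hv, hv.one, hw.one⟩
      inv_mem' := fun {a} ha => ⟨by rw [hf.inv hv hw, ha.1, ha.2.1]; ring,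
        by rw [hv.inv, ha.2.1, neg_zero], by rw [hw.inv, ha.2.2, neg_zero]⟩ }
  have h1 : gam3 g ≤ K := by
    unfold gam3
    rw [Subgroup.commutator_le]
    intro a ha b _
    rw [← commutator_def] at ha
    obtain ⟨h2, h3⟩ := h0 a ha
    refine ⟨?_, hv.comm _ _, hw.comm _ _⟩
    rw [hf.comm hv hw, h2, h3]
    ring
  exact h1 hc

theorem tau_johnson {F : MulAut (Surf g)} (hF : F ∈ johnsonAut g) {v w : Surf g → ℚ}
    (hv : AddF v) (hw : AddF w) : Tau F v w 0 := by
  intro κ f hf x
  have hq : Quad κ v w f := hf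
  obtain ⟨h1, h2, _⟩ := quad_gam3 hq hv hw (hF x)
  have h3 : F x = F x * x⁻¹ * x := by rw [inv_mul_cancel_right]
  rw [h3, hf, h1, h2]
  simp

end TG
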