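import Pool.Agent.H40.TG.Solve
import Pool.Agent.H40.TG.BPsym

/-!
# Pairs of bounding pair maps generate free groups
-/

open scoped commutatorElement

namespace TG

open Aug

variable {g : ℕ}

/-- every rational class has a nonzero multiple represented by a group element -/
theorem exists_int (X : Hq g) : ∃ N : ℕ, N ≠ 0 ∧ ∃ x : Surf g, cls x = (N : ℚ) • X := by
  have hpow : ∀ (x : Surf g) (k : ℤ), cls (x ^ k) = (k : ℚ) • cls x := by
    intro x k
    unfold cls
    rw [map_zpow, toAdd_zpow]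
    exact (Int.cast_smul_eq_zsmul ℚ k _).symm
  let K : Submodule ℚ (Hq g) :=
    { carrier := {X | ∃ N : ℕ, N ≠ 0 ∧ ∃ x : Surf g, cls x = (N : ℚ) • X}
      add_mem' := by
        rintro X Y ⟨N, hN, x, hx⟩ ⟨M, hM, y, hy⟩
        refine ⟨N * M, mul_ne_zero hN hM, x ^ (M : ℤ) * y ^ (N : ℤ), ?_⟩
        rw [cls_mul, hpow, hpow, hx, hy, smul_smul, smul_smul, smul_add]
        push_cast
        rw [mul_comm (M : ℚ) N]
      zero_mem' := ⟨1, one_ne_zero, 1, by rw [cls_one, smul_zero]⟩
      smul_mem' := by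
        rintro r X ⟨N, hN, x, hx⟩
        refine ⟨N * r.den, mul_ne_zero hN r.den_ne_zero, x ^ r.num, ?_⟩
        rw [hpow, hx, smul_smul, smul_smul]
        congr 1
        push_cast
        have h : (r.den : ℚ) ≠ 0 := by exact_mod_cast r.den_ne_zero
        have h2 : r = r.num / r.den := (Rat.num_div_den r).symm
        have h3 : r * r.den = r.num := by
          rw [eq_div_iff h] at h2
          exact h2
        rw [mul_assoc, mul_comm (r.den : ℚ) r, h3]
        ring }
  have h : X ∈ K := by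
    rw [hq_decomp X]
    refine Submodule.sum_mem _ fun i _ => Submodule.add_mem _ (Submodule.smul_mem _ _ ?_)
      (Submodule.smul_mem _ _ ?_)
    · exact ⟨1, one_ne_zero, al i, by rw [cls_al, Nat.cast_one, one_smul]⟩
    · exact ⟨1, one_ne_zero, be i, by rw [cls_be, Nat.cast_one, one_smul]⟩
  exact h

theorem mul_pow_shift {V : Type*} [AddCommGroup V] [Module ℚ V] (x y : Module.End ℚ V) (n : ℕ) :
    (x * y) ^ (n + 1) = x * (y * x) ^ n * y := by
  induction n with
  | zero => simp
  | succ n ih =>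
    rw [pow_succ, ih, pow_succ]
    simp only [mul_assoc]

theorem fin2_eq : ∀ i k : Fin 2, ¬ k = i → i = 1 - k := by decide

theorem fin2_sub : ∀ k : Fin 2, 1 - (1 - k) = k := by decide

/-- the abstract system of letters and operators in the homology of the surface -/
structure LSys (F : Fin 2 → MulAut (Surf g)) (vec : Fin 2 → Hq g)
    (Q : Fin 2 → Module.End ℚ (Hq g)) (cc : Fin 2 → ℚ) : Prop where
  triv : ∀ k, Triv (F k)
  cne : ∀ k, cc k ≠ 0
  idem : ∀ k u, Q k (Q k u) = Q k u
  adj : ∀ k u z, om (Q k u) z = om u (Q k z)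
  orth : ∀ i j, om (vec i) (vec j) = 0
  qvec : ∀ k j, Q k (vec j) = 0
  tau : ∀ k i u, Tau (F k) (fun x => om (vec i) (cls x)) (fun x => om u (cls x))
    (if i = k then fun x => om (cc k • Q k u) (cls x) else 0)
  dual : ∃ x : Fin 2 → Surf g, ∀ i j, om (vec i) (cls (x j)) = if i = j then 1 else 0
  lev : ∀ n : ℕ, ∃ u, Q 1 u = u ∧ (∀ i, om (vec i) u = 0) ∧ ((Q 1 * Q 0) ^ n) u ≠ 0

namespace LSys

variable {F : Fin 2 → MulAut (Surf g)} {vec : Fin 2 → Hq g} {Q : Fin 2 → Module.End ℚ (Hq g)}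
  {cc : Fin 2 → ℚ}

theorem level (h : LSys F vec Q cc) (l : List (Fin 2)) : ∀ (j : ℕ) (i : Fin 2) (u : Hq g),
    l.length ≤ j → Q i u = u → ((Q i * Q (1 - i)) ^ j) u ≠ 0 →
    ∃ i', Q i' (Tw (fun k u => cc k • Q k u) l u) = Tw (fun k u => cc k • Q k u) l u ∧
      Tw (fun k u => cc k • Q k u) l u ≠ 0 := by
  induction l with
  | nil =>
    intro j i u _ hu hp
    refine ⟨i, hu, ?_⟩
    rintro h0
    rw [Tw] at h0
    rw [h0, map_zero] at hp
    exact hp rfl
  | cons k l ih =>
    intro j i u hj hu hp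
    rw [List.length_cons] at hj
    rw [Tw]
    by_cases hk : k = i
    · subst hk
      apply ih j k _ (by omega)
      · rw [map_smul, h.idem]
      · rw [hu, map_smul]
        exact smul_ne_zero (h.cne k) hp
    · have hi : i = 1 - k := fin2_eq i k hk
      have hki : 1 - i = k := by
        rw [hi]
        exact fin2_sub k
      obtain ⟨j', rfl⟩ : ∃ j', j = j' + 1 := ⟨j - 1, by omega⟩
      apply ih j' k _ (by omega)
      · rw [map_smul, h.idem]
      · rw [map_smul]
        refine smul_ne_zero (h.cne k) fun h0 => hp ?_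
        rw [mul_pow_shift, Module.End.mul_apply, Module.End.mul_apply, hki]
        rw [← hi] at h0
        rw [h0, map_zero]

theorem sys (h : LSys F vec Q cc) : Sys F (fun i x => om (vec i) (cls x))
    (fun (u : Hq g) x => om u (cls x)) (fun k u => cc k • Q k u) 0 where
  triv := h.triv
  hz := by
    funext x
    rw [map_zero]; rfl
  hTz k := by rw [map_zero, smul_zero]
  h1 k i j := by
    have := h.tau k i (vec j)
    rw [h.qvec, smul_zero] at this
    have h0 : (fun x : Surf g => om (0 : Hq g) (cls x)) = 0 := by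
      funext x
      rw [map_zero]; rfl
    rw [h0, ite_self] at this
    exact this
  h2 := h.tau
  dual := h.dual
  nonv n := by
    obtain ⟨u, hu, hvu, hn⟩ := h.lev n
    refine ⟨u, ?_, ?_⟩
    · intro w e
      obtain ⟨x, hx⟩ := h.dual
      exact exists_chainRep (n := n) (ξ := fun p => vec (w p)) (y := u) (ε := vec e)
        (z0 := cls (x 0) + cls (x 1)) (fun p _ => h.orth _ _) (fun p _ => hvu _)
        (fun p _ => h.orth _ _) (fun p _ => by
          rw [map_add, hx, hx]
          have : ∀ i : Fin 2, (if i = 0 then (1 : ℚ) else 0) + (if i = 1 then 1 else 0) = 1 := by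
            intro i
            fin_cases i <;> simp
          exact this _)
    · intro l hl
      obtain ⟨i, hi, hne⟩ := h.level l n 1 u hl hu (by
        have h10 : (1 - 1 : Fin 2) = 0 := by decide
        rw [h10]; exact hn)
      set u' := Tw (fun k u => cc k • Q k u) l u with hu'
      obtain ⟨Y0, hY0⟩ : ∃ Y, om u' Y ≠ 0 := by
        by_contra hc
        push Not at hc
        exact hne (om_symp.nondeg _ hc)
      obtain ⟨N, hN, x, hx⟩ := exists_int (Q i Y0)
      refine ⟨x, fun j => ?_, ?_⟩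
      · rw [hx, map_smul, ← h.adj, h.qvec, map_zero]
        simp
      · rw [hx, map_smul, ← h.adj, hi]
        exact smul_ne_zero (by exact_mod_cast hN) hY0

end LSys

open Dat in
/-- the system attached to a configuration -/
theorem lsys_of_cfg {d e : BP g} {s t : Bool} {ξ η : Hq g} (h : Cfg d.dat e.dat s t ξ η)
    (hlev : ∀ n : ℕ, ∃ z ∈ e.dat.H t, om η z = 0 ∧ ((e.dat.q t η * d.dat.q s ξ) ^ n) z ≠ 0)
    {m n : ℤ} (hm : m ≠ 0) (hn : n ≠ 0) {κ₁ κ₂ : MulAut (Surf g)} (h₁ : κ₁ ∈ johnsonAut g)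
    (h₂ : κ₂ ∈ johnsonAut g) :
    LSys ![d.autS s ^ m * κ₁, e.autS t ^ n * κ₂] ![ξ, η] ![d.dat.q s ξ, e.dat.q t η]
      ![m * sgn s, n * sgn t] := by
  have hω := om_symp (g := g)
  have hdη : d.dat.q s ξ η = 0 := d.dat.q_zero_of_mem hω h.hξa h.hη
  have heξ : e.dat.q t η ξ = 0 := e.dat.q_zero_of_mem hω h.hηa h.hξ
  have hdξ : d.dat.q s ξ ξ = 0 := d.dat.q_self hω h.hξa
  have heη : e.dat.q t η η = 0 := e.dat.q_self hω h.hηa
  have hηξ : om η ξ = 0 := by rw [hω.anti, h.hξη, neg_zero]
  -- symbols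
  have hsymb : ∀ (d : BP g) (s : Bool) (ξ u z : Hq g), om ξ d.dat.a = 1 →
      tauS d.dat s ξ u z = om (d.dat.q s ξ u) z := by
    intro d s ξ u z hξa
    rw [d.dat.q_adj hω, Dat.q_apply]
    unfold tauS
    rw [hξa, map_sub, map_sub, map_smul, map_smul, smul_eq_mul, smul_eq_mul, d.dat.adj s ξ z]
    ring
  have hsymb0 : ∀ (d : BP g) (s : Bool) (η u z : Hq g), η ∈ d.dat.H (!s) →
      tauS d.dat s η u z = 0 := by
    intro d s η u z hη
    have h1 := d.dat.mem_H.1 hη
    rw [Bool.not_not] at h1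
    unfold tauS
    rw [h1.2, ← d.dat.adj s η z, h1.1, map_zero, map_zero, LinearMap.zero_apply]
    ring
  have htau : ∀ (d : BP g) (s : Bool) (m : ℤ) (κ : MulAut (Surf g)) (_ : κ ∈ johnsonAut g)
      (ξ u : Hq g), Tau (d.autS s ^ m * κ) (fun x => om ξ (cls x)) (fun x => om u (cls x))
        (fun x => m * (sgn s * tauS d.dat s ξ u (cls x))) := by
    intro d s m κ hκ ξ u
    have h1 := tau_zpow (t := fun z => sgn s * tauS d.dat s ξ u z) (tau_autS d s ξ u)
      (autS_triv d s) m
    have h2 := tau_mul (t := fun z => m * (sgn s * tauS d.dat s ξ u z)) (t' := fun _ => 0) h1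
      (tau_johnson hκ (addF_om ξ) (addF_om u)) (johnson_le_triv hκ)
    intro k f hf x
    have := h2 k f hf x
    simpa using this
  have hidem : ∀ (d : BP g) (s : Bool) (ξ u : Hq g), om ξ d.dat.a = 1 →
      d.dat.q s ξ (d.dat.q s ξ u) = d.dat.q s ξ u := fun d s ξ u hξa =>
    d.dat.q_fix hξa (d.dat.q_mem hω s ξ u) (d.dat.q_ker hω s hξa u)
  refine ⟨?_, ?_, ?_, ?_, ?_, ?_, ?_, ?_, ?_⟩
  · rw [Fin.forall_fin_two]
    exact ⟨(trivSub g).mul_mem ((trivSub g).zpow_mem (autS_triv d s) m) (johnson_le_triv h₁),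
      (trivSub g).mul_mem ((trivSub g).zpow_mem (autS_triv e t) n) (johnson_le_triv h₂)⟩
  · rw [Fin.forall_fin_two]
    exact ⟨mul_ne_zero (by exact_mod_cast hm) (sgn_ne s),
      mul_ne_zero (by exact_mod_cast hn) (sgn_ne t)⟩
  · rw [Fin.forall_fin_two]
    exact ⟨fun u => hidem d s ξ u h.hξa, fun u => hidem e t η u h.hηa⟩
  · rw [Fin.forall_fin_two]
    exact ⟨fun u z => d.dat.q_adj hω s ξ u z, fun u z => e.dat.q_adj hω t η u z⟩
  · rw [Fin.forall_fin_two]
    constructor
    · rw [Fin.forall_fin_two]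
      exact ⟨hω.alt ξ, h.hξη⟩
    · rw [Fin.forall_fin_two]
      exact ⟨hηξ, hω.alt η⟩
  · rw [Fin.forall_fin_two]
    constructor
    · rw [Fin.forall_fin_two]
      exact ⟨hdξ, hdη⟩
    · rw [Fin.forall_fin_two]
      exact ⟨heξ, heη⟩
  · rw [Fin.forall_fin_two]
    constructor
    · rw [Fin.forall_fin_two]
      constructor
      · intro u k f hf x
        have h1 := htau d s m κ₁ h₁ ξ u k f hf x
        simp only [hsymb d s ξ u _ h.hξa] at h1
        rw [if_pos rfl]
        change f _ = f x + k * om (((m : ℚ) * sgn s) • d.dat.q s ξ u) (cls x)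
        rw [map_smul, LinearMap.smul_apply, smul_eq_mul]
        refine h1.trans ?_
        ring
      · intro u k f hf x
        have h1 := htau d s m κ₁ h₁ η u k f hf x
        simp only [hsymb0 d s η u _ h.hη] at h1
        simpa using h1
    · rw [Fin.forall_fin_two]
      constructor
      · intro u k f hf x
        have h1 := htau e t n κ₂ h₂ ξ u k f hf x
        simp only [hsymb0 e t ξ u _ h.hξ] at h1
        simpa using h1
      · intro u k f hf x
        have h1 := htau e t n κ₂ h₂ η u k f hf x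
        simp only [hsymb e t η u _ h.hηa] at h1
        rw [if_pos rfl]
        change f _ = f x + k * om (((n : ℚ) * sgn t) • e.dat.q t η u) (cls x)
        rw [map_smul, LinearMap.smul_apply, smul_eq_mul]
        refine h1.trans ?_
        ring
  · refine ⟨![d.φ (al d.k), e.φ (al e.k)], ?_⟩
    have e1 : om ξ (cls (d.φ (al d.k))) = 1 := h.hξa
    have e2 : om ξ (cls (e.φ (al e.k))) = 0 := (e.dat.mem_H.1 h.hξ).2
    have e3 : om η (cls (d.φ (al d.k))) = 0 := (d.dat.mem_H.1 h.hη).2
    have e4 : om η (cls (e.φ (al e.k))) = 1 := h.hηa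
    rw [Fin.forall_fin_two]
    constructor
    · rw [Fin.forall_fin_two]
      exact ⟨by simpa using e1, by simpa using e2⟩
    · rw [Fin.forall_fin_two]
      exact ⟨by simpa using e3, by simpa using e4⟩
  · intro j
    obtain ⟨z, hz, hηz, hp⟩ := hlev j
    refine ⟨z, e.dat.q_fix h.hηa hz hηz, ?_, hp⟩
    rw [Fin.forall_fin_two]
    exact ⟨e.dat.orth' hω h.hξ hz, hηz⟩

theorem toOut_autS (d : BP g) (s : Bool) : toOut (d.autS s) = d.map := by
  unfold BP.autS BP.map
  split_ifs
  · rfl
  · rw [map_mul]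
    have : toOut (MulAut.conj (d.φ (bb d.k))⁻¹) = 1 := by
      rw [toOut_eq_one]
      exact ⟨_, rfl⟩
    rw [this, one_mul]

/-- **pairs of bounding pair maps** -/
theorem main {d e : BP g} (hlin : LinearIndependent ℚ ![d.a, e.a]) (hsep : ¬ Separated d e)
    {m n : ℤ} (hm : m ≠ 0) (hn : n ≠ 0) {k₁ k₂ : OutG (Surf g)} (h₁ : k₁ ∈ johnsonKernel g)
    (h₂ : k₂ ∈ johnsonKernel g) :
    Function.Injective (FreeGroup.lift ![d.map ^ m * k₁, e.map ^ n * k₂]) := by
  have hω := om_symp (g := g)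
  rw [LinearIndependent.pair_iff] at hlin
  obtain ⟨s, t, ξ, η, hcfg, hlev⟩ := Dat.concl hω (D := d.dat) (E := e.dat)
    (fun l hl => by
      have := hlin (-l) 1 (by
        change -l • d.dat.a + (1 : ℚ) • e.dat.a = 0
        rw [hl]; simp)
      exact one_ne_zero this.2)
    (fun l hl => by
      have := hlin 1 (-l) (by
        change (1 : ℚ) • d.dat.a + -l • e.dat.a = 0
        rw [hl]; simp)
      exact one_ne_zero this.1)
    (by
      rintro ⟨s, t, hc, ha, N, hN⟩
      refine hsep ⟨s, t, d.dat_H_le _ hc, e.dat_H_le _ ha, N, fun z => ?_⟩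
      have h1 : (d.proj s ∘ e.proj t) = (d.dat.p s * e.dat.p t : Module.End ℚ (Hq g)) := by
        funext z
        change d.proj s (e.proj t z) = d.projL s (e.projL t z)
        rw [d.projL_apply, e.projL_apply]
      rw [h1, ← Module.End.pow_apply, hN]
      rfl)
  obtain ⟨κ₁, hκ₁, rfl⟩ := h₁
  obtain ⟨κ₂, hκ₂, rfl⟩ := h₂
  have hS := (lsys_of_cfg hcfg hlev hm hn hκ₁ hκ₂).sys
  set F : Fin 2 → MulAut (Surf g) := ![d.autS s ^ m * κ₁, e.autS t ^ n * κ₂] with hF
  have hlift : FreeGroup.lift ![d.map ^ m * toOut κ₁, e.map ^ n * toOut κ₂] =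
      toOut.comp (FreeGroup.lift F) := by
    apply FreeGroup.ext_hom
    rw [Fin.forall_fin_two]
    constructor
    · rw [FreeGroup.lift_apply_of, MonoidHom.comp_apply, FreeGroup.lift_apply_of]
      simp only [hF, Matrix.cons_val_zero, map_mul, map_zpow, toOut_autS]
    · rw [FreeGroup.lift_apply_of, MonoidHom.comp_apply, FreeGroup.lift_apply_of]
      change e.map ^ n * toOut κ₂ = toOut (e.autS t ^ n * κ₂)
      rw [map_mul, map_zpow, toOut_autS]
  rw [injective_iff_map_eq_one]
  intro w hw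
  by_contra hne
  rw [hlift, MonoidHom.comp_apply, toOut_eq_one] at hw
  obtain ⟨ζ, hζ⟩ := hw
  exact hS.not_inner hne ζ hζ.symm

theorem map_mem_torelli (d : BP g) : d.map ∈ torelli g :=
  ⟨d.aut, triv_le_torelli (aut_triv d), rfl⟩

theorem johnson_le_torelli : johnsonKernel g ≤ torelli g :=
  Subgroup.map_mono (johnson_le_triv.trans triv_le_torelli)

theorem inTorelli_of_mem {f : OutG (Surf g)} (h : f ∈ torelli g) : InTorelli f := by
  obtain ⟨F, hF, rfl⟩ := h
  exact ⟨F, rfl, hF⟩

theorem mem_of_inJohnson {f : OutG (Surf g)} (h : InJohnsonKernel f) : f ∈ johnsonKernel g := by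
  obtain ⟨F, rfl, hF⟩ := h
  exact ⟨F, hF, rfl⟩

/-- nonzero algebraic intersection -/
theorem sep_of_inter {d e : BP g} (h : inter d.a e.a ≠ 0) :
    LinearIndependent ℚ ![d.a, e.a] ∧ ¬ Separated d e := by
  have hω := om_symp (g := g)
  rw [← om_eq_inter] at h
  constructor
  · rw [LinearIndependent.pair_iff]
    intro x y hxy
    have h1 := congrArg (om d.a) hxy
    have h2 := congrArg (fun z => om z e.a) hxy
    simp only [map_add, map_smul, smul_eq_mul, hω.alt, mul_zero, zero_add, map_zero] at h1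
    simp only [map_add, map_smul, LinearMap.add_apply, LinearMap.smul_apply, smul_eq_mul, hω.alt,
      mul_zero, add_zero, map_zero, LinearMap.zero_apply] at h2
    constructor
    · rcases mul_eq_zero.1 h2 with h3 | h3
      · exact h3
      · exact absurd h3 h
    · rcases mul_eq_zero.1 h1 with h3 | h3
      · exact h3
      · exact absurd h3 h
  · rintro ⟨s, t, hc, _, _⟩
    exact h (d.H_orth hc)

end TG
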