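import Mathlib

/-!
# Linear algebra of pairs of bounding pair maps

`Dat ω` records the homological data of a bounding pair map: the class `a`, a dual class `b` and
the two projections to the symplectic subspaces spanned by the handles on the two sides.
-/

namespace TG

variable {V : Type*} [AddCommGroup V] [Module ℚ V]

/-- a nondegenerate alternating form -/
structure Symp (ω : V →ₗ[ℚ] V →ₗ[ℚ] ℚ) : Prop where
  alt : ∀ x, ω x x = 0
  nondeg : ∀ x, (∀ y, ω x y = 0) → x = 0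

namespace Symp

variable {ω : V →ₗ[ℚ] V →ₗ[ℚ] ℚ} (hω : Symp ω)
include hω

theorem anti (x y : V) : ω x y = -ω y x := by
  have h := hω.alt (x + y)
  simp only [map_add, LinearMap.add_apply, hω.alt] at h
  linarith

theorem nondeg' (x : V) (h : ∀ y, ω y x = 0) : x = 0 :=
  hω.nondeg x fun y => by rw [hω.anti, h, neg_zero]

end Symp

/-- homological data of a bounding pair map -/
structure Dat (ω : V →ₗ[ℚ] V →ₗ[ℚ] ℚ) where
  /-- the class of the pair -/
  a : V
  /-- a dual class -/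
  b : V
  /-- projections to the spans of the handles on the two sides -/
  p : Bool → Module.End ℚ V
  adj : ∀ s x y, ω (p s x) y = ω x (p s y)
  idem : ∀ s x, p s (p s x) = p s x
  disj : ∀ s x, p s (p (!s) x) = 0
  pa : ∀ s, p s a = 0
  decomp : ∀ x, x = p true x + p false x + ω x b • a - ω x a • b
  ne : ∀ s, ∃ x, p s x ≠ 0

namespace Dat

variable {ω : V →ₗ[ℚ] V →ₗ[ℚ] ℚ}

/-- the homology of one side of the bounding pair -/
def H (D : Dat ω) (s : Bool) : Submodule ℚ V :=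
  LinearMap.ker (D.p (!s)) ⊓ LinearMap.ker (ω.flip D.a)

variable (D : Dat ω)

theorem mem_H {s : Bool} {x : V} : x ∈ D.H s ↔ D.p (!s) x = 0 ∧ ω x D.a = 0 := by
  simp [H]

theorem p_a (s : Bool) (x : V) : ω (D.p s x) D.a = 0 := by
  rw [D.adj, D.pa, map_zero]

theorem p_mem (s : Bool) (x : V) : D.p s x ∈ D.H s := by
  rw [mem_H]
  refine ⟨?_, D.p_a s x⟩
  have := D.disj (!s) x
  rwa [Bool.not_not] at this

theorem decomp' (s : Bool) (x : V) :
    x = D.p s x + D.p (!s) x + ω x D.b • D.a - ω x D.a • D.b := by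
  have h := D.decomp x
  cases s
  · rw [Bool.not_false, add_comm (D.p false x)]
    exact h
  · exact h

theorem H_eq {s : Bool} {x : V} (hx : x ∈ D.H s) : x = D.p s x + ω x D.b • D.a := by
  rw [mem_H] at hx
  have h := D.decomp' s x
  rw [hx.1, hx.2, zero_smul, sub_zero, add_zero] at h
  exact h

/-- projection to the part of `H s` killed by `ω ξ` -/
def q (s : Bool) (ξ : V) : Module.End ℚ V :=
  D.p s - (ω (D.p s ξ)).smulRight D.a - (ω.flip D.a).smulRight (D.p s ξ)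

theorem q_apply (s : Bool) (ξ x : V) :
    D.q s ξ x = D.p s x - ω (D.p s ξ) x • D.a - ω x D.a • D.p s ξ := rfl

variable (hω : Symp ω)
include hω

theorem a_mem (s : Bool) : D.a ∈ D.H s := by
  rw [mem_H]
  exact ⟨D.pa _, hω.alt _⟩

theorem orth {s : Bool} {x y : V} (hx : x ∈ D.H s) (hy : y ∈ D.H (!s)) : ω x y = 0 := by
  rw [D.H_eq hx]
  rw [mem_H, Bool.not_not] at hy
  rw [map_add, LinearMap.add_apply, D.adj, hy.1, map_zero, map_smul, LinearMap.smul_apply,
    hω.anti D.a, hy.2]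
  simp

theorem orth' {s : Bool} {x y : V} (hx : x ∈ D.H (!s)) (hy : y ∈ D.H s) : ω x y = 0 := by
  rw [hω.anti, D.orth hω hy hx, neg_zero]

theorem orth_conv {s : Bool} {y : V} (h : ∀ x ∈ D.H s, ω x y = 0) : y ∈ D.H (!s) := by
  rw [mem_H, Bool.not_not]
  constructor
  · apply hω.nondeg'
    intro x
    rw [← D.adj]
    exact h _ (D.p_mem s x)
  · rw [hω.anti, h _ (D.a_mem hω s), neg_zero]

theorem exists_of_not_mem {s : Bool} {y : V} (h : y ∉ D.H s) : ∃ x ∈ D.H (!s), ω x y = 1 := by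
  have h1 : ¬ ∀ x ∈ D.H (!s), ω x y = 0 := by
    intro h2
    have := D.orth_conv hω h2
    rw [Bool.not_not] at this
    exact h this
  push Not at h1
  obtain ⟨x, hx, hxy⟩ := h1
  refine ⟨(ω x y)⁻¹ • x, Submodule.smul_mem _ _ hx, ?_⟩
  rw [map_smul, LinearMap.smul_apply, smul_eq_mul, inv_mul_cancel₀ hxy]

omit hω in
theorem inter {s : Bool} {x : V} (hx : x ∈ D.H s) (hx' : x ∈ D.H (!s)) :
    x = ω x D.b • D.a := by
  have h1 := D.H_eq hx
  rw [mem_H, Bool.not_not] at hx'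
  rw [hx'.1, zero_add] at h1
  exact h1

theorem q_adj (s : Bool) (ξ x y : V) : ω (D.q s ξ x) y = ω x (D.q s ξ y) := by
  simp only [q_apply, map_sub, LinearMap.sub_apply, map_smul, LinearMap.smul_apply, smul_eq_mul]
  rw [D.adj s x y, hω.anti D.a y, hω.anti x (D.p s ξ)]
  ring

theorem q_mem (s : Bool) (ξ x : V) : D.q s ξ x ∈ D.H s := by
  rw [q_apply]
  exact Submodule.sub_mem _ (Submodule.sub_mem _ (D.p_mem s x)
    (Submodule.smul_mem _ _ (D.a_mem hω s))) (Submodule.smul_mem _ _ (D.p_mem s ξ))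

theorem self_p (s : Bool) (ξ : V) : ω ξ (D.p s ξ) = 0 := by
  have h := D.adj s ξ ξ
  rw [hω.anti] at h
  linarith

theorem q_ker (s : Bool) {ξ : V} (h : ω ξ D.a = 1) (x : V) : ω ξ (D.q s ξ x) = 0 := by
  simp only [q_apply, map_sub, map_smul, smul_eq_mul]
  rw [D.self_p hω, h, D.adj]
  ring

omit hω in
theorem q_fix {s : Bool} {ξ : V} (h : ω ξ D.a = 1) {x : V} (hx : x ∈ D.H s)
    (hξ : ω ξ x = 0) : D.q s ξ x = x := by
  have h1 := D.H_eq hx
  have h2 : ω ξ (D.p s x) + ω x D.b = 0 := by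
    have h3 := hξ
    rw [h1, map_add, map_smul, smul_eq_mul, h, mul_one] at h3
    have h4 : ω (D.p s x + ω x D.b • D.a) D.b = ω x D.b := by rw [← h1]
    rw [← h4]
    linarith
  have h5 : ω (D.p s ξ) x = -ω x D.b := by
    rw [D.adj]; linarith
  rw [q_apply, h5, (D.mem_H.1 hx).2, zero_smul, sub_zero, neg_smul, sub_neg_eq_add]
  exact h1.symm

theorem q_zero {s : Bool} {ξ : V} (h : ω ξ D.a = 1) {x : V}
    (hx : ∀ y ∈ D.H s, ω ξ y = 0 → ω x y = 0) : D.q s ξ x = 0 := by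
  apply hω.nondeg
  intro y
  rw [D.q_adj hω]
  exact hx _ (D.q_mem hω s ξ y) (D.q_ker hω s h y)

theorem q_zero_of_mem {s : Bool} {ξ : V} (h : ω ξ D.a = 1) {x : V} (hx : x ∈ D.H (!s)) :
    D.q s ξ x = 0 :=
  D.q_zero hω h fun _ hy _ => D.orth' hω hx hy

theorem q_self {s : Bool} {ξ : V} (h : ω ξ D.a = 1) : D.q s ξ ξ = 0 :=
  D.q_zero hω h fun _ _ h => h

omit hω

/-- a configuration: the two letters -/
structure Cfg (D E : Dat ω) (s t : Bool) (ξ η : V) : Prop where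
  hξ : ξ ∈ E.H (!t)
  hξa : ω ξ D.a = 1
  hη : η ∈ D.H (!s)
  hηa : ω η E.a = 1
  hξη : ω ξ η = 0

/-- the conclusion of the linear algebra -/
def Concl (D E : Dat ω) : Prop :=
  ∃ s t ξ η, Cfg D E s t ξ η ∧
    ∀ n : ℕ, ∃ z ∈ E.H t, ω η z = 0 ∧ ((E.q t η * D.q s ξ) ^ n) z ≠ 0

include hω

theorem Cfg.symm {D E : Dat ω} {s t : Bool} {ξ η : V} (h : Cfg D E s t ξ η) :
    Cfg E D t s η ξ :=
  ⟨h.hη, h.hηa, h.hξ, h.hξa, by rw [hω.anti, h.hξη, neg_zero]⟩

theorem Concl.symm {D E : Dat ω} (h : Concl D E) : Concl E D := by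
  obtain ⟨s, t, ξ, η, h1, h2⟩ := h
  refine ⟨t, s, η, ξ, h1.symm hω, fun n => ?_⟩
  obtain ⟨z, hz, hz1, hz2⟩ := h2 (n + 1)
  refine ⟨D.q s ξ z, D.q_mem hω _ _ _, D.q_ker hω s h1.hξa z, fun h0 => hz2 ?_⟩
  have h3 : (E.q t η * D.q s ξ) ^ (n + 1) = E.q t η * (D.q s ξ * E.q t η) ^ n * D.q s ξ := by
    have : ∀ (x y : Module.End ℚ V) (n : ℕ), (x * y) ^ (n + 1) = x * (y * x) ^ n * y := by
      intro x y n
      induction n with
      | zero => simp
      | succ n ih =>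
        rw [pow_succ, ih, pow_succ]
        simp only [mul_assoc]
    exact this _ _ n
  rw [h3, Module.End.mul_apply, Module.End.mul_apply, h0, map_zero]

omit hω in
/-- eigenvectors give the conclusion -/
theorem eig {D E : Dat ω} {s t : Bool} {ξ η : V} (h : Cfg D E s t ξ η) {zP zR : V}
    (hP : zP ∈ D.H s) (hR : zR ∈ E.H t) (hξP : ω ξ zP = 0) (hηR : ω η zR = 0)
    (hp : D.q s ξ (zP + zR) = 0) (hr : E.q t η (zP + zR) = 0) (hne : zR ≠ 0) :
    Concl D E := by
  refine ⟨s, t, ξ, η, h, fun n => ⟨zR, hR, hηR, ?_⟩⟩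
  rw [map_add, D.q_fix h.hξa hP hξP] at hp
  rw [map_add, E.q_fix h.hηa hR hηR] at hr
  have h1 : (E.q t η * D.q s ξ) zR = zR := by
    rw [Module.End.mul_apply, eq_neg_of_add_eq_zero_right hp, map_neg,
      eq_neg_of_add_eq_zero_left hr, neg_neg]
  have h2 : ((E.q t η * D.q s ξ) ^ n) zR = zR := by
    induction n with
    | zero => simp
    | succ n ih => rw [pow_succ, Module.End.mul_apply, h1, ih]
  rw [h2]
  exact hne

theorem eig1 {D E : Dat ω} {s t : Bool} {ξ η : V} (h : Cfg D E s t ξ η) {z : V}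
    (hP : z ∈ D.H s) (hR : z ∈ E.H t) (hne : z ≠ 0) : Concl D E := by
  have h1 : ω ξ z = 0 := E.orth' hω h.hξ hR
  have h2 : ω η z = 0 := D.orth' hω h.hη hP
  refine eig h (zP := -z) (zR := z) (Submodule.neg_mem _ hP) hR ?_ h2 ?_ ?_ hne
  · rw [map_neg, h1, neg_zero]
  · rw [neg_add_cancel, map_zero]
  · rw [neg_add_cancel, map_zero]

theorem eig2 {D E : Dat ω} {s t : Bool} {ξ η : V} (h : Cfg D E s t ξ η) {zP zR : V}
    (hP : zP ∈ D.H s) (hR : zR ∈ E.H t) (hξ : ξ = zP + zR) : Concl D E := by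
  have h1 : ω ξ zR = 0 := E.orth' hω h.hξ hR
  have h2 : ω ξ zP = 0 := by
    have := hω.alt ξ
    nth_rewrite 2 [hξ] at this
    rw [map_add, h1, add_zero] at this
    exact this
  have h3 : ω η zP = 0 := D.orth' hω h.hη hP
  have h4 : ω η zR = 0 := by
    have := h.hξη
    rw [hω.anti, neg_eq_zero, hξ, map_add, h3, zero_add] at this
    exact this
  refine eig h hP hR h2 h4 ?_ ?_ ?_
  · rw [← hξ, D.q_self hω h.hξa]
  · rw [← hξ, E.q_zero_of_mem hω h.hηa h.hξ]
  · rintro rfl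
    rw [add_zero] at hξ
    have := (D.mem_H.1 hP).2
    rw [← hξ, h.hξa] at this
    exact one_ne_zero this

theorem eig3 {D E : Dat ω} {s t : Bool} {ξ η : V} (h : Cfg D E s t ξ η) {zP zR : V}
    (hP : zP ∈ D.H s) (hR : zR ∈ E.H t) (hη : η = zP + zR) : Concl D E :=
  (eig2 hω (h.symm hω) hR hP (by rw [hη, add_comm])).symm hω

/-! ### The case `a ⬝ c = 0` -/

theorem ex_xi {D E : Dat ω} {s t : Bool} (h0 : ω D.a E.a = 0) {η : V} (hη : η ∈ D.H (!s))
    (hηa : ω η E.a = 1) (ha : D.a ∉ E.H t) : ∃ ξ, Cfg D E s t ξ η := by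
  obtain ⟨v, hv, hva⟩ := E.exists_of_not_mem hω ha
  refine ⟨v + ω v η • E.a, ⟨Submodule.add_mem _ hv (Submodule.smul_mem _ _ (E.a_mem hω _)),
    ?_, hη, hηa, ?_⟩⟩
  · rw [map_add, LinearMap.add_apply, map_smul, LinearMap.smul_apply, hva, hω.anti E.a, h0]
    simp
  · rw [map_add, LinearMap.add_apply, map_smul, LinearMap.smul_apply, hω.anti E.a, hηa]
    simp

theorem ex_eta {D E : Dat ω} {s t : Bool} (h0 : ω D.a E.a = 0) {ξ : V} (hξ : ξ ∈ E.H (!t))
    (hξa : ω ξ D.a = 1) (hc : E.a ∉ D.H s) : ∃ η, Cfg D E s t ξ η := by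
  obtain ⟨η, h⟩ := ex_xi hω (D := E) (E := D) (s := t) (t := s)
    (by rw [hω.anti, h0, neg_zero]) hξ hξa hc
  exact ⟨η, h.symm hω⟩

/-- the intersection case -/
theorem caseInter {D E : Dat ω} {s t : Bool} (h0 : ω D.a E.a = 0) (hc : E.a ∉ D.H s)
    (ha : D.a ∉ E.H t) {z : V} (hP : z ∈ D.H s) (hR : z ∈ E.H t) (hne : z ≠ 0) :
    Concl D E := by
  obtain ⟨η, hη, hηa⟩ := D.exists_of_not_mem hω hc
  obtain ⟨ξ, h⟩ := ex_xi hω h0 hη hηa ha
  exact eig1 hω h hP hR hne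

/-- `(H_R ∩ a^⊥)^⊥ = H_{R'} + ℚ a` -/
theorem orth_inter {D E : Dat ω} {t : Bool} {y : V}
    (h : ∀ z ∈ E.H t, ω z D.a = 0 → ω z y = 0) : ∃ l : ℚ, y - l • D.a ∈ E.H (!t) := by
  by_cases h1 : ∀ z ∈ E.H t, ω z D.a = 0
  · refine ⟨0, E.orth_conv hω fun z hz => ?_⟩
    rw [zero_smul, sub_zero]
    exact h z hz (h1 z hz)
  · push Not at h1
    obtain ⟨z0, hz0, hz0a⟩ := h1
    refine ⟨ω z0 y / ω z0 D.a, E.orth_conv hω fun z hz => ?_⟩
    have h2 := h (z - (ω z D.a / ω z0 D.a) • z0)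
      (Submodule.sub_mem _ hz (Submodule.smul_mem _ _ hz0)) (by
        simp only [map_sub, LinearMap.sub_apply, map_smul, LinearMap.smul_apply, smul_eq_mul]
        field_simp
        ring)
    simp only [map_sub, LinearMap.sub_apply, map_smul, LinearMap.smul_apply, smul_eq_mul] at h2 ⊢
    field_simp at h2 ⊢
    linarith

theorem caseS1 {D E : Dat ω} {s t : Bool} (h0 : ω D.a E.a = 0)
    (ha : D.a ∉ E.H t) (h : ¬ ∃ l : ℚ, D.p (!s) E.a - l • D.a ∈ E.H (!t)) : Concl D E := by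
  have h1 : ¬ ∀ z ∈ E.H t, ω z D.a = 0 → ω z (D.p (!s) E.a) = 0 := fun h2 =>
    h (orth_inter hω h2)
  push Not at h1
  obtain ⟨z, hz, hza, hzc⟩ := h1
  set c := (ω z (D.p (!s) E.a))⁻¹ with hcdef
  have h2 := D.decomp' s z
  rw [hza, zero_smul, sub_zero] at h2
  have hη : c • D.p (!s) z ∈ D.H (!s) := Submodule.smul_mem _ _ (D.p_mem _ _)
  have hηa : ω (c • D.p (!s) z) E.a = 1 := by
    rw [map_smul, LinearMap.smul_apply, D.adj, smul_eq_mul, hcdef, inv_mul_cancel₀ hzc]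
  obtain ⟨ξ, hcfg⟩ := ex_xi hω h0 hη hηa ha
  refine eig3 hω hcfg (zP := -(c • (D.p s z + ω z D.b • D.a))) (zR := c • z) ?_
    (Submodule.smul_mem _ _ hz) ?_
  · exact Submodule.neg_mem _ (Submodule.smul_mem _ _ (Submodule.add_mem _ (D.p_mem _ _)
      (Submodule.smul_mem _ _ (D.a_mem hω _))))
  · have h3 : (D.p s z + ω z D.b • D.a) + D.p (!s) z = z := by
      calc _ = D.p s z + D.p (!s) z + ω z D.b • D.a := by abel
        _ = z := h2.symm
    rw [eq_neg_add_of_add_eq h3, smul_add, smul_neg]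

omit hω in
theorem not_mem_of_lin {D E : Dat ω} (hlin : ∀ l : ℚ, E.a ≠ l • D.a) {s : Bool}
    (h : E.a ∈ D.H (!s)) : E.a ∉ D.H s := fun h1 => hlin _ (D.inter h1 h)

/-- both classes crossing -/
theorem caseBeta {D E : Dat ω} (h0 : ω D.a E.a = 0) (hc : ∀ s, E.a ∉ D.H s)
    (ha : ∀ t, D.a ∉ E.H t) : Concl D E := by
  by_cases h : ∃ l : ℚ, D.p (!true) E.a - l • D.a ∈ E.H (!true)
  · obtain ⟨l, hl⟩ := h
    refine caseInter hω h0 (hc (!true)) (ha (!true)) (Submodule.sub_mem _ (D.p_mem _ _)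
      (Submodule.smul_mem _ l (D.a_mem hω _))) hl fun h1 => ?_
    have h2 : D.p (!true) E.a = l • D.a := sub_eq_zero.1 h1
    have h3 : D.p (!true) E.a = 0 := by
      rw [← D.idem, h2, map_smul, D.pa, smul_zero]
    refine hc true (D.mem_H.2 ⟨h3, ?_⟩)
    rw [hω.anti, h0, neg_zero]
  · exact caseS1 hω h0 (ha true) h

theorem exists_in_ker (E : Dat ω) (t : Bool) {η : V} (hη : ω η E.a = 1) :
    ∃ y ∈ E.H t, ω η y = 0 ∧ y ≠ 0 := by
  obtain ⟨x, hx⟩ := E.ne t
  refine ⟨E.p t x - ω η (E.p t x) • E.a, Submodule.sub_mem _ (E.p_mem _ _)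
    (Submodule.smul_mem _ _ (E.a_mem hω _)), ?_, fun h => hx ?_⟩
  · rw [map_sub, map_smul, hη]
    simp
  · rw [← E.idem, sub_eq_zero.1 h, map_smul, E.pa, smul_zero]

/-- one class crossing -/
theorem caseAlpha {D E : Dat ω} (hlin : ∀ l : ℚ, D.a ≠ l • E.a) (h0 : ω D.a E.a = 0)
    (hc : ∀ s, E.a ∉ D.H s) {t : Bool} (ha : D.a ∈ E.H (!t)) : Concl D E := by
  have ha' : D.a ∉ E.H t := not_mem_of_lin hlin ha
  have hca : ω E.a D.a = 0 := by rw [hω.anti, h0, neg_zero]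
  by_cases hh : ∀ s, ∃ l : ℚ, D.p (!s) E.a - l • D.a ∈ E.H (!t)
  swap
  · push Not at hh
    obtain ⟨s, hs⟩ := hh
    exact caseS1 hω h0 ha' (by push Not; exact hs)
  have hpc : ∀ s, D.p s E.a ∈ E.H (!t) := by
    intro s
    obtain ⟨l, hl⟩ := hh (!s)
    rw [Bool.not_not] at hl
    have := Submodule.add_mem _ hl (Submodule.smul_mem _ l ha)
    rwa [sub_add_cancel] at this
  obtain ⟨ξ, hξ, hξa⟩ := E.exists_of_not_mem hω ha'
  obtain ⟨η, h⟩ := ex_eta hω h0 hξ hξa (hc true)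
  obtain ⟨η', h'⟩ := ex_eta hω h0 hξ hξa (hc false)
  -- decomposition of elements of `H_R`
  have hdec : ∀ y ∈ E.H t, y = D.q true ξ y + D.q false ξ y := by
    intro y hy
    have hya : ω y D.a = 0 := E.orth hω hy ha
    have hξy : ω ξ y = 0 := E.orth' hω hξ hy
    have h1 := D.decomp y
    rw [hya, zero_smul, sub_zero] at h1
    have h2 : ω (D.p true ξ) y + ω (D.p false ξ) y = -ω y D.b := by
      have h3 := hξy
      have h4 : ω ξ (D.p true y + D.p false y + ω y D.b • D.a) = 0 := by rw [← h1]; exact h3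
      rw [map_add, map_add, map_smul, hξa, smul_eq_mul, mul_one] at h4
      rw [D.adj, D.adj]
      linarith
    rw [q_apply, q_apply, hya, zero_smul, sub_zero, zero_smul, sub_zero]
    have h5 : D.p true y - ω (D.p true ξ) y • D.a + (D.p false y - ω (D.p false ξ) y • D.a)
        = D.p true y + D.p false y - (ω (D.p true ξ) y + ω (D.p false ξ) y) • D.a := by
      rw [add_smul]; abel
    rw [h5, h2, neg_smul, sub_neg_eq_add]
    exact h1
  by_cases hA : ∃ y ∈ E.H t, ω η y = 0 ∧ y ≠ 0 ∧ E.q t η (D.q true ξ y) = 0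
  · obtain ⟨y, hy, hηy, hy0, hy1⟩ := hA
    have hya : ω y D.a = 0 := E.orth hω hy ha
    have h1 : E.q t η (D.q false ξ y) = y := by
      have h2 := congrArg (E.q t η) (hdec y hy)
      rw [E.q_fix h.hηa hy hηy, map_add, hy1, zero_add] at h2
      exact h2.symm
    -- `c` component
    have h3 : D.q false ξ E.a ∈ E.H (!t) := by
      rw [q_apply, hca, zero_smul, sub_zero]
      exact Submodule.sub_mem _ (hpc _) (Submodule.smul_mem _ _ ha)
    have h4 : ω (D.q false ξ y) E.a = 0 := by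
      rw [D.q_adj hω]
      exact E.orth hω hy h3
    have h5 : E.q t η' (D.q false ξ y) =
        E.q t η (D.q false ξ y) - ω η' (E.q t η (D.q false ξ y)) • E.a := by
      have h6 : E.q t η' (D.q false ξ y) = E.q t η (D.q false ξ y) +
          (ω (E.p t η) (D.q false ξ y) - ω (E.p t η') (D.q false ξ y)) • E.a := by
        rw [E.q_apply, E.q_apply, h4, zero_smul, zero_smul, sub_smul]
        abel
      have h7 := E.q_ker hω t h'.hηa (D.q false ξ y)
      rw [h6, map_add, map_smul, h'.hηa, smul_eq_mul, mul_one] at h7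
      have h8' : ω (E.p t η) (D.q false ξ y) - ω (E.p t η') (D.q false ξ y) =
          -ω η' (E.q t η (D.q false ξ y)) := by linarith
      rw [h6, h8', neg_smul, ← sub_eq_add_neg]
    rw [h1] at h5
    have h8 : E.q t η' (D.q false ξ (y - ω η' y • E.a)) = y - ω η' y • E.a := by
      rw [map_sub, map_sub, h5, map_smul, map_smul, E.q_zero_of_mem hω h'.hηa h3, smul_zero,
        sub_zero]
    refine ⟨false, t, ξ, η', h', fun n => ⟨y - ω η' y • E.a,
      Submodule.sub_mem _ hy (Submodule.smul_mem _ _ (E.a_mem hω _)), ?_, ?_⟩⟩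
    · rw [map_sub, map_smul, h'.hηa]
      simp
    · have h9 : ((E.q t η' * D.q false ξ) ^ n) (y - ω η' y • E.a) = y - ω η' y • E.a := by
        induction n with
        | zero => simp
        | succ n ih => rw [pow_succ, Module.End.mul_apply, Module.End.mul_apply, h8, ih]
      rw [h9]
      intro h10
      have h11 : y = ω η' y • E.a := sub_eq_zero.1 h10
      have h12 := hηy
      rw [h11, map_smul, h.hηa, smul_eq_mul, mul_one] at h12
      rw [h12, zero_smul] at h11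
      exact hy0 h11
  · push Not at hA
    obtain ⟨y, hy, hηy, hy0⟩ := exists_in_ker hω E t h.hηa
    refine ⟨true, t, ξ, η, h, fun n => ⟨y, hy, hηy, ?_⟩⟩
    have h1 : ∀ n : ℕ, ((E.q t η * D.q true ξ) ^ n) y ∈ E.H t ∧
        ω η (((E.q t η * D.q true ξ) ^ n) y) = 0 ∧ ((E.q t η * D.q true ξ) ^ n) y ≠ 0 := by
      intro n
      induction n with
      | zero => exact ⟨by simpa using hy, by simpa using hηy, by simpa using hy0⟩
      | succ n ih =>
        rw [pow_succ', Module.End.mul_apply, Module.End.mul_apply]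
        exact ⟨E.q_mem hω _ _ _, E.q_ker hω t h.hηa _, hA _ ih.1 ih.2.1 ih.2.2⟩
    exact (h1 n).2.2

/-- no class crossing -/
theorem caseII {D E : Dat ω} (hlin : ∀ l : ℚ, E.a ≠ l • D.a) (hlin' : ∀ l : ℚ, D.a ≠ l • E.a)
    (h0 : ω D.a E.a = 0) {s t : Bool} (hc : E.a ∈ D.H (!s)) (ha : D.a ∈ E.H (!t))
    (hnil : ¬ IsNilpotent (D.p s * E.p t)) : Concl D E := by
  have ha' : D.a ∉ E.H t := not_mem_of_lin hlin' ha
  have hc' : E.a ∉ D.H s := not_mem_of_lin hlin hc
  obtain ⟨η, hη, hηa⟩ := D.exists_of_not_mem hω hc'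
  obtain ⟨ξ, h⟩ := ex_xi hω h0 hη hηa ha'
  have hpc : D.p s E.a = 0 := by
    have := (D.mem_H.1 hc).1
    rwa [Bool.not_not] at this
  have hpa : E.p t D.a = 0 := by
    have := (E.mem_H.1 ha).1
    rwa [Bool.not_not] at this
  have h1 : ∀ z ∈ E.H t, ∃ l : ℚ, E.q t η (D.q s ξ z) = E.p t (D.p s z) + l • E.a := by
    intro z hz
    have hza : ω z D.a = 0 := E.orth hω hz ha
    have h2 : ω (D.q s ξ z) E.a = 0 := D.orth hω (D.q_mem hω _ _ _) hc
    refine ⟨-ω (E.p t η) (D.q s ξ z), ?_⟩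
    rw [E.q_apply t η, h2, zero_smul, sub_zero, D.q_apply s ξ z, hza, zero_smul, sub_zero,
      map_sub, map_smul, hpa, smul_zero, sub_zero, neg_smul]
    abel
  have h2 : ∀ n : ℕ, ∀ z ∈ E.H t, ∃ l : ℚ, ((E.q t η * D.q s ξ) ^ n) z =
      ((E.p t * D.p s) ^ n) z + l • E.a := by
    intro n
    induction n with
    | zero => intro z _; exact ⟨0, by simp⟩
    | succ n ih =>
      intro z hz
      obtain ⟨l, hl⟩ := ih z hz
      have hmem : ((E.q t η * D.q s ξ) ^ n) z ∈ E.H t := by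
        cases n with
        | zero => simpa using hz
        | succ n =>
          rw [pow_succ', Module.End.mul_apply, Module.End.mul_apply]
          exact E.q_mem hω _ _ _
      obtain ⟨l', hl'⟩ := h1 _ hmem
      refine ⟨l', ?_⟩
      rw [pow_succ', Module.End.mul_apply, Module.End.mul_apply, hl', hl, map_add, map_smul,
        hpc, smul_zero, add_zero, pow_succ', Module.End.mul_apply, Module.End.mul_apply]
  refine ⟨s, t, ξ, η, h, fun n => ?_⟩
  have h3 : ∃ x, ((D.p s * E.p t) ^ (n + 1)) x ≠ 0 := by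
    by_contra h4
    push Not at h4
    exact hnil ⟨n + 1, LinearMap.ext h4⟩
  obtain ⟨x, hx⟩ := h3
  have h4 : ((D.p s * E.p t) ^ (n + 1)) x = D.p s (((E.p t * D.p s) ^ n) (E.p t x)) := by
    have : ∀ (x y : Module.End ℚ V) (n : ℕ), (x * y) ^ (n + 1) = x * (y * x) ^ n * y := by
      intro x y n
      induction n with
      | zero => simp
      | succ n ih =>
        rw [pow_succ, ih, pow_succ]
        simp only [mul_assoc]
    rw [this]
    rfl
  rw [h4] at hx
  have h5 : D.p s (((E.p t * D.p s) ^ n) E.a) = 0 := by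
    cases n with
    | zero => simpa using hpc
    | succ n => rw [pow_succ, Module.End.mul_apply, Module.End.mul_apply, hpc]; simp
  have hz : E.p t x - ω η (E.p t x) • E.a ∈ E.H t :=
    Submodule.sub_mem _ (E.p_mem _ _) (Submodule.smul_mem _ _ (E.a_mem hω _))
  refine ⟨E.p t x - ω η (E.p t x) • E.a, hz, ?_, fun h6 => hx ?_⟩
  · rw [map_sub, map_smul, h.hηa]
    simp
  · obtain ⟨l, hl⟩ := h2 n _ hz
    rw [h6] at hl
    have h7 := congrArg (D.p s) hl
    rw [map_zero, map_add, map_smul, hpc, smul_zero, add_zero, map_sub, map_sub, map_smul,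
      map_smul, h5, smul_zero, sub_zero] at h7
    exact h7.symm

/-! ### The case `a ⬝ c ≠ 0` -/

theorem ex_cfg {D E : Dat ω} (h0 : ω D.a E.a ≠ 0) {s t : Bool} {x : V} (hx : x ∈ E.H (!t))
    (hxa : ω x D.a = 0) (hxP : x ∉ D.H s) :
    ∃ η, Cfg D E s t ((ω E.a D.a)⁻¹ • E.a + x) η := by
  obtain ⟨v, hv, hvx⟩ := D.exists_of_not_mem hω hxP
  have h0' : ω E.a D.a = -ω D.a E.a := hω.anti _ _
  have hax : ω D.a x = 0 := by rw [hω.anti, hxa, neg_zero]
  have hcx : ω E.a x = 0 := by rw [hω.anti, (E.mem_H.1 hx).2, neg_zero]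
  have hva : ω v D.a = 0 := (D.mem_H.1 hv).2
  have hxv : ω x v = -1 := by rw [hω.anti, hvx]
  set A := ω D.a E.a with hA
  -- `v_n = v - (ω v c / ω a c) a`
  set w : V := v - (ω v E.a / A) • D.a with hw
  have hwc : ω w E.a = 0 := by
    rw [hw, map_sub, LinearMap.sub_apply, map_smul, LinearMap.smul_apply, ← hA, smul_eq_mul,
      div_mul_cancel₀ _ h0, sub_self]
  have hwmem : w ∈ D.H (!s) :=
    Submodule.sub_mem _ hv (Submodule.smul_mem _ _ (D.a_mem hω _))
  have hxw : ω x w = -1 := by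
    rw [hw, map_sub, map_smul, hxa, smul_zero, sub_zero, hxv]
  refine ⟨A⁻¹ • D.a + A⁻¹ • w, ⟨?_, ?_, ?_, ?_, ?_⟩⟩
  · exact Submodule.add_mem _ (Submodule.smul_mem _ _ (E.a_mem hω _)) hx
  · rw [map_add, LinearMap.add_apply, map_smul, LinearMap.smul_apply, hxa, add_zero,
      smul_eq_mul, inv_mul_cancel₀]
    rw [h0']
    exact neg_ne_zero.2 h0
  · exact Submodule.add_mem _ (Submodule.smul_mem _ _ (D.a_mem hω _))
      (Submodule.smul_mem _ _ hwmem)
  · rw [map_add, LinearMap.add_apply, map_smul, map_smul, LinearMap.smul_apply,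
      LinearMap.smul_apply, hwc, smul_zero, add_zero, ← hA, smul_eq_mul, inv_mul_cancel₀ h0]
  · simp only [map_add, LinearMap.add_apply, map_smul, LinearMap.smul_apply, smul_eq_mul, hxa,
      hxw]
    rw [h0', hω.anti E.a w, hwc]
    field_simp
    ring

/-- natural projection to the part of `E.H t` orthogonal to `D.a` -/
def rn (D E : Dat ω) (t : Bool) (z : V) : V :=
  E.p t z - (ω (E.p t z) D.a / ω E.a D.a) • E.a

theorem rn_mem {D E : Dat ω} (t : Bool) (z : V) : rn D E t z ∈ E.H t :=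
  Submodule.sub_mem _ (E.p_mem _ _) (Submodule.smul_mem _ _ (E.a_mem hω _))

omit hω in
theorem rn_a {D E : Dat ω} (h0 : ω E.a D.a ≠ 0) (t : Bool) (z : V) : ω (rn D E t z) D.a = 0 := by
  rw [rn, map_sub, LinearMap.sub_apply, map_smul, LinearMap.smul_apply, smul_eq_mul,
    div_mul_cancel₀ _ h0, sub_self]

omit hω in
theorem rn_c {D E : Dat ω} (hcc : ω E.a E.a = 0) (t : Bool) (z : V) :
    ω (rn D E t z) E.a = 0 := by
  rw [rn, map_sub, LinearMap.sub_apply, map_smul, LinearMap.smul_apply, hcc, E.p_a]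
  simp

omit hω in
theorem rn_add {D E : Dat ω} (h0 : ω E.a D.a ≠ 0) {z : V} (hza : ω z D.a = 0)
    (hzc : ω z E.a = 0) : z = rn D E true z + rn D E false z := by
  have h1 := E.decomp z
  rw [hzc, zero_smul, sub_zero] at h1
  have h2 : ∃ l : ℚ, z = rn D E true z + rn D E false z + l • E.a := by
    refine ⟨ω z E.b + ω (E.p true z) D.a / ω E.a D.a + ω (E.p false z) D.a / ω E.a D.a, ?_⟩
    rw [rn, rn, add_smul, add_smul]
    nth_rewrite 1 [h1]
    abel
  obtain ⟨l, hl⟩ := h2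
  have h3 : l * ω E.a D.a = 0 := by
    have h4 := hza
    rw [hl, map_add, map_add, LinearMap.add_apply, LinearMap.add_apply, rn_a h0, rn_a h0,
      map_smul, LinearMap.smul_apply, smul_eq_mul, zero_add, zero_add] at h4
    exact h4
  have h5 : l = 0 := by
    rcases mul_eq_zero.1 h3 with h | h
    · exact h
    · exact absurd h h0
  rw [h5, zero_smul, add_zero] at hl
  exact hl

theorem rn_fix {D E : Dat ω} (h0 : ω E.a D.a ≠ 0) {t : Bool} {z : V} (hz : z ∈ E.H t)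
    (hza : ω z D.a = 0) : rn D E t z = z := by
  have hzc : ω z E.a = 0 := (E.mem_H.1 hz).2
  have h1 := rn_add h0 hza hzc
  have h2 : rn D E (!t) z = 0 := by
    rw [rn, (E.mem_H.1 hz).1]
    simp
  cases t
  · rw [Bool.not_false] at h2
    rw [h2, zero_add] at h1
    exact h1.symm
  · rw [Bool.not_true] at h2
    rw [h2, add_zero] at h1
    exact h1.symm

theorem exists_ne {D E : Dat ω} (h0 : ω D.a E.a ≠ 0) (s : Bool) :
    ∃ z ∈ D.H s, ω z E.a = 0 ∧ z ≠ 0 := by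
  obtain ⟨y, hy, hy1, hy2⟩ := exists_in_ker hω D s (η := -((ω D.a E.a)⁻¹ • E.a)) (by
    rw [map_neg, LinearMap.neg_apply, map_smul, LinearMap.smul_apply, hω.anti E.a,
      smul_eq_mul, mul_neg, neg_neg, inv_mul_cancel₀ h0])
  refine ⟨y, hy, ?_, hy2⟩
  rw [map_neg, LinearMap.neg_apply, map_smul, LinearMap.smul_apply, hω.anti E.a, smul_eq_mul,
    mul_neg, neg_neg] at hy1
  rcases mul_eq_zero.1 hy1 with h | h
  · exact absurd h (inv_ne_zero h0)
  · exact h

theorem caseGamma1 {D E : Dat ω} (h0 : ω D.a E.a ≠ 0) {s t : Bool} {z : V} (hz : z ∈ D.H s)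
    (hzc : ω z E.a = 0) (hz1 : rn D E (!t) z ∉ D.H s) : Concl D E := by
  have h0' : ω E.a D.a ≠ 0 := by rw [hω.anti]; exact neg_ne_zero.2 h0
  have hza : ω z D.a = 0 := (D.mem_H.1 hz).2
  obtain ⟨η, h⟩ := ex_cfg hω h0 (rn_mem hω (!t) z) (rn_a h0' _ _) hz1
  refine eig2 hω h hz (zR := (ω E.a D.a)⁻¹ • E.a - rn D E t z) (Submodule.sub_mem _
    (Submodule.smul_mem _ _ (E.a_mem hω _)) (rn_mem hω _ _)) ?_
  have h1 := rn_add h0' hza hzc
  have h2 : rn D E t z + rn D E (!t) z = z := by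
    cases t
    · rw [Bool.not_false, add_comm]; exact h1.symm
    · exact h1.symm
  have h3 : rn D E (!t) z = z - rn D E t z := by rw [eq_sub_iff_add_eq', h2]
  rw [h3]
  abel

theorem caseGamma2 {D E : Dat ω} (h0 : ω D.a E.a ≠ 0) {s t : Bool} {z w : V} (hz : z ∈ D.H s)
    (hz' : z ∈ E.H t) (hz0 : z ≠ 0) (hw : w ∈ D.H (!s)) (hw' : w ∈ E.H (!t)) (hw0 : w ≠ 0) :
    Concl D E := by
  have hwa : ω w D.a = 0 := (D.mem_H.1 hw).2
  have hwc : ω w E.a = 0 := (E.mem_H.1 hw').2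
  have hws : w ∉ D.H s := by
    intro h1
    have h2 := D.inter h1 hw
    have h3 := hwc
    rw [h2, map_smul, LinearMap.smul_apply, smul_eq_mul] at h3
    rcases mul_eq_zero.1 h3 with h | h
    · rw [h, zero_smul] at h2
      exact hw0 h2
    · exact h0 h
  obtain ⟨η, h⟩ := ex_cfg hω h0 hw' hwa hws
  exact eig1 hω h hz hz' hz0

theorem caseGamma {D E : Dat ω} (h0 : ω D.a E.a ≠ 0) : Concl D E := by
  have h0' : ω E.a D.a ≠ 0 := by rw [hω.anti]; exact neg_ne_zero.2 h0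
  by_cases hst : ∀ s t, ∀ z ∈ D.H s, ω z E.a = 0 → rn D E t z ∈ D.H s
  swap
  · push Not at hst
    obtain ⟨s, t, z, hz, hzc, hz1⟩ := hst
    refine caseGamma1 hω h0 (s := s) (t := !t) hz hzc ?_
    rwa [Bool.not_not]
  -- intersections
  have hI1 : ∀ s, ∃ t, ∃ z ∈ D.H s, z ∈ E.H t ∧ z ≠ 0 := by
    intro s
    obtain ⟨z, hz, hzc, hz0⟩ := exists_ne hω (D := D) (E := E) h0 s
    have hza : ω z D.a = 0 := (D.mem_H.1 hz).2
    have h1 := rn_add h0' hza hzc
    by_cases h2 : rn D E true z = 0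
    · refine ⟨false, rn D E false z, hst s false z hz hzc, rn_mem hω _ _, fun h3 => hz0 ?_⟩
      rw [h1, h2, h3, add_zero]
    · exact ⟨true, rn D E true z, hst s true z hz hzc, rn_mem hω _ _, h2⟩
  have hI2 : ∀ t, ∃ s, ∃ z ∈ D.H s, z ∈ E.H t ∧ z ≠ 0 := by
    intro t
    obtain ⟨z, hz, hza, hz0⟩ := exists_ne hω (D := E) (E := D) h0' t
    have hzc : ω z E.a = 0 := (E.mem_H.1 hz).2
    have h1 := rn_add (D := E) (E := D) h0 hzc hza
    have hlin : rn D E t z = rn D E t (rn E D true z) + rn D E t (rn E D false z) := by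
      nth_rewrite 1 [h1]
      simp only [rn, map_add, LinearMap.add_apply, add_div, add_smul]
      abel
    rw [rn_fix hω h0' hz hza] at hlin
    have haa : ω D.a D.a = 0 := hω.alt _
    by_cases h2 : rn D E t (rn E D true z) = 0
    · refine ⟨false, rn D E t (rn E D false z), hst _ t _ (rn_mem hω _ _) (rn_a h0 _ _),
        rn_mem hω _ _, fun h3 => hz0 ?_⟩
      rw [hlin, h2, h3, add_zero]
    · exact ⟨true, rn D E t (rn E D true z), hst _ t _ (rn_mem hω _ _) (rn_a h0 _ _),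
        rn_mem hω _ _, h2⟩
  -- matching
  have hfin : ∀ s t, (∃ z ∈ D.H s, z ∈ E.H t ∧ z ≠ 0) →
      (∃ z ∈ D.H (!s), z ∈ E.H (!t) ∧ z ≠ 0) → Concl D E := by
    rintro s t ⟨z, hz, hz', hz0⟩ ⟨w, hw, hw', hw0⟩
    exact caseGamma2 hω h0 hz hz' hz0 hw hw' hw0
  by_cases h11 : ∃ z ∈ D.H true, z ∈ E.H true ∧ z ≠ 0
  · by_cases h00 : ∃ z ∈ D.H false, z ∈ E.H false ∧ z ≠ 0
    · exact hfin true true h11 h00
    · obtain ⟨t, ht⟩ := hI1 false
      obtain ⟨s, hs⟩ := hI2 false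
      cases t
      · exact absurd ht h00
      · cases s
        · exact absurd hs h00
        · exact hfin true false hs ht
  · obtain ⟨t, ht⟩ := hI1 true
    obtain ⟨s, hs⟩ := hI2 true
    cases t
    · cases s
      · exact hfin true false ht hs
      · exact absurd hs h11
    · exact absurd ht h11

/-- **linear algebra of pairs of bounding pair maps** -/
theorem concl {D E : Dat ω} (hlin : ∀ l : ℚ, E.a ≠ l • D.a) (hlin' : ∀ l : ℚ, D.a ≠ l • E.a)
    (hsep : ¬ ∃ s t, E.a ∈ D.H (!s) ∧ D.a ∈ E.H (!t) ∧ IsNilpotent (D.p s * E.p t)) :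
    Concl D E := by
  by_cases h0 : ω D.a E.a = 0
  swap
  · exact caseGamma hω h0
  have h0' : ω E.a D.a = 0 := by rw [hω.anti, h0, neg_zero]
  by_cases hc : ∀ s, E.a ∉ D.H s
  · by_cases ha : ∀ t, D.a ∉ E.H t
    · exact caseBeta hω h0 hc ha
    · push Not at ha
      obtain ⟨t, ht⟩ := ha
      exact caseAlpha hω hlin' h0 hc (t := !t) (by rwa [Bool.not_not])
  · push Not at hc
    obtain ⟨s, hs⟩ := hc
    by_cases ha : ∀ t, D.a ∉ E.H t
    · exact (caseAlpha hω (D := E) (E := D) hlin h0' ha (t := !s) (by rwa [Bool.not_not])).symm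
        hω
    · push Not at ha
      obtain ⟨t, ht⟩ := ha
      have hs' : E.a ∈ D.H (!(!s)) := by rwa [Bool.not_not]
      have ht' : D.a ∈ E.H (!(!t)) := by rwa [Bool.not_not]
      exact caseII hω hlin hlin' h0 hs' ht' fun hn => hsep ⟨!s, !t, hs', ht', hn⟩

end Dat

end TG
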