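import Pool.Agent.H40.TG.Defs
import Pool.Agent.H40.TG.LinAlg

/-!
# Homology classes and the intersection form
-/

open scoped commutatorElement

namespace TG

variable {g : ℕ}

/-- the algebraic intersection form, as a bilinear map -/
def om : Hq g →ₗ[ℚ] Hq g →ₗ[ℚ] ℚ :=
  LinearMap.mk₂ ℚ inter
    (fun u u' v => by
      unfold inter
      rw [← Finset.sum_add_distrib]
      exact Finset.sum_congr rfl fun i _ => by simp; ring)
    (fun c u v => by
      unfold inter
      rw [smul_eq_mul, Finset.mul_sum]
      exact Finset.sum_congr rfl fun i _ => by simp; ring)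
    (fun u v v' => by
      unfold inter
      rw [← Finset.sum_add_distrib]
      exact Finset.sum_congr rfl fun i _ => by simp; ring)
    (fun c u v => by
      unfold inter
      rw [smul_eq_mul, Finset.mul_sum]
      exact Finset.sum_congr rfl fun i _ => by simp; ring)

theorem om_eq_inter (u v : Hq g) : om u v = inter u v := rfl

theorem om_apply (u v : Hq g) : om u v = ∑ i, (u.1 i * v.2 i - u.2 i * v.1 i) := rfl

theorem cls_one : cls (1 : Surf g) = 0 := by
  unfold cls; rw [map_one]; rfl

theorem cls_mul (x y : Surf g) : cls (x * y) = cls x + cls y := by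
  unfold cls; rw [map_mul]; rfl

theorem cls_inv (x : Surf g) : cls x⁻¹ = -cls x := by
  unfold cls; rw [map_inv]; rfl

/-- the class of `α_i` -/
def ea (i : Fin g) : Hq g := (Pi.single i 1, 0)

/-- the class of `β_i` -/
def eb (i : Fin g) : Hq g := (0, Pi.single i 1)

theorem cls_al (i : Fin g) : cls (al i) = ea i :=
  congrArg Multiplicative.toAdd
    (PresentedGroup.toGroup.of (rels := {relator g}) (f := genCls g) (lift_genCls_relator g)
      (x := Sum.inl i))

theorem cls_be (i : Fin g) : cls (be i) = eb i :=
  congrArg Multiplicative.toAdd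
    (PresentedGroup.toGroup.of (rels := {relator g}) (f := genCls g) (lift_genCls_relator g)
      (x := Sum.inr i))

theorem om_ea (z : Hq g) (i : Fin g) : om z (ea i) = -z.2 i := by
  rw [om_apply, Finset.sum_eq_single i]
  · simp [ea]
  · intro j _ hj
    simp [ea, hj]
  · intro h; exact absurd (Finset.mem_univ i) h

theorem om_eb (z : Hq g) (i : Fin g) : om z (eb i) = z.1 i := by
  rw [om_apply, Finset.sum_eq_single i]
  · simp [eb]
  · intro j _ hj
    simp [eb, hj]
  · intro h; exact absurd (Finset.mem_univ i) h

theorem om_symp : Symp (om : Hq g →ₗ[ℚ] Hq g →ₗ[ℚ] ℚ) where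
  alt x := by
    rw [om_apply]
    exact Finset.sum_eq_zero fun i _ => by ring
  nondeg x h := by
    apply Prod.ext
    · funext i
      rw [← om_eb, h]; rfl
    · funext i
      have := om_ea x i
      rw [h] at this
      simp only [Prod.snd_zero, Pi.zero_apply]
      linarith

theorem om_pair (ξ η : Hq g) :
    ∑ i, (om ξ (ea i) * om η (eb i) - om ξ (eb i) * om η (ea i)) = om ξ η := by
  rw [om_apply]
  exact Finset.sum_congr rfl fun i _ => by rw [om_ea, om_eb, om_eb, om_ea]; ring

theorem hq_decomp (z : Hq g) : z = ∑ i, (z.1 i • ea i + z.2 i • eb i) := by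
  have h := Finset.sum_add_distrib (s := Finset.univ) (f := fun i => z.1 i • (ea i : Hq g))
    (g := fun i => z.2 i • eb i)
  rw [h]
  apply Prod.ext
  · rw [Prod.fst_add, Prod.fst_sum, Prod.fst_sum]
    funext j
    rw [Pi.add_apply, Finset.sum_apply, Finset.sum_apply]
    simp [ea, eb, Pi.single_apply]
  · rw [Prod.snd_add, Prod.snd_sum, Prod.snd_sum]
    funext j
    rw [Pi.add_apply, Finset.sum_apply, Finset.sum_apply]
    simp [ea, eb, Pi.single_apply]

end TG
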