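import Pool.Agent.H40.TG.Center
import Pool.Agent.H40.TG.Cls

/-!
# Unipotent representations of surface groups

Chain representations of the surface group with prescribed entries of degree one, obtained by
solving `∏ [e_i, f_i] = 1` degree by degree.
-/

open scoped commutatorElement

namespace TG

/-- matrices with the index set of the chains -/
abbrev Mt (n : ℕ) := Matrix (Fin (n + 3)) (Fin (n + 3)) ℚ

variable {n : ℕ}

theorem Deg.of_sub_one {M : Mt n} (h : Deg 1 (M - 1)) : Deg 0 M := by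
  have h1 := (h.mono (Nat.zero_le 1)).add Deg.one
  rwa [sub_add_cancel] at h1

/-- the unipotent group -/
def Un (n : ℕ) : Subgroup (Mt n)ˣ where
  carrier := {u | Deg 1 ((u : Mt n) - 1) ∧ Deg 1 (((u⁻¹ : (Mt n)ˣ) : Mt n) - 1)}
  mul_mem' := by
    rintro u w ⟨hu, hu'⟩ ⟨hw, hw'⟩
    have key : ∀ A B : Mt n, Deg 1 (A - 1) → Deg 1 (B - 1) → Deg 1 (A * B - 1) := by
      intro A B hA hB
      have h1 : A * B - 1 = (A - 1) + A * (B - 1) := by noncomm_ring
      rw [h1]
      refine hA.add ?_
      have := hA.of_sub_one.mul hB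
      rwa [zero_add] at this
    refine ⟨?_, ?_⟩
    · rw [Units.val_mul]; exact key _ _ hu hw
    · rw [mul_inv_rev, Units.val_mul]; exact key _ _ hw' hu'
  one_mem' := by
    constructor
    · rw [Units.val_one, sub_self]; exact Deg.zero
    · rw [inv_one, Units.val_one, sub_self]; exact Deg.zero
  inv_mem' := by
    rintro u ⟨hu, hu'⟩
    exact ⟨hu', by rw [inv_inv]; exact hu⟩

/-- the matrix of an element of the unipotent group -/
def mt : Un n →* Mt n := (Units.coeHom (Mt n)).comp (Un n).subtype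

theorem mt_deg (u : Un n) : Deg 1 (mt u - 1) := u.2.1

theorem mt_deg0 (u : Un n) : Deg 0 (mt u) := (mt_deg u).of_sub_one

theorem mt_mul_inv (u : Un n) : mt u * mt u⁻¹ = 1 := by
  rw [← map_mul, mul_inv_cancel, map_one]

theorem Deg.pow {M : Mt n} (h : Deg 1 M) (k : ℕ) : Deg k (M ^ k) := by
  induction k with
  | zero => rw [pow_zero]; exact Deg.one
  | succ k ih => rw [pow_succ]; exact ih.mul h

theorem Deg.sum {ι : Type*} (s : Finset ι) {k : ℕ} {M : ι → Mt n} (h : ∀ i ∈ s, Deg k (M i)) :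
    Deg k (∑ i ∈ s, M i) :=
  Finset.sum_induction M (Deg k) (fun _ _ ha hb => ha.add hb) Deg.zero h

/-- units with given nilpotent part -/
theorem exists_un {ν : Mt n} (hν : Deg 1 ν) : ∃ u : Un n, mt u = 1 + ν := by
  set σ : Mt n := ∑ k ∈ Finset.range (n + 2), (-ν) ^ k with hσ
  have hz : (-ν) ^ (n + 2) = 0 := (hν.neg.pow (n + 2)).eq_zero le_rfl
  have h1 : (1 + ν) * σ = 1 := by
    have := mul_neg_geom_sum (-ν) (n + 2)
    rwa [hz, sub_zero, sub_neg_eq_add] at this
  have h2 : σ * (1 + ν) = 1 := by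
    have := geom_sum_mul_neg (-ν) (n + 2)
    rwa [hz, sub_zero, sub_neg_eq_add] at this
  have h3 : Deg 0 σ := Deg.sum _ fun k _ => (hν.neg.pow k).mono (Nat.zero_le _)
  have h4 : Deg 1 (σ - 1) := by
    have h5 : σ - 1 = -(ν * σ) := by
      have : σ + ν * σ = 1 := by rw [← h1]; noncomm_ring
      rw [← this]; abel
    rw [h5]
    exact (hν.mul h3).neg
  refine ⟨⟨⟨1 + ν, σ, h1, h2⟩, ?_, ?_⟩, rfl⟩
  · change Deg 1 (1 + ν - 1)
    rw [add_sub_cancel_left]; exact hν
  · exact h4

theorem comm_key (u w : Un n) : mt ⁅u, w⁆ * (mt w * mt u) = mt u * mt w := by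
  rw [← map_mul, ← map_mul, ← map_mul]
  congr 1
  rw [commutatorElement_def]
  group

/-- cancelling a unipotent matrix -/
theorem deg_cancel {a : ℕ} {M N : Mt n} (u : Un n) (h : Deg (a + 1) (M * mt u - N))
    (hN : Deg a N) : Deg (a + 1) (M - N) := by
  have h1 : M - N = (M * mt u - N) * mt u⁻¹ + N * (mt u⁻¹ - 1) := by
    rw [sub_mul, mul_assoc, mt_mul_inv, mul_one, mul_sub, mul_one]
    abel
  rw [h1]
  have h2 := h.mul (mt_deg0 u⁻¹)
  rw [add_zero] at h2
  exact h2.add (hN.mul (mt_deg u⁻¹))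

theorem comm1 (u w : Un n) : Deg 3 (mt ⁅u, w⁆ - 1 -
    ((mt u - 1) * (mt w - 1) - (mt w - 1) * (mt u - 1))) := by
  have hc : Deg 2 ((mt u - 1) * (mt w - 1) - (mt w - 1) * (mt u - 1)) :=
    ((mt_deg u).mul (mt_deg w)).sub ((mt_deg w).mul (mt_deg u))
  refine deg_cancel (a := 2) (w * u) ?_ hc
  have h1 : (mt ⁅u, w⁆ - 1) * mt (w * u) -
      ((mt u - 1) * (mt w - 1) - (mt w - 1) * (mt u - 1)) = 0 := by
    rw [sub_mul, map_mul, comm_key, one_mul]
    noncomm_ring
  rw [h1]
  exact Deg.zero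

theorem comm2 (u w : Un n) : Deg 2 (mt ⁅u, w⁆ - 1) := by
  have hc : Deg 2 ((mt u - 1) * (mt w - 1) - (mt w - 1) * (mt u - 1)) :=
    ((mt_deg u).mul (mt_deg w)).sub ((mt_deg w).mul (mt_deg u))
  have := ((comm1 u w).mono (by norm_num : 2 ≤ 3)).add hc
  rwa [sub_add_cancel] at this

theorem comm_mod {j : ℕ} (hj : 2 ≤ j) {u w u' w' : Un n} {μ ν : Mt n} (hμ : Deg j μ)
    (hν : Deg j ν) (hu : mt u' = mt u * (1 + μ)) (hw : mt w' = mt w * (1 + ν)) :
    Deg (j + 2) (mt ⁅u', w'⁆ - mt ⁅u, w⁆ -
      (((mt u - 1) * ν - ν * (mt u - 1)) + (μ * (mt w - 1) - (mt w - 1) * μ))) := by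
  set E := mt u - 1 with hE
  set F := mt w - 1 with hF
  set C := mt ⁅u, w⁆ with hC
  have hE1 : Deg 1 E := mt_deg u
  have hF1 : Deg 1 F := mt_deg w
  have hEμ : Deg (j + 1) (E * ν - ν * E + (μ * F - F * μ)) := by
    have h1 := hE1.mul hν
    have h2 := hν.mul hE1
    have h3 := hμ.mul hF1
    have h4 := hF1.mul hμ
    rw [add_comm 1 j] at h1 h4
    exact (h1.sub h2).add (h3.sub h4)
  have hU : mt u = 1 + E := by rw [hE]; abel
  have hW : mt w = 1 + F := by rw [hF]; abel
  refine deg_cancel (a := j + 1) (w' * u') ?_ hEμ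
  have h0 : C * (mt w * mt u) = mt u * mt w := comm_key u w
  have h1 : (mt ⁅u', w'⁆ - C) * mt (w' * u') = mt u' * mt w' - C * (mt w' * mt u') := by
    rw [sub_mul, map_mul, comm_key]
  rw [h1, hu, hw]
  have h2 : mt u * (1 + μ) * (mt w * (1 + ν)) - C * (mt w * (1 + ν) * (mt u * (1 + μ))) -
      (E * ν - ν * E + (μ * F - F * μ)) =
      E * μ * F + E * (F * ν) + mt u * μ * (mt w * ν) - F * ν * E - F * (E * μ)
        - mt w * ν * (mt u * μ) -
        (C - 1) * (mt w * ν * mt u + mt w * mt u * μ + mt w * ν * (mt u * μ)) := by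
    have h3 : C * (mt w * (1 + ν) * (mt u * (1 + μ))) = mt u * mt w +
        C * (mt w * ν * mt u + mt w * mt u * μ + mt w * ν * (mt u * μ)) := by
      rw [← h0]; noncomm_ring
    rw [h3, hU, hW]
    noncomm_ring
  rw [h2]
  have hC2 : Deg 2 (C - 1) := comm2 u w
  have hu0 := mt_deg0 u
  have hw0 := mt_deg0 w
  have t1 : Deg (j + 2) (E * μ * F) := ((hE1.mul hμ).mul hF1).mono (by omega)
  have t2 : Deg (j + 2) (E * (F * ν)) := (hE1.mul (hF1.mul hν)).mono (by omega)
  have t3 : Deg (j + 2) (mt u * μ * (mt w * ν)) :=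
    ((hu0.mul hμ).mul (hw0.mul hν)).mono (by omega)
  have t4 : Deg (j + 2) (F * ν * E) := ((hF1.mul hν).mul hE1).mono (by omega)
  have t5 : Deg (j + 2) (F * (E * μ)) := (hF1.mul (hE1.mul hμ)).mono (by omega)
  have t6 : Deg (j + 2) (mt w * ν * (mt u * μ)) :=
    ((hw0.mul hν).mul (hu0.mul hμ)).mono (by omega)
  have s1 : Deg j (mt w * ν * mt u) := ((hw0.mul hν).mul hu0).mono (by omega)
  have s2 : Deg j (mt w * mt u * μ) := ((hw0.mul hu0).mul hμ).mono (by omega)
  have s3 : Deg j (mt w * ν * (mt u * μ)) := t6.mono (by omega)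
  have t7 : Deg (j + 2) ((C - 1) * (mt w * ν * mt u + mt w * mt u * μ +
      mt w * ν * (mt u * μ))) := (hC2.mul ((s1.add s2).add s3)).mono (by omega)
  exact (((((t1.add t2).add t3).sub t4).sub t5).sub t6).sub t7

theorem prod_mod {ι : Type*} {X C c : ι → Mt n} {k : ℕ} (h : ∀ i, Deg (k + 1) (X i - C i - c i))
    (hX : ∀ i, Deg 1 (X i - 1)) (hC : ∀ i, Deg 1 (C i - 1)) (hc : ∀ i, Deg k (c i))
    (l : List ι) :
    Deg (k + 1) ((l.map X).prod - (l.map C).prod - (l.map c).sum) ∧
      Deg 1 ((l.map X).prod - 1) ∧ Deg k (l.map c).sum := by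
  induction l with
  | nil =>
    refine ⟨?_, ?_, ?_⟩
    · simp only [List.map_nil, List.prod_nil, List.sum_nil, sub_self]; exact Deg.zero
    · simp only [List.map_nil, List.prod_nil, sub_self]; exact Deg.zero
    · simp only [List.map_nil, List.sum_nil]; exact Deg.zero
  | cons i l ih =>
    obtain ⟨h1, h2, h3⟩ := ih
    simp only [List.map_cons, List.prod_cons, List.sum_cons]
    set PX := (l.map X).prod
    set PC := (l.map C).prod
    set Sc := (l.map c).sum
    refine ⟨?_, ?_, (hc i).add h3⟩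
    · have e1 : X i * PX - C i * PC - (c i + Sc) = (X i - C i - c i) * PX + c i * (PX - 1) +
          C i * (PX - PC - Sc) + (C i - 1) * Sc := by noncomm_ring
      rw [e1]
      have t1 := (h i).mul h2.of_sub_one
      have t2 := (hc i).mul h2
      have t3 := (hC i).of_sub_one.mul h1
      have t4 := (hC i).mul h3
      rw [add_zero] at t1
      rw [zero_add] at t3
      rw [add_comm 1 k] at t4
      exact ((t1.add t2).add t3).add t4
    · have e1 : X i * PX - 1 = (X i - 1) * PX + (PX - 1) := by noncomm_ring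
      rw [e1]
      have t1 := (hX i).mul h2.of_sub_one
      rw [add_zero] at t1
      exact t1.add h2

variable {g : ℕ}

theorem mt_cprod (e f : Fin g → Un n) :
    mt (cprod e f) = ((List.finRange g).map fun i => mt ⁅e i, f i⁆).prod := by
  unfold cprod
  rw [map_list_prod, List.map_ofFn, List.ofFn_eq_map]
  rfl

/-! ### Solving for one degree -/

/-- the predecessor of an index -/
def pd (q : Fin (n + 3)) : Fin (n + 3) := ⟨min (q - 1) n, by omega⟩

/-- indices from natural numbers -/
def cl (n p : ℕ) : Fin (n + 3) := ⟨min p (n + 2), by omega⟩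

theorem dep_pd (q : Fin (n + 3)) : dep (pd q) = dep q - 1 := by
  have := q.isLt
  simp only [dep, pd]
  omega

theorem dep_cl (p : ℕ) : dep (cl n p) = min p (n + 1) := by
  simp only [dep, cl]
  omega

/-- the solution, row by row -/
def sol (r v : Mt n) : ℕ → Fin (n + 3) → ℚ
  | 0, _ => 0
  | p + 1, q => -r (cl n p) q + sol r v p (pd q) * v (pd q) q

theorem sol_zero {k : ℕ} (hk : 1 ≤ k) {r v : Mt n} (hr : Deg (k + 1) r) :
    ∀ (p : ℕ) (q : Fin (n + 3)), dep q < p + k → sol r v p q = 0 := by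
  intro p
  induction p with
  | zero => intro q _; rfl
  | succ p ih =>
    intro q hq
    have hq' := dep_le q
    rw [sol, hr _ _ (by rw [dep_cl]; omega), ih (pd q) (by rw [dep_pd]; omega)]
    ring

theorem sol_deg {k : ℕ} (hk : 1 ≤ k) {r v : Mt n} (hr : Deg (k + 1) r) :
    Deg k (Matrix.of fun i j => sol r v i.val j) := by
  intro i j hij
  have : dep i ≤ i.val := by simp [dep]
  exact sol_zero hk hr i.val j (by omega)

theorem sol_eq {k : ℕ} (hk : 1 ≤ k) {r v : Mt n} (hr : Deg (k + 1) r) (hv : Deg 1 v)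
    (hv1 : ∀ (p : ℕ) (hp : p < n), v ⟨p, by omega⟩ ⟨p + 1, by omega⟩ = 1) :
    Deg (k + 2) (v * (Matrix.of fun i j => sol r v i.val j) -
      (Matrix.of fun i j => sol r v i.val j) * v + r) := by
  set δ : Mt n := Matrix.of fun i j => sol r v i.val j with hδdef
  have hδ : Deg k δ := sol_deg hk hr
  intro p q hpq
  by_cases h1 : dep q < dep p + (k + 1)
  · have t1 := hv.mul hδ
    have t2 := hδ.mul hv
    rw [add_comm 1 k] at t1
    exact ((t1.sub t2).add hr) p q h1
  · have h2 : dep q = dep p + k + 1 := by omega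
    have hq := dep_le q
    have hp : p = ⟨dep p, by omega⟩ := eq_of_dep (by omega) rfl
    have e1 := hv.mul_entry hδ (p := p) (q := q) (j0 := ⟨dep p + 1, by omega⟩) (by omega)
      (fun j hj => eq_of_dep (by omega) hj)
    have e2 := hδ.mul_entry hv (p := p) (q := q) (j0 := pd q) (by omega)
      (fun j hj => by
        have h3 : dep (pd q) = dep j := by rw [dep_pd]; omega
        rw [eq_of_dep (i := j) (p := dep j) (by omega) rfl,
          eq_of_dep (i := pd q) (p := dep j) (by omega) h3])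
    rw [Matrix.add_apply, Matrix.sub_apply, e1, e2]
    have e3 : v p ⟨dep p + 1, by omega⟩ = 1 := by
      have := hv1 (dep p) (by omega)
      rw [← hp] at this
      exact this
    have e4 : δ ⟨dep p + 1, by omega⟩ q = -r p q + δ p (pd q) * v (pd q) q := by
      have e5 : cl n (dep p) = p := by
        rw [hp]
        apply Fin.ext
        simp only [cl, dep]
        omega
      have e6 : p.val = dep p := by
        have := congrArg Fin.val hp
        exact this
      change sol r v (dep p + 1) q = _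
      rw [sol, e5, hδdef, Matrix.of_apply, e6]
    rw [e3, e4]
    ring

/-! ### The iteration -/

theorem bracket_identity (E F D : Mt n) (a b : ℚ) :
    (E * (a • D) - (a • D) * E) + ((-(b • D)) * F - F * (-(b • D))) =
      (a • E + b • F) * D - D * (a • E + b • F) := by
  simp only [mul_smul_comm, smul_mul_assoc, neg_mul, mul_neg, add_mul, mul_add]
  abel

theorem solve_step {k : ℕ} (hk : 2 ≤ k) (x y : Fin g → ℚ) (e f : Fin g → Un n)
    (hv : ∀ (p : ℕ) (hp : p < n), (∑ i, (x i • (mt (e i) - 1) + y i • (mt (f i) - 1)) : Mt n)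
      ⟨p, by omega⟩ ⟨p + 1, by omega⟩ = 1)
    (h : Deg (k + 1) (mt (cprod e f) - 1)) :
    ∃ e' f' : Fin g → Un n, (∀ i, Deg k (mt (e' i) - mt (e i))) ∧
      (∀ i, Deg k (mt (f' i) - mt (f i))) ∧ Deg (k + 2) (mt (cprod e' f') - 1) := by
  set v : Mt n := ∑ i, (x i • (mt (e i) - 1) + y i • (mt (f i) - 1)) with hvdef
  have hv1 : Deg 1 v := Deg.sum _ fun i _ => ((mt_deg _).smul _).add ((mt_deg _).smul _)
  set r : Mt n := mt (cprod e f) - 1 with hr
  set δ : Mt n := Matrix.of fun i j => sol r v i.val j with hδdef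
  have hδ : Deg k δ := sol_deg (by omega) h
  have hsol : Deg (k + 2) (v * δ - δ * v + r) := sol_eq (by omega) h hv1 hv
  have hμ : ∀ i, Deg k (-(y i • δ)) := fun i => (hδ.smul _).neg
  have hν : ∀ i, Deg k (x i • δ) := fun i => hδ.smul _
  choose u hu using fun i => exists_un ((hμ i).mono (by omega : 1 ≤ k))
  choose w hw using fun i => exists_un ((hν i).mono (by omega : 1 ≤ k))
  have hu' : ∀ i, mt (e i * u i) = mt (e i) * (1 + -(y i • δ)) := fun i => by
    rw [map_mul, hu]
  have hw' : ∀ i, mt (f i * w i) = mt (f i) * (1 + x i • δ) := fun i => by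
    rw [map_mul, hw]
  refine ⟨fun i => e i * u i, fun i => f i * w i, ?_, ?_, ?_⟩
  · intro i
    rw [hu', mul_add, mul_one, add_sub_cancel_left]
    have := (mt_deg0 (e i)).mul (hμ i)
    rwa [zero_add] at this
  · intro i
    rw [hw', mul_add, mul_one, add_sub_cancel_left]
    have := (mt_deg0 (f i)).mul (hν i)
    rwa [zero_add] at this
  · set c : Fin g → Mt n := fun i =>
      (((mt (e i) - 1) * (x i • δ) - (x i • δ) * (mt (e i) - 1)) +
        ((-(y i • δ)) * (mt (f i) - 1) - (mt (f i) - 1) * (-(y i • δ)))) with hc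
    have hcdeg : ∀ i, Deg (k + 1) (c i) := by
      intro i
      have t1 := (mt_deg (e i)).mul (hν i)
      have t2 := (hν i).mul (mt_deg (e i))
      have t3 := (hμ i).mul (mt_deg (f i))
      have t4 := (mt_deg (f i)).mul (hμ i)
      rw [add_comm 1 k] at t1 t4
      exact (t1.sub t2).add (t3.sub t4)
    have h1 := prod_mod (X := fun i => mt ⁅e i * u i, f i * w i⁆)
      (C := fun i => mt ⁅e i, f i⁆) (c := c) (k := k + 1)
      (fun i => comm_mod hk (hμ i) (hν i) (hu' i) (hw' i))
      (fun i => (comm2 _ _).mono (by norm_num)) (fun i => (comm2 _ _).mono (by norm_num))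
      hcdeg (List.finRange g)
    have h2 : ((List.finRange g).map c).sum = v * δ - δ * v := by
      rw [← Fin.sum_univ_def, hvdef, Finset.sum_mul, Finset.mul_sum, ← Finset.sum_sub_distrib]
      refine Finset.sum_congr rfl fun i _ => ?_
      exact bracket_identity _ _ _ _ _
    rw [← mt_cprod (fun i => e i * u i) (fun i => f i * w i), ← mt_cprod e f, h2] at h1
    have h3 : mt (cprod (fun i => e i * u i) fun i => f i * w i) - 1 =
        (mt (cprod (fun i => e i * u i) fun i => f i * w i) - mt (cprod e f) -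
          (v * δ - δ * v)) + (v * δ - δ * v + r) := by
      rw [hr]; abel
    rw [h3]
    exact h1.1.add hsol

theorem solve (x y : Fin g → ℚ) : ∀ (m k : ℕ), 2 ≤ k → n + 2 ≤ k + 1 + m →
    ∀ e f : Fin g → Un n,
    (∀ (p : ℕ) (hp : p < n), (∑ i, (x i • (mt (e i) - 1) + y i • (mt (f i) - 1)) : Mt n)
      ⟨p, by omega⟩ ⟨p + 1, by omega⟩ = 1) →
    Deg (k + 1) (mt (cprod e f) - 1) →
    ∃ e' f' : Fin g → Un n, (∀ i, Deg 2 (mt (e' i) - mt (e i))) ∧
      (∀ i, Deg 2 (mt (f' i) - mt (f i))) ∧ cprod e' f' = 1 := by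
  intro m
  induction m with
  | zero =>
    intro k _ hkn e f _ h
    refine ⟨e, f, fun i => ?_, fun i => ?_, ?_⟩
    · rw [sub_self]; exact Deg.zero
    · rw [sub_self]; exact Deg.zero
    · have h1 := sub_eq_zero.1 (h.eq_zero hkn)
      exact Subtype.ext (Units.ext h1)
  | succ m ih =>
    intro k hk hkn e f hv h
    obtain ⟨e', f', he, hf, h1⟩ := solve_step hk x y e f hv h
    have hv' : ∀ (p : ℕ) (hp : p < n),
        (∑ i, (x i • (mt (e' i) - 1) + y i • (mt (f' i) - 1)) : Mt n)
          ⟨p, by omega⟩ ⟨p + 1, by omega⟩ = 1 := by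
      intro p hp
      have h2 : Deg 2 ((∑ i, (x i • (mt (e' i) - 1) + y i • (mt (f' i) - 1)) : Mt n) -
          ∑ i, (x i • (mt (e i) - 1) + y i • (mt (f i) - 1))) := by
        rw [← Finset.sum_sub_distrib]
        refine Deg.sum _ fun i _ => ?_
        have h3 : x i • (mt (e' i) - 1) + y i • (mt (f' i) - 1) -
            (x i • (mt (e i) - 1) + y i • (mt (f i) - 1)) =
            x i • (mt (e' i) - mt (e i)) + y i • (mt (f' i) - mt (f i)) := by
          simp only [smul_sub]; abel
        rw [h3]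
        exact (((he i).mono hk).smul _).add (((hf i).mono hk).smul _)
      have h4 := h2 ⟨p, by omega⟩ ⟨p + 1, by omega⟩ (by
        rw [dep_mk (by omega), dep_mk (by omega)]; omega)
      rw [Matrix.sub_apply, hv p hp, sub_eq_zero] at h4
      exact h4
    obtain ⟨e'', f'', he', hf', h5⟩ := ih (k + 1) (by omega) (by omega) e' f' hv' h1
    refine ⟨e'', f'', fun i => ?_, fun i => ?_, h5⟩
    · have := (he' i).add ((he i).mono hk)
      rwa [sub_add_sub_cancel] at this
    · have := (hf' i).add ((hf i).mono hk)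
      rwa [sub_add_sub_cancel] at this

/-! ### Chain representations -/

/-- the matrix with prescribed entries of degree one -/
def sup (l : ℕ → ℚ) (Y e : ℚ) : Mt n := Matrix.of fun i j =>
  if i.val < n ∧ j.val = i.val + 1 then l i.val
  else if i.val = n ∧ j.val = n + 1 then Y
  else if i.val = n ∧ j.val = n + 2 then e else 0

theorem sup_deg (l : ℕ → ℚ) (Y e : ℚ) : Deg 1 (sup l Y e : Mt n) := by
  intro i j hij
  simp only [dep] at hij
  simp only [sup, Matrix.of_apply]
  rw [if_neg (by omega), if_neg (by omega), if_neg (by omega)]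

/-- the degree one matrix of a homology class -/
def supM (n : ℕ) (ξ : ℕ → Hq g) (y ε z : Hq g) : Mt n :=
  sup (fun p => om (ξ p) z) (om y z) (om ε z)

/-- entries of degree one of `supM` -/
theorem supM_entry (ξ : ℕ → Hq g) (y ε : Hq g) (p q : Fin (n + 3)) :
    ∃ η : Hq g, ∀ z, supM n ξ y ε z p q = om η z := by
  unfold supM sup
  simp only [Matrix.of_apply]
  by_cases h1 : p.val < n ∧ q.val = p.val + 1
  · exact ⟨ξ p.val, fun z => by rw [if_pos h1]⟩
  · by_cases h2 : p.val = n ∧ q.val = n + 1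
    · exact ⟨y, fun z => by rw [if_neg h1, if_pos h2]⟩
    · by_cases h3 : p.val = n ∧ q.val = n + 2
      · exact ⟨ε, fun z => by rw [if_neg h1, if_neg h2, if_pos h3]⟩
      · exact ⟨0, fun z => by rw [if_neg h1, if_neg h2, if_neg h3, map_zero]; rfl⟩

theorem supM_pair {ξ : ℕ → Hq g} {y ε : Hq g} (h1 : ∀ p, p + 1 < n → om (ξ p) (ξ (p + 1)) = 0)
    (h2 : ∀ p, p + 1 = n → om (ξ p) y = 0) (h3 : ∀ p, p + 1 = n → om (ξ p) ε = 0)
    (p : ℕ) (q : Fin (n + 3)) (hq : dep q = p + 2) :
    ∃ η η' : Hq g, om η η' = 0 ∧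
      (∀ z, supM n ξ y ε z ⟨p, by have := dep_le q; omega⟩ ⟨p + 1, by
        have := dep_le q; omega⟩ = om η z) ∧
      ∀ z, supM n ξ y ε z ⟨p + 1, by have := dep_le q; omega⟩ q = om η' z := by
  have hq1 := dep_le q
  have hq2 := q.isLt
  unfold supM sup
  simp only [Matrix.of_apply]
  simp only [dep] at hq
  by_cases h4 : p + 1 < n
  · exact ⟨ξ p, ξ (p + 1), h1 p h4, fun z => if_pos ⟨by omega, trivial⟩,
      fun z => if_pos ⟨h4, by omega⟩⟩
  · have h5 : p + 1 = n := by omega
    by_cases h6 : q.val = n + 1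
    · refine ⟨ξ p, y, h2 p h5, fun z => if_pos ⟨by omega, trivial⟩, fun z => ?_⟩
      rw [if_neg (by omega), if_pos ⟨h5, h6⟩]
    · refine ⟨ξ p, ε, h3 p h5, fun z => if_pos ⟨by omega, trivial⟩, fun z => ?_⟩
      rw [if_neg (by omega), if_neg (by omega), if_pos ⟨h5, by omega⟩]

/-- **existence of chain representations** -/
theorem exists_chainRep {ξ : ℕ → Hq g} {y ε z0 : Hq g}
    (h1 : ∀ p, p + 1 < n → om (ξ p) (ξ (p + 1)) = 0)
    (h2 : ∀ p, p + 1 = n → om (ξ p) y = 0) (h3 : ∀ p, p + 1 = n → om (ξ p) ε = 0)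
    (hz : ∀ p, p < n → om (ξ p) z0 = 1) :
    ∃ Ψ : Surf g →* Mt n, ChainRep n (fun p x => om (ξ p) (cls x)) (fun x => om y (cls x))
      (fun x => om ε (cls x)) Ψ := by
  choose e he using fun i => exists_un (sup_deg (n := n) (fun p => om (ξ p) (ea i))
    (om y (ea i)) (om ε (ea i)))
  choose f hf using fun i => exists_un (sup_deg (n := n) (fun p => om (ξ p) (eb i))
    (om y (eb i)) (om ε (eb i)))
  have he' : ∀ i, mt (e i) - 1 = supM n ξ y ε (ea i) := fun i => by
    rw [he, add_sub_cancel_left]; rfl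
  have hf' : ∀ i, mt (f i) - 1 = supM n ξ y ε (eb i) := fun i => by
    rw [hf, add_sub_cancel_left]; rfl
  -- the starting point
  have hstart : Deg 3 (mt (cprod e f) - 1) := by
    have hcdeg : ∀ i, Deg 2 ((mt (e i) - 1) * (mt (f i) - 1) - (mt (f i) - 1) * (mt (e i) - 1)) :=
      fun i => ((mt_deg _).mul (mt_deg _)).sub ((mt_deg _).mul (mt_deg _))
    have t1 := prod_mod (X := fun i => mt ⁅e i, f i⁆) (C := fun _ => 1)
      (c := fun i => (mt (e i) - 1) * (mt (f i) - 1) - (mt (f i) - 1) * (mt (e i) - 1)) (k := 2)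
      (fun i => comm1 _ _) (fun i => (comm2 _ _).mono (by norm_num))
      (fun i => by rw [sub_self]; exact Deg.zero) hcdeg (List.finRange g)
    have t2 : ((List.finRange g).map fun _ : Fin g => (1 : Mt n)).prod = 1 := by simp
    rw [t2, ← mt_cprod, ← Fin.sum_univ_def] at t1
    obtain ⟨t3, -, t4⟩ := t1
    have t5 : Deg 3 (∑ i, ((mt (e i) - 1) * (mt (f i) - 1) -
        (mt (f i) - 1) * (mt (e i) - 1))) := by
      intro p q hpq
      by_cases h4 : dep q < dep p + 2
      · exact t4 p q h4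
      · have h5 : dep q = dep p + 2 := by omega
        have hq := dep_le q
        have hp : p = ⟨dep p, by omega⟩ := eq_of_dep (by omega) rfl
        obtain ⟨η, η', hηη, hη, hη'⟩ := supM_pair h1 h2 h3 (dep p) q h5
        have key : ∀ M N : Mt n, Deg 1 M → Deg 1 N →
            (M * N) p q = M p ⟨dep p + 1, by omega⟩ * N ⟨dep p + 1, by omega⟩ q := by
          intro M N hM hN
          exact hM.mul_entry hN (by omega) (fun j hj => eq_of_dep (by omega) hj)
        rw [Matrix.sum_apply]
        rw [← hp] at hη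
        calc ∑ i, ((mt (e i) - 1) * (mt (f i) - 1) - (mt (f i) - 1) * (mt (e i) - 1)) p q
            = ∑ i, (om η (ea i) * om η' (eb i) - om η (eb i) * om η' (ea i)) := by
              refine Finset.sum_congr rfl fun i _ => ?_
              rw [Matrix.sub_apply, key _ _ (mt_deg _) (mt_deg _),
                key _ _ (mt_deg _) (mt_deg _), he', hf', hη, hη, hη', hη']
          _ = om η η' := om_pair η η'
          _ = 0 := hηη
    have t6 := t3.add t5
    rwa [sub_add_cancel] at t6
  have hv : ∀ (p : ℕ) (hp : p < n),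
      (∑ i, (z0.1 i • (mt (e i) - 1) + z0.2 i • (mt (f i) - 1)) : Mt n)
        ⟨p, by omega⟩ ⟨p + 1, by omega⟩ = 1 := by
    intro p hp
    have t1 : ∀ z, supM n ξ y ε z ⟨p, by omega⟩ ⟨p + 1, by omega⟩ = om (ξ p) z := by
      intro z
      unfold supM sup
      rw [Matrix.of_apply, if_pos ⟨hp, rfl⟩]
    rw [Matrix.sum_apply, ← hz p hp]
    nth_rewrite 3 [hq_decomp z0]
    rw [map_sum]
    refine Finset.sum_congr rfl fun i _ => ?_
    rw [Matrix.add_apply, Matrix.smul_apply, Matrix.smul_apply, he', hf', t1, t1, map_add,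
      map_smul, map_smul]
  obtain ⟨e', f', hee, hff, hprod⟩ := solve z0.1 z0.2 n 2 le_rfl (by omega) e f hv hstart
  set φ : Surf g →* Un n := surfLift e' f' hprod with hφ
  have hent : ∀ (p q : Fin (n + 3)), dep q = dep p + 1 → ∀ x : Surf g,
      (mt (φ x) - 1) p q = supM n ξ y ε (cls x) p q := by
    intro p q hpq
    obtain ⟨η, hη⟩ := supM_entry (n := n) ξ y ε p q
    let F1 : Surf g →* Multiplicative ℚ :=
      { toFun := fun x => Multiplicative.ofAdd ((mt (φ x) - 1) p q)
        map_one' := by rw [map_one, map_one, sub_self]; rfl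
        map_mul' := fun a b => by
          rw [← ofAdd_add]
          congr 1
          have t1 : mt (φ (a * b)) - 1 = (mt (φ a) - 1) + (mt (φ b) - 1) +
              (mt (φ a) - 1) * (mt (φ b) - 1) := by
            rw [map_mul, map_mul]; noncomm_ring
          rw [t1, Matrix.add_apply, Matrix.add_apply,
            ((mt_deg (φ a)).mul (mt_deg (φ b))) p q (by omega), add_zero] }
    let F2 : Surf g →* Multiplicative ℚ :=
      { toFun := fun x => Multiplicative.ofAdd (supM n ξ y ε (cls x) p q)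
        map_one' := by rw [hη, cls_one, map_zero]; rfl
        map_mul' := fun a b => by rw [← ofAdd_add, hη, hη, hη, cls_mul, map_add] }
    have hF : F1 = F2 := by
      apply surf_hom_ext
      · intro i
        change Multiplicative.ofAdd ((mt (φ (al i)) - 1) p q) =
          Multiplicative.ofAdd (supM n ξ y ε (cls (al i)) p q)
        congr 1
        rw [hφ, surfLift_al, cls_al, ← he']
        have := hee i p q (by omega)
        rw [Matrix.sub_apply, sub_eq_zero] at this
        rw [Matrix.sub_apply, Matrix.sub_apply, this]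
      · intro i
        change Multiplicative.ofAdd ((mt (φ (be i)) - 1) p q) =
          Multiplicative.ofAdd (supM n ξ y ε (cls (be i)) p q)
        congr 1
        rw [hφ, surfLift_be, cls_be, ← hf']
        have := hff i p q (by omega)
        rw [Matrix.sub_apply, sub_eq_zero] at this
        rw [Matrix.sub_apply, Matrix.sub_apply, this]
    intro x
    exact Multiplicative.ofAdd.injective (DFunLike.congr_fun hF x)
  refine ⟨mt.comp φ, fun x => mt_deg (φ x), ?_, ?_, ?_⟩
  · intro x p hp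
    have t1 := hent ⟨p, by omega⟩ ⟨p + 1, by omega⟩
      (by rw [dep_mk (by omega), dep_mk (by omega)]) x
    refine t1.trans ?_
    unfold supM sup
    rw [Matrix.of_apply, if_pos ⟨hp, rfl⟩]
  · intro x
    have t1 := hent ⟨n, by omega⟩ ⟨n + 1, by omega⟩
      (by rw [dep_mk (by omega), dep_mk (by omega)]) x
    refine t1.trans ?_
    unfold supM sup
    rw [Matrix.of_apply, if_neg (by simp), if_pos ⟨rfl, rfl⟩]
  · intro x
    have t1 := hent ⟨n, by omega⟩ ⟨n + 2, by omega⟩ (by simp [dep]) x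
    refine t1.trans ?_
    unfold supM sup
    rw [Matrix.of_apply, if_neg (by simp), if_neg (by simp), if_pos ⟨rfl, rfl⟩]

end TG
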