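import Pool.Agent.H40.TG.Magnus

/-!
# The group ring and symbols of functionals

An automorphism `F` of `G` acts on the rational group ring; `Symb vs λ κ` says that the functional
`λ` takes the value `κ v₁(x₁) ⋯ v_m(x_m)` on `(x₁ - 1) ⋯ (x_m - 1)`.
-/

namespace TG

namespace Aug

variable {G : Type*} [Group G]

/-- `x - 1` in the group ring -/
noncomputable def dl (x : G) : MonoidAlgebra ℚ G := MonoidAlgebra.of ℚ G x - 1

theorem of_eq (x : G) : MonoidAlgebra.of ℚ G x = 1 + dl x := by
  unfold dl; abel

theorem dl_mul (x y : G) : dl (x * y) = dl x + dl y + dl x * dl y := by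
  unfold dl
  rw [map_mul]
  noncomm_ring

theorem dl_one : dl (1 : G) = 0 := by
  unfold dl; rw [map_one, sub_self]

/-- the augmentation ideal, as a rational subspace -/
noncomputable def I (G : Type*) [Group G] : Submodule ℚ (MonoidAlgebra ℚ G) :=
  Submodule.span ℚ (Set.range dl)

theorem dl_mem (x : G) : dl x ∈ I G := Submodule.subset_span ⟨x, rfl⟩

/-- the algebra endomorphism of the group ring -/
noncomputable def hatAlg (F : MulAut G) : MonoidAlgebra ℚ G →ₐ[ℚ] MonoidAlgebra ℚ G :=
  MonoidAlgebra.lift ℚ (MonoidAlgebra ℚ G) G ((MonoidAlgebra.of ℚ G).comp F.toMonoidHom)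

theorem hatAlg_of (F : MulAut G) (x : G) :
    hatAlg F (MonoidAlgebra.of ℚ G x) = MonoidAlgebra.of ℚ G (F x) := by
  unfold hatAlg
  rw [MonoidAlgebra.lift_of]
  rfl

theorem hatAlg_dl (F : MulAut G) (x : G) : hatAlg F (dl x) = dl (F x) := by
  unfold dl
  rw [map_sub, hatAlg_of, map_one]

/-- the action of automorphisms on the group ring -/
noncomputable def hat : MulAut G →* Module.End ℚ (MonoidAlgebra ℚ G) where
  toFun F := (hatAlg F).toLinearMap
  map_one' := by
    apply LinearMap.ext
    intro y
    induction y using MonoidAlgebra.induction_on with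
    | of m => simp only [AlgHom.toLinearMap_apply, hatAlg_of]; rfl
    | add x y hx hy => rw [map_add, hx, hy, map_add]
    | smul r x hx => rw [map_smul, hx, map_smul]
  map_mul' F F' := by
    apply LinearMap.ext
    intro y
    induction y using MonoidAlgebra.induction_on with
    | of m => simp only [AlgHom.toLinearMap_apply, hatAlg_of, Module.End.mul_apply]; rfl
    | add x y hx hy => rw [map_add, hx, hy, map_add]
    | smul r x hx => rw [map_smul, hx, map_smul]

theorem hat_dl (F : MulAut G) (x : G) : hat F (dl x) = dl (F x) := hatAlg_dl F x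

theorem hat_mul_apply (F : MulAut G) (y z : MonoidAlgebra ℚ G) :
    hat F (y * z) = hat F y * hat F z := map_mul (hatAlg F) y z

theorem hat_one_apply (F : MulAut G) : hat F (1 : MonoidAlgebra ℚ G) = 1 := map_one (hatAlg F)

/-! ### Powers of the augmentation ideal -/

theorem I_sq_le : I G ^ 2 ≤ I G := by
  rw [pow_two, I, Submodule.span_mul_span, Submodule.span_le]
  rintro _ ⟨_, ⟨x, rfl⟩, _, ⟨y, rfl⟩, rfl⟩
  have h : dl x * dl y = dl (x * y) - dl x - dl y := by rw [dl_mul]; abel
  change dl x * dl y ∈ Submodule.span ℚ (Set.range dl)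
  rw [h]
  exact Submodule.sub_mem _ (Submodule.sub_mem _ (dl_mem _) (dl_mem _)) (dl_mem _)

theorem I_anti {m n : ℕ} (hm : 1 ≤ m) (hmn : m ≤ n) : I G ^ n ≤ I G ^ m := by
  induction n, hmn using Nat.le_induction with
  | base => exact le_rfl
  | succ n hn ih =>
    refine le_trans ?_ ih
    obtain ⟨k, rfl⟩ : ∃ k, n = k + 1 := ⟨n - 1, by omega⟩
    rw [add_assoc, pow_add, pow_succ (I G) k]
    exact mul_le_mul_right I_sq_le _

theorem mul_mem_pow {m n : ℕ} {y z : MonoidAlgebra ℚ G} (hy : y ∈ I G ^ m) (hz : z ∈ I G ^ n) :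
    y * z ∈ I G ^ (m + n) := by
  rw [pow_add]; exact Submodule.mul_mem_mul hy hz

theorem dl_mem_one (x : G) : dl x ∈ I G ^ 1 := by rw [pow_one]; exact dl_mem x

theorem mul_of_mem {m : ℕ} (hm : 1 ≤ m) {y : MonoidAlgebra ℚ G} (hy : y ∈ I G ^ m) (x : G) :
    y * MonoidAlgebra.of ℚ G x ∈ I G ^ m := by
  rw [of_eq, mul_add, mul_one]
  exact Submodule.add_mem _ hy (I_anti hm (Nat.le_succ m) (mul_mem_pow hy (dl_mem_one x)))

/-- elements with `x - 1` in the square of the augmentation ideal -/
def sqSub (G : Type*) [Group G] : Subgroup G where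
  carrier := {x | dl x ∈ I G ^ 2}
  mul_mem' := by
    intro x y hx hy
    change dl (x * y) ∈ I G ^ 2
    rw [dl_mul]
    exact Submodule.add_mem _ (Submodule.add_mem _ hx hy)
      (mul_mem_pow (dl_mem_one x) (dl_mem_one y))
  one_mem' := by
    change dl (1 : G) ∈ I G ^ 2
    rw [dl_one]; exact Submodule.zero_mem _
  inv_mem' := by
    intro x hx
    change dl x⁻¹ ∈ I G ^ 2
    have h : dl x⁻¹ = -(dl x * MonoidAlgebra.of ℚ G x⁻¹) := by
      have h1 : MonoidAlgebra.of ℚ G x * MonoidAlgebra.of ℚ G x⁻¹ = 1 := by
        rw [← map_mul, mul_inv_cancel, map_one]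
      unfold dl
      rw [sub_mul, h1, one_mul]
      abel
    rw [h]
    exact Submodule.neg_mem _ (mul_of_mem (by norm_num) hx _)

open scoped commutatorElement in
theorem commutator_le_sqSub : commutator G ≤ sqSub G := by
  rw [commutator_def, Subgroup.commutator_le]
  intro x _ y _
  change dl ⁅x, y⁆ ∈ I G ^ 2
  have h : dl ⁅x, y⁆ = (dl x * dl y - dl y * dl x) * MonoidAlgebra.of ℚ G (x⁻¹ * y⁻¹) := by
    have h1 : dl x * dl y - dl y * dl x =
        MonoidAlgebra.of ℚ G (x * y) - MonoidAlgebra.of ℚ G (y * x) := by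
      unfold dl
      rw [map_mul, map_mul]
      noncomm_ring
    rw [h1, sub_mul, ← map_mul, ← map_mul]
    have h2 : y * x * (x⁻¹ * y⁻¹) = 1 := by group
    have h3 : x * y * (x⁻¹ * y⁻¹) = ⁅x, y⁆ := by rw [commutatorElement_def]; group
    rw [h2, h3, map_one]
    rfl
  rw [h]
  refine mul_of_mem (by norm_num) (Submodule.sub_mem _ ?_ ?_) _
  · exact mul_mem_pow (dl_mem_one x) (dl_mem_one y)
  · exact mul_mem_pow (dl_mem_one y) (dl_mem_one x)

/-- acting trivially on the abelianisation -/
def Triv (F : MulAut G) : Prop := ∀ x, F x * x⁻¹ ∈ commutator G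

theorem triv_dl {F : MulAut G} (hF : Triv F) (x : G) : hat F (dl x) - dl x ∈ I G ^ 2 := by
  have h : hat F (dl x) - dl x = dl (F x * x⁻¹) * MonoidAlgebra.of ℚ G x := by
    have h1 : MonoidAlgebra.of ℚ G (F x * x⁻¹) * MonoidAlgebra.of ℚ G x =
        MonoidAlgebra.of ℚ G (F x) := by
      rw [← map_mul, inv_mul_cancel_right]
    rw [hat_dl]
    unfold dl
    rw [sub_mul, h1, one_mul]
    abel
  rw [h]
  exact mul_of_mem (by norm_num) (commutator_le_sqSub (hF x)) x

theorem hat_mem {F : MulAut G} {m : ℕ} {y : MonoidAlgebra ℚ G} (hy : y ∈ I G ^ m) :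
    hat F y ∈ I G ^ m := by
  induction m generalizing y with
  | zero =>
    rw [pow_zero, Submodule.mem_one] at hy ⊢
    obtain ⟨r, rfl⟩ := hy
    exact ⟨r, ((hatAlg F).commutes r).symm⟩
  | succ m ih =>
    rw [pow_succ] at hy
    refine Submodule.mul_induction_on hy ?_ ?_
    · intro a ha b hb
      rw [hat_mul_apply]
      refine mul_mem_pow (ih ha) ?_
      rw [pow_one]
      unfold I at hb
      induction hb using Submodule.span_induction with
      | mem b hb =>
        obtain ⟨x, rfl⟩ := hb
        rw [hat_dl]; exact dl_mem _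
      | zero => rw [map_zero]; exact Submodule.zero_mem _
      | add b b' _ _ h h' => rw [map_add]; exact Submodule.add_mem _ h h'
      | smul r b _ h => rw [map_smul]; exact Submodule.smul_mem _ _ h
    · intro a b ha hb
      rw [map_add]; exact Submodule.add_mem _ ha hb

theorem triv_one {F : MulAut G} (hF : Triv F) {y : MonoidAlgebra ℚ G} (hy : y ∈ I G) :
    hat F y - y ∈ I G ^ 2 := by
  unfold I at hy
  induction hy using Submodule.span_induction with
  | mem b hb =>
    obtain ⟨x, rfl⟩ := hb
    exact triv_dl hF x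
  | zero => rw [map_zero, sub_zero]; exact Submodule.zero_mem _
  | add b b' _ _ h h' =>
    rw [map_add, add_sub_add_comm]; exact Submodule.add_mem _ h h'
  | smul r b _ h => rw [map_smul, ← smul_sub]; exact Submodule.smul_mem _ _ h

theorem triv_pow {F : MulAut G} (hF : Triv F) {m : ℕ} {y : MonoidAlgebra ℚ G}
    (hy : y ∈ I G ^ (m + 1)) : hat F y - y ∈ I G ^ (m + 2) := by
  induction m generalizing y with
  | zero => rw [zero_add, pow_one] at hy; exact triv_one hF hy
  | succ m ih =>
    rw [pow_succ] at hy
    refine Submodule.mul_induction_on hy ?_ ?_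
    · intro a ha b hb
      have h : hat F (a * b) - a * b = (hat F a - a) * hat F b + a * (hat F b - b) := by
        rw [hat_mul_apply]; noncomm_ring
      rw [h]
      refine Submodule.add_mem _ ?_ ?_
      · have h1 := mul_mem_pow (ih ha) (hat_mem (F := F) (m := 1) (by rwa [pow_one]))
        exact h1
      · exact mul_mem_pow ha (triv_one hF hb)
    · intro a b ha hb
      rw [map_add, add_sub_add_comm]; exact Submodule.add_mem _ ha hb

/-- the difference operator -/
noncomputable def Df (F : MulAut G) : Module.End ℚ (MonoidAlgebra ℚ G) := hat F - 1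

theorem Df_apply (F : MulAut G) (y : MonoidAlgebra ℚ G) : Df F y = hat F y - y := rfl

theorem Df_one (F : MulAut G) : Df F 1 = 0 := by
  rw [Df_apply, hat_one_apply, sub_self]

theorem Df_prod_mem {α : Type*} {F : α → MulAut G} (hF : ∀ i, Triv (F i)) (l : List α) {m : ℕ}
    {y : MonoidAlgebra ℚ G} (hy : y ∈ I G ^ (m + 1)) :
    (l.map fun i => Df (F i)).prod y ∈ I G ^ (m + 1 + l.length) := by
  induction l with
  | nil => simpa using hy
  | cons i l ih =>
    rw [List.map_cons, List.prod_cons, Module.End.mul_apply, Df_apply, List.length_cons]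
    have h1 := ih
    have h2 : m + 1 + l.length = m + l.length + 1 := by omega
    rw [h2] at h1
    have h3 := triv_pow (hF i) h1
    have h4 : m + 1 + (l.length + 1) = m + l.length + 2 := by omega
    rw [h4]
    exact h3

theorem Df_prod_one {α : Type*} {F : α → MulAut G} (l : List α) (hl : l ≠ []) :
    (l.map fun i => Df (F i)).prod (1 : MonoidAlgebra ℚ G) = 0 := by
  induction l with
  | nil => exact absurd rfl hl
  | cons i l ih =>
    rw [List.map_cons, List.prod_cons, Module.End.mul_apply]
    by_cases h : l = []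
    · subst h; simpa using Df_one (F i)
    · rw [ih h, map_zero]

theorem Df_prod_mem' {α : Type*} {F : α → MulAut G} (hF : ∀ i, Triv (F i)) (l : List α)
    (hl : l ≠ []) (y : MonoidAlgebra ℚ G) :
    (l.map fun i => Df (F i)).prod y ∈ I G ^ (1 + l.length) := by
  induction y using MonoidAlgebra.induction_on with
  | of x =>
    rw [of_eq, map_add, Df_prod_one l hl, zero_add]
    exact Df_prod_mem hF l (m := 0) (dl_mem_one x)
  | add x y hx hy => rw [map_add]; exact Submodule.add_mem _ hx hy
  | smul r x hx => rw [map_smul]; exact Submodule.smul_mem _ _ hx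

/-- a functional vanishing on products of `m` elements `x - 1` vanishes on `I ^ m` -/
theorem vanish_pow {m : ℕ} {f : MonoidAlgebra ℚ G →ₗ[ℚ] ℚ}
    (h : ∀ xs : List G, xs.length = m → f ((xs.map dl).prod) = 0) {y : MonoidAlgebra ℚ G}
    (hy : y ∈ I G ^ m) : f y = 0 := by
  induction m generalizing f y with
  | zero =>
    rw [pow_zero, Submodule.mem_one] at hy
    obtain ⟨r, rfl⟩ := hy
    have h1 := h [] rfl
    rw [List.map_nil, List.prod_nil] at h1
    rw [Algebra.algebraMap_eq_smul_one, map_smul, h1, smul_zero]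
  | succ m ih =>
    rw [pow_succ'] at hy
    refine Submodule.mul_induction_on hy ?_ ?_
    · intro a ha b hb
      unfold I at ha
      induction ha using Submodule.span_induction with
      | mem a ha =>
        obtain ⟨x, rfl⟩ := ha
        exact ih (f := f ∘ₗ LinearMap.mulLeft ℚ (dl x)) (fun xs hxs => by
          have := h (x :: xs) (by simp [hxs])
          simpa using this) hb
      | zero => rw [zero_mul, map_zero]
      | add a a' _ _ h h' => rw [add_mul, map_add, h, h', add_zero]
      | smul r a _ h => rw [smul_mul_assoc, map_smul, h, smul_zero]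
    · intro a b ha hb
      rw [map_add, ha, hb, add_zero]

/-! ### Symbols -/

/-- product of the values of the letters -/
def zp : List (G → ℚ) → List G → ℚ
  | [], _ => 1
  | _ :: _, [] => 0
  | v :: vs, x :: xs => v x * zp vs xs

/-- `f` has symbol `κ v₁ ⊗ ⋯ ⊗ v_m` -/
def Symb (vs : List (G → ℚ)) (f : MonoidAlgebra ℚ G →ₗ[ℚ] ℚ) (κ : ℚ) : Prop :=
  ∀ xs : List G, xs.length = vs.length → f ((xs.map dl).prod) = κ * zp vs xs

theorem Symb.cons {v : G → ℚ} {vs : List (G → ℚ)} {f : MonoidAlgebra ℚ G →ₗ[ℚ] ℚ} {κ : ℚ}
    (h : Symb (v :: vs) f κ) (x : G) :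
    Symb vs (f ∘ₗ LinearMap.mulLeft ℚ (dl x)) (κ * v x) := by
  intro xs hxs
  have := h (x :: xs) (by simp [hxs])
  rw [List.map_cons, List.prod_cons] at this
  rw [LinearMap.comp_apply, LinearMap.mulLeft_apply, this, zp, mul_assoc]

theorem symb_cons {v : G → ℚ} {vs : List (G → ℚ)} {f : MonoidAlgebra ℚ G →ₗ[ℚ] ℚ} {κ : ℚ}
    (h : ∀ x, Symb vs (f ∘ₗ LinearMap.mulLeft ℚ (dl x)) (κ * v x)) : Symb (v :: vs) f κ := by
  intro xs hxs
  cases xs with
  | nil => simp at hxs
  | cons x xs =>
    have := h x xs (by simpa using hxs)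
    rw [LinearMap.comp_apply, LinearMap.mulLeft_apply] at this
    rw [List.map_cons, List.prod_cons, this, zp, mul_assoc]

/-- `F` acts on quadratic functions with symbol `v ⊗ w` by adding `t` -/
def Tau (F : MulAut G) (v w t : G → ℚ) : Prop :=
  ∀ (κ : ℚ) (f : G → ℚ), (∀ x y, f (x * y) = f x + f y + κ * (v x * w y)) →
    ∀ x, f (F x) = f x + κ * t x

theorem prod_hat (F : MulAut G) (xs : List G) :
    hat F ((xs.map dl).prod) = ((xs.map F).map dl).prod := by
  induction xs with
  | nil => exact hat_one_apply F
  | cons x xs ih =>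
    rw [List.map_cons, List.prod_cons, hat_mul_apply, ih, hat_dl]
    simp

/-- **the symbol of a difference** -/
theorem step {F : MulAut G} {v w t : G → ℚ} (ht : Tau F v w t) (vs : List (G → ℚ))
    (hadj : ∀ a ∈ vs ++ [v], ∀ b ∈ vs ++ [v], Tau F a b 0)
    {f : MonoidAlgebra ℚ G →ₗ[ℚ] ℚ} {κ : ℚ} (hf : Symb (vs ++ [v, w]) f κ) :
    Symb (vs ++ [t]) (f ∘ₗ Df F) κ := by
  induction vs generalizing f κ with
  | nil =>
    intro xs hxs
    obtain ⟨x, rfl⟩ : ∃ x, xs = [x] := List.length_eq_one_iff.1 (by simpa using hxs)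
    have h := ht κ (fun x => f (dl x)) (fun x y => by
      have h1 := hf [x, y] rfl
      simp only [List.map_cons, List.map_nil, List.prod_cons, List.prod_nil, mul_one,
        List.nil_append, zp] at h1
      rw [dl_mul, map_add, map_add, h1]) x
    simp only [List.map_cons, List.map_nil, List.prod_cons, List.prod_nil, mul_one,
      LinearMap.comp_apply, Df_apply, map_sub, hat_dl, List.nil_append, zp]
    rw [h]
    ring
  | cons u vs ih =>
    rw [List.cons_append]
    apply symb_cons
    intro x
    have h1 := ih (fun a ha b hb => hadj a (by simp at ha ⊢; tauto) b (by simp at hb ⊢; tauto))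
      (Symb.cons hf x)
    -- the head of the rest
    obtain ⟨u', rest, hrest, hu'⟩ : ∃ u' rest, vs ++ [v, w] = u' :: rest ∧
        u' ∈ u :: vs ++ [v] := by
      cases vs with
      | nil => exact ⟨v, [w], rfl, by simp⟩
      | cons u' vs => exact ⟨u', vs ++ [v, w], rfl, by simp⟩
    have hlen : rest.length = vs.length + 1 := by
      have := congrArg List.length hrest
      simp at this
      omega
    intro xs hxs
    have hxs' : xs.length = vs.length + 1 := by simpa using hxs
    have h2 := h1 xs hxs
    rw [LinearMap.comp_apply, LinearMap.comp_apply, LinearMap.mulLeft_apply, Df_apply] at h2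
    rw [LinearMap.comp_apply, LinearMap.comp_apply, LinearMap.mulLeft_apply, Df_apply,
      hat_mul_apply]
    rw [← h2]
    -- the extra term vanishes
    set b := (xs.map dl).prod with hb
    set b' := hat F b with hb'
    have hb'' : b' = ((xs.map F).map dl).prod := prod_hat F xs
    have h3 := hadj u (by simp) u' hu' (κ * zp rest (xs.map F)) (fun y => f (dl y * b'))
      (fun y z => by
        have h4 := hf (y :: z :: xs.map F) (by
          rw [List.cons_append, hrest]; simp [hlen, hxs'])
        rw [List.cons_append, hrest] at h4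
        simp only [List.map_cons, List.prod_cons, zp] at h4
        rw [← hb''] at h4
        rw [dl_mul, add_mul, add_mul, map_add, map_add, mul_assoc (dl y), h4]
        ring) x
    simp only [Pi.zero_apply, mul_zero, add_zero] at h3
    have h5 : hat F (dl x) * b' - dl x * b = dl x * (b' - b) + (dl (F x) * b' - dl x * b') := by
      rw [hat_dl]; noncomm_ring
    rw [h5, map_add, map_sub, h3, sub_self, add_zero]

/-- iterating the operators -/
def Tw {U : Type*} (T : Fin 2 → U → U) : List (Fin 2) → U → U
  | [], u => u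
  | s :: l, u => Tw T l (T s u)

/-- **values of the functionals on the homogeneous part of the Magnus expansion** -/
theorem S_symb {U : Type*} {F : Fin 2 → MulAut G} {v : Fin 2 → G → ℚ} {T : Fin 2 → U → U}
    {y : U → G → ℚ} {z : U} (hz : y z = 0) (hTz : ∀ k, T k z = z)
    (h1 : ∀ k i j, Tau (F k) (v i) (v j) 0)
    (h2 : ∀ k i u, Tau (F k) (v i) (y u) (if i = k then y (T k u) else 0))
    (us : List (Fin 2)) (u : U) {f : MonoidAlgebra ℚ G →ₗ[ℚ] ℚ} {κ : ℚ}
    (hf : Symb (us.map v ++ [y u]) f κ) (c : List (Fin 2) → ℚ) (x : G) :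
    f (Mag.S (fun k => Df (F k)) us.length c (dl x)) =
      κ * (c us.reverse * y (Tw T us.reverse u) x) := by
  have hTwz : ∀ l, Tw T l z = z := by
    intro l
    induction l with
    | nil => rfl
    | cons s l ih => rw [Tw, hTz, ih]
  induction us using List.reverseRecOn generalizing u f κ c with
  | nil =>
    have h := hf [x] rfl
    simp only [List.map_cons, List.map_nil, List.prod_cons, List.prod_nil, mul_one,
      List.nil_append, zp] at h
    simp only [List.length_nil, Mag.S, List.reverse_nil, Tw, LinearMap.smul_apply,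
      Module.End.one_apply, map_smul, h, smul_eq_mul]
    ring
  | append_singleton us i ih =>
    have hstep : ∀ k, Symb (us.map v ++ [y (if i = k then T k u else z)]) (f ∘ₗ Df (F k)) κ := by
      intro k
      have ht := h2 k i u
      have h3 : (if i = k then y (T k u) else 0) = y (if i = k then T k u else z) := by
        split_ifs
        · rfl
        · exact hz.symm
      rw [h3] at ht
      refine step ht (us.map v) ?_ ?_
      · intro a ha b hb
        have : ∀ a ∈ us.map v ++ [v i], ∃ j, a = v j := by
          intro a ha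
          rw [List.mem_append, List.mem_map, List.mem_singleton] at ha
          rcases ha with ⟨j, _, rfl⟩ | rfl
          · exact ⟨j, rfl⟩
          · exact ⟨i, rfl⟩
        obtain ⟨j, rfl⟩ := this a ha
        obtain ⟨j', rfl⟩ := this b hb
        exact h1 k j j'
      · simpa using hf
    rw [List.length_append, List.length_singleton, List.reverse_append, List.reverse_singleton,
      List.singleton_append]
    simp only [Mag.S, LinearMap.sum_apply, map_sum, Module.End.mul_apply, Tw]
    have h4 : ∀ k, f (Df (F k) (Mag.S (fun k => Df (F k)) us.length (fun w => c (k :: w))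
        (dl x))) = if i = k then κ * (c (i :: us.reverse) * y (Tw T us.reverse (T i u)) x)
          else 0 := by
      intro k
      have h5 := ih (if i = k then T k u else z) (hstep k) (fun w => c (k :: w))
      rw [LinearMap.comp_apply] at h5
      rw [h5]
      split_ifs with h
      · subst h; rfl
      · rw [hTwz, hz]; simp
    rw [Finset.sum_congr rfl fun k _ => h4 k]
    simp

end Aug

end TG
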