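import Pool.Agent.H40.TG.Cls
import Pool.Agent.H40.TG.Aug

/-!
# Unipotent representations of surface groups on filtered vector spaces

Representations of the surface group with prescribed symbol of degree one, obtained by solving
`∏ [e_i, f_i] = 1` degree by degree.
-/

open scoped commutatorElement

namespace TG

section Filt

variable {E : Type*} [AddCommGroup E] [Module ℚ E] {N : ℕ}

/-- a finite filtration of a vector space -/
structure Filt (E : Type*) [AddCommGroup E] [Module ℚ E] (N : ℕ) where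
  /-- the pieces -/
  K : ℕ → Submodule ℚ E
  mono : Monotone K
  bot : K 0 = ⊥
  top : K N = ⊤

/-- endomorphisms lowering the filtration by `k` -/
def Fd (F : Filt E N) (k : ℕ) (M : Module.End ℚ E) : Prop :=
  ∀ m, ∀ e ∈ F.K m, M e ∈ F.K (m - k)

variable {F : Filt E N} {A B : Module.End ℚ E} {a b : ℕ}

namespace Fd

theorem mono (h : Fd F a A) (hab : b ≤ a) : Fd F b A := fun m e he =>
  F.mono (by omega) (h m e he)

theorem mul (hA : Fd F a A) (hB : Fd F b B) : Fd F (a + b) (A * B) := by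
  intro m e he
  have h := hA _ _ (hB m e he)
  have h1 : m - (a + b) = m - b - a := by omega
  rw [h1]
  exact h

theorem add (hA : Fd F a A) (hB : Fd F a B) : Fd F a (A + B) := fun m e he => by
  rw [LinearMap.add_apply]
  exact Submodule.add_mem _ (hA m e he) (hB m e he)

theorem sub (hA : Fd F a A) (hB : Fd F a B) : Fd F a (A - B) := fun m e he => by
  rw [LinearMap.sub_apply]
  exact Submodule.sub_mem _ (hA m e he) (hB m e he)

theorem neg (hA : Fd F a A) : Fd F a (-A) := fun m e he => by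
  rw [LinearMap.neg_apply]
  exact Submodule.neg_mem _ (hA m e he)

theorem smul (hA : Fd F a A) (r : ℚ) : Fd F a (r • A) := fun m e he => by
  rw [LinearMap.smul_apply]
  exact Submodule.smul_mem _ _ (hA m e he)

theorem zero : Fd F a 0 := fun m e _ => by
  rw [LinearMap.zero_apply]
  exact Submodule.zero_mem _

theorem one : Fd F 0 1 := fun _ _ he => he

theorem eq_zero (hA : Fd F a A) (ha : N ≤ a) : A = 0 := by
  apply LinearMap.ext
  intro e
  have h1 : e ∈ F.K N := by rw [F.top]; exact Submodule.mem_top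
  have h2 := hA N e h1
  have h3 : N - a = 0 := by omega
  rw [h3, F.bot, Submodule.mem_bot] at h2
  rw [h2, LinearMap.zero_apply]

theorem of_sub_one (h : Fd F 1 (A - 1)) : Fd F 0 A := by
  have h1 := (h.mono (Nat.zero_le 1)).add Fd.one
  rwa [sub_add_cancel] at h1

theorem pow (h : Fd F 1 A) (k : ℕ) : Fd F k (A ^ k) := by
  induction k with
  | zero => rw [pow_zero]; exact Fd.one
  | succ k ih => rw [pow_succ]; exact ih.mul h

theorem sum {ι : Type*} (s : Finset ι) {k : ℕ} {M : ι → Module.End ℚ E}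
    (h : ∀ i ∈ s, Fd F k (M i)) : Fd F k (∑ i ∈ s, M i) :=
  Finset.sum_induction M (Fd F k) (fun _ _ ha hb => ha.add hb) Fd.zero h

end Fd

/-- the unipotent group -/
def UF (F : Filt E N) : Subgroup (Module.End ℚ E)ˣ where
  carrier := {u | Fd F 1 ((u : Module.End ℚ E) - 1) ∧
    Fd F 1 (((u⁻¹ : (Module.End ℚ E)ˣ) : Module.End ℚ E) - 1)}
  mul_mem' := by
    rintro u w ⟨hu, hu'⟩ ⟨hw, hw'⟩
    have key : ∀ A B : Module.End ℚ E, Fd F 1 (A - 1) → Fd F 1 (B - 1) →
        Fd F 1 (A * B - 1) := by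
      intro A B hA hB
      have h1 : A * B - 1 = (A - 1) + A * (B - 1) := by noncomm_ring
      rw [h1]
      refine hA.add ?_
      have := hA.of_sub_one.mul hB
      rwa [zero_add] at this
    refine ⟨?_, ?_⟩
    · rw [Units.val_mul]; exact key _ _ hu hw
    · rw [mul_inv_rev, Units.val_mul]; exact key _ _ hw' hu'
  one_mem' := by
    constructor
    · rw [Units.val_one, sub_self]; exact Fd.zero
    · rw [inv_one, Units.val_one, sub_self]; exact Fd.zero
  inv_mem' := by
    rintro u ⟨hu, hu'⟩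
    exact ⟨hu', by rw [inv_inv]; exact hu⟩

/-- the operator of an element of the unipotent group -/
def mf (F : Filt E N) : UF F →* Module.End ℚ E :=
  (Units.coeHom (Module.End ℚ E)).comp (UF F).subtype

theorem mf_deg (u : UF F) : Fd F 1 (mf F u - 1) := u.2.1

theorem mf_deg0 (u : UF F) : Fd F 0 (mf F u) := (mf_deg u).of_sub_one

theorem mf_mul_inv (u : UF F) : mf F u * mf F u⁻¹ = 1 := by
  rw [← map_mul, mul_inv_cancel, map_one]

/-- units with given nilpotent part -/
theorem exists_uf {ν : Module.End ℚ E} (hν : Fd F 1 ν) : ∃ u : UF F, mf F u = 1 + ν := by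
  set σ : Module.End ℚ E := ∑ k ∈ Finset.range N, (-ν) ^ k with hσ
  have hz : (-ν) ^ N = 0 := (hν.neg.pow N).eq_zero le_rfl
  have h1 : (1 + ν) * σ = 1 := by
    have := mul_neg_geom_sum (-ν) N
    rwa [hz, sub_zero, sub_neg_eq_add] at this
  have h2 : σ * (1 + ν) = 1 := by
    have := geom_sum_mul_neg (-ν) N
    rwa [hz, sub_zero, sub_neg_eq_add] at this
  have h3 : Fd F 0 σ := Fd.sum _ fun k _ => (hν.neg.pow k).mono (Nat.zero_le _)
  have h4 : Fd F 1 (σ - 1) := by
    have h5 : σ - 1 = -(ν * σ) := by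
      have : σ + ν * σ = 1 := by rw [← h1]; noncomm_ring
      rw [← this]; abel
    rw [h5]
    exact (hν.mul h3).neg
  refine ⟨⟨⟨1 + ν, σ, h1, h2⟩, ?_, ?_⟩, rfl⟩
  · change Fd F 1 (1 + ν - 1)
    rw [add_sub_cancel_left]; exact hν
  · exact h4

theorem fcomm_key (u w : UF F) : mf F ⁅u, w⁆ * (mf F w * mf F u) = mf F u * mf F w := by
  rw [← map_mul, ← map_mul, ← map_mul]
  congr 1
  rw [commutatorElement_def]
  group

/-- cancelling a unipotent operator -/
theorem fd_cancel {a : ℕ} {M M' : Module.End ℚ E} (u : UF F)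
    (h : Fd F (a + 1) (M * mf F u - M')) (hN : Fd F a M') : Fd F (a + 1) (M - M') := by
  have h1 : M - M' = (M * mf F u - M') * mf F u⁻¹ + M' * (mf F u⁻¹ - 1) := by
    rw [sub_mul, mul_assoc, mf_mul_inv, mul_one, mul_sub, mul_one]
    abel
  rw [h1]
  have h2 := h.mul (mf_deg0 u⁻¹)
  rw [add_zero] at h2
  exact h2.add (hN.mul (mf_deg u⁻¹))

theorem fcomm1 (u w : UF F) : Fd F 3 (mf F ⁅u, w⁆ - 1 -
    ((mf F u - 1) * (mf F w - 1) - (mf F w - 1) * (mf F u - 1))) := by
  have hc : Fd F 2 ((mf F u - 1) * (mf F w - 1) - (mf F w - 1) * (mf F u - 1)) :=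
    ((mf_deg u).mul (mf_deg w)).sub ((mf_deg w).mul (mf_deg u))
  refine fd_cancel (a := 2) (w * u) ?_ hc
  have h1 : (mf F ⁅u, w⁆ - 1) * mf F (w * u) -
      ((mf F u - 1) * (mf F w - 1) - (mf F w - 1) * (mf F u - 1)) = 0 := by
    rw [sub_mul, map_mul, fcomm_key, one_mul]
    noncomm_ring
  rw [h1]
  exact Fd.zero

theorem fcomm2 (u w : UF F) : Fd F 2 (mf F ⁅u, w⁆ - 1) := by
  have hc : Fd F 2 ((mf F u - 1) * (mf F w - 1) - (mf F w - 1) * (mf F u - 1)) :=
    ((mf_deg u).mul (mf_deg w)).sub ((mf_deg w).mul (mf_deg u))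
  have := ((fcomm1 u w).mono (by norm_num : 2 ≤ 3)).add hc
  rwa [sub_add_cancel] at this

theorem fcomm_mod {j : ℕ} (hj : 2 ≤ j) {u w u' w' : UF F} {μ ν : Module.End ℚ E}
    (hμ : Fd F j μ) (hν : Fd F j ν) (hu : mf F u' = mf F u * (1 + μ))
    (hw : mf F w' = mf F w * (1 + ν)) :
    Fd F (j + 2) (mf F ⁅u', w'⁆ - mf F ⁅u, w⁆ -
      (((mf F u - 1) * ν - ν * (mf F u - 1)) + (μ * (mf F w - 1) - (mf F w - 1) * μ))) := by
  set X := mf F u - 1 with hX
  set Y := mf F w - 1 with hY
  set C := mf F ⁅u, w⁆ with hC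
  have hE1 : Fd F 1 X := mf_deg u
  have hF1 : Fd F 1 Y := mf_deg w
  have hEμ : Fd F (j + 1) (X * ν - ν * X + (μ * Y - Y * μ)) := by
    have h1 := hE1.mul hν
    have h2 := hν.mul hE1
    have h3 := hμ.mul hF1
    have h4 := hF1.mul hμ
    rw [add_comm 1 j] at h1 h4
    exact (h1.sub h2).add (h3.sub h4)
  have hU : mf F u = 1 + X := by rw [hX]; abel
  have hW : mf F w = 1 + Y := by rw [hY]; abel
  refine fd_cancel (a := j + 1) (w' * u') ?_ hEμ
  have h0 : C * (mf F w * mf F u) = mf F u * mf F w := fcomm_key u w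
  have h1 : (mf F ⁅u', w'⁆ - C) * mf F (w' * u') =
      mf F u' * mf F w' - C * (mf F w' * mf F u') := by
    rw [sub_mul, map_mul, fcomm_key]
  rw [h1, hu, hw]
  have h2 : mf F u * (1 + μ) * (mf F w * (1 + ν)) -
      C * (mf F w * (1 + ν) * (mf F u * (1 + μ))) -
      (X * ν - ν * X + (μ * Y - Y * μ)) =
      X * μ * Y + X * (Y * ν) + mf F u * μ * (mf F w * ν) - Y * ν * X - Y * (X * μ)
        - mf F w * ν * (mf F u * μ) -
        (C - 1) * (mf F w * ν * mf F u + mf F w * mf F u * μ +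
          mf F w * ν * (mf F u * μ)) := by
    have h3 : C * (mf F w * (1 + ν) * (mf F u * (1 + μ))) = mf F u * mf F w +
        C * (mf F w * ν * mf F u + mf F w * mf F u * μ + mf F w * ν * (mf F u * μ)) := by
      rw [← h0]; noncomm_ring
    rw [h3, hU, hW]
    noncomm_ring
  rw [h2]
  have hC2 : Fd F 2 (C - 1) := fcomm2 u w
  have hu0 := mf_deg0 u
  have hw0 := mf_deg0 w
  have t1 : Fd F (j + 2) (X * μ * Y) := ((hE1.mul hμ).mul hF1).mono (by omega)
  have t2 : Fd F (j + 2) (X * (Y * ν)) := (hE1.mul (hF1.mul hν)).mono (by omega)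
  have t3 : Fd F (j + 2) (mf F u * μ * (mf F w * ν)) :=
    ((hu0.mul hμ).mul (hw0.mul hν)).mono (by omega)
  have t4 : Fd F (j + 2) (Y * ν * X) := ((hF1.mul hν).mul hE1).mono (by omega)
  have t5 : Fd F (j + 2) (Y * (X * μ)) := (hF1.mul (hE1.mul hμ)).mono (by omega)
  have t6 : Fd F (j + 2) (mf F w * ν * (mf F u * μ)) :=
    ((hw0.mul hν).mul (hu0.mul hμ)).mono (by omega)
  have s1 : Fd F j (mf F w * ν * mf F u) := ((hw0.mul hν).mul hu0).mono (by omega)
  have s2 : Fd F j (mf F w * mf F u * μ) := ((hw0.mul hu0).mul hμ).mono (by omega)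
  have s3 : Fd F j (mf F w * ν * (mf F u * μ)) := t6.mono (by omega)
  have t7 : Fd F (j + 2) ((C - 1) * (mf F w * ν * mf F u + mf F w * mf F u * μ +
      mf F w * ν * (mf F u * μ))) := (hC2.mul ((s1.add s2).add s3)).mono (by omega)
  exact (((((t1.add t2).add t3).sub t4).sub t5).sub t6).sub t7

theorem fprod_mod {ι : Type*} {X C c : ι → Module.End ℚ E} {k : ℕ}
    (h : ∀ i, Fd F (k + 1) (X i - C i - c i))
    (hX : ∀ i, Fd F 1 (X i - 1)) (hC : ∀ i, Fd F 1 (C i - 1)) (hc : ∀ i, Fd F k (c i))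
    (l : List ι) :
    Fd F (k + 1) ((l.map X).prod - (l.map C).prod - (l.map c).sum) ∧
      Fd F 1 ((l.map X).prod - 1) ∧ Fd F k (l.map c).sum := by
  induction l with
  | nil =>
    refine ⟨?_, ?_, ?_⟩
    · simp only [List.map_nil, List.prod_nil, List.sum_nil, sub_self]; exact Fd.zero
    · simp only [List.map_nil, List.prod_nil, sub_self]; exact Fd.zero
    · simp only [List.map_nil, List.sum_nil]; exact Fd.zero
  | cons i l ih =>
    obtain ⟨h1, h2, h3⟩ := ih
    simp only [List.map_cons, List.prod_cons, List.sum_cons]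
    set PX := (l.map X).prod
    set PC := (l.map C).prod
    set Sc := (l.map c).sum
    refine ⟨?_, ?_, (hc i).add h3⟩
    · have e1 : X i * PX - C i * PC - (c i + Sc) = (X i - C i - c i) * PX + c i * (PX - 1) +
          C i * (PX - PC - Sc) + (C i - 1) * Sc := by noncomm_ring
      rw [e1]
      have t1 := (h i).mul h2.of_sub_one
      have t2 := (hc i).mul h2
      have t3 := (hC i).of_sub_one.mul h1
      have t4 := (hC i).mul h3
      rw [add_zero] at t1
      rw [zero_add] at t3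
      rw [add_comm 1 k] at t4
      exact ((t1.add t2).add t3).add t4
    · have e1 : X i * PX - 1 = (X i - 1) * PX + (PX - 1) := by noncomm_ring
      rw [e1]
      have t1 := (hX i).mul h2.of_sub_one
      rw [add_zero] at t1
      exact t1.add h2

variable {g : ℕ}

theorem mf_cprod (e f : Fin g → UF F) :
    mf F (cprod e f) = ((List.finRange g).map fun i => mf F ⁅e i, f i⁆).prod := by
  unfold cprod
  rw [map_list_prod, List.map_ofFn, List.ofFn_eq_map]
  rfl

theorem fbracket_identity (X Y D : Module.End ℚ E) (a b : ℚ) :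
    (X * (a • D) - (a • D) * X) + ((-(b • D)) * Y - Y * (-(b • D))) =
      (a • X + b • Y) * D - D * (a • X + b • Y) := by
  simp only [mul_smul_comm, smul_mul_assoc, neg_mul, mul_neg, add_mul, mul_add]
  abel

/-- solvability of the linear equation in each degree -/
def Solv (F : Filt E N) (v : Module.End ℚ E) : Prop :=
  ∀ k, 2 ≤ k → ∀ r, Fd F (k + 1) r → ∃ δ, Fd F k δ ∧ Fd F (k + 2) (v * δ - δ * v + r)

theorem fsolve_step {V : Hq g →ₗ[ℚ] Module.End ℚ E} {z0 : Hq g} (hs : Solv F (V z0))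
    {k : ℕ} (hk : 2 ≤ k) (e f : Fin g → UF F)
    (he : ∀ i, Fd F 2 (mf F (e i) - 1 - V (ea i)))
    (hf : ∀ i, Fd F 2 (mf F (f i) - 1 - V (eb i)))
    (h : Fd F (k + 1) (mf F (cprod e f) - 1)) :
    ∃ e' f' : Fin g → UF F, (∀ i, Fd F k (mf F (e' i) - mf F (e i))) ∧
      (∀ i, Fd F k (mf F (f' i) - mf F (f i))) ∧ Fd F (k + 2) (mf F (cprod e' f') - 1) := by
  obtain ⟨δ, hδ, hsol'⟩ := hs k hk _ h
  set v : Module.End ℚ E :=
    ∑ i, (z0.1 i • (mf F (e i) - 1) + z0.2 i • (mf F (f i) - 1)) with hvdef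
  have hv1 : Fd F 2 (v - V z0) := by
    have h0 : V z0 = ∑ i, (z0.1 i • V (ea i) + z0.2 i • V (eb i)) := by
      conv_lhs => rw [hq_decomp z0]
      rw [map_sum]
      exact Finset.sum_congr rfl fun i _ => by rw [map_add, map_smul, map_smul]
    rw [h0, hvdef, ← Finset.sum_sub_distrib]
    refine Fd.sum _ fun i _ => ?_
    have h1 : z0.1 i • (mf F (e i) - 1) + z0.2 i • (mf F (f i) - 1) -
        (z0.1 i • V (ea i) + z0.2 i • V (eb i)) =
        z0.1 i • (mf F (e i) - 1 - V (ea i)) + z0.2 i • (mf F (f i) - 1 - V (eb i)) := by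
      simp only [smul_sub]; abel
    rw [h1]
    exact ((he i).smul _).add ((hf i).smul _)
  set r : Module.End ℚ E := mf F (cprod e f) - 1 with hr
  have hsol : Fd F (k + 2) (v * δ - δ * v + r) := by
    have h1 : v * δ - δ * v + r = (V z0 * δ - δ * V z0 + r) +
        ((v - V z0) * δ - δ * (v - V z0)) := by noncomm_ring
    rw [h1]
    refine hsol'.add ?_
    have h2 := hv1.mul hδ
    have h3 := hδ.mul hv1
    rw [add_comm 2 k] at h2
    exact h2.sub h3
  have hμ : ∀ i, Fd F k (-(z0.2 i • δ)) := fun i => (hδ.smul _).neg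
  have hν : ∀ i, Fd F k (z0.1 i • δ) := fun i => hδ.smul _
  choose u hu using fun i => exists_uf ((hμ i).mono (by omega : 1 ≤ k))
  choose w hw using fun i => exists_uf ((hν i).mono (by omega : 1 ≤ k))
  have hu' : ∀ i, mf F (e i * u i) = mf F (e i) * (1 + -(z0.2 i • δ)) := fun i => by
    rw [map_mul, hu]
  have hw' : ∀ i, mf F (f i * w i) = mf F (f i) * (1 + z0.1 i • δ) := fun i => by
    rw [map_mul, hw]
  refine ⟨fun i => e i * u i, fun i => f i * w i, ?_, ?_, ?_⟩
  · intro i
    rw [hu', mul_add, mul_one, add_sub_cancel_left]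
    have := (mf_deg0 (e i)).mul (hμ i)
    rwa [zero_add] at this
  · intro i
    rw [hw', mul_add, mul_one, add_sub_cancel_left]
    have := (mf_deg0 (f i)).mul (hν i)
    rwa [zero_add] at this
  · set c : Fin g → Module.End ℚ E := fun i =>
      (((mf F (e i) - 1) * (z0.1 i • δ) - (z0.1 i • δ) * (mf F (e i) - 1)) +
        ((-(z0.2 i • δ)) * (mf F (f i) - 1) - (mf F (f i) - 1) * (-(z0.2 i • δ)))) with hc
    have hcdeg : ∀ i, Fd F (k + 1) (c i) := by
      intro i
      have t1 := (mf_deg (e i)).mul (hν i)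
      have t2 := (hν i).mul (mf_deg (e i))
      have t3 := (hμ i).mul (mf_deg (f i))
      have t4 := (mf_deg (f i)).mul (hμ i)
      rw [add_comm 1 k] at t1 t4
      exact (t1.sub t2).add (t3.sub t4)
    have h1 := fprod_mod (X := fun i => mf F ⁅e i * u i, f i * w i⁆)
      (C := fun i => mf F ⁅e i, f i⁆) (c := c) (k := k + 1)
      (fun i => fcomm_mod hk (hμ i) (hν i) (hu' i) (hw' i))
      (fun i => (fcomm2 _ _).mono (by norm_num)) (fun i => (fcomm2 _ _).mono (by norm_num))
      hcdeg (List.finRange g)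
    have h2 : ((List.finRange g).map c).sum = v * δ - δ * v := by
      rw [← Fin.sum_univ_def, hvdef, Finset.sum_mul, Finset.mul_sum, ← Finset.sum_sub_distrib]
      refine Finset.sum_congr rfl fun i _ => ?_
      exact fbracket_identity _ _ _ _ _
    rw [← mf_cprod (fun i => e i * u i) (fun i => f i * w i), ← mf_cprod e f, h2] at h1
    have h3 : mf F (cprod (fun i => e i * u i) fun i => f i * w i) - 1 =
        (mf F (cprod (fun i => e i * u i) fun i => f i * w i) - mf F (cprod e f) -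
          (v * δ - δ * v)) + (v * δ - δ * v + r) := by
      rw [hr]; abel
    rw [h3]
    exact h1.1.add hsol

theorem fsolve {V : Hq g →ₗ[ℚ] Module.End ℚ E} {z0 : Hq g} (hs : Solv F (V z0)) :
    ∀ (m k : ℕ), 2 ≤ k → N ≤ k + 1 + m →
    ∀ e f : Fin g → UF F,
    (∀ i, Fd F 2 (mf F (e i) - 1 - V (ea i))) →
    (∀ i, Fd F 2 (mf F (f i) - 1 - V (eb i))) →
    Fd F (k + 1) (mf F (cprod e f) - 1) →
    ∃ e' f' : Fin g → UF F, (∀ i, Fd F 2 (mf F (e' i) - 1 - V (ea i))) ∧
      (∀ i, Fd F 2 (mf F (f' i) - 1 - V (eb i))) ∧ cprod e' f' = 1 := by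
  intro m
  induction m with
  | zero =>
    intro k _ hkn e f he hf h
    refine ⟨e, f, he, hf, ?_⟩
    have h1 := sub_eq_zero.1 (h.eq_zero hkn)
    exact Subtype.ext (Units.ext h1)
  | succ m ih =>
    intro k hk hkn e f he hf h
    obtain ⟨e', f', he', hf', h1⟩ := fsolve_step hs hk e f he hf h
    apply ih (k + 1) (by omega) (by omega) e' f' _ _ h1
    · intro i
      have := ((he' i).mono hk).add (he i)
      have h2 : mf F (e' i) - mf F (e i) + (mf F (e i) - 1 - V (ea i)) =
        mf F (e' i) - 1 - V (ea i) := by abel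
      rwa [h2] at this
    · intro i
      have := ((hf' i).mono hk).add (hf i)
      have h2 : mf F (f' i) - mf F (f i) + (mf F (f i) - 1 - V (eb i)) =
        mf F (f' i) - 1 - V (eb i) := by abel
      rwa [h2] at this

/-- induction on elements of the surface group -/
theorem surf_induction {P : Surf g → Prop} (h1 : P 1) (ha : ∀ i, P (al i)) (hb : ∀ i, P (be i))
    (hm : ∀ x y, P x → P y → P (x * y)) (hi : ∀ x, P x → P x⁻¹) (x : Surf g) : P x := by
  let S : Subgroup (Surf g) :=
    { carrier := {x | P x}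
      mul_mem' := fun {a b} ha hb => hm a b ha hb
      one_mem' := h1
      inv_mem' := fun {a} ha => hi a ha }
  have hS : S = ⊤ := by
    have h := PresentedGroup.closure_range_of ({relator g} : Set (FreeGroup (Gen g)))
    rw [eq_top_iff]
    change (⊤ : Subgroup (PresentedGroup ({relator g} : Set (FreeGroup (Gen g))))) ≤ S
    rw [← h, Subgroup.closure_le]
    rintro _ ⟨(i | i), rfl⟩
    · exact ha i
    · exact hb i
  have : x ∈ S := by rw [hS]; exact Subgroup.mem_top x
  exact this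

/-- **existence of unipotent representations with given symbol** -/
theorem exists_rep {V : Hq g →ₗ[ℚ] Module.End ℚ E} (hV : ∀ z, Fd F 1 (V z))
    (hrel : ∑ i, (V (ea i) * V (eb i) - V (eb i) * V (ea i)) = 0) {z0 : Hq g}
    (hs : Solv F (V z0)) :
    ∃ Ψ : Surf g →* Module.End ℚ E, (∀ x, Fd F 1 (Ψ x - 1)) ∧
      ∀ x, Fd F 2 (Ψ x - 1 - V (cls x)) := by
  choose e he using fun i => exists_uf (hV (ea i))
  choose f hf using fun i => exists_uf (hV (eb i))
  have he' : ∀ i, mf F (e i) - 1 = V (ea i) := fun i => by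
    rw [he, add_sub_cancel_left]
  have hf' : ∀ i, mf F (f i) - 1 = V (eb i) := fun i => by
    rw [hf, add_sub_cancel_left]
  have hstart : Fd F 3 (mf F (cprod e f) - 1) := by
    have hcdeg : ∀ i, Fd F 2 ((mf F (e i) - 1) * (mf F (f i) - 1) -
        (mf F (f i) - 1) * (mf F (e i) - 1)) :=
      fun i => ((mf_deg _).mul (mf_deg _)).sub ((mf_deg _).mul (mf_deg _))
    have t1 := fprod_mod (X := fun i => mf F ⁅e i, f i⁆) (C := fun _ => 1)
      (c := fun i => (mf F (e i) - 1) * (mf F (f i) - 1) -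
        (mf F (f i) - 1) * (mf F (e i) - 1)) (k := 2)
      (fun i => fcomm1 _ _) (fun i => (fcomm2 _ _).mono (by norm_num))
      (fun i => by rw [sub_self]; exact Fd.zero) hcdeg (List.finRange g)
    have t2 : ((List.finRange g).map fun _ : Fin g => (1 : Module.End ℚ E)).prod = 1 := by simp
    rw [t2, ← mf_cprod, ← Fin.sum_univ_def] at t1
    obtain ⟨t3, -, t4⟩ := t1
    simp only [he', hf'] at t3
    rw [hrel, sub_zero] at t3
    exact t3
  obtain ⟨e', f', hee, hff, hprod⟩ := fsolve hs N 2 le_rfl (by omega) e f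
    (fun i => by rw [he', sub_self]; exact Fd.zero)
    (fun i => by rw [hf', sub_self]; exact Fd.zero) hstart
  set φ : Surf g →* UF F := surfLift e' f' hprod with hφ
  refine ⟨(mf F).comp φ, fun x => mf_deg (φ x), fun x => ?_⟩
  simp only [MonoidHom.comp_apply]
  induction x using surf_induction with
  | h1 =>
    rw [map_one, map_one, cls_one, map_zero, sub_self, sub_zero]
    exact Fd.zero
  | ha i => rw [hφ, surfLift_al, cls_al]; exact hee i
  | hb i => rw [hφ, surfLift_be, cls_be]; exact hff i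
  | hm x y hx hy =>
    have h1 : mf F (φ (x * y)) - 1 - V (cls (x * y)) = (mf F (φ x) - 1 - V (cls x)) +
        (mf F (φ y) - 1 - V (cls y)) + (mf F (φ x) - 1) * (mf F (φ y) - 1) := by
      rw [map_mul, map_mul, cls_mul, map_add]
      noncomm_ring
    rw [h1]
    exact (hx.add hy).add ((mf_deg _).mul (mf_deg _))
  | hi x hx =>
    have h1 : mf F (φ x⁻¹) - 1 - V (cls x⁻¹) = -(mf F (φ x) - 1 - V (cls x)) -
        (mf F (φ x) - 1) * (mf F (φ x⁻¹) - 1) := by
      have h2 : mf F (φ x) * mf F (φ x⁻¹) = 1 := by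
        rw [← map_mul, ← map_mul, mul_inv_cancel, map_one, map_one]
      rw [cls_inv, map_neg]
      have h3 : (mf F (φ x) - 1) * (mf F (φ x⁻¹) - 1) =
        1 - mf F (φ x) - mf F (φ x⁻¹) + 1 := by
        have h4 : (mf F (φ x) - 1) * (mf F (φ x⁻¹) - 1) =
          mf F (φ x) * mf F (φ x⁻¹) - mf F (φ x) - mf F (φ x⁻¹) + 1 := by noncomm_ring
        rw [h4, h2]
      rw [h3]
      abel
    rw [h1]
    exact hx.neg.sub ((mf_deg _).mul (mf_deg _))

/-! ### Linear extension -/

open Aug

/-- linear extension to the group ring -/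
noncomputable def fext {G : Type*} [Group G] (Ψ : G →* Module.End ℚ E) :
    MonoidAlgebra ℚ G →ₐ[ℚ] Module.End ℚ E :=
  MonoidAlgebra.lift ℚ _ G Ψ

theorem fext_dl {G : Type*} [Group G] (Ψ : G →* Module.End ℚ E) (x : G) :
    fext Ψ (dl x) = Ψ x - 1 := by
  unfold dl fext
  rw [map_sub, MonoidAlgebra.lift_of, map_one]

theorem fext_deg {G : Type*} [Group G] {Ψ : G →* Module.End ℚ E} (h : ∀ x, Fd F 1 (Ψ x - 1))
    {m : ℕ} {y : MonoidAlgebra ℚ G} (hy : y ∈ I G ^ m) : Fd F m (fext Ψ y) := by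
  induction m generalizing y with
  | zero =>
    rw [pow_zero, Submodule.mem_one] at hy
    obtain ⟨r, rfl⟩ := hy
    rw [AlgHom.commutes, Algebra.algebraMap_eq_smul_one]
    exact Fd.one.smul r
  | succ m ih =>
    rw [pow_succ] at hy
    refine Submodule.mul_induction_on hy ?_ ?_
    · intro a ha b hb
      rw [map_mul]
      refine (ih ha).mul ?_
      unfold I at hb
      induction hb using Submodule.span_induction with
      | mem b hb =>
        obtain ⟨x, rfl⟩ := hb
        rw [fext_dl]; exact h x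
      | zero => rw [map_zero]; exact Fd.zero
      | add b b' _ _ h h' => rw [map_add]; exact h.add h'
      | smul r b _ h => rw [map_smul]; exact h.smul r
    · intro a b ha hb
      rw [map_add]; exact ha.add hb

end Filt

end TG
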