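import Mathlib

/-!
# The Magnus expansion of a free group

`coef g w` is the coefficient of the word `w` in the Magnus expansion of `g`.
-/

namespace TG

namespace Mag

variable {α : Type*} [DecidableEq α]

/-- multiplication on the left by `1 + X_i` -/
def act (i : α) (c : List α → ℚ) : List α → ℚ
  | [] => c []
  | j :: w => c (j :: w) + if j = i then c w else 0

/-- multiplication on the left by `(1 + X_i)⁻¹` -/
def invAct (i : α) (c : List α → ℚ) : List α → ℚ
  | [] => c []
  | j :: w => c (j :: w) - if j = i then invAct i c w else 0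

theorem act_invAct (i : α) (c : List α → ℚ) : act i (invAct i c) = c := by
  funext w
  cases w with
  | nil => rfl
  | cons j w => simp only [act, invAct]; ring

theorem invAct_act (i : α) (c : List α → ℚ) : invAct i (act i c) = c := by
  funext w
  induction w with
  | nil => rfl
  | cons j w ih => simp only [act, invAct, ih]; ring

/-- multiplication by `1 + X_i` as a permutation -/
def actEquiv (i : α) : Equiv.Perm (List α → ℚ) where
  toFun := act i
  invFun := invAct i
  left_inv := invAct_act i
  right_inv := act_invAct i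

/-- the Magnus action -/
def magnus : FreeGroup α →* Equiv.Perm (List α → ℚ) := FreeGroup.lift actEquiv

/-- the unit series -/
def delta : List α → ℚ := fun w => if w = [] then 1 else 0

/-- the coefficients of the Magnus expansion -/
def coef (g : FreeGroup α) : List α → ℚ := magnus g delta

theorem coef_one : coef (1 : FreeGroup α) = delta := by
  simp [coef]

theorem coef_of_mul (i : α) (g : FreeGroup α) :
    coef (FreeGroup.of i * g) = act i (coef g) := by
  simp [coef, magnus, actEquiv]

theorem coef_of_inv_mul (i : α) (g : FreeGroup α) :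
    coef ((FreeGroup.of i)⁻¹ * g) = invAct i (coef g) := by
  simp only [coef, magnus, map_mul, map_inv, FreeGroup.lift_apply_of, Equiv.Perm.mul_apply]
  rfl

omit [DecidableEq α] in
/-- induction on words, adding letters on the left -/
theorem left_induction {P : FreeGroup α → Prop} (h1 : P 1)
    (h2 : ∀ i g, P g → P (FreeGroup.of i * g)) (h3 : ∀ i g, P g → P ((FreeGroup.of i)⁻¹ * g))
    (g : FreeGroup α) : P g := by
  have h : ∀ x : FreeGroup α, ∀ g, P g → P (x * g) := by
    intro x
    induction x using FreeGroup.induction_on with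
    | C1 => intro g hg; rwa [one_mul]
    | of i => exact h2 i
    | inv_of i _ => exact h3 i
    | mul x y hx hy =>
      intro g hg
      rw [mul_assoc]
      exact hx _ (hy _ hg)
  have := h g 1 h1
  rwa [mul_one] at this

theorem coef_nil (g : FreeGroup α) : coef g [] = 1 := by
  induction g using left_induction with
  | h1 => simp [coef_one, delta]
  | h2 i g h => rw [coef_of_mul]; exact h
  | h3 i g h => rw [coef_of_inv_mul]; exact h

/-! ### Nonvanishing -/

/-- alternating words -/
abbrev Alt (w : List α) : Prop := w.IsChain (· ≠ ·)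

/-- the induction statement: `L` starts with a syllable in the letter `i` -/
def Good (i : α) (b : Bool) (c : List α → ℚ) : Prop :=
  ∃ (s : List α) (m C : ℚ), C ≠ 0 ∧ (b = true → 0 < m) ∧ (b = false → m < 0) ∧ Alt (i :: s) ∧
    c (i :: s) = m * C ∧ c s = C ∧
    (∀ w, Alt w → s.length + 1 ≤ w.length → w ≠ i :: s → c w = 0) ∧
    (∀ w, Alt w → w.head? ≠ some i → s.length ≤ w.length → w ≠ s → c w = 0)

omit [DecidableEq α] in
theorem head_ne {i : α} {s : List α} (h : Alt (i :: s)) : s.head? ≠ some i := by
  cases s with
  | nil => simp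
  | cons j s =>
    have := (List.isChain_cons_cons.1 h).1
    simp only [List.head?_cons, ne_eq, Option.some.injEq]
    exact fun h => this h.symm

/-- value on a word not starting with `i` -/
theorem act_of_ne {i : α} {c : List α → ℚ} {w : List α} (h : w.head? ≠ some i) :
    act i c w = c w := by
  cases w with
  | nil => rfl
  | cons j w =>
    simp only [List.head?_cons, ne_eq, Option.some.injEq] at h
    simp [act, h]

theorem invAct_of_ne {i : α} {c : List α → ℚ} {w : List α} (h : w.head? ≠ some i) :
    invAct i c w = c w := by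
  cases w with
  | nil => rfl
  | cons j w =>
    simp only [List.head?_cons, ne_eq, Option.some.injEq] at h
    simp [invAct, h]

/-- `act` or `invAct` -/
def actB (b : Bool) (i : α) (c : List α → ℚ) : List α → ℚ :=
  if b then act i c else invAct i c

/-- the sign of a letter -/
def sg (b : Bool) : ℚ := if b then 1 else -1

theorem actB_of_ne {b : Bool} {i : α} {c : List α → ℚ} {w : List α} (h : w.head? ≠ some i) :
    actB b i c w = c w := by
  unfold actB
  split_ifs
  · exact act_of_ne h
  · exact invAct_of_ne h

theorem actB_cons {b : Bool} {i : α} {c : List α → ℚ} {w : List α} (h : w.head? ≠ some i) :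
    actB b i c (i :: w) = c (i :: w) + sg b * c w := by
  unfold actB sg
  cases b
  · simp only [Bool.false_eq_true, if_false, invAct, if_true, invAct_of_ne h]
    ring
  · simp only [if_true, act, one_mul]

theorem good_start (i : α) (b : Bool) : Good i b (actB b i delta) := by
  have hnil : ([] : List α).head? ≠ some i := by simp
  refine ⟨[], sg b, 1, one_ne_zero, ?_, ?_, List.isChain_singleton i, ?_, ?_, ?_, ?_⟩
  · rintro rfl; simp [sg]
  · rintro rfl; simp [sg]
  · rw [actB_cons hnil]; simp [delta]
  · rw [actB_of_ne hnil]; simp [delta]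
  · intro w hw hlen hne
    cases w with
    | nil => simp at hlen
    | cons j w =>
      by_cases hj : j = i
      · subst hj
        rw [actB_cons (head_ne hw)]
        have : w ≠ [] := by rintro rfl; exact hne rfl
        simp [delta, this]
      · rw [actB_of_ne (by simpa using hj)]
        simp [delta]
  · intro w hw hh _ hne
    rw [actB_of_ne hh]
    simp [delta, hne]

theorem good_same {i : α} {b : Bool} {c : List α → ℚ} (h : Good i b c) :
    Good i b (actB b i c) := by
  obtain ⟨s, m, C, hC, hb1, hb2, halt, h1, h2, h3, h4⟩ := h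
  refine ⟨s, m + sg b, C, hC, ?_, ?_, halt, ?_, ?_, ?_, ?_⟩
  · intro h; have := hb1 h; subst h; simp only [sg, if_true]; linarith
  · intro h; have := hb2 h; subst h; simp only [sg, Bool.false_eq_true, if_false]; linarith
  · rw [actB_cons (head_ne halt), h1, h2]; ring
  · rw [actB_of_ne (head_ne halt), h2]
  · intro w hw hlen hne
    cases w with
    | nil => simp at hlen
    | cons j w =>
      by_cases hj : j = i
      · subst hj
        rw [actB_cons (head_ne hw), h3 _ hw hlen hne,
          h4 w hw.tail (head_ne hw) (by simpa using hlen) (by rintro rfl; exact hne rfl)]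
        ring
      · rw [actB_of_ne (by simpa using hj)]
        exact h3 _ hw hlen hne
  · intro w hw hh hlen hne
    rw [actB_of_ne hh]
    exact h4 w hw hh hlen hne

theorem good_diff {i j : α} {b b' : Bool} {c : List α → ℚ} (h : Good i b c) (hij : j ≠ i) :
    Good j b' (actB b' j c) := by
  obtain ⟨s, m, C, hC, hb1, hb2, halt, h1, h2, h3, h4⟩ := h
  have hm : m ≠ 0 := by
    cases b
    · exact (hb2 rfl).ne
    · exact (hb1 rfl).ne'
  have hhead : (i :: s).head? ≠ some j := by simpa using hij.symm
  have halt' : Alt (j :: i :: s) := List.isChain_cons_cons.2 ⟨hij, halt⟩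
  refine ⟨i :: s, sg b', m * C, mul_ne_zero hm hC, ?_, ?_, halt', ?_, ?_, ?_, ?_⟩
  · rintro rfl; simp [sg]
  · rintro rfl; simp [sg]
  · rw [actB_cons hhead, h3 _ halt' (by simp) (by
      intro h
      have := congrArg List.length h
      simp at this), h1]
    ring
  · rw [actB_of_ne hhead, h1]
  · intro w hw hlen hne
    have hlen' : s.length + 2 ≤ w.length := hlen
    have hw0 : c w = 0 := h3 w hw (by omega) (by
      rintro rfl
      simp at hlen')
    cases w with
    | nil => simp at hlen
    | cons k w =>
      by_cases hk : k = j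
      · subst hk
        rw [actB_cons (head_ne hw), hw0, h3 w hw.tail (by simpa using hlen') (by
          rintro rfl; exact hne rfl)]
        ring
      · rw [actB_of_ne (by simpa using hk)]
        exact hw0
  · intro w hw hh hlen hne
    rw [actB_of_ne hh]
    exact h3 w hw hlen hne

omit [DecidableEq α] in
theorem good_ne {i : α} {b : Bool} {c : List α → ℚ} (h : Good i b c) :
    ∃ w, w ≠ [] ∧ c w ≠ 0 := by
  obtain ⟨s, m, C, hC, hb1, hb2, halt, h1, h2, h3, h4⟩ := h
  have hm : m ≠ 0 := by
    cases b
    · exact (hb2 rfl).ne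
    · exact (hb1 rfl).ne'
  exact ⟨i :: s, by simp, by rw [h1]; exact mul_ne_zero hm hC⟩

theorem coef_mk_cons (x : α × Bool) (L : List (α × Bool)) :
    coef (FreeGroup.mk (x :: L)) = actB x.2 x.1 (coef (FreeGroup.mk L)) := by
  have h : FreeGroup.mk (x :: L) = FreeGroup.mk [x] * FreeGroup.mk L := by
    rw [FreeGroup.mul_mk]; rfl
  rw [h]
  obtain ⟨i, b⟩ := x
  cases b
  · have h1 : FreeGroup.mk [(i, false)] = (FreeGroup.of i)⁻¹ := rfl
    rw [h1, coef_of_inv_mul]
    rfl
  · have h1 : FreeGroup.mk [(i, true)] = FreeGroup.of i := rfl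
    rw [h1, coef_of_mul]
    rfl

theorem good_reduced (L : List (α × Bool)) : ∀ x : α × Bool,
    FreeGroup.IsReduced (x :: L) → Good x.1 x.2 (coef (FreeGroup.mk (x :: L))) := by
  induction L with
  | nil =>
    intro x _
    rw [coef_mk_cons]
    have h : (FreeGroup.mk [] : FreeGroup α) = 1 := rfl
    rw [h, coef_one]
    exact good_start _ _
  | cons y L ih =>
    intro x hx
    rw [coef_mk_cons]
    obtain ⟨h1, h2⟩ := FreeGroup.isReduced_cons_cons.1 hx
    by_cases h : x.1 = y.1
    · rw [h, h1 h]
      exact good_same (ih y h2)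
    · exact good_diff (ih y h2) h

/-- **Magnus' theorem**: a nontrivial element has a nonzero coefficient of positive degree -/
theorem exists_coef_ne {g : FreeGroup α} (hg : g ≠ 1) : ∃ w, w ≠ [] ∧ coef g w ≠ 0 := by
  rcases hL : g.toWord with _ | ⟨x, L⟩
  · exact absurd (FreeGroup.toWord_eq_nil_iff.1 hL) hg
  · have h1 : FreeGroup.IsReduced (x :: L) := by
      rw [← hL]; exact FreeGroup.isReduced_toWord
    have h2 := good_ne (good_reduced L x h1)
    rw [← hL, FreeGroup.mk_toWord] at h2
    exact h2

/-- minimal degree -/
theorem exists_min {g : FreeGroup α} (hg : g ≠ 1) :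
    ∃ w : List α, w ≠ [] ∧ coef g w ≠ 0 ∧
      ∀ w' : List α, w' ≠ [] → w'.length < w.length → coef g w' = 0 := by
  classical
  have h := exists_coef_ne hg
  have h' : ∃ n : ℕ, ∃ w : List α, w.length = n ∧ w ≠ [] ∧ coef g w ≠ 0 := by
    obtain ⟨w, hw1, hw2⟩ := h
    exact ⟨w.length, w, rfl, hw1, hw2⟩
  obtain ⟨w, hw, hw1, hw2⟩ := Nat.find_spec h'
  refine ⟨w, hw1, hw2, fun w' hw' hlt => ?_⟩
  by_contra hne
  exact Nat.find_min h' (hw ▸ hlt) ⟨w', rfl, hw', hne⟩

/-! ### Evaluation -/

section Eval

variable [Fintype α] {A : Type*} [AddCommGroup A] [Module ℚ A] (D : α → Module.End ℚ A)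

/-- the sum of `c w • D_w` over the words of length `m` -/
def S : ℕ → (List α → ℚ) → Module.End ℚ A
  | 0, c => c [] • 1
  | m + 1, c => ∑ j, D j * S m fun w => c (j :: w)

omit [DecidableEq α] in
theorem S_add (m : ℕ) (c c' : List α → ℚ) :
    S D m (fun w => c w + c' w) = S D m c + S D m c' := by
  induction m generalizing c c' with
  | zero => simp [S, add_smul]
  | succ m ih =>
    simp only [S]
    rw [← Finset.sum_add_distrib]
    exact Finset.sum_congr rfl fun j _ => by rw [ih, mul_add]

omit [DecidableEq α] in
theorem S_zero (m : ℕ) (c : List α → ℚ) (h : ∀ w, w.length = m → c w = 0) : S D m c = 0 := by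
  induction m generalizing c with
  | zero => simp [S, h [] rfl]
  | succ m ih =>
    simp only [S]
    refine Finset.sum_eq_zero fun j _ => ?_
    rw [ih _ (fun w hw => h _ (by simp [hw])), mul_zero]

theorem S_act (m : ℕ) (i : α) (c : List α → ℚ) :
    S D (m + 1) (act i c) = S D (m + 1) c + D i * S D m c := by
  have h : ∀ j, S D m (fun w => act i c (j :: w)) =
      S D m (fun w => c (j :: w)) + if j = i then S D m c else 0 := by
    intro j
    simp only [act]
    rw [S_add]
    split_ifs with h
    · rfl
    · rw [S_zero D m (fun _ => (0 : ℚ)) fun _ _ => rfl]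
  simp only [S] at h ⊢
  simp only [h, mul_add, Finset.sum_add_distrib]
  simp

/-- the truncated evaluation -/
def ev (n : ℕ) (c : List α → ℚ) : Module.End ℚ A := ∑ m ∈ Finset.range (n + 1), S D m c

theorem ev_act (n : ℕ) (i : α) (c : List α → ℚ) :
    (1 + D i) * ev D n c - ev D n (act i c) = D i * S D n c := by
  induction n with
  | zero =>
    simp only [ev, zero_add, Finset.sum_range_one]
    have h : S D 0 (act i c) = S D 0 c := rfl
    rw [h, add_mul, one_mul, add_sub_cancel_left]
  | succ n ih =>
    have h1 : ∀ c, ev D (n + 1) c = ev D n c + S D (n + 1) c := fun c => by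
      rw [ev, Finset.sum_range_succ]; rfl
    rw [h1, h1, S_act, mul_add]
    have h2 : (1 + D i) * ev D n c + (1 + D i) * S D (n + 1) c -
        (ev D n (act i c) + (S D (n + 1) c + D i * S D n c)) =
        ((1 + D i) * ev D n c - ev D n (act i c)) - D i * S D n c + D i * S D (n + 1) c := by
      rw [add_mul 1 (D i) (S D (n + 1) c), one_mul]
      abel
    rw [h2, ih, sub_self, zero_add]

omit [DecidableEq α] in
theorem S_mem {K : Submodule ℚ A} {n : ℕ}
    (hn : ∀ l : List α, l.length = n + 1 → ∀ x, (l.map D).prod x ∈ K) :
    ∀ (m : ℕ) (l : List α) (c : List α → ℚ), l.length + m = n + 1 →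
      ∀ x, (l.map D).prod (S D m c x) ∈ K := by
  intro m
  induction m with
  | zero =>
    intro l c hl x
    simp only [S, LinearMap.smul_apply, Module.End.one_apply, map_smul]
    exact Submodule.smul_mem _ _ (hn l (by simpa using hl) x)
  | succ m ih =>
    intro l c hl x
    simp only [S, LinearMap.sum_apply, map_sum, Module.End.mul_apply]
    refine Submodule.sum_mem _ fun j _ => ?_
    have h := ih (l ++ [j]) (fun w => c (j :: w)) (by simp; omega) x
    simpa using h

/-- **evaluation of the Magnus expansion** -/
theorem eval (ψ : FreeGroup α →* Module.End ℚ A) (hD : ∀ i, ψ (FreeGroup.of i) = 1 + D i)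
    {K : Submodule ℚ A} (hK : ∀ g x, x ∈ K → ψ g x ∈ K) {n : ℕ}
    (hn : ∀ l : List α, l.length = n + 1 → ∀ x, (l.map D).prod x ∈ K) (g : FreeGroup α) (x : A) :
    ψ g x - ev D n (coef g) x ∈ K := by
  have hDS : ∀ i c x, D i (S D n c x) ∈ K := fun i c x => by
    simpa using S_mem D hn n [i] c (by simp; omega) x
  have hact : ∀ i c x, ψ (FreeGroup.of i) (ev D n c x) - ev D n (act i c) x ∈ K := by
    intro i c x
    have h := congrArg (fun T : Module.End ℚ A => T x) (ev_act D n i c)
    simp only [LinearMap.sub_apply, Module.End.mul_apply] at h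
    rw [hD, h]
    exact hDS i c x
  revert x
  induction g using left_induction with
  | h1 =>
    intro x
    rw [map_one, coef_one]
    have h : ev D n (delta : List α → ℚ) = 1 := by
      unfold ev
      rw [Finset.sum_range_succ']
      have h0 : S D 0 (delta : List α → ℚ) = 1 := by simp [S, delta]
      rw [h0, Finset.sum_eq_zero, zero_add]
      intro m _
      apply S_zero
      intro w hw
      have : w ≠ [] := by rintro rfl; simp at hw
      simp [delta, this]
    rw [h, sub_self]
    exact K.zero_mem
  | h2 i g ih =>
    intro x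
    rw [coef_of_mul, map_mul, Module.End.mul_apply]
    have h1 := hK (FreeGroup.of i) _ (ih x)
    rw [map_sub] at h1
    have h2 := K.add_mem h1 (hact i (coef g) x)
    rwa [sub_add_sub_cancel] at h2
  | h3 i g ih =>
    intro x
    rw [coef_of_inv_mul, map_mul, Module.End.mul_apply]
    have h1 := hact i (invAct i (coef g)) x
    rw [act_invAct] at h1
    have h2 := K.sub_mem (ih x) h1
    have h3 := hK (FreeGroup.of i)⁻¹ _ h2
    have h4 : ∀ y, ψ (FreeGroup.of i)⁻¹ (ψ (FreeGroup.of i) y) = y := by
      intro y
      rw [← Module.End.mul_apply, ← map_mul, inv_mul_cancel, map_one]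
      rfl
    rw [sub_sub_sub_cancel_right, map_sub, h4] at h3
    exact h3

end Eval

end Mag

end TG
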