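import Pool.Agent.H40.TG.Cls
import Pool.Agent.H40.TG.Aug

/-!
# Homological data and symbols of bounding pair maps
-/

open scoped commutatorElement

namespace TG

variable {g : ℕ}

namespace BP

variable (d : BP g)

theorem orient' (x y : Surf g) : om (cls (d.φ x)) (cls (d.φ y)) = om (cls x) (cls y) :=
  d.orient x y

theorem AA (i j : Fin g) : om (d.A i) (d.A j) = 0 := by
  unfold A
  rw [d.orient', cls_al, cls_al, om_ea]
  simp [ea]

theorem BB (i j : Fin g) : om (d.B i) (d.B j) = 0 := by
  unfold B
  rw [d.orient', cls_be, cls_be, om_eb]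
  simp [eb]

theorem AB (i j : Fin g) : om (d.A i) (d.B j) = if i = j then 1 else 0 := by
  unfold A B
  rw [d.orient', cls_al, cls_be, om_eb]
  simp [ea, Pi.single_apply, eq_comm]

theorem BA (i j : Fin g) : om (d.B i) (d.A j) = if i = j then -1 else 0 := by
  rw [om_symp.anti, AB]
  by_cases h : i = j
  · simp [h]
  · simp [h, Ne.symm h]

theorem a_eq : d.a = d.A d.k := rfl

/-- the map induced on homology -/
def Phi : Hq g →ₗ[ℚ] Hq g where
  toFun z := ∑ i, (z.1 i • d.A i + z.2 i • d.B i)
  map_add' z w := by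
    rw [← Finset.sum_add_distrib]
    refine Finset.sum_congr rfl fun i _ => ?_
    rw [Prod.fst_add, Prod.snd_add, Pi.add_apply, Pi.add_apply, add_smul, add_smul]
    abel
  map_smul' r z := by
    rw [Finset.smul_sum]
    refine Finset.sum_congr rfl fun i _ => ?_
    rw [Prod.smul_fst, Prod.smul_snd, Pi.smul_apply, Pi.smul_apply, smul_add, smul_assoc,
      smul_assoc]
    rfl

theorem Phi_apply (z : Hq g) : d.Phi z = ∑ i, (z.1 i • d.A i + z.2 i • d.B i) := rfl

theorem om_Phi_B (z : Hq g) (j : Fin g) : om (d.Phi z) (d.B j) = z.1 j := by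
  rw [Phi_apply, map_sum, LinearMap.sum_apply, Finset.sum_eq_single j]
  · simp [AB, BB]
  · intro i _ hi
    simp [AB, BB, hi]
  · intro h; exact absurd (Finset.mem_univ j) h

theorem om_Phi_A (z : Hq g) (j : Fin g) : om (d.Phi z) (d.A j) = -z.2 j := by
  rw [Phi_apply, map_sum, LinearMap.sum_apply, Finset.sum_eq_single j]
  · simp [AA, BA]
  · intro i _ hi
    simp [AA, BA, hi]
  · intro h; exact absurd (Finset.mem_univ j) h

theorem Phi_surj : Function.Surjective d.Phi := by
  rw [← LinearMap.injective_iff_surjective, injective_iff_map_eq_zero]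
  intro z hz
  apply Prod.ext
  · funext j
    rw [← d.om_Phi_B, hz, map_zero]; rfl
  · funext j
    have := d.om_Phi_A z j
    rw [hz, map_zero, LinearMap.zero_apply] at this
    simp only [Prod.snd_zero, Pi.zero_apply]
    linarith

/-- every class is a combination of the `A_i` and `B_i` -/
theorem complete (z : Hq g) : z = ∑ i, (om z (d.B i) • d.A i - om z (d.A i) • d.B i) := by
  obtain ⟨w, rfl⟩ := d.Phi_surj z
  conv_lhs => rw [Phi_apply]
  refine Finset.sum_congr rfl fun i _ => ?_
  rw [om_Phi_B, om_Phi_A, neg_smul, sub_neg_eq_add]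

theorem mem_side {s : Bool} {i : Fin g} :
    i ∈ d.side s ↔ if s then i < d.k else d.k < i := by
  simp [side]

theorem k_not_mem (s : Bool) : d.k ∉ d.side s := by
  rw [mem_side]
  cases s <;> simp

theorem side_disj (s : Bool) {i : Fin g} (h : i ∈ d.side s) : i ∉ d.side (!s) := by
  rw [mem_side] at h ⊢
  cases s
  · simp only [Bool.false_eq_true, if_false, Bool.not_false, if_true] at h ⊢
    exact not_lt.2 h.le
  · simp only [if_true, Bool.not_true, Bool.false_eq_true, if_false] at h ⊢
    exact not_lt.2 h.le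

/-- the projection as a linear map -/
def projL (s : Bool) : Module.End ℚ (Hq g) :=
  ∑ i ∈ d.side s, ((om.flip (d.B i)).smulRight (d.A i) - (om.flip (d.A i)).smulRight (d.B i))

theorem projL_apply (s : Bool) (z : Hq g) : d.projL s z = d.proj s z := by
  simp [projL, proj, om_eq_inter]

theorem proj_apply (s : Bool) (z : Hq g) :
    d.projL s z = ∑ i ∈ d.side s, (om z (d.B i) • d.A i - om z (d.A i) • d.B i) := by
  simp [projL]

theorem proj_A (s : Bool) (j : Fin g) : d.projL s (d.A j) = if j ∈ d.side s then d.A j else 0 := by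
  rw [proj_apply]
  simp only [AB, AA, zero_smul, sub_zero, ite_smul, one_smul]
  rw [Finset.sum_ite_eq]

theorem proj_B (s : Bool) (j : Fin g) : d.projL s (d.B j) = if j ∈ d.side s then d.B j else 0 := by
  rw [proj_apply]
  simp only [BB, BA, zero_smul, zero_sub, ite_smul, neg_smul, one_smul]
  rw [Finset.sum_neg_distrib, Finset.sum_ite_eq]
  split_ifs <;> simp

theorem univ_split (F : Fin g → Hq g) :
    ∑ i, F i = ∑ i ∈ d.side true, F i + ∑ i ∈ d.side false, F i + F d.k := by
  have h : (Finset.univ : Finset (Fin g)) = insert d.k (d.side true ∪ d.side false) := by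
    ext i
    simp only [Finset.mem_univ, Finset.mem_insert, Finset.mem_union, mem_side, true_iff,
      if_true, Bool.false_eq_true, if_false]
    rcases lt_trichotomy i d.k with h | h | h
    · exact Or.inr (Or.inl h)
    · exact Or.inl h
    · exact Or.inr (Or.inr h)
  have hk : d.k ∉ d.side true ∪ d.side false := by
    rw [Finset.mem_union, not_or]
    exact ⟨d.k_not_mem true, d.k_not_mem false⟩
  have hd : Disjoint (d.side true) (d.side false) := by
    rw [Finset.disjoint_left]
    intro i hi
    exact d.side_disj true hi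
  rw [h, Finset.sum_insert hk, Finset.sum_union hd]
  abel

/-- the homological data of a bounding pair map -/
def dat : Dat (om : Hq g →ₗ[ℚ] Hq g →ₗ[ℚ] ℚ) where
  a := d.a
  b := d.B d.k
  p := d.projL
  adj s x y := by
    rw [proj_apply, proj_apply, map_sum, map_sum, LinearMap.sum_apply]
    refine Finset.sum_congr rfl fun i _ => ?_
    simp only [map_sub, map_smul, LinearMap.sub_apply, LinearMap.smul_apply, smul_eq_mul]
    rw [om_symp.anti y (d.B i), om_symp.anti y (d.A i)]
    ring
  idem s x := by
    conv_lhs => rw [proj_apply d s x]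
    rw [map_sum, proj_apply]
    refine Finset.sum_congr rfl fun i hi => ?_
    rw [map_sub, map_smul, map_smul, proj_A, proj_B, if_pos hi, if_pos hi]
  disj s x := by
    conv_lhs => rw [proj_apply d (!s) x]
    rw [map_sum]
    refine Finset.sum_eq_zero fun i hi => ?_
    have h : i ∉ d.side s := by
      have := d.side_disj (!s) hi
      rwa [Bool.not_not] at this
    rw [map_sub, map_smul, map_smul, proj_A, proj_B, if_neg h, if_neg h, smul_zero, smul_zero,
      sub_zero]
  pa s := by rw [a_eq, proj_A, if_neg (d.k_not_mem s)]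
  decomp x := by
    conv_lhs => rw [d.complete x]
    rw [d.univ_split, proj_apply, proj_apply, a_eq]
    abel
  ne s := by
    cases s
    · refine ⟨d.A ⟨d.k + 1, d.lt⟩, ?_⟩
      have h : (⟨d.k + 1, d.lt⟩ : Fin g) ∈ d.side false := by
        rw [mem_side]
        simp only [Bool.false_eq_true, if_false]
        exact Nat.lt_succ_self _
      rw [proj_A, if_pos h]
      intro h0
      have := d.AB ⟨d.k + 1, d.lt⟩ ⟨d.k + 1, d.lt⟩
      rw [h0, map_zero, LinearMap.zero_apply, if_pos rfl] at this
      exact zero_ne_one this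
    · refine ⟨d.A ⟨0, lt_trans d.pos d.k.isLt⟩, ?_⟩
      have h : (⟨0, lt_trans d.pos d.k.isLt⟩ : Fin g) ∈ d.side true := by
        rw [mem_side]
        simp only [if_true]
        exact d.pos
      rw [proj_A, if_pos h]
      intro h0
      have := d.AB ⟨0, lt_trans d.pos d.k.isLt⟩ ⟨0, lt_trans d.pos d.k.isLt⟩
      rw [h0, map_zero, LinearMap.zero_apply, if_pos rfl] at this
      exact zero_ne_one this

theorem dat_H_le (s : Bool) : d.dat.H s ≤ d.H s := by
  intro x hx
  rw [d.dat.H_eq hx]
  refine Submodule.add_mem _ ?_ (Submodule.smul_mem _ _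
    (Submodule.subset_span (Set.mem_insert _ _)))
  change d.projL s x ∈ d.H s
  rw [proj_apply]
  refine Submodule.sum_mem _ fun i hi => ?_
  refine Submodule.sub_mem _ (Submodule.smul_mem _ _ (Submodule.subset_span ?_))
    (Submodule.smul_mem _ _ (Submodule.subset_span ?_))
  · exact Set.mem_insert_of_mem _ (Or.inl ⟨i, hi, rfl⟩)
  · exact Set.mem_insert_of_mem _ (Or.inr ⟨i, hi, rfl⟩)

theorem H_orth {s : Bool} {x : Hq g} (hx : x ∈ d.H s) : om d.a x = 0 := by
  have h : d.H s ≤ LinearMap.ker (om d.a) := by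
    unfold H
    rw [Submodule.span_le]
    rintro y (rfl | ⟨i, hi, rfl⟩ | ⟨i, hi, rfl⟩)
    · exact om_symp.alt _
    · exact d.AA _ _
    · rw [SetLike.mem_coe, LinearMap.mem_ker, a_eq, AB, if_neg]
      rintro rfl
      exact d.k_not_mem s hi
  exact h hx

end BP

/-! ### Quadratic functions -/

/-- `f` is a quadratic function with symbol `κ v ⊗ w` -/
def Quad (κ : ℚ) (v w f : Surf g → ℚ) : Prop :=
  ∀ x y, f (x * y) = f x + f y + κ * (v x * w y)

/-- additive functions -/
def AddF (v : Surf g → ℚ) : Prop := ∀ x y, v (x * y) = v x + v y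

theorem addF_om (ξ : Hq g) : AddF fun x => om ξ (cls x) := fun x y => by
  simp only [cls_mul, map_add]

theorem addF_om' (F : MulAut (Surf g)) (ξ : Hq g) : AddF fun x => om ξ (cls (F x)) :=
  fun x y => by simp only [map_mul, cls_mul, map_add]

theorem AddF.one {v : Surf g → ℚ} (h : AddF v) : v 1 = 0 := by
  have := h 1 1
  rw [mul_one] at this
  linarith

theorem AddF.inv {v : Surf g → ℚ} (h : AddF v) (x : Surf g) : v x⁻¹ = -v x := by
  have := h x x⁻¹
  rw [mul_inv_cancel, h.one] at this
  linarith

theorem AddF.comm {v : Surf g → ℚ} (h : AddF v) (x y : Surf g) : v ⁅x, y⁆ = 0 := by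
  rw [commutatorElement_def, h, h, h, h.inv, h.inv]
  ring

theorem AddF.ext {v w : Surf g → ℚ} (hv : AddF v) (hw : AddF w)
    (h1 : ∀ i, v (al i) = w (al i)) (h2 : ∀ i, v (be i) = w (be i)) (x : Surf g) :
    v x = w x := by
  let F1 : Surf g →* Multiplicative ℚ :=
    { toFun := fun x => Multiplicative.ofAdd (v x)
      map_one' := by rw [hv.one]; rfl
      map_mul' := fun a b => by rw [hv, ofAdd_add] }
  let F2 : Surf g →* Multiplicative ℚ :=
    { toFun := fun x => Multiplicative.ofAdd (w x)
      map_one' := by rw [hw.one]; rfl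
      map_mul' := fun a b => by rw [hw, ofAdd_add] }
  have hF : F1 = F2 := surf_hom_ext (fun i => congrArg Multiplicative.ofAdd (h1 i))
    (fun i => congrArg Multiplicative.ofAdd (h2 i))
  exact Multiplicative.ofAdd.injective (DFunLike.congr_fun hF x)

section Quad

variable {κ : ℚ} {v w f : Surf g → ℚ} (hf : Quad κ v w f) (hv : AddF v) (hw : AddF w)

include hf hv hw

omit hw in
theorem Quad.one : f 1 = 0 := by
  have := hf 1 1
  rw [mul_one, hv.one] at this
  linarith

theorem Quad.inv (x : Surf g) : f x⁻¹ = -f x + κ * (v x * w x) := by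
  have := hf x x⁻¹
  rw [mul_inv_cancel, hf.one hv, hw.inv] at this
  linarith

theorem Quad.conj (c x : Surf g) : f (c * x * c⁻¹) = f x + κ * (v c * w x - v x * w c) := by
  rw [hf, hf, hf.inv hv hw, hv, hw.inv]
  ring

theorem Quad.comm (x y : Surf g) : f ⁅x, y⁆ = κ * (v x * w y - v y * w x) := by
  have h1 : ⁅x, y⁆ = x * y * x⁻¹ * y⁻¹ := commutatorElement_def x y
  rw [h1, hf, hf.conj hv hw, hf.inv hv hw, hv, hv, hv.inv, hw.inv]
  ring

theorem Quad.prod (L : List (Surf g)) (hL : ∀ x ∈ L, v x = 0 ∧ w x = 0) :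
    f L.prod = (L.map f).sum ∧ v L.prod = 0 ∧ w L.prod = 0 := by
  induction L with
  | nil => simp [hf.one hv, hv.one, hw.one]
  | cons x L ih =>
    obtain ⟨h1, h2, h3⟩ := ih fun y hy => hL y (List.mem_cons_of_mem _ hy)
    have hx := hL x List.mem_cons_self
    rw [List.prod_cons, List.map_cons, List.sum_cons, hf, hv, hw, h1, h2, h3, hx.1, hx.2]
    simp

theorem Quad.cpart (k : ℕ) : f (cpart al be k) =
      ∑ i : Fin g with i.val < k, κ * (v (al i) * w (be i) - v (be i) * w (al i)) := by
  have h := (hf.prod hv hw ((List.ofFn fun i : Fin g => ⁅(al i : Surf g), be i⁆).take k)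
    (fun x hx => by
      have := List.mem_of_mem_take hx
      rw [List.mem_ofFn] at this
      obtain ⟨i, rfl⟩ := this
      exact ⟨hv.comm _ _, hw.comm _ _⟩)).1
  unfold TG.cpart
  rw [h, List.map_take, List.map_ofFn, List.sum_take_ofFn]
  refine Finset.sum_congr rfl fun i _ => ?_
  exact hf.comm hv hw _ _

theorem Quad.cprod : f (cprod al be) =
      ∑ i : Fin g, κ * (v (al i) * w (be i) - v (be i) * w (al i)) := by
  have h := hf.cpart hv hw g
  have h1 : (TG.cpart al be g : Surf g) = TG.cprod al be := by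
    unfold TG.cpart TG.cprod
    rw [List.take_of_length_le (by simp)]
  rw [h1] at h
  rw [h]
  congr 1
  ext i
  simp

end Quad

theorem addF_cpart {v : Surf g → ℚ} (hv : AddF v) (k : ℕ) : v (cpart al be k) = 0 := by
  have hf : Quad 0 v v (fun _ => 0 : Surf g → ℚ) := fun x y => by simp
  exact ((hf.prod hv hv ((List.ofFn fun i : Fin g => ⁅(al i : Surf g), be i⁆).take k)
    (fun x hx => by
      have := List.mem_of_mem_take hx
      rw [List.mem_ofFn] at this
      obtain ⟨i, rfl⟩ := this
      exact ⟨hv.comm _ _, hv.comm _ _⟩)).2).1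

/-- quadratic functions exist only for orthogonal symbols -/
theorem Quad.orth {κ : ℚ} {ξ y : Hq g} {f : Surf g → ℚ}
    (hf : Quad κ (fun x => om ξ (cls x)) (fun x => om y (cls x)) f) : κ * om ξ y = 0 := by
  have h := hf.cprod (addF_om ξ) (addF_om y)
  rw [cprod_al_be, hf.one (addF_om ξ)] at h
  simp only [cls_al, cls_be] at h
  rw [← Finset.mul_sum, om_pair] at h
  exact h.symm

end TG
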