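import Pool.Agent.H40.TG.Aug

/-!
# Automorphisms which are not inner

Chain representations detect nontrivial words modulo inner automorphisms.
-/

namespace TG

/-- the depth of an index; the last two indices have the same depth -/
def dep {n : ℕ} (i : Fin (n + 3)) : ℕ := min i (n + 1)

theorem dep_mk {n p : ℕ} (hp : p ≤ n + 1) : dep (⟨p, by omega⟩ : Fin (n + 3)) = p := by
  simp [dep, hp]

theorem dep_le {n : ℕ} (i : Fin (n + 3)) : dep i ≤ n + 1 := by simp [dep]

theorem eq_of_dep {n p : ℕ} (hp : p ≤ n) {i : Fin (n + 3)} (h : dep i = p) :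
    i = ⟨p, by omega⟩ := by
  apply Fin.ext
  unfold dep at h
  rw [min_def] at h
  split_ifs at h <;> simp <;> omega

theorem cases_of_dep {n : ℕ} {i : Fin (n + 3)} (h : dep i = n + 1) :
    i = ⟨n + 1, by omega⟩ ∨ i = ⟨n + 2, by omega⟩ := by
  have h1 := i.isLt
  unfold dep at h
  rw [min_def] at h
  split_ifs at h
  · left; apply Fin.ext; simp; omega
  · right; apply Fin.ext; simp; omega

/-- the matrix entries vanish below degree `k` -/
def Deg {n : ℕ} (k : ℕ) (M : Matrix (Fin (n + 3)) (Fin (n + 3)) ℚ) : Prop :=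
  ∀ i j, dep j < dep i + k → M i j = 0

section Deg

variable {n : ℕ} {M N : Matrix (Fin (n + 3)) (Fin (n + 3)) ℚ} {a b : ℕ}

theorem Deg.mono (h : Deg a M) (hab : b ≤ a) : Deg b M := fun i j hij => h i j (by omega)

theorem Deg.mul (hM : Deg a M) (hN : Deg b N) : Deg (a + b) (M * N) := by
  intro i j hij
  rw [Matrix.mul_apply]
  refine Finset.sum_eq_zero fun k _ => ?_
  by_cases h : dep k < dep i + a
  · rw [hM i k h, zero_mul]
  · rw [hN k j (by omega), mul_zero]

theorem Deg.add (hM : Deg a M) (hN : Deg a N) : Deg a (M + N) := fun i j hij => by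
  rw [Matrix.add_apply, hM i j hij, hN i j hij, add_zero]

theorem Deg.sub (hM : Deg a M) (hN : Deg a N) : Deg a (M - N) := fun i j hij => by
  rw [Matrix.sub_apply, hM i j hij, hN i j hij, sub_zero]

theorem Deg.neg (hM : Deg a M) : Deg a (-M) := fun i j hij => by
  rw [Matrix.neg_apply, hM i j hij, neg_zero]

theorem Deg.smul (hM : Deg a M) (r : ℚ) : Deg a (r • M) := fun i j hij => by
  rw [Matrix.smul_apply, hM i j hij, smul_zero]

theorem Deg.zero : Deg a (0 : Matrix (Fin (n + 3)) (Fin (n + 3)) ℚ) := fun _ _ _ => rfl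

theorem Deg.one : Deg 0 (1 : Matrix (Fin (n + 3)) (Fin (n + 3)) ℚ) := fun i j hij =>
  Matrix.one_apply_ne (by rintro rfl; omega)

theorem Deg.eq_zero (hM : Deg a M) (ha : n + 2 ≤ a) : M = 0 := by
  ext i j
  exact hM i j (by have := dep_le j; omega)

theorem Deg.mul_entry (hM : Deg a M) (hN : Deg b N) {p q j0 : Fin (n + 3)}
    (h : dep q ≤ dep p + a + b) (hj0 : ∀ j, dep j = dep p + a → j = j0) :
    (M * N) p q = M p j0 * N j0 q := by
  rw [Matrix.mul_apply]
  refine Finset.sum_eq_single j0 (fun j _ hj => ?_) (fun h => absurd (Finset.mem_univ _) h)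
  by_cases h1 : dep j < dep p + a
  · rw [hM p j h1, zero_mul]
  · have h2 : dep j ≠ dep p + a := fun h3 => hj (hj0 j h3)
    rw [hN j q (by omega), mul_zero]

end Deg

variable {G : Type*} [Group G]

/-- representations by unipotent matrices with prescribed entries of degree one -/
structure ChainRep (n : ℕ) (l : ℕ → G → ℚ) (Y e : G → ℚ)
    (Ψ : G →* Matrix (Fin (n + 3)) (Fin (n + 3)) ℚ) : Prop where
  deg : ∀ x, Deg 1 (Ψ x - 1)
  chain : ∀ x (p : ℕ) (hp : p < n), (Ψ x - 1) ⟨p, by omega⟩ ⟨p + 1, by omega⟩ = l p x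
  fY : ∀ x, (Ψ x - 1) ⟨n, by omega⟩ ⟨n + 1, by omega⟩ = Y x
  fe : ∀ x, (Ψ x - 1) ⟨n, by omega⟩ ⟨n + 2, by omega⟩ = e x

open Aug

/-- list of the letters with indices `p, …, p + m - 1` -/
def lst (l : ℕ → G → ℚ) : ℕ → ℕ → List (G → ℚ)
  | _, 0 => []
  | p, m + 1 => l p :: lst l (p + 1) m

omit [Group G] in
theorem lst_getD (v : Fin 2 → G → ℚ) (us : List (Fin 2)) :
    ∀ (m p : ℕ), p + m = us.length →
      lst (fun p => v (us.getD p 0)) p m = (us.drop p).map v := by
  intro m
  induction m with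
  | zero =>
    intro p hp
    rw [List.drop_eq_nil_of_le (by omega)]
    rfl
  | succ m ih =>
    intro p hp
    rw [lst, ih (p + 1) (by omega), List.drop_eq_getElem_cons (by omega : p < us.length),
      List.map_cons]
    congr 2
    rw [List.getD_eq_getElem _ _ (by omega)]

namespace ChainRep

variable {n : ℕ} {l : ℕ → G → ℚ} {Y e : G → ℚ}
  {Ψ : G →* Matrix (Fin (n + 3)) (Fin (n + 3)) ℚ}

/-- linear extension -/
noncomputable def ext (Ψ : G →* Matrix (Fin (n + 3)) (Fin (n + 3)) ℚ) :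
    MonoidAlgebra ℚ G →ₐ[ℚ] Matrix (Fin (n + 3)) (Fin (n + 3)) ℚ :=
  MonoidAlgebra.lift ℚ _ G Ψ

theorem ext_dl (x : G) : ext Ψ (dl x) = Ψ x - 1 := by
  unfold dl ext
  rw [map_sub, MonoidAlgebra.lift_of, map_one]

theorem ext_deg (h : ChainRep n l Y e Ψ) {m : ℕ} {y : MonoidAlgebra ℚ G} (hy : y ∈ I G ^ m) :
    Deg m (ext Ψ y) := by
  induction m generalizing y with
  | zero =>
    rw [pow_zero, Submodule.mem_one] at hy
    obtain ⟨r, rfl⟩ := hy
    rw [AlgHom.commutes, Algebra.algebraMap_eq_smul_one]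
    exact Deg.one.smul r
  | succ m ih =>
    rw [pow_succ] at hy
    refine Submodule.mul_induction_on hy ?_ ?_
    · intro a ha b hb
      rw [map_mul]
      refine (ih ha).mul ?_
      unfold I at hb
      induction hb using Submodule.span_induction with
      | mem b hb =>
        obtain ⟨x, rfl⟩ := hb
        rw [ext_dl]; exact h.deg x
      | zero => rw [map_zero]; exact Deg.zero
      | add b b' _ _ h h' => rw [map_add]; exact h.add h'
      | smul r b _ h => rw [map_smul]; exact h.smul r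
    · intro a b ha hb
      rw [map_add]; exact ha.add hb

/-- an entry of the linear extension, as a functional -/
noncomputable def ent (Ψ : G →* Matrix (Fin (n + 3)) (Fin (n + 3)) ℚ) (p q : Fin (n + 3)) :
    MonoidAlgebra ℚ G →ₗ[ℚ] ℚ where
  toFun y := ext Ψ y p q
  map_add' a b := by rw [map_add]; rfl
  map_smul' r a := by rw [map_smul]; rfl

theorem ent_apply (p q : Fin (n + 3)) (y : MonoidAlgebra ℚ G) :
    ent Ψ p q y = ext Ψ y p q := rfl

theorem ent_symb_aux (h : ChainRep n l Y e Ψ) {q : Fin (n + 3)} (hq : dep q = n + 1)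
    {W : G → ℚ} (hW : ∀ x, (Ψ x - 1) ⟨n, by omega⟩ q = W x) :
    ∀ (m p : ℕ) (hp : p + m = n) (f : MonoidAlgebra ℚ G →ₗ[ℚ] ℚ) (κ : ℚ),
      (∀ y ∈ I G ^ (m + 1), f y = κ * ext Ψ y ⟨p, by omega⟩ q) →
      Symb (lst l p m ++ [W]) f κ := by
  intro m
  induction m with
  | zero =>
    intro p hp f κ hf xs hxs
    obtain ⟨x, rfl⟩ : ∃ x, xs = [x] := List.length_eq_one_iff.1 (by simpa [lst] using hxs)
    have hp' : p = n := by omega
    subst hp'
    simp only [List.map_cons, List.map_nil, List.prod_cons, List.prod_nil, mul_one, lst,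
      List.nil_append, zp]
    rw [hf _ (by rw [zero_add]; exact dl_mem_one x), ext_dl, hW]
  | succ m ih =>
    intro p hp f κ hf
    rw [lst, List.cons_append]
    apply symb_cons
    intro x
    apply ih (p + 1) (by omega)
    intro y hy
    rw [LinearMap.comp_apply, LinearMap.mulLeft_apply]
    have h1 : dl x * y ∈ I G ^ (m + 1 + 1) := by
      rw [add_comm (m + 1) 1]
      exact mul_mem_pow (dl_mem_one x) hy
    rw [hf _ h1, map_mul, ext_dl]
    have hdp : dep (⟨p, by omega⟩ : Fin (n + 3)) = p := dep_mk (by omega)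
    rw [(h.deg x).mul_entry (h.ext_deg hy) (j0 := ⟨p + 1, by omega⟩) (by rw [hq, hdp]; omega)
      (fun j hj => eq_of_dep (by omega) (by rw [hj, hdp]))]
    rw [h.chain x p (by omega)]
    ring

theorem ent_symb (h : ChainRep n l Y e Ψ) :
    Symb (lst l 0 n ++ [Y]) (ent Ψ ⟨0, by omega⟩ ⟨n + 1, by omega⟩) 1 :=
  h.ent_symb_aux (dep_mk le_rfl) h.fY n 0 (by omega) _ _ fun y _ => by rw [one_mul]; rfl

theorem ent_symb' (h : ChainRep n l Y e Ψ) :
    Symb (lst l 0 n ++ [e]) (ent Ψ ⟨0, by omega⟩ ⟨n + 2, by omega⟩) 1 :=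
  h.ent_symb_aux (by simp [dep]) h.fe n 0 (by omega) _ _ fun y _ => by
    rw [one_mul]; rfl

end ChainRep

/-- a system of automorphisms, letters and operators -/
structure Sys (F : Fin 2 → MulAut G) (v : Fin 2 → G → ℚ) {U : Type*} (y : U → G → ℚ)
    (T : Fin 2 → U → U) (z : U) : Prop where
  triv : ∀ k, Triv (F k)
  hz : y z = 0
  hTz : ∀ k, T k z = z
  h1 : ∀ k i j, Tau (F k) (v i) (v j) 0
  h2 : ∀ k i u, Tau (F k) (v i) (y u) (if i = k then y (T k u) else 0)
  dual : ∃ x : Fin 2 → G, ∀ i j, v i (x j) = if i = j then 1 else 0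
  nonv : ∀ n, ∃ u,
    (∀ (w : ℕ → Fin 2) (e : Fin 2), ∃ Ψ : G →* Matrix (Fin (n + 3)) (Fin (n + 3)) ℚ,
      ChainRep n (fun p => v (w p)) (y u) (v e) Ψ) ∧
    ∀ l : List (Fin 2), l.length ≤ n →
      ∃ x, (∀ i, v i x = 0) ∧ y (Tw T l u) x ≠ 0

theorem Sys.not_inner {F : Fin 2 → MulAut G} {v : Fin 2 → G → ℚ} {U : Type*} {y : U → G → ℚ}
    {T : Fin 2 → U → U} {z : U} (h : Sys F v y T z) {g : FreeGroup (Fin 2)} (hg : g ≠ 1)
    (ζ : G) : FreeGroup.lift F g ≠ MulAut.conj ζ := by
  intro hinn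
  obtain ⟨w0, hw0, hc, hmin⟩ := Mag.exists_min hg
  set n := w0.length with hn
  have hn1 : 1 ≤ n := by
    rw [hn]
    exact List.length_pos_iff.2 hw0
  obtain ⟨u, hΨ, hnon⟩ := h.nonv n
  obtain ⟨xd, hxd⟩ := h.dual
  set us := w0.reverse with hus
  have huslen : us.length = n := by simp [hus, hn]
  have husr : us.reverse = w0 := by simp [hus]
  set w : ℕ → Fin 2 := fun p => us.getD p 0 with hw
  set e : Fin 2 := if w 0 = 0 then 1 else 0 with he
  have hew : w 0 ≠ e := by
    rw [he]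
    split_ifs with h0
    · rw [h0]; decide
    · exact h0
  obtain ⟨Ψ, hΨ⟩ := hΨ w e
  set c := Mag.coef g with hcdef
  set D : Fin 2 → Module.End ℚ (MonoidAlgebra ℚ G) := fun k => Df (F k) with hD
  have hlst : lst (fun p => v (w p)) 0 n = us.map v := by
    have := lst_getD v us n 0 (by omega)
    rw [List.drop_zero] at this
    exact this
  have hd0 : dep (⟨0, by omega⟩ : Fin (n + 3)) = 0 := dep_mk (by omega)
  -- the Magnus expansion
  have hSmem : ∀ x, Mag.S D n c x ∈ I G ^ (n + 1) := by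
    intro x
    obtain ⟨m, hm⟩ : ∃ m, n = m + 1 := ⟨n - 1, by omega⟩
    have := Mag.S_mem D (K := I G ^ (n + 1)) (n := m) (fun l hl x => by
      have h1 := Df_prod_mem' h.triv l (by rintro rfl; simp at hl) x
      rw [hl] at h1
      have h2 : 1 + (m + 1) = n + 1 := by omega
      rwa [h2] at h1) n [] c (by simp [hm]) x
    simpa using this
  have hev : ∀ x : G, dl (FreeGroup.lift F g x) - dl x - Mag.S D n c (dl x) ∈
      I G ^ (n + 2) := by
    intro x
    have h1 := Mag.eval D (hat.comp (FreeGroup.lift F)) (fun i => by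
      rw [MonoidHom.comp_apply, FreeGroup.lift_apply_of]
      change _ = 1 + (hat (F i) - 1)
      abel) (K := I G ^ (n + 2)) (fun g x hx => hat_mem hx) (n := n) (fun l hl x => by
        have h1 := Df_prod_mem' h.triv l (by rintro rfl; simp at hl) x
        rw [hl] at h1
        have h2 : 1 + (n + 1) = n + 2 := by omega
        rwa [h2] at h1) g (dl x)
    rw [MonoidHom.comp_apply, hat_dl] at h1
    have h2 : Mag.ev D n c = 1 + Mag.S D n c := by
      obtain ⟨m, hm⟩ : ∃ m, n = m + 1 := ⟨n - 1, by omega⟩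
      unfold Mag.ev
      rw [Finset.sum_range_succ]
      congr 1
      rw [hm, Finset.sum_range_succ']
      have h3 : Mag.S D 0 c = 1 := by
        simp only [Mag.S, hcdef, Mag.coef_nil, one_smul]
      rw [h3, Finset.sum_eq_zero, zero_add]
      intro k hk
      apply Mag.S_zero
      intro w' hw'
      apply hmin
      · rintro rfl; simp at hw'
      · rw [hw']
        have := Finset.mem_range.1 hk
        omega
    rw [h2, LinearMap.add_apply, Module.End.one_apply] at h1
    rw [sub_sub]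
    exact h1
  -- the difference matrix
  set Δ : G → Matrix (Fin (n + 3)) (Fin (n + 3)) ℚ := fun x =>
    Ψ (FreeGroup.lift F g x) - Ψ x with hΔ
  have hΔ' : ∀ x, Δ x = ChainRep.ext Ψ (dl (FreeGroup.lift F g x) - dl x) := by
    intro x
    rw [map_sub, ChainRep.ext_dl, ChainRep.ext_dl, hΔ]
    simp only
    abel
  have hΔdeg : ∀ x, Deg (n + 1) (Δ x) := by
    intro x
    rw [hΔ']
    apply hΨ.ext_deg
    have h1 := Submodule.add_mem _ (I_anti (by omega) (Nat.le_succ (n + 1)) (hev x))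
      (hSmem (dl x))
    rwa [sub_add_cancel] at h1
  have hΔval : ∀ x q, dep q = n + 1 → Δ x ⟨0, by omega⟩ q =
      ChainRep.ent Ψ ⟨0, by omega⟩ q (Mag.S D n c (dl x)) := by
    intro x q hq
    rw [hΔ', ChainRep.ent_apply]
    have h1 := hΨ.ext_deg (hev x) ⟨0, by omega⟩ q (by
      rw [hd0, hq]; omega)
    rw [map_sub, Matrix.sub_apply, sub_eq_zero] at h1
    exact h1
  have hΔY : ∀ x, Δ x ⟨0, by omega⟩ ⟨n + 1, by omega⟩ = c w0 * y (Tw T w0 u) x := by
    intro x
    rw [hΔval x _ (dep_mk le_rfl)]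
    have h1 := hΨ.ent_symb
    rw [hlst] at h1
    have h2 := S_symb h.hz h.hTz h.h1 h.h2 us u h1 c x
    rw [huslen, husr, one_mul] at h2
    exact h2
  have hΔe : ∀ x, Δ x ⟨0, by omega⟩ ⟨n + 2, by omega⟩ = 0 := by
    intro x
    rw [hΔval x _ (by simp [dep])]
    have h1 := hΨ.ent_symb'
    rw [hlst] at h1
    have h00 : ∀ k i, Tau (F k) (v i) 0 0 := by
      intro k i
      have := h.h2 k i z
      rw [h.hTz, h.hz, ite_self] at this
      exact this
    have h2 := S_symb (U := Bool) (F := F) (v := v) (T := fun _ _ => false)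
      (y := fun b => if b then v e else 0) (z := false) (by simp) (fun _ => rfl) h.h1
      (fun k i b => by
        cases b
        · simpa using h00 k i
        · simpa using h.h1 k i e) us true (f := ChainRep.ent Ψ ⟨0, by omega⟩ ⟨n + 2, by omega⟩)
      (κ := 1) (by simpa using h1) c x
    rw [huslen, husr] at h2
    rw [h2]
    have h3 : ∀ (l : List (Fin 2)), l ≠ [] → ∀ b,
        Tw (U := Bool) (fun _ _ => false) l b = false := by
      intro l
      induction l with
      | nil => intro h; exact absurd rfl h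
      | cons s l ih =>
        intro _ b
        rw [Tw]
        by_cases h : l = []
        · subst h; rfl
        · exact ih h _
    rw [h3 w0 hw0]
    simp
  -- the commutation relation
  set Z := Ψ ζ - 1 with hZ
  have hcomm : ∀ x, Z * (Ψ x - 1) - (Ψ x - 1) * Z = Δ x := by
    intro x
    have h1 : FreeGroup.lift F g x * ζ = ζ * x := by
      rw [hinn, MulAut.conj_apply, inv_mul_cancel_right]
    have h2 := congrArg Ψ h1
    rw [map_mul, map_mul] at h2
    have h3 : Δ x * Z = 0 := ((hΔdeg x).mul (hΨ.deg ζ)).eq_zero le_rfl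
    have h4 : Δ x * Z = Z * (Ψ x - 1) - (Ψ x - 1) * Z - Δ x := by
      have h5 : Δ x * Z = Ψ (FreeGroup.lift F g x) * Ψ ζ - Ψ x * Ψ ζ - Δ x := by
        rw [hZ, mul_sub, mul_one]
        congr 1
        rw [hΔ]
        simp only
        rw [sub_mul]
      rw [h5, h2, hZ]
      noncomm_ring
    rw [h3] at h4
    exact (sub_eq_zero.1 h4.symm)
  -- entries of the commutation relation
  have hent : ∀ d, 1 ≤ d → Deg d Z → ∀ x (p : ℕ) (hp : p + d ≤ n) (q : Fin (n + 3)),
      dep q = p + d + 1 →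
      Z ⟨p, by omega⟩ ⟨p + d, by omega⟩ * (Ψ x - 1) ⟨p + d, by omega⟩ q -
        v (w p) x * Z ⟨p + 1, by omega⟩ q = Δ x ⟨p, by omega⟩ q := by
    intro d hd hZd x p hp q hq
    have hdp : dep (⟨p, by omega⟩ : Fin (n + 3)) = p := dep_mk (by omega)
    have e0 : (Z * (Ψ x - 1) - (Ψ x - 1) * Z) ⟨p, by omega⟩ q =
        (Z * (Ψ x - 1)) ⟨p, by omega⟩ q - ((Ψ x - 1) * Z) ⟨p, by omega⟩ q := rfl
    have e1 := hZd.mul_entry (hΨ.deg x) (p := ⟨p, by omega⟩) (q := q)
      (j0 := ⟨p + d, by omega⟩) (by rw [hdp, hq])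
      (fun j hj => eq_of_dep (by omega) (by rw [hj, hdp]))
    have e2 := (hΨ.deg x).mul_entry hZd (p := ⟨p, by omega⟩) (q := q)
      (j0 := ⟨p + 1, by omega⟩) (by rw [hdp, hq]; omega)
      (fun j hj => eq_of_dep (by omega) (by rw [hj, hdp]))
    rw [hΨ.chain x p (by omega)] at e2
    rw [← hcomm x, e0, e1, e2]
  -- descending
  have hdesc : ∀ d, 1 ≤ d → d < n → Deg d Z → Deg (d + 1) Z := by
    intro d hd hdn hZd
    have hz0 : ∀ x (p : ℕ) (hp : p + d ≤ n) (q : Fin (n + 3)), dep q = p + d + 1 →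
        Z ⟨p, by omega⟩ ⟨p + d, by omega⟩ * (Ψ x - 1) ⟨p + d, by omega⟩ q =
          v (w p) x * Z ⟨p + 1, by omega⟩ q := by
      intro x p hp q hq
      have h1 := hent d hd hZd x p hp q hq
      rw [hΔdeg x ⟨p, by omega⟩ q (by rw [hq, dep_mk (by omega)]; omega)] at h1
      exact sub_eq_zero.1 h1
    obtain ⟨p0, hp0⟩ : ∃ p0, p0 + d = n := ⟨n - d, by omega⟩
    obtain ⟨x0, hx0, hx0Y⟩ := hnon [] (by simp)
    have hA : ∀ m p (hp : p + d + m = n), Z ⟨p, by omega⟩ ⟨p + d, by omega⟩ = 0 := by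
      intro m
      induction m with
      | zero =>
        intro p hp
        have h1 := hz0 x0 p (by omega) ⟨n + 1, by omega⟩ (by rw [dep_mk le_rfl]; omega)
        rw [hx0, zero_mul] at h1
        have h2 : (⟨p + d, by omega⟩ : Fin (n + 3)) = ⟨n, by omega⟩ := by
          apply Fin.ext; simp; omega
        rw [h2] at h1 ⊢
        rw [hΨ.fY] at h1
        rcases mul_eq_zero.1 h1 with h3 | h3
        · exact h3
        · exact absurd h3 hx0Y
      | succ m ih =>
        intro p hp
        have h1 := hz0 (xd (w (p + d))) p (by omega) ⟨p + d + 1, by omega⟩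
          (by rw [dep_mk (by omega)])
        have h2 : (⟨p + d + 1, by omega⟩ : Fin (n + 3)) = ⟨p + 1 + d, by omega⟩ := by
          apply Fin.ext; simp; omega
        have h3 := ih (p + 1) (by omega)
        rw [hΨ.chain _ (p + d) (by omega), hxd, if_pos rfl, mul_one, h2, h3, mul_zero] at h1
        exact h1
    have hZn : Z ⟨p0, by omega⟩ ⟨p0 + d, by omega⟩ = 0 := hA 0 p0 (by omega)
    have hB : ∀ q : Fin (n + 3), dep q = n + 1 → Z ⟨p0 + 1, by omega⟩ q = 0 := by
      intro q hq
      have h1 := hz0 (xd (w p0)) p0 (by omega) q (by rw [hq]; omega)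
      rw [hZn, zero_mul, hxd, if_pos rfl, one_mul] at h1
      exact h1.symm
    intro i j hij
    by_cases h1 : dep j < dep i + d
    · exact hZd i j h1
    · have h2 : dep j = dep i + d := by omega
      have h3 := dep_le j
      by_cases h4 : dep j = n + 1
      · have h5 : i = ⟨p0 + 1, by omega⟩ := eq_of_dep (by omega) (by omega)
        rw [h5]
        exact hB j h4
      · have h5 : i = ⟨dep i, by omega⟩ := eq_of_dep (by omega) rfl
        have h6 : j = ⟨dep i + d, by omega⟩ := eq_of_dep (by omega) h2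
        have h7 := hA (n - (dep i + d)) (dep i) (by omega)
        exact (congrArg₂ Z h5 h6).trans h7
  have hall : ∀ d, 1 ≤ d → d ≤ n → Deg d Z := by
    intro d hd
    induction d, hd using Nat.le_induction with
    | base => intro _; exact hΨ.deg ζ
    | succ d hd ih => intro hdn; exact hdesc d hd (by omega) (ih (by omega))
  have hZn := hall n hn1 le_rfl
  -- the last step
  have h1 := hent n hn1 hZn (xd e) 0 (by omega) ⟨n + 2, by omega⟩ (by simp [dep])
  rw [hΔe] at h1
  have h01 : (⟨0 + n, by omega⟩ : Fin (n + 3)) = ⟨n, by omega⟩ := by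
    apply Fin.ext; simp
  rw [h01, hΨ.fe, hxd, if_pos rfl, mul_one, hxd, if_neg hew, zero_mul, sub_zero] at h1
  obtain ⟨x1, hx1, hx1T⟩ := hnon w0 le_rfl
  have h2 := hent n hn1 hZn x1 0 (by omega) ⟨n + 1, by omega⟩
    (by rw [dep_mk le_rfl]; omega)
  rw [h01, h1, zero_mul, hx1, zero_mul, sub_zero, hΔY] at h2
  rcases mul_eq_zero.1 h2.symm with h3 | h3
  · exact hc h3
  · exact hx1T h3

end TG
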