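import Pool.Agent.H40.TG.Flag

/-!
# The module of functions on states

A state is a word in two letters (`false` stands for the letter `a`, `true` for the letter `θ`)
together with a natural number.
-/

namespace TG

/-- functions on states -/
abbrev Fn := List Bool × ℕ → ℚ

/-- degree of a word -/
def wl : List Bool → ℕ
  | [] => 0
  | x :: w => (if x then 2 else 1) + wl w

/-- number of the letters `a` -/
def nu : List Bool → ℕ
  | [] => 0
  | x :: w => (if x then 0 else 1) + nu w

/-- sum of the values on the words obtained by replacing one `a` by `θ` -/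
def dd : List Bool → (List Bool → ℚ) → ℚ
  | [], _ => 0
  | x :: w, ψ => (if x then 0 else ψ (true :: w)) + dd w fun v => ψ (x :: v)

theorem dd_add (w : List Bool) (ψ ψ' : List Bool → ℚ) :
    dd w (fun v => ψ v + ψ' v) = dd w ψ + dd w ψ' := by
  induction w generalizing ψ ψ' with
  | nil => simp [dd]
  | cons x w ih =>
    simp only [dd]
    rw [ih]
    cases x
    · simp only [Bool.false_eq_true, if_false]; ring
    · simp

theorem dd_smul (w : List Bool) (r : ℚ) (ψ : List Bool → ℚ) :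
    dd w (fun v => r * ψ v) = r * dd w ψ := by
  induction w generalizing ψ with
  | nil => simp [dd]
  | cons x w ih =>
    simp only [dd]
    rw [ih]
    cases x
    · simp only [Bool.false_eq_true, if_false]; ring
    · simp

theorem dd_zero (w : List Bool) (ψ : List Bool → ℚ)
    (h : ∀ v, wl v = wl w + 1 → nu v + 1 = nu w → ψ v = 0) : dd w ψ = 0 := by
  induction w generalizing ψ with
  | nil => rfl
  | cons x w ih =>
    simp only [dd]
    cases x
    · rw [h (true :: w) (by simp [wl]; omega) (by simp [nu]; omega)]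
      rw [ih (fun v => ψ (false :: v)) (fun v h1 h2 => h _ (by simp [wl]; omega)
        (by simp [nu]; omega))]
      simp
    · rw [ih (fun v => ψ (true :: v)) (fun v h1 h2 => h _ (by simp [wl]; omega)
        (by simp [nu]; omega))]
      simp

/-- degree of a state -/
def dg (s : List Bool × ℕ) : ℕ := wl s.1 + s.2

/-- weight of a state -/
def wg (s : List Bool × ℕ) : ℤ := (nu s.1 : ℤ) - s.2

/-- the operator of the class `a₁` -/
def opP : Module.End ℚ Fn where
  toFun φ s := φ (false :: s.1, s.2)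
  map_add' _ _ := rfl
  map_smul' _ _ := rfl

/-- the operator of the class `b₁` -/
def opQ : Module.End ℚ Fn where
  toFun φ s := dd s.1 fun v => φ (v, s.2)
  map_add' φ φ' := by funext s; exact dd_add _ _ _
  map_smul' r φ := by funext s; exact dd_smul _ _ _

/-- the operator of the class `a₂` -/
def opP' : Module.End ℚ Fn where
  toFun φ s := (s.2 : ℚ) * φ (true :: s.1, s.2 - 1)
  map_add' φ φ' := by funext s; simp only [Pi.add_apply]; ring
  map_smul' r φ := by
    funext s; simp only [Pi.smul_apply, smul_eq_mul, RingHom.id_apply]; ring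

/-- the operator of the class `b₂` -/
def opQ' : Module.End ℚ Fn where
  toFun φ s := φ (s.1, s.2 + 1)
  map_add' _ _ := rfl
  map_smul' _ _ := rfl

/-- the operator of `[b₂, a₂]` -/
def opR : Module.End ℚ Fn where
  toFun φ s := φ (true :: s.1, s.2)
  map_add' _ _ := rfl
  map_smul' _ _ := rfl

theorem opP_apply (φ : Fn) (s : List Bool × ℕ) : opP φ s = φ (false :: s.1, s.2) := rfl

theorem opQ_apply (φ : Fn) (s : List Bool × ℕ) : opQ φ s = dd s.1 fun v => φ (v, s.2) := rfl

theorem opP'_apply (φ : Fn) (s : List Bool × ℕ) :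
    opP' φ s = (s.2 : ℚ) * φ (true :: s.1, s.2 - 1) := rfl

theorem opQ'_apply (φ : Fn) (s : List Bool × ℕ) : opQ' φ s = φ (s.1, s.2 + 1) := rfl

theorem opR_apply (φ : Fn) (s : List Bool × ℕ) : opR φ s = φ (true :: s.1, s.2) := rfl

theorem rel_PQ : opP * opQ = opQ * opP + opR := by
  apply LinearMap.ext
  intro φ
  funext s
  rw [LinearMap.add_apply, Pi.add_apply, Module.End.mul_apply, Module.End.mul_apply, opP_apply,
    opQ_apply, opQ_apply, opR_apply]
  simp only [dd, Bool.false_eq_true, if_false]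
  rw [add_comm]
  rfl

theorem rel_PQ' : opP' * opQ' = opQ' * opP' - opR := by
  apply LinearMap.ext
  intro φ
  funext s
  rw [LinearMap.sub_apply, Pi.sub_apply, Module.End.mul_apply, Module.End.mul_apply, opP'_apply,
    opQ'_apply, opQ'_apply, opP'_apply, opR_apply]
  obtain ⟨w, j⟩ := s
  cases j with
  | zero => simp
  | succ j =>
    simp only [Nat.add_sub_cancel]
    push_cast
    ring

theorem comm_PQ' : opP * opQ' = opQ' * opP := rfl

theorem comm_PR : opP' * opR = opR * opP' := rfl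

theorem comm_QR : opQ' * opR = opR * opQ' := rfl

theorem comm_P'Q : opP' * opQ = opQ * opP' := by
  apply LinearMap.ext
  intro φ
  funext s
  rw [Module.End.mul_apply, Module.End.mul_apply, opP'_apply, opQ_apply, opQ_apply]
  simp only [dd, if_true, zero_add, opP'_apply]
  rw [dd_smul]

/-! ### Vanishing -/

section Vanish

variable {φ : Fn} {s : List Bool × ℕ}

theorem opP_van (h : ∀ t, dg t = dg s + 1 → wg t = wg s + 1 → φ t = 0) : opP φ s = 0 := by
  apply h
  · simp only [dg, wl, Bool.false_eq_true, if_false]; omega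
  · simp only [wg, nu, Bool.false_eq_true, if_false]; push_cast; ring

theorem opQ_van (h : ∀ t, dg t = dg s + 1 → wg t = wg s - 1 → φ t = 0) : opQ φ s = 0 := by
  rw [opQ_apply]
  apply dd_zero
  intro v h1 h2
  apply h
  · simp only [dg]; omega
  · simp only [wg]; rw [← h2]; push_cast; ring

theorem opP'_van (h : ∀ t, dg t = dg s + 1 → wg t = wg s + 1 → φ t = 0) : opP' φ s = 0 := by
  rw [opP'_apply]
  obtain ⟨w, j⟩ := s
  cases j with
  | zero => simp
  | succ j =>
    rw [h, mul_zero]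
    · simp only [dg, wl, if_true, Nat.add_sub_cancel]; omega
    · simp only [wg, nu, if_true, Nat.add_sub_cancel]; push_cast; ring

theorem opQ'_van (h : ∀ t, dg t = dg s + 1 → wg t = wg s - 1 → φ t = 0) : opQ' φ s = 0 := by
  apply h
  · simp only [dg]; omega
  · simp only [wg]; push_cast; ring

theorem opR_van (h : ∀ t, dg t = dg s + 2 → wg t = wg s → φ t = 0) : opR φ s = 0 := by
  apply h
  · simp only [dg, wl, if_true]; omega
  · simp only [wg, nu, if_true]; push_cast; ring

end Vanish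

/-- functions supported in degree less than `m` -/
def Fs (m : ℕ) : Submodule ℚ Fn where
  carrier := {φ | ∀ s, m ≤ dg s → φ s = 0}
  add_mem' := by
    intro φ ψ h h' s hs
    rw [Pi.add_apply, h s hs, h' s hs, add_zero]
  zero_mem' := fun _ _ => rfl
  smul_mem' := by
    intro r φ h s hs
    rw [Pi.smul_apply, h s hs, smul_zero]

theorem mem_Fs {m : ℕ} {φ : Fn} : φ ∈ Fs m ↔ ∀ s, m ≤ dg s → φ s = 0 := Iff.rfl

theorem Fs_mono : Monotone Fs := fun _ _ h _ hφ s hs => hφ s (le_trans h hs)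

theorem Fs_zero : Fs 0 = ⊥ := by
  rw [eq_bot_iff]
  intro φ hφ
  rw [Submodule.mem_bot]
  funext s
  exact hφ s (Nat.zero_le _)

/-! ### The frame -/

variable {g : ℕ}

/-- two orthogonal hyperbolic pairs -/
structure Fr (g : ℕ) where
  /-- first class -/
  a1 : Hq g
  /-- dual of the first class -/
  b1 : Hq g
  /-- second class -/
  a2 : Hq g
  /-- dual of the second class -/
  b2 : Hq g
  h11 : om b1 a1 = 1
  h22 : om b2 a2 = 1
  haa : om a1 a2 = 0
  hab : om a1 b2 = 0
  hba : om b1 a2 = 0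
  hbb : om b1 b2 = 0

theorem om_anti (x y : Hq g) : om x y = -om y x := om_symp.anti x y

theorem om_self (x : Hq g) : om x x = 0 := om_symp.alt x

/-- contraction of the form -/
theorem contract {M : Type*} [AddCommGroup M] [Module ℚ M] (f : Hq g →ₗ[ℚ] M) (η : Hq g) :
    ∑ i, (om η (eb i) • f (ea i) - om η (ea i) • f (eb i)) = f η := by
  conv_rhs => rw [hq_decomp η]
  rw [map_sum]
  refine Finset.sum_congr rfl fun i _ => ?_
  rw [map_add, map_smul, map_smul, om_eb, om_ea, neg_smul, sub_neg_eq_add]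

namespace Fr

variable (A : Fr g)

/-- the action on functions on states -/
def V0 : Hq g →ₗ[ℚ] Module.End ℚ Fn :=
  (om A.b1).smulRight opP - (om A.a1).smulRight opQ + (om A.b2).smulRight opP' -
    (om A.a2).smulRight opQ'

theorem V0_eq (z : Hq g) : A.V0 z = om A.b1 z • opP - om A.a1 z • opQ + om A.b2 z • opP' -
    om A.a2 z • opQ' := rfl

theorem V0_apply (z : Hq g) (φ : Fn) : A.V0 z φ = om A.b1 z • opP φ - om A.a1 z • opQ φ +
    om A.b2 z • opP' φ - om A.a2 z • opQ' φ := rfl

theorem V0_a1 : A.V0 A.a1 = opP := by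
  rw [V0_eq, A.h11, om_self, om_anti A.b2, A.hab, om_anti A.a2, A.haa]
  simp

theorem V0_b1 : A.V0 A.b1 = opQ := by
  rw [V0_eq, om_self, om_anti A.a1, A.h11, om_anti A.b2, A.hbb, om_anti A.a2, A.hba]
  module

theorem V0_a2 : A.V0 A.a2 = opP' := by
  rw [V0_eq, A.hba, A.haa, A.h22, om_self]
  simp

theorem V0_b2 : A.V0 A.b2 = opQ' := by
  rw [V0_eq, A.hbb, A.hab, om_self, om_anti A.a2, A.h22]
  module

theorem V0_rel : ∑ i, (A.V0 (ea i) * A.V0 (eb i) - A.V0 (eb i) * A.V0 (ea i)) = 0 := by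
  have key : ∀ (η : Hq g) (X : Module.End ℚ Fn),
      ∑ i, (A.V0 (ea i) * (om η (eb i) • X) - A.V0 (eb i) * (om η (ea i) • X)) =
        A.V0 η * X := by
    intro η X
    have h := contract ((LinearMap.mulRight ℚ X).comp A.V0) η
    simp only [LinearMap.comp_apply, LinearMap.mulRight_apply] at h
    rw [← h]
    refine Finset.sum_congr rfl fun i _ => ?_
    rw [mul_smul_comm, mul_smul_comm]
  have h : ∀ i, A.V0 (ea i) * A.V0 (eb i) - A.V0 (eb i) * A.V0 (ea i) =
      (A.V0 (ea i) * (om A.b1 (eb i) • opP) - A.V0 (eb i) * (om A.b1 (ea i) • opP)) -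
      (A.V0 (ea i) * (om A.a1 (eb i) • opQ) - A.V0 (eb i) * (om A.a1 (ea i) • opQ)) +
      (A.V0 (ea i) * (om A.b2 (eb i) • opP') - A.V0 (eb i) * (om A.b2 (ea i) • opP')) -
      (A.V0 (ea i) * (om A.a2 (eb i) • opQ') - A.V0 (eb i) * (om A.a2 (ea i) • opQ')) := by
    intro i
    have hx : ∀ x z, A.V0 x * A.V0 z = A.V0 x * (om A.b1 z • opP) - A.V0 x * (om A.a1 z • opQ) +
        A.V0 x * (om A.b2 z • opP') - A.V0 x * (om A.a2 z • opQ') := by
      intro x z
      rw [V0_eq A z, mul_sub, mul_add, mul_sub]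
    rw [hx (ea i) (eb i), hx (eb i) (ea i)]
    abel
  rw [Finset.sum_congr rfl fun i _ => h i, Finset.sum_sub_distrib, Finset.sum_add_distrib,
    Finset.sum_sub_distrib, key, key, key, key, V0_b1, V0_a1, V0_b2, V0_a2, rel_PQ, rel_PQ']
  abel

/-- the projection to the orthogonal complement of the frame -/
def rho : Module.End ℚ (Hq g) :=
  1 - (om A.b1).smulRight A.a1 + (om A.a1).smulRight A.b1 - (om A.b2).smulRight A.a2 +
    (om A.a2).smulRight A.b2

theorem rho_apply (z : Hq g) : A.rho z = z - om A.b1 z • A.a1 + om A.a1 z • A.b1 -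
    om A.b2 z • A.a2 + om A.a2 z • A.b2 := rfl

theorem h11' : om A.a1 A.b1 = -1 := by rw [om_anti, A.h11]

theorem h22' : om A.a2 A.b2 = -1 := by rw [om_anti, A.h22]

theorem haa' : om A.a2 A.a1 = 0 := by rw [om_anti, A.haa, neg_zero]

theorem hab' : om A.b2 A.a1 = 0 := by rw [om_anti, A.hab, neg_zero]

theorem hba' : om A.a2 A.b1 = 0 := by rw [om_anti, A.hba, neg_zero]

theorem hbb' : om A.b2 A.b1 = 0 := by rw [om_anti, A.hbb, neg_zero]

theorem b1_rho (z : Hq g) : om A.b1 (A.rho z) = 0 := by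
  rw [rho_apply]
  simp only [map_add, map_sub, map_smul, smul_eq_mul, A.h11, A.hba, A.hbb, om_self]
  ring

theorem a1_rho (z : Hq g) : om A.a1 (A.rho z) = 0 := by
  rw [rho_apply]
  simp only [map_add, map_sub, map_smul, smul_eq_mul, A.h11', A.haa, A.hab, om_self]
  ring

theorem b2_rho (z : Hq g) : om A.b2 (A.rho z) = 0 := by
  rw [rho_apply]
  simp only [map_add, map_sub, map_smul, smul_eq_mul, A.h22, A.hab', A.hbb', om_self]
  ring

theorem a2_rho (z : Hq g) : om A.a2 (A.rho z) = 0 := by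
  rw [rho_apply]
  simp only [map_add, map_sub, map_smul, smul_eq_mul, A.h22', A.haa', A.hba', om_self]
  ring

theorem rho_rho (z : Hq g) : A.rho (A.rho z) = A.rho z := by
  rw [rho_apply A (A.rho z), b1_rho, a1_rho, b2_rho, a2_rho]
  simp

theorem rho_adj (x z : Hq g) : om (A.rho x) z = om x (A.rho z) := by
  simp only [rho_apply, map_add, map_sub, map_smul, smul_eq_mul, LinearMap.add_apply,
    LinearMap.sub_apply, LinearMap.smul_apply]
  rw [om_anti x A.a1, om_anti x A.b1, om_anti x A.a2, om_anti x A.b2]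
  ring

theorem rho_a1 : A.rho A.a1 = 0 := by
  rw [rho_apply, A.h11, om_self, A.hab', A.haa']
  simp

theorem rho_b1 : A.rho A.b1 = 0 := by
  rw [rho_apply, A.h11', om_self, A.hbb', A.hba']
  simp

theorem rho_a2 : A.rho A.a2 = 0 := by
  rw [rho_apply, A.h22, om_self, A.hba, A.haa]
  simp

theorem rho_b2 : A.rho A.b2 = 0 := by
  rw [rho_apply, A.h22', om_self, A.hbb, A.hab]
  simp

theorem V0_rho (z : Hq g) : A.V0 (A.rho z) = 0 := by
  rw [V0_eq, b1_rho, a1_rho, b2_rho, a2_rho]
  simp

/-- homogeneous classes -/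
def Hom (z : Hq g) (ω : ℤ) : Prop :=
  (ω = 1 ∧ ∃ α β : ℚ, z = α • A.a1 + β • A.a2) ∨ (ω = 0 ∧ A.rho z = z) ∨
    (ω = -1 ∧ ∃ α β : ℚ, z = α • A.b1 + β • A.b2)

theorem hom_a1 : A.Hom A.a1 1 := Or.inl ⟨rfl, 1, 0, by simp⟩

theorem hom_a2 : A.Hom A.a2 1 := Or.inl ⟨rfl, 0, 1, by simp⟩

theorem hom_b1 : A.Hom A.b1 (-1) := Or.inr (Or.inr ⟨rfl, 1, 0, by simp⟩)

theorem hom_b2 : A.Hom A.b2 (-1) := Or.inr (Or.inr ⟨rfl, 0, 1, by simp⟩)

theorem hom_rho (z : Hq g) : A.Hom (A.rho z) 0 := Or.inr (Or.inl ⟨rfl, A.rho_rho z⟩)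

/-- functions supported on states of weight `c` -/
def Sp (c : ℤ) (φ : Fn) : Prop := ∀ s, wg s ≠ c → φ s = 0

theorem V0_a (α β : ℚ) : A.V0 (α • A.a1 + β • A.a2) = α • opP + β • opP' := by
  rw [map_add, map_smul, map_smul, V0_a1, V0_a2]

theorem V0_b (α β : ℚ) : A.V0 (α • A.b1 + β • A.b2) = α • opQ + β • opQ' := by
  rw [map_add, map_smul, map_smul, V0_b1, V0_b2]

theorem V0_sp {z : Hq g} {ω : ℤ} (hz : A.Hom z ω) {c : ℤ} {φ : Fn} (hφ : Sp c φ) :
    Sp (c - ω) (A.V0 z φ) := by
  intro s hs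
  rcases hz with ⟨rfl, α, β, rfl⟩ | ⟨rfl, hz⟩ | ⟨rfl, α, β, rfl⟩
  · rw [V0_a, LinearMap.add_apply, LinearMap.smul_apply, LinearMap.smul_apply, Pi.add_apply,
      Pi.smul_apply, Pi.smul_apply, opP_van, opP'_van, smul_zero, smul_zero, add_zero]
    · intro t _ ht; exact hφ t (by omega)
    · intro t _ ht; exact hφ t (by omega)
  · rw [← hz, V0_rho]; rfl
  · rw [V0_b, LinearMap.add_apply, LinearMap.smul_apply, LinearMap.smul_apply, Pi.add_apply,
      Pi.smul_apply, Pi.smul_apply, opQ_van, opQ'_van, smul_zero, smul_zero, add_zero]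
    · intro t _ ht; exact hφ t (by omega)
    · intro t _ ht; exact hφ t (by omega)

theorem opR_sp {c : ℤ} {φ : Fn} (hφ : Sp c φ) : Sp c (opR φ) := by
  intro s hs
  apply opR_van
  intro t _ ht
  exact hφ t (by omega)

theorem V0_Fs (z : Hq g) {m : ℕ} {φ : Fn} (hφ : φ ∈ Fs (m + 1)) : A.V0 z φ ∈ Fs m := by
  rw [V0_apply]
  have h : ∀ s : List Bool × ℕ, m ≤ dg s → ∀ t, dg t = dg s + 1 → φ t = 0 := fun s hs t ht =>
    hφ t (by omega)
  refine Submodule.sub_mem _ (Submodule.add_mem _ (Submodule.sub_mem _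
    (Submodule.smul_mem _ _ ?_) (Submodule.smul_mem _ _ ?_)) (Submodule.smul_mem _ _ ?_))
    (Submodule.smul_mem _ _ ?_)
  · intro s hs; exact opP_van fun t ht _ => h s hs t ht
  · intro s hs; exact opQ_van fun t ht _ => h s hs t ht
  · intro s hs; exact opP'_van fun t ht _ => h s hs t ht
  · intro s hs; exact opQ'_van fun t ht _ => h s hs t ht

/-- detecting functions of small degree -/
theorem obs {m : ℕ} (hm : 1 ≤ m) {φ : Fn} (h : φ ∈ Fs (m + 1)) (h1 : opP φ ∈ Fs (m - 1))
    (h2 : opP' φ ∈ Fs (m - 1)) (h3 : opQ' φ ∈ Fs (m - 1)) : φ ∈ Fs m := by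
  intro s hs
  rcases Nat.lt_or_ge (dg s) (m + 1) with h4 | h4
  swap
  · exact h s h4
  have h5 : dg s = m := by omega
  obtain ⟨w, j⟩ := s
  cases w with
  | nil =>
    cases j with
    | zero => simp [dg, wl] at h5; omega
    | succ j =>
      have := h3 ([], j) (by simp only [dg, wl] at h5 ⊢; omega)
      exact this
  | cons x w =>
    cases x
    · have := h1 (w, j) (by
        simp only [dg, wl, Bool.false_eq_true, if_false] at h5 ⊢; omega)
      exact this
    · cases j with
      | zero =>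
        have := h2 (w, 1) (by simp only [dg, wl, if_true] at h5 ⊢; omega)
        rw [opP'_apply] at this
        simpa using this
      | succ j =>
        have := h3 (true :: w, j) (by simp only [dg, wl] at h5 ⊢; omega)
        exact this

end Fr

end TG
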