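import Pool.Agent.H40.TG.Magnus
import Pool.Agent.H40.TG.St

/-!
# Weighted degrees in the Magnus expansion of the free group on two letters
-/

namespace TG

namespace Mag

/-! ### Sums over words -/

section Sum

variable {α : Type*} [DecidableEq α] [Fintype α] {A : Type*} [AddCommGroup A] [Module ℚ A]
  (D : α → Module.End ℚ A)

omit [DecidableEq α] in
theorem S_memW {K : Submodule ℚ A} {x : A} :
    ∀ (m : ℕ) (l : List α) (c : List α → ℚ),
      (∀ w : List α, w.length = m → c w ≠ 0 → (l.map D).prod ((w.map D).prod x) ∈ K) →
      (l.map D).prod (S D m c x) ∈ K := by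
  intro m
  induction m with
  | zero =>
    intro l c h
    simp only [S, LinearMap.smul_apply, Module.End.one_apply, map_smul]
    by_cases hc : c [] = 0
    · rw [hc, zero_smul]; exact Submodule.zero_mem _
    · have := h [] rfl hc
      rw [List.map_nil, List.prod_nil, Module.End.one_apply] at this
      exact Submodule.smul_mem _ _ this
  | succ m ih =>
    intro l c h
    simp only [S, LinearMap.sum_apply, map_sum, Module.End.mul_apply]
    refine Submodule.sum_mem _ fun j _ => ?_
    have h1 := ih (l ++ [j]) (fun w => c (j :: w)) (fun w hw hc => by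
      have := h (j :: w) (by simp [hw]) hc
      simpa using this)
    simpa using h1

theorem S_single (m : ℕ) (w₀ : List α) (r : ℚ) :
    S D m (fun w => if w = w₀ then r else 0) =
      if w₀.length = m then r • (w₀.map D).prod else 0 := by
  induction m generalizing w₀ with
  | zero =>
    cases w₀ with
    | nil => simp [S]
    | cons a t => simp [S]
  | succ m ih =>
    cases w₀ with
    | nil =>
      simp only [S, List.length_nil]
      rw [if_neg (by omega)]
      refine Finset.sum_eq_zero fun j _ => ?_
      rw [S_zero D m _ (fun w _ => by simp), mul_zero]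
    | cons a t =>
      simp only [S, List.cons.injEq, List.length_cons, Nat.add_right_cancel_iff]
      rw [Finset.sum_eq_single a]
      · have h1 : (fun w => if a = a ∧ w = t then r else 0) =
            fun w : List α => if w = t then r else 0 := by
          funext w; simp
        rw [h1, ih]
        split_ifs with h
        · rw [List.map_cons, List.prod_cons, mul_smul_comm]
        · rw [mul_zero]
      · intro j _ hj
        rw [S_zero D m _ (fun w _ => by simp [hj]), mul_zero]
      · intro h; exact absurd (Finset.mem_univ a) h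

/-- only one word contributes -/
theorem ev_one_word {n : ℕ} {w₀ : List α} (hw₀ : w₀.length ≤ n) {c : List α → ℚ}
    {f : A →ₗ[ℚ] ℚ} {x : A}
    (h : ∀ w : List α, w.length ≤ n → w ≠ w₀ → c w ≠ 0 → f ((w.map D).prod x) = 0) :
    f (ev D n c x) = c w₀ * f ((w₀.map D).prod x) := by
  have hS : ∀ m ≤ n, f (S D m c x) = if w₀.length = m then c w₀ * f ((w₀.map D).prod x)
      else 0 := by
    intro m hm
    have h1 : c = fun w => (if w = w₀ then 0 else c w) + if w = w₀ then c w₀ else 0 := by
      funext w
      by_cases hw : w = w₀
      · rw [if_pos hw, if_pos hw, hw, zero_add]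
      · rw [if_neg hw, if_neg hw, add_zero]
    have h2 : f (S D m (fun w => if w = w₀ then 0 else c w) x) = 0 := by
      have := S_memW D (K := LinearMap.ker f) (x := x) m [] (fun w => if w = w₀ then 0 else c w)
        (fun w hw hc => by
          rw [List.map_nil, List.prod_nil, Module.End.one_apply, LinearMap.mem_ker]
          by_cases hw' : w = w₀
          · simp [hw'] at hc
          · rw [if_neg hw'] at hc
            exact h w (by omega) hw' hc)
      simpa using this
    conv_lhs => rw [h1]
    rw [S_add, LinearMap.add_apply, map_add, h2, zero_add, S_single]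
    split_ifs with h3
    · rw [LinearMap.smul_apply, map_smul, smul_eq_mul]
    · simp
  unfold ev
  rw [LinearMap.sum_apply, map_sum, Finset.sum_congr rfl fun m hm => hS m (by
    have := Finset.mem_range.1 hm; omega), Finset.sum_ite_eq, if_pos (Finset.mem_range.2 (by omega))]

omit [DecidableEq α] in
theorem ev_split (n : ℕ) (c : List α → ℚ) :
    ev D n c = c [] • 1 + ev D n fun w => if w.isEmpty then 0 else c w := by
  unfold ev
  rw [Finset.sum_range_succ', Finset.sum_range_succ']
  have h1 : S D 0 (fun w : List α => if w.isEmpty then (0 : ℚ) else c w) = 0 := by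
    simp [S]
  rw [h1, add_zero, add_comm]
  rfl

omit [DecidableEq α] in
theorem ev_memW {K : Submodule ℚ A} {x : A} {n : ℕ} {c : List α → ℚ}
    (h : ∀ w : List α, w.length ≤ n → c w ≠ 0 → (w.map D).prod x ∈ K) : ev D n c x ∈ K := by
  unfold ev
  rw [LinearMap.sum_apply]
  refine Submodule.sum_mem _ fun m hm => ?_
  have h1 := S_memW D (K := K) (x := x) m [] c (fun w hw hc => by
    rw [List.map_nil, List.prod_nil, Module.End.one_apply]
    exact h w (by have := Finset.mem_range.1 hm; omega) hc)
  simpa using h1

end Sum

/-! ### Two letters -/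

/-- the coefficients of powers of the second letter -/
theorem coef_rep (g : FreeGroup Bool) : ∃ e : ℤ, coef g [true] = e ∧
    ∀ n, coef g (List.replicate n true) =
      coef ((FreeGroup.of true) ^ e) (List.replicate n true) := by
  have hact : ∀ (c c' : List Bool → ℚ), (∀ n, c (List.replicate n true) =
      c' (List.replicate n true)) → ∀ n, act true c (List.replicate n true) =
        act true c' (List.replicate n true) := by
    intro c c' h n
    cases n with
    | zero => exact h 0
    | succ n => rw [List.replicate_succ, act, act, ← List.replicate_succ, h, h]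
  have hinv : ∀ (c c' : List Bool → ℚ), (∀ n, c (List.replicate n true) =
      c' (List.replicate n true)) → ∀ n, invAct true c (List.replicate n true) =
        invAct true c' (List.replicate n true) := by
    intro c c' h n
    induction n with
    | zero => exact h 0
    | succ n ih => rw [List.replicate_succ, invAct, invAct, ← List.replicate_succ, h, ih]
  have hact' : ∀ (c : List Bool → ℚ) (n : ℕ), act false c (List.replicate n true) =
      c (List.replicate n true) := by
    intro c n
    cases n with
    | zero => rfl
    | succ n => rw [List.replicate_succ, act]; simp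
  have hinv' : ∀ (c : List Bool → ℚ) (n : ℕ), invAct false c (List.replicate n true) =
      c (List.replicate n true) := by
    intro c n
    cases n with
    | zero => rfl
    | succ n => rw [List.replicate_succ, invAct]; simp
  have hone : ∀ e : ℤ, coef ((FreeGroup.of true : FreeGroup Bool) ^ e) [true] = e := by
    intro e
    induction e using Int.induction_on with
    | zero => rw [zpow_zero, coef_one]; simp [delta]
    | succ n ih =>
      rw [add_comm, zpow_add, zpow_one, coef_of_mul, act, if_pos rfl, ih, coef_nil]
      push_cast; ring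
    | pred n ih =>
      rw [sub_eq_neg_add, zpow_add, zpow_neg_one, coef_of_inv_mul, invAct, if_pos rfl, ih,
        invAct, coef_nil]
      push_cast; ring
  have key : ∃ e : ℤ, ∀ n, coef g (List.replicate n true) =
      coef ((FreeGroup.of true) ^ e) (List.replicate n true) := by
    induction g using left_induction with
    | h1 => exact ⟨0, fun n => by rw [zpow_zero]⟩
    | h2 i g ih =>
      obtain ⟨e, he⟩ := ih
      cases i
      · refine ⟨e, fun n => ?_⟩
        rw [coef_of_mul, hact', he]
      · refine ⟨1 + e, fun n => ?_⟩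
        rw [coef_of_mul, zpow_add, zpow_one, coef_of_mul]
        exact hact _ _ he n
    | h3 i g ih =>
      obtain ⟨e, he⟩ := ih
      cases i
      · refine ⟨e, fun n => ?_⟩
        rw [coef_of_inv_mul, hinv', he]
      · refine ⟨-1 + e, fun n => ?_⟩
        rw [coef_of_inv_mul, zpow_add, zpow_neg_one, coef_of_inv_mul]
        exact hinv _ _ he n
  obtain ⟨e, he⟩ := key
  refine ⟨e, ?_, he⟩
  have := he 1
  rw [List.replicate_one] at this
  rw [this, hone]

theorem rep_of_nu {w : List Bool} (h : nu w = 0) : w = List.replicate w.length true := by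
  induction w with
  | nil => rfl
  | cons x w ih =>
    cases x
    · simp [nu] at h
    · rw [List.length_cons, List.replicate_succ, ← ih (by simpa [nu] using h)]

theorem nu_pos {g : FreeGroup Bool} (hg : coef g [true] = 0) {w : List Bool} (hw : w ≠ [])
    (hc : coef g w ≠ 0) : 1 ≤ nu w := by
  by_contra hlt
  have h0 : nu w = 0 := by omega
  obtain ⟨e, he, hr⟩ := coef_rep g
  rw [hg] at he
  have he0 : e = 0 := by exact_mod_cast he.symm
  rw [rep_of_nu h0, hr, he0, zpow_zero, coef_one] at hc
  apply hc
  unfold delta
  rw [if_neg]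
  intro h
  apply hw
  rw [rep_of_nu h0, h]

/-- the exponent sum of the second letter -/
theorem coef_hom (g : FreeGroup Bool) : Multiplicative.ofAdd (coef g [true]) =
    FreeGroup.lift (fun b : Bool => Multiplicative.ofAdd (if b then (1 : ℚ) else 0)) g := by
  induction g using left_induction with
  | h1 => rw [map_one, coef_one]; simp [delta]
  | h2 i g ih =>
    rw [map_mul, ← ih, FreeGroup.lift_apply_of, coef_of_mul, act, coef_nil, ← ofAdd_add]
    cases i <;> simp [add_comm]
  | h3 i g ih =>
    rw [map_mul, ← ih, map_inv, FreeGroup.lift_apply_of, coef_of_inv_mul, invAct, invAct,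
      coef_nil, ← ofAdd_neg, ← ofAdd_add]
    cases i
    · simp
    · simp [sub_eq_neg_add]

/-- the action on the plane -/
def plane : FreeGroup Bool →* Equiv.Perm (ℚ × ℚ) :=
  FreeGroup.lift fun b => if b then
    { toFun := fun p => (p.1, p.2 + p.1)
      invFun := fun p => (p.1, p.2 - p.1)
      left_inv := fun p => by simp
      right_inv := fun p => by simp }
  else
    { toFun := fun p => (p.1 + 1, p.2)
      invFun := fun p => (p.1 - 1, p.2)
      left_inv := fun p => by simp
      right_inv := fun p => by simp }

theorem plane_true (p : ℚ × ℚ) : plane (FreeGroup.of true) p = (p.1, p.2 + p.1) := by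
  unfold plane
  rw [FreeGroup.lift_apply_of]; rfl

theorem plane_false (p : ℚ × ℚ) : plane (FreeGroup.of false) p = (p.1 + 1, p.2) := by
  unfold plane
  rw [FreeGroup.lift_apply_of]; rfl

theorem plane_true_inv (p : ℚ × ℚ) : plane (FreeGroup.of true)⁻¹ p = (p.1, p.2 - p.1) := by
  unfold plane
  rw [map_inv, FreeGroup.lift_apply_of]; rfl

theorem plane_false_inv (p : ℚ × ℚ) : plane (FreeGroup.of false)⁻¹ p = (p.1 - 1, p.2) := by
  unfold plane
  rw [map_inv, FreeGroup.lift_apply_of]; rfl

theorem plane_formula (g : FreeGroup Bool) : ∃ a c : ℚ, ∀ p : ℚ × ℚ,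
    plane g p = (p.1 + a, p.2 + coef g [true] * p.1 + c) := by
  induction g using left_induction with
  | h1 =>
    refine ⟨0, 0, fun p => ?_⟩
    rw [map_one, coef_one]; simp [delta]
  | h2 i g ih =>
    obtain ⟨a, c, h⟩ := ih
    cases i
    · refine ⟨a + 1, c, fun p => ?_⟩
      rw [map_mul, Equiv.Perm.mul_apply, h, plane_false, coef_of_mul, act]
      simp [add_assoc]
    · refine ⟨a, c + a, fun p => ?_⟩
      rw [map_mul, Equiv.Perm.mul_apply, h, plane_true, coef_of_mul, act, if_pos rfl, coef_nil]
      ext
      · rfl
      · simp only; ring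
  | h3 i g ih =>
    obtain ⟨a, c, h⟩ := ih
    cases i
    · refine ⟨a - 1, c, fun p => ?_⟩
      rw [map_mul, Equiv.Perm.mul_apply, h, plane_false_inv, coef_of_inv_mul, invAct]
      ext
      · simp only; ring
      · simp
    · refine ⟨a, c - a, fun p => ?_⟩
      rw [map_mul, Equiv.Perm.mul_apply, h, plane_true_inv, coef_of_inv_mul, invAct, if_pos rfl,
        invAct, coef_nil]
      ext
      · rfl
      · simp only; ring

/-- **reduction to exponent sum zero** -/
theorem reduce {g : FreeGroup Bool} (hg : g ≠ 1) :
    (coef g [true] = 0) ∨ (coef (g * FreeGroup.of false * g⁻¹ * (FreeGroup.of false)⁻¹) [true] = 0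
      ∧ g * FreeGroup.of false * g⁻¹ * (FreeGroup.of false)⁻¹ ≠ 1) := by
  by_cases h : coef g [true] = 0
  · exact Or.inl h
  · right
    constructor
    · have h1 := coef_hom (g * FreeGroup.of false * g⁻¹ * (FreeGroup.of false)⁻¹)
      rw [map_mul, map_mul, map_mul, map_inv, map_inv] at h1
      rw [mul_right_comm _ _ (FreeGroup.lift _ g)⁻¹, mul_inv_cancel, one_mul, mul_inv_cancel]
        at h1
      exact Multiplicative.ofAdd.injective h1
    · intro h1
      apply h
      have h2 : g * FreeGroup.of false = FreeGroup.of false * g := by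
        rw [mul_inv_eq_one, mul_inv_eq_iff_eq_mul] at h1
        exact h1
      obtain ⟨a, c, hf⟩ := plane_formula g
      have h3 := congrArg (fun x => plane x (0, 0)) h2
      simp only [map_mul, Equiv.Perm.mul_apply] at h3
      rw [plane_false, hf, hf, plane_false] at h3
      have h4 := congrArg Prod.snd h3
      simp only at h4
      linarith

theorem nu_le_wl (w : List Bool) : nu w ≤ wl w := by
  induction w with
  | nil => simp [nu, wl]
  | cons x w ih =>
    cases x
    · simp only [nu, wl, Bool.false_eq_true, if_false]; omega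
    · simp only [nu, wl, if_true]; omega

theorem length_le_wl (w : List Bool) : w.length ≤ wl w := by
  induction w with
  | nil => simp
  | cons x w ih =>
    cases x
    · simp only [List.length_cons, wl, Bool.false_eq_true, if_false]; omega
    · simp only [List.length_cons, wl, if_true]; omega

/-- **the leading word** -/
theorem exists_lead {g : FreeGroup Bool} (hg : g ≠ 1) :
    ∃ w₀ : List Bool, w₀ ≠ [] ∧ coef g w₀ ≠ 0 ∧
      (∀ w : List Bool, w ≠ [] → coef g w ≠ 0 → wl w₀ ≤ wl w) ∧
      (∀ w : List Bool, w ≠ [] → coef g w ≠ 0 → wl w = wl w₀ → nu w ≤ nu w₀) := by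
  classical
  obtain ⟨w1, hw1, hw1c⟩ := exists_coef_ne hg
  have h1 : ∃ n : ℕ, ∃ w : List Bool, wl w = n ∧ w ≠ [] ∧ coef g w ≠ 0 :=
    ⟨wl w1, w1, rfl, hw1, hw1c⟩
  set n := Nat.find h1 with hn
  obtain ⟨w2, hw2n, hw2, hw2c⟩ := Nat.find_spec h1
  have hmin : ∀ w : List Bool, w ≠ [] → coef g w ≠ 0 → n ≤ wl w := fun w hw hc =>
    Nat.find_min' h1 ⟨w, rfl, hw, hc⟩
  have h2 : ∃ k : ℕ, ∃ w : List Bool, nu w + k = n ∧ wl w = n ∧ w ≠ [] ∧ coef g w ≠ 0 :=
    ⟨n - nu w2, w2, by have := nu_le_wl w2; omega, hw2n, hw2, hw2c⟩
  obtain ⟨w3, hw3k, hw3n, hw3, hw3c⟩ := Nat.find_spec h2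
  refine ⟨w3, hw3, hw3c, fun w hw hc => by rw [hw3n]; exact hmin w hw hc, ?_⟩
  intro w hw hc hwn
  have h3 : wl w = n := by rw [hwn, hw3n]
  have h4 := nu_le_wl w
  have h5 := Nat.find_min' h2 ⟨w, (by omega : nu w + (n - nu w) = n), h3, hw, hc⟩
  omega

end Mag

end TG
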