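import Pool.Agent.H40.TG.Sym3

/-!
# Values of functionals on products of homogeneous classes
-/

open scoped commutatorElement

namespace TG

open Aug

variable {g : ℕ}

/-- left multiplication of the argument -/
noncomputable def ml (f : RG g →ₗ[ℚ] ℚ) (x : RG g) : RG g →ₗ[ℚ] ℚ := f ∘ₗ LinearMap.mulLeft ℚ x

theorem ml_apply (f : RG g →ₗ[ℚ] ℚ) (x y : RG g) : ml f x y = f (x * y) := rfl

theorem ml_ml (f : RG g →ₗ[ℚ] ℚ) (x y : RG g) : ml (ml f x) y = ml f (x * y) := by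
  apply LinearMap.ext
  intro z
  rw [ml_apply, ml_apply, ml_apply, mul_assoc]

theorem ml_add (f : RG g →ₗ[ℚ] ℚ) (x y : RG g) : ml f (x + y) = ml f x + ml f y := by
  apply LinearMap.ext
  intro z
  rw [ml_apply, add_mul, map_add]; rfl

theorem ml_sub (f : RG g →ₗ[ℚ] ℚ) (x y : RG g) : ml f (x - y) = ml f x - ml f y := by
  apply LinearMap.ext
  intro z
  rw [ml_apply, sub_mul, map_sub]; rfl

theorem ml_smul (f : RG g →ₗ[ℚ] ℚ) (r : ℚ) (x : RG g) : ml f (r • x) = r • ml f x := by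
  apply LinearMap.ext
  intro z
  rw [ml_apply, smul_mul_assoc, map_smul]; rfl

theorem ml_sum {ι : Type*} (f : RG g →ₗ[ℚ] ℚ) (s : Finset ι) (x : ι → RG g) :
    ml f (∑ i ∈ s, x i) = ∑ i ∈ s, ml f (x i) := by
  apply LinearMap.ext
  intro z
  rw [ml_apply, Finset.sum_mul, map_sum, LinearMap.sum_apply]; rfl

/-- values of a functional on products of homogeneous classes of bounded weight -/
def Good (A : Fr g) (Hm : Hq g → ℤ → Prop) (y : Hq g) (φ : Fn) :
    ℕ → (RG g →ₗ[ℚ] ℚ) → (Fn →ₗ[ℚ] ℚ) → ℤ → Prop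
  | 0, f, l, d => ∀ z ω, Hm z ω → ω ≤ d → f (nv z) = om y z * l φ
  | m + 1, f, l, d => ∀ z ω, Hm z ω → Good A Hm y φ m (ml f (nv z)) (l ∘ₗ A.V0 z) (d - ω)

/-- vanishing on products of homogeneous classes of bounded weight -/
def Van (Hm : Hq g → ℤ → Prop) : ℕ → (RG g →ₗ[ℚ] ℚ) → ℤ → Prop
  | 0, f, d => ∀ z ω, Hm z ω → ω ≤ d → f (nv z) = 0
  | m + 1, f, d => ∀ z ω, Hm z ω → Van Hm m (ml f (nv z)) (d - ω)

/-- functionals of weight `k` -/
def LW (k : ℤ) (l : Fn →ₗ[ℚ] ℚ) : Prop := ∀ c φ, Fr.Sp c φ → c ≠ k → l φ = 0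

theorem LW.comp_V0 {A : Fr g} {k : ℤ} {l : Fn →ₗ[ℚ] ℚ} (h : LW k l) {z : Hq g} {ω : ℤ}
    (hz : A.Hom z ω) : LW (k + ω) (l ∘ₗ A.V0 z) := by
  intro c φ hφ hc
  exact h (c - ω) _ (A.V0_sp hz hφ) (by omega)

theorem LW.comp_R {k : ℤ} {l : Fn →ₗ[ℚ] ℚ} (h : LW k l) (r : ℚ) : LW k (l ∘ₗ (r • opR)) := by
  intro c φ hφ hc
  rw [LinearMap.comp_apply, LinearMap.smul_apply, map_smul, h c _ (Fr.opR_sp hφ) hc, smul_zero]

section Basic

variable {A : Fr g} {Hm : Hq g → ℤ → Prop}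

namespace Van

theorem mono {m : ℕ} {f : RG g →ₗ[ℚ] ℚ} {d d' : ℤ} (h : Van Hm m f d) (hd : d' ≤ d) :
    Van Hm m f d' := by
  induction m generalizing f d d' with
  | zero => intro z ω hz hω; exact h z ω hz (le_trans hω hd)
  | succ m ih => intro z ω hz; exact ih (h z ω hz) (by omega)

theorem add {m : ℕ} {f f' : RG g →ₗ[ℚ] ℚ} {d : ℤ} (h : Van Hm m f d) (h' : Van Hm m f' d) :
    Van Hm m (f + f') d := by
  induction m generalizing f f' d with
  | zero =>
    intro z ω hz hω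
    rw [LinearMap.add_apply, h z ω hz hω, h' z ω hz hω, add_zero]
  | succ m ih => intro z ω hz; exact ih (h z ω hz) (h' z ω hz)

theorem smul {m : ℕ} {f : RG g →ₗ[ℚ] ℚ} {d : ℤ} (h : Van Hm m f d) (r : ℚ) :
    Van Hm m (r • f) d := by
  induction m generalizing f d with
  | zero =>
    intro z ω hz hω
    rw [LinearMap.smul_apply, h z ω hz hω, smul_zero]
  | succ m ih => intro z ω hz; exact ih (h z ω hz)

theorem sub {m : ℕ} {f f' : RG g →ₗ[ℚ] ℚ} {d : ℤ} (h : Van Hm m f d) (h' : Van Hm m f' d) :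
    Van Hm m (f - f') d := by
  have := h.add (h'.smul (-1))
  rwa [neg_one_smul, ← sub_eq_add_neg] at this

theorem zero {m : ℕ} {d : ℤ} : Van Hm m 0 d := by
  induction m generalizing d with
  | zero => intro z ω hz hω; rfl
  | succ m ih => intro z ω hz; exact ih

theorem sum {ι : Type*} (s : Finset ι) {m : ℕ} {f : ι → RG g →ₗ[ℚ] ℚ} {d : ℤ}
    (h : ∀ i ∈ s, Van Hm m (f i) d) : Van Hm m (∑ i ∈ s, f i) d :=
  Finset.sum_induction f (fun f => Van Hm m f d) (fun _ _ ha hb => ha.add hb) zero h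

theorem good {m : ℕ} {f : RG g →ₗ[ℚ] ℚ} {d : ℤ} (h : Van Hm m f d) (y : Hq g) (φ : Fn) :
    Good A Hm y φ m f 0 d := by
  induction m generalizing f d with
  | zero =>
    intro z ω hz hω
    rw [h z ω hz hω, LinearMap.zero_apply, mul_zero]
  | succ m ih => intro z ω hz; exact ih (h z ω hz)

end Van

namespace Good

variable {y : Hq g} {φ : Fn}

theorem congr {m : ℕ} {f f' : RG g →ₗ[ℚ] ℚ} {l : Fn →ₗ[ℚ] ℚ} {d : ℤ}
    (h : Good A Hm y φ m f l d) (hf : ∀ x ∈ I (Surf g) ^ (m + 1), f' x = f x) :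
    Good A Hm y φ m f' l d := by
  induction m generalizing f f' l d with
  | zero =>
    intro z ω hz hω
    rw [hf _ (nv_mem z), h z ω hz hω]
  | succ m ih =>
    intro z ω hz
    refine ih (h z ω hz) fun x hx => hf _ ?_
    rw [LinearMap.mulLeft_apply]
    have := mul_mem_pow (nv_mem z) hx
    rwa [add_comm 1 (m + 1)] at this

theorem add {m : ℕ} {f f' : RG g →ₗ[ℚ] ℚ} {l l' : Fn →ₗ[ℚ] ℚ} {d : ℤ}
    (h : Good A Hm y φ m f l d) (h' : Good A Hm y φ m f' l' d) :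
    Good A Hm y φ m (f + f') (l + l') d := by
  induction m generalizing f f' l l' d with
  | zero =>
    intro z ω hz hω
    rw [LinearMap.add_apply, h z ω hz hω, h' z ω hz hω, LinearMap.add_apply, mul_add]
  | succ m ih => intro z ω hz; exact ih (h z ω hz) (h' z ω hz)

theorem add_van {m : ℕ} {f f' : RG g →ₗ[ℚ] ℚ} {l : Fn →ₗ[ℚ] ℚ} {d : ℤ}
    (h : Good A Hm y φ m f l d) (h' : Van Hm m f' d) : Good A Hm y φ m (f + f') l d := by
  have := h.add (h'.good y φ)
  rwa [add_zero] at this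

theorem smul {m : ℕ} {f : RG g →ₗ[ℚ] ℚ} {l : Fn →ₗ[ℚ] ℚ} {d : ℤ}
    (h : Good A Hm y φ m f l d) (r : ℚ) : Good A Hm y φ m (r • f) (r • l) d := by
  induction m generalizing f l d with
  | zero =>
    intro z ω hz hω
    rw [LinearMap.smul_apply, h z ω hz hω, LinearMap.smul_apply, smul_eq_mul, smul_eq_mul]
    ring
  | succ m ih => intro z ω hz; exact ih (h z ω hz)

theorem sub {m : ℕ} {f f' : RG g →ₗ[ℚ] ℚ} {l l' : Fn →ₗ[ℚ] ℚ} {d : ℤ}
    (h : Good A Hm y φ m f l d) (h' : Good A Hm y φ m f' l' d) :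
    Good A Hm y φ m (f - f') (l - l') d := by
  have := h.add (h'.smul (-1))
  rwa [neg_one_smul, neg_one_smul, ← sub_eq_add_neg, ← sub_eq_add_neg] at this

theorem van {m : ℕ} {f : RG g →ₗ[ℚ] ℚ} {l : Fn →ₗ[ℚ] ℚ} {d : ℤ}
    (h : Good A Hm y φ m f l d) (hl : l = 0) : Van Hm m f d := by
  induction m generalizing f l d with
  | zero =>
    intro z ω hz hω
    rw [h z ω hz hω, hl, LinearMap.zero_apply, mul_zero]
  | succ m ih => intro z ω hz; exact ih (h z ω hz) (by rw [hl, LinearMap.zero_comp])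

theorem van_y {m : ℕ} {f : RG g →ₗ[ℚ] ℚ} {l : Fn →ₗ[ℚ] ℚ} {d : ℤ}
    (h : Good A Hm y φ m f l d) (hy : y = 0) : Van Hm m f d := by
  induction m generalizing f l d with
  | zero =>
    intro z ω hz hω
    rw [h z ω hz hω, hy, map_zero, LinearMap.zero_apply, zero_mul]
  | succ m ih => intro z ω hz; exact ih (h z ω hz)

/-- the weight argument -/
theorem van_wt {m : ℕ} {f : RG g →ₗ[ℚ] ℚ} {l : Fn →ₗ[ℚ] ℚ} {d k c ωy : ℤ}
    (h : Good A A.Hom y φ m f l d) (hl : LW k l) (hφ : Fr.Sp c φ)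
    (hy : ∀ z ω, A.Hom z ω → om y z ≠ 0 → ω = ωy) (hc : c + ωy = k + d) :
    Van A.Hom m f (d - 1) := by
  induction m generalizing f l d k with
  | zero =>
    intro z ω hz hω
    rw [h z ω hz (by omega)]
    by_cases h1 : om y z = 0
    · rw [h1, zero_mul]
    · have h2 := hy z ω hz h1
      rw [hl c φ hφ (by omega), mul_zero]
  | succ m ih =>
    intro z ω hz
    have := ih (h z ω hz) (hl.comp_V0 hz) (by omega)
    have h2 : d - 1 - ω = d - ω - 1 := by omega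
    rwa [h2]

theorem comm2 {m : ℕ} {f : RG g →ₗ[ℚ] ℚ} {l : Fn →ₗ[ℚ] ℚ} {d : ℤ}
    (h : Good A Hm y φ (m + 2) f l d) {x x' : Hq g} {ω ω' : ℤ} (hx : Hm x ω)
    (hx' : Hm x' ω') : Good A Hm y φ m (ml f (br (nv x) (nv x')))
      (l ∘ₗ (A.V0 x * A.V0 x' - A.V0 x' * A.V0 x)) (d - ω - ω') := by
  have h1 := h x ω hx x' ω' hx'
  have h2 := h x' ω' hx' x ω hx
  have h3 : d - ω' - ω = d - ω - ω' := by omega
  rw [h3] at h2
  have h4 := h1.sub h2
  have e1 : ml f (br (nv x) (nv x')) = ml (ml f (nv x)) (nv x') - ml (ml f (nv x')) (nv x) := by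
    rw [ml_ml, ml_ml, ← ml_sub]; rfl
  have e2 : l ∘ₗ (A.V0 x * A.V0 x' - A.V0 x' * A.V0 x) =
      (l ∘ₗ A.V0 x) ∘ₗ A.V0 x' - (l ∘ₗ A.V0 x') ∘ₗ A.V0 x := by
    apply LinearMap.ext
    intro ψ
    simp only [LinearMap.comp_apply, LinearMap.sub_apply, map_sub, Module.End.mul_apply]
  rw [e1, e2]
  exact h4

theorem comm3 {m : ℕ} {f : RG g →ₗ[ℚ] ℚ} {l : Fn →ₗ[ℚ] ℚ} {d : ℤ}
    (h : Good A Hm y φ (m + 3) f l d) {x x' x'' : Hq g} {ω ω' ω'' : ℤ} (hx : Hm x ω)
    (hx' : Hm x' ω') (hx'' : Hm x'' ω'')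
    (hM : (A.V0 x * A.V0 x' - A.V0 x' * A.V0 x) * A.V0 x'' =
      A.V0 x'' * (A.V0 x * A.V0 x' - A.V0 x' * A.V0 x)) :
    Van Hm m (ml f (br (br (nv x) (nv x')) (nv x''))) (d - ω - ω' - ω'') := by
  have h1 := (h.comm2 hx hx') x'' ω'' hx''
  have h2 := Good.comm2 (h x'' ω'' hx'') hx hx'
  have h3 : d - ω'' - ω - ω' = d - ω - ω' - ω'' := by omega
  rw [h3] at h2
  have h4 := h1.sub h2
  have e1 : ml f (br (br (nv x) (nv x')) (nv x'')) =
      ml (ml f (br (nv x) (nv x'))) (nv x'') - ml (ml f (nv x'')) (br (nv x) (nv x')) := by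
    rw [ml_ml, ml_ml, ← ml_sub]; rfl
  rw [e1]
  refine h4.van ?_
  apply LinearMap.ext
  intro ψ
  have h5 := congrArg (fun M : Module.End ℚ Fn => l (M ψ)) hM
  simp only [Module.End.mul_apply] at h5
  rw [LinearMap.sub_apply, LinearMap.comp_apply, LinearMap.comp_apply, LinearMap.comp_apply,
    LinearMap.comp_apply, h5, sub_self, LinearMap.zero_apply]

end Good

/-- the admissible classes -/
def Yc (A : Fr g) (y : Hq g) (φ : Fn) (ωy : ℤ) : Prop :=
  (A.rho y = y ∧ ωy = 0) ∨ ((∃ κ : ℚ, y = κ • A.b2) ∧ ωy = 1 ∧ opQ' φ = 0)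

theorem om_rho_hom {y z : Hq g} {ω : ℤ} (hy : A.rho y = y) (hz : A.Hom z ω)
    (h : om y z ≠ 0) : ω = 0 := by
  rcases hz with ⟨rfl, α, β, rfl⟩ | ⟨rfl, hz⟩ | ⟨rfl, α, β, rfl⟩
  · exfalso
    apply h
    rw [← hy, A.rho_adj, map_add, map_smul, map_smul, A.rho_a1, A.rho_a2]
    simp
  · rfl
  · exfalso
    apply h
    rw [← hy, A.rho_adj, map_add, map_smul, map_smul, A.rho_b1, A.rho_b2]
    simp

theorem om_b2_hom {z : Hq g} {ω : ℤ} (hz : A.Hom z ω) (h : om A.b2 z ≠ 0) : ω = 1 := by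
  rcases hz with ⟨rfl, α, β, rfl⟩ | ⟨rfl, hz⟩ | ⟨rfl, α, β, rfl⟩
  · rfl
  · exfalso
    apply h
    rw [← hz, A.b2_rho]
  · exfalso
    apply h
    rw [map_add, map_smul, map_smul, A.hbb', om_self]
    simp

theorem Yc.wt {y : Hq g} {φ : Fn} {ωy : ℤ} (h : Yc A y φ ωy) :
    ∀ z ω, A.Hom z ω → om y z ≠ 0 → ω = ωy := by
  intro z ω hz hyz
  rcases h with ⟨hy, rfl⟩ | ⟨⟨κ, rfl⟩, rfl, _⟩
  · exact om_rho_hom hy hz hyz
  · apply om_b2_hom hz
    intro h0
    apply hyz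
    rw [map_smul, LinearMap.smul_apply, h0, smul_zero]

theorem hom_smul {z : Hq g} {ω : ℤ} (hz : A.Hom z ω) (r : ℚ) : A.Hom (r • z) ω := by
  rcases hz with ⟨rfl, α, β, rfl⟩ | ⟨rfl, hz⟩ | ⟨rfl, α, β, rfl⟩
  · exact Or.inl ⟨rfl, r * α, r * β, by rw [smul_add, smul_smul, smul_smul]⟩
  · exact Or.inr (Or.inl ⟨rfl, by rw [map_smul, hz]⟩)
  · exact Or.inr (Or.inr ⟨rfl, r * α, r * β, by rw [smul_add, smul_smul, smul_smul]⟩)

/-- Leibniz rule for functionals -/
theorem leib_ml {k m : ℕ} (hk : 1 ≤ k) {F : MulAut (Surf g)} {s : Hq g →ₗ[ℚ] RG g}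
    (hF : Sy k F s) {f : RG g →ₗ[ℚ] ℚ} (hf : ∀ x ∈ I (Surf g) ^ (m + k + 3), f x = 0)
    (z : Hq g) : ∀ x ∈ I (Surf g) ^ (m + 1),
      ml (f ∘ₗ Df F) (nv z) x = (ml f (nv z) ∘ₗ Df F + ml f (s z)) x := by
  intro x hx
  rw [ml_apply, LinearMap.comp_apply, LinearMap.add_apply, LinearMap.comp_apply, ml_apply,
    ml_apply]
  have h1 : Df F (nv z * x) = (nv z * Df F x + s z * x) + ((Df F (nv z) - s z) * x +
      Df F (nv z) * Df F x) := by
    rw [Df_leib]; noncomm_ring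
  rw [h1, map_add f, map_add f, hf ((Df F (nv z) - s z) * x + Df F (nv z) * Df F x), add_zero]
  refine Submodule.add_mem _ ?_ ?_
  · have := mul_mem_pow (hF.nv z) hx
    have h2 : k + 2 + (m + 1) = m + k + 3 := by omega
    rwa [h2] at this
  · have h3 := hF.Df_mem (m := 0) (nv_mem z)
    have := mul_mem_pow h3 (hF.Df_mem hx)
    exact I_anti (by omega) (by omega) this

end Basic

/-! ### The symbols on homogeneous classes -/

section Symbols

variable {d : BP g} {S : Spl g} {q t : Bool} {A : Fr g} (h : Cf d.dat S q t A)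

include h

theorem Cf.a_eq : A.a1 + A.a2 = d.a := h.sum

theorem Cf.hom_a : A.Hom d.a 1 := Or.inl ⟨rfl, 1, 1, by rw [one_smul, one_smul]; exact h.sum.symm⟩

omit h in
theorem hom_beta (A : Fr g) : A.Hom (A.b1 - A.b2) (-1) :=
  Or.inr (Or.inr ⟨rfl, 1, -1, by rw [one_smul, neg_one_smul, sub_eq_add_neg]⟩)

theorem Cf.V0_a' : A.V0 d.a = opP + opP' := by
  rw [← h.a_eq, map_add, A.V0_a1, A.V0_a2]

omit h in
theorem V0_beta (A : Fr g) : A.V0 (A.b1 - A.b2) = opQ - opQ' := by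
  rw [map_sub, A.V0_b1, A.V0_b2]

/-- decomposition of the elements of the image of the projection -/
theorem Cf.nv_dec {x : Hq g} (hx : d.projL q x = x) :
    nv x = nv (A.rho x) + om A.b1 x • nv d.a - om A.a1 x • nv (A.b1 - A.b2) := by
  have h1 : x = A.rho x + om A.b1 x • d.a - om A.a1 x • (A.b1 - A.b2) := by
    have h2 := h.p_decomp x
    change d.projL q x = A.rho (d.projL q x) + om A.b1 (d.projL q x) • d.a -
      om A.a1 (d.projL q x) • (A.b1 - A.b2) at h2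
    rwa [hx] at h2
  conv_lhs => rw [h1]
  rw [map_sub, map_add, map_smul, map_smul]

theorem Cf.idem' (x : Hq g) : d.projL q (d.projL q x) = d.projL q x := d.dat.idem q x

theorem Cf.sy_zero {z : Hq g} (hz : A.rho z = z) : d.sy q z =
    br (nv d.a) (nv (A.rho (d.projL q z))) -
      om A.a1 (d.projL q z) • br (nv d.a) (nv (A.b1 - A.b2)) := by
  have h1 : om z d.a = 0 := by
    rw [← hz, A.rho_adj, ← h.a_eq, map_add, A.rho_a1, A.rho_a2]; simp
  rw [d.sy_apply, h1, zero_smul, add_zero, h.nv_dec (h.idem' z), br_sub_right, br_add_right,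
    br_smul_right, br_smul_right, br_self, smul_zero, add_zero]

theorem Cf.sy_one (α β : ℚ) : d.sy q (α • A.a1 + β • A.a2) =
    (α - β) • br (nv d.a) (nv (A.rho (d.projL q A.a1))) := by
  have h1 : om (α • A.a1 + β • A.a2) d.a = 0 := by
    rw [← h.a_eq]
    simp only [map_add, LinearMap.add_apply, map_smul, LinearMap.smul_apply, om_self, A.haa,
      A.haa', smul_zero, add_zero]
  have h2 : d.projL q A.a2 = -d.projL q A.a1 := h.pa'
  have h3 : om A.a1 (d.projL q A.a1) = 0 := by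
    have e1 : om (d.projL q A.a1) A.a1 = om A.a1 (d.projL q A.a1) := d.dat.adj q _ _
    have e2 := om_anti (d.projL q A.a1) A.a1
    rw [e1] at e2
    linarith
  rw [d.sy_apply, h1, zero_smul, add_zero, map_add, map_smul, map_smul, h2, map_add, map_smul,
    map_smul, map_neg, h.nv_dec (h.idem' A.a1), h3, zero_smul, sub_zero, br_add_right,
    br_smul_right, br_smul_right]
  have h4 : br (nv d.a) (-(nv (A.rho (d.projL q A.a1)) +
      om A.b1 (d.projL q A.a1) • nv d.a)) = -br (nv d.a) (nv (A.rho (d.projL q A.a1))) := by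
    rw [← neg_one_smul ℚ (_ + _), br_smul_right, br_add_right, br_smul_right, br_self,
      smul_zero, add_zero, neg_one_smul]
  rw [h4, br_add_right, br_smul_right, br_self, smul_zero, add_zero]
  module

omit h in
theorem br_identity (X Y P Q : RG g) (u v s s' : ℚ) :
    v • br P (X + u • P - s • Q) - u • br P (Y + v • P - s' • Q) +
      br (X + u • P - s • Q) (Y + v • P - s' • Q) =
      br X Y - s' • br X Q - s • br Q Y := by
  have h1 : br X P = -br P X := br_anti _ _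
  have h2 : br Q P = -br P Q := br_anti _ _
  simp only [br_add_left, br_add_right, br_sub_left, br_sub_right, br_smul_left, br_smul_right,
    br_self, h1, h2]
  module

theorem Cf.sy_neg (γ γ' : ℚ) : d.sy q (γ • A.b1 + γ' • A.b2) =
    (γ + γ') • ∑ i ∈ d.side q, (br (nv (A.rho (d.A i))) (nv (A.rho (d.B i))) -
      om A.a1 (d.B i) • br (nv (A.rho (d.A i))) (nv (A.b1 - A.b2)) -
      om A.a1 (d.A i) • br (nv (A.b1 - A.b2)) (nv (A.rho (d.B i)))) := by
  have h1 : om (γ • A.b1 + γ' • A.b2) d.a = γ + γ' := by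
    rw [← h.a_eq]
    simp only [map_add, LinearMap.add_apply, map_smul, LinearMap.smul_apply, A.h11, A.h22,
      A.hba, A.hab', smul_eq_mul]
    ring
  have h2 : d.projL q A.b2 = d.projL q A.b1 := by
    have := h.beta
    rw [map_sub, sub_eq_zero] at this
    exact this.symm
  have h3 : d.sy q (γ • A.b1 + γ' • A.b2) =
      (γ + γ') • (br (nv d.a) (nv (d.projL q A.b1)) + d.Th q) := by
    rw [d.sy_apply, h1, map_add, map_smul, map_smul, h2, map_add, map_smul, map_smul,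
      br_add_right, br_smul_right, br_smul_right]
    module
  rw [h3]
  congr 1
  rw [d.proj_apply, map_sum, br_sum_right, BP.Th, ← Finset.sum_add_distrib]
  refine Finset.sum_congr rfl fun i hi => ?_
  have hA : d.projL q (d.A i) = d.A i := by rw [d.proj_A, if_pos hi]
  have hB : d.projL q (d.B i) = d.B i := by rw [d.proj_B, if_pos hi]
  rw [map_sub, map_smul, map_smul, br_sub_right, br_smul_right, br_smul_right, h.nv_dec hA,
    h.nv_dec hB]
  exact br_identity _ _ _ _ _ _ _ _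

end Symbols

end TG
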