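import Pool.Agent.H40.TG.Md2
import Pool.Agent.H40.TG.Step
import Pool.Agent.H40.TG.MagW
import Pool.Agent.H40.TG.Main

/-!
# The main argument

If a word in an automorphism of degree one and an automorphism of degree two is inner, then the
values of the functionals coming from the representations are multiples of the starting classes.
-/

open scoped commutatorElement

namespace TG

open Aug

variable {g : ℕ}

theorem exists_rho_vec (A : Fr g) {u : Hq g} (hu : A.rho u ≠ 0) :
    ∃ z, A.rho z = z ∧ om u z = 1 := by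
  obtain ⟨Y, hY⟩ : ∃ Y, om (A.rho u) Y ≠ 0 := by
    by_contra hc
    push Not at hc
    exact hu (om_symp.nondeg _ hc)
  refine ⟨(om (A.rho u) Y)⁻¹ • A.rho Y, ?_, ?_⟩
  · rw [map_smul, A.rho_rho]
  · rw [map_smul, ← A.rho_adj, smul_eq_mul, inv_mul_cancel₀ hY]

/-- evaluation at the empty state -/
def ev0 : Fn →ₗ[ℚ] ℚ := LinearMap.proj ([], 0)

theorem ev0_apply (φ : Fn) : ev0 φ = φ ([], 0) := rfl

theorem ev0_LW : LW 0 ev0 := by
  intro c φ hφ hc
  rw [ev0_apply]
  apply hφ
  simp only [wg, nu]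
  intro h
  apply hc
  rw [← h]
  simp

/-- the function with value one at a word -/
def dlt (w : List Bool) : Fn := fun s => if s = (w, 0) then 1 else 0

theorem dlt_apply (w : List Bool) (s : List Bool × ℕ) :
    dlt w s = if s = (w, 0) then 1 else 0 := rfl

theorem dlt_sp (w : List Bool) : Fr.Sp (nu w) (dlt w) := by
  intro s hs
  unfold dlt
  rw [if_neg]
  rintro rfl
  apply hs
  simp [wg]

theorem dlt_memB (w : List Bool) : dlt w ∈ FB (wl w) := by
  intro s hs
  unfold dlt
  rw [if_neg]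
  rintro rfl
  simp [bd] at hs

theorem dlt_Q' (w : List Bool) : opQ' (dlt w) = 0 := by
  funext s
  rw [opQ'_apply]
  unfold dlt
  rw [if_neg]
  · rfl
  · intro h
    have := congrArg Prod.snd h
    simp at this

theorem cut0_dlt (w : List Bool) : cut0 (wl w) (dlt w) = dlt w := by
  funext s
  rw [cut0_apply]
  split_ifs with h
  · rfl
  · unfold dlt
    rw [if_neg]
    rintro rfl
    apply h
    simp [bd]

/-- values of a functional on all products of classes -/
def GoodU (A : Fr g) (y : Hq g) (φ : Fn) :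
    ℕ → (RG g →ₗ[ℚ] ℚ) → (Fn →ₗ[ℚ] ℚ) → Prop
  | 0, f, l => ∀ z, f (nv z) = om y z * l φ
  | m + 1, f, l => ∀ z, GoodU A y φ m (ml f (nv z)) (l ∘ₗ A.V0 z)

theorem GoodU.good {A : Fr g} {Hm : Hq g → ℤ → Prop} {y : Hq g} {φ : Fn} {m : ℕ}
    {f : RG g →ₗ[ℚ] ℚ} {l : Fn →ₗ[ℚ] ℚ} (h : GoodU A y φ m f l) (δ : ℤ) :
    Good A Hm y φ m f l δ := by
  induction m generalizing f l δ with
  | zero => intro z ω _ _; exact h z
  | succ m ih => intro z ω _; exact ih (h z) _

section Words

variable {F : Bool → MulAut (Surf g)} {s0 s1 : Hq g →ₗ[ℚ] RG g} (hF0 : Sy 1 (F false) s0)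
  (hF1 : Sy 2 (F true) s1)

include hF0 hF1

/-- words of automorphisms act by operators of the degree of the word -/
theorem word_mem (w : List Bool) {m : ℕ} {x : RG g} (hx : x ∈ I (Surf g) ^ (m + 1)) :
    (w.map fun x => Df (F x)).prod x ∈ I (Surf g) ^ (m + 1 + wl w) := by
  induction w with
  | nil => simpa [wl] using hx
  | cons b w ih =>
    rw [List.map_cons, List.prod_cons, Module.End.mul_apply]
    cases b
    · have h1 : m + 1 + wl w = (m + wl w) + 1 := by omega
      rw [h1] at ih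
      have h2 := hF0.Df_mem ih
      have h3 : m + wl w + 1 + 1 = m + 1 + wl (false :: w) := by
        simp only [wl, Bool.false_eq_true, if_false]; omega
      rwa [h3] at h2
    · have h1 : m + 1 + wl w = (m + wl w) + 1 := by omega
      rw [h1] at ih
      have h2 := hF1.Df_mem ih
      have h3 : m + wl w + 1 + 2 = m + 1 + wl (true :: w) := by
        simp only [wl, if_true]; omega
      rwa [h3] at h2

end Words

/-! ### The starting functionals -/

section Start

variable {A : Fr g} {y0 : Hq g} {n : ℕ} {Ψ : Surf g →* Module.End ℚ EE}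
  (h1 : ∀ x, Fd (FF n) 1 (Ψ x - 1)) (h2 : ∀ x, Fd (FF n) 2 (Ψ x - 1 - VV A y0 n (cls x)))

include h2 in
theorem fext_nv (z : Hq g) : Fd (FF n) 2 (fext Ψ (nv z) - VV A y0 n z) := by
  have h3 : fext Ψ (nv z) - VV A y0 n z = ∑ i, (z.1 i • (Ψ (al i) - 1 - VV A y0 n (cls (al i))) +
      z.2 i • (Ψ (be i) - 1 - VV A y0 n (cls (be i)))) := by
    have h4 : VV A y0 n z = ∑ i, (z.1 i • VV A y0 n (ea i) + z.2 i • VV A y0 n (eb i)) := by
      conv_lhs => rw [hq_decomp z]
      rw [map_sum]
      exact Finset.sum_congr rfl fun i _ => by rw [map_add, map_smul, map_smul]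
    rw [h4, nv_apply, map_sum, ← Finset.sum_sub_distrib]
    refine Finset.sum_congr rfl fun i _ => ?_
    rw [map_add, map_smul, map_smul, cls_al, cls_be, fext_dl, fext_dl, smul_sub _ (_ - _),
      smul_sub _ (_ - _)]
    abel
  rw [h3]
  exact Fd.sum _ fun i _ => ((h2 _).smul _).add ((h2 _).smul _)

include h1 h2

theorem start_aux {v : EE} {y : Hq g} {φ : Fn}
    (hv : ∀ z, VV A y0 n z v = (om y z • φ, 0, 0)) :
    ∀ {m : ℕ} {f : RG g →ₗ[ℚ] ℚ} {l : Fn →ₗ[ℚ] ℚ}, m ≤ n →
      (∀ x ∈ I (Surf g) ^ (m + 1), f x = l (fext Ψ x v).1) → (∀ ψ ∈ Fs (n - m), l ψ = 0) →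
      GoodU A y φ m f l := by
  intro m
  induction m with
  | zero =>
    intro f l _ hf hl z
    rw [hf _ (nv_mem z)]
    have e1 : fext Ψ (nv z) v = VV A y0 n z v + (fext Ψ (nv z) - VV A y0 n z) v := by
      rw [LinearMap.sub_apply]; abel
    have e2 := fext_nv h2 z (n + 2) v (by rw [(FF n).top]; exact Submodule.mem_top)
    rw [FF_K, mem_KK (by omega)] at e2
    have e3 := hl _ (by
      have := e2.1.1
      have e4 : n + 2 - 2 = n - 0 := by omega
      rwa [e4] at this)
    rw [e1, Prod.fst_add, map_add, e3, add_zero, hv, map_smul, smul_eq_mul]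
  | succ m ih =>
    intro f l hm hf hl z
    apply ih (by omega)
    · intro x hx
      rw [ml_apply]
      have e0 : nv z * x ∈ I (Surf g) ^ (m + 1 + 1) := by
        have := mul_mem_pow (nv_mem z) hx
        rwa [add_comm 1 (m + 1)] at this
      rw [hf _ e0, map_mul, Module.End.mul_apply, LinearMap.comp_apply]
      set e := fext Ψ x v with he
      have he1 := fext_deg h1 hx (n + 2) v (by rw [(FF n).top]; exact Submodule.mem_top)
      rw [← he, FF_K] at he1
      have he2 := he1
      rw [mem_KK (by omega)] at he2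
      have e1 : fext Ψ (nv z) e = VV A y0 n z e + (fext Ψ (nv z) - VV A y0 n z) e := by
        rw [LinearMap.sub_apply]; abel
      have e2 := fext_nv h2 z _ e he1
      rw [FF_K, mem_KK (by omega)] at e2
      have e3 := hl _ (by
        have := e2.1.1
        have e4 : n + 2 - (m + 1) - 2 = n - (m + 1) := by omega
        rwa [e4] at this)
      have e5 : e = (e.1, 0, 0) := by
        apply Prod.ext
        · rfl
        · rw [he2.2]; rfl
      rw [e1, Prod.fst_add, map_add, e3, add_zero]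
      conv_lhs => rw [e5, VV_inl z he2.1.2]
    · intro ψ hψ
      rw [LinearMap.comp_apply]
      apply hl
      apply A.V0_Fs
      have e4 : n - (m + 1) + 1 = n - m := by omega
      rwa [e4]

end Start

/-! ### The core -/

/-- the coefficients, with the constant term removed -/
noncomputable def cf0 (w : FreeGroup Bool) (v : List Bool) : ℚ :=
  if v.isEmpty then 0 else Mag.coef w v

theorem cf0_ne {w : FreeGroup Bool} {v : List Bool} (h : cf0 w v ≠ 0) :
    v ≠ [] ∧ Mag.coef w v ≠ 0 := by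
  cases v with
  | nil => simp [cf0] at h
  | cons a v => exact ⟨by simp, by simpa [cf0] using h⟩

theorem cf0_eq {w : FreeGroup Bool} {v : List Bool} (h : v ≠ []) : cf0 w v = Mag.coef w v := by
  unfold cf0
  rw [if_neg]
  simpa using h

/-- **the core of the argument** -/
theorem core_abs {A : Fr g} {y0 : Hq g} (hy0 : Cl A y0) (hρ : A.rho y0 ≠ 0)
    {F : Bool → MulAut (Surf g)} {s0 s1 : Hq g →ₗ[ℚ] RG g} (hF0 : Sy 1 (F false) s0)
    (hF1 : Sy 2 (F true) s1) {w : FreeGroup Bool} {w₀ : List Bool} (hw₀ : w₀ ≠ [])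
    (hmin : ∀ v : List Bool, v ≠ [] → Mag.coef w v ≠ 0 → wl w₀ ≤ wl v) {ζ : Surf g}
    (hinn : FreeGroup.lift F w = MulAut.conj ζ) :
    ∃ (fA fB : RG g →ₗ[ℚ] ℚ) (Z0 : ℚ),
      (∀ x ∈ I (Surf g) ^ (wl w₀ + 2), fA x = 0) ∧ (∀ x ∈ I (Surf g) ^ (wl w₀ + 2), fB x = 0) ∧
      GoodU A y0 (dlt w₀) (wl w₀) fA ev0 ∧ GoodU A A.b2 (dlt w₀) (wl w₀) fB ev0 ∧
      ∀ z, om A.b1 z = 0 → om A.a2 z = 0 →
        Z0 * om y0 z = fA (Mag.ev (fun x => Df (F x)) (wl w₀) (cf0 w) (nv z)) ∧
        Z0 * om A.b2 z = fB (Mag.ev (fun x => Df (F x)) (wl w₀) (cf0 w) (nv z)) := by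
  set n := wl w₀ with hn
  have hlen : 1 ≤ w₀.length := List.length_pos_iff.2 hw₀
  have hn1 : 1 ≤ n := le_trans hlen (Mag.length_le_wl w₀)
  obtain ⟨r, hr, hyr⟩ := exists_rho_vec A hρ
  obtain ⟨Ψ, hΨ1, hΨ2⟩ := exists_psi A hy0 n
  set D : Bool → Module.End ℚ (RG g) := fun x => Df (F x) with hD
  have htriv : ∀ x, Triv (F x) := by
    intro x
    cases x
    · exact hF0.triv
    · exact hF1.triv
  set G := FreeGroup.lift F w with hG
  -- the Magnus expansion
  have hev : ∀ x : RG g, Df G x - Mag.ev D n (cf0 w) x ∈ I (Surf g) ^ (n + 2) := by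
    intro x
    have h1 := Mag.eval D (hat.comp (FreeGroup.lift F)) (fun i => by
      rw [MonoidHom.comp_apply, FreeGroup.lift_apply_of]
      change _ = 1 + (hat (F i) - 1)
      abel) (K := I (Surf g) ^ (n + 2)) (fun g x hx => hat_mem hx) (n := n) (fun l hl x => by
        have h1 := Df_prod_mem' htriv l (by rintro rfl; simp at hl) x
        rw [hl] at h1
        have h2 : 1 + (n + 1) = n + 2 := by omega
        rwa [h2] at h1) w x
    rw [Mag.ev_split, Mag.coef_nil, one_smul, LinearMap.add_apply, Module.End.one_apply,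
      ← sub_sub] at h1
    exact h1
  have hdeg : ∀ (m : ℕ) (x : RG g), x ∈ I (Surf g) ^ (m + 1) → m ≤ 1 →
      Df G x ∈ I (Surf g) ^ (m + 1 + n) := by
    intro m x hx hm
    have h1 : Mag.ev D n (cf0 w) x ∈ I (Surf g) ^ (m + 1 + n) := by
      apply Mag.ev_memW
      intro v _ hv
      obtain ⟨hv1, hv2⟩ := cf0_ne hv
      have h3 := word_mem hF0 hF1 v hx
      exact I_anti (by omega) (by have := hmin v hv1 hv2; omega) h3
    have h2 := Submodule.add_mem _ (I_anti (by omega) (by omega : m + 1 + n ≤ n + 2) (hev x)) h1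
    rwa [sub_add_cancel] at h2
  -- the difference
  set Δ : Surf g → Module.End ℚ EE := fun x => Ψ (G x) - Ψ x with hΔ
  have hΔ' : ∀ x, Δ x = fext Ψ (Df G (dl x)) := by
    intro x
    rw [Df_apply, hat_dl, map_sub, fext_dl, fext_dl, hΔ]
    simp only
    abel
  have hΔdeg : ∀ x, Fd (FF n) (n + 1) (Δ x) := by
    intro x
    rw [hΔ']
    apply fext_deg hΨ1
    have := hdeg 0 (dl x) (dl_mem_one x) (by norm_num)
    have h2 : 0 + 1 + n = n + 1 := by omega
    rwa [h2] at this
  set Z := Ψ ζ - 1 with hZ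
  have hZ1 : Fd (FF n) 1 Z := hΨ1 ζ
  have hcomm : ∀ x, Z * (Ψ x - 1) - (Ψ x - 1) * Z = Δ x := by
    intro x
    have h1 : G x * ζ = ζ * x := by
      rw [hinn, MulAut.conj_apply, inv_mul_cancel_right]
    have h2 := congrArg Ψ h1
    rw [map_mul, map_mul] at h2
    have h3 : Δ x * Z = 0 := ((hΔdeg x).mul hZ1).eq_zero le_rfl
    have h4 : Δ x * Z = Z * (Ψ x - 1) - (Ψ x - 1) * Z - Δ x := by
      have h5 : Δ x * Z = Ψ (G x) * Ψ ζ - Ψ x * Ψ ζ - Δ x := by
        have h6 : Δ x * Ψ ζ = Ψ (G x) * Ψ ζ - Ψ x * Ψ ζ := sub_mul _ _ _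
        rw [hZ, mul_sub, mul_one, h6]
      rw [h5, h2, hZ]
      simp only [mul_sub, sub_mul, mul_one, one_mul]
      abel
    rw [h3] at h4
    exact (sub_eq_zero.1 h4.symm)
  set C : Hq g → Module.End ℚ EE := fun z => Z * VV A y0 n z - VV A y0 n z * Z with hC
  have hCcls : ∀ x, C (cls x) = Δ x - (Z * (Ψ x - 1 - VV A y0 n (cls x)) -
      (Ψ x - 1 - VV A y0 n (cls x)) * Z) := by
    intro x
    rw [← hcomm]
    simp only [hC]
    simp only [mul_sub, sub_mul]
    abel
  have hCsmul : ∀ (N : ℚ) z, C (N • z) = N • C z := by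
    intro N z
    simp only [hC]
    rw [map_smul, mul_smul_comm, smul_mul_assoc, smul_sub]
  have hCdeg : ∀ e, e + 1 ≤ n → Fd (FF n) e Z → ∀ z, Fd (FF n) (e + 2) (C z) := by
    intro e he hZe z
    obtain ⟨N, hN, x, hx⟩ := exists_int z
    have h1 : Fd (FF n) (e + 2) (C (cls x)) := by
      rw [hCcls]
      refine ((hΔdeg x).mono (by omega)).sub ((hZe.mul (hΨ2 x)).sub ?_)
      have := (hΨ2 x).mul hZe
      rwa [add_comm 2 e] at this
    rw [hx, hCsmul] at h1
    have h2 := h1.smul (N : ℚ)⁻¹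
    rw [smul_smul, inv_mul_cancel₀ (by exact_mod_cast hN), one_smul] at h2
    exact h2
  have htop : ∀ e : EE, e ∈ (FF n).K (n + 2) := fun e => by
    rw [(FF n).top]; exact Submodule.mem_top
  have hVr : A.V0 r = 0 := by
    rw [← hr, A.V0_rho]
  have hform : ∀ {m : ℕ} {e : EE}, m ≤ n + 1 → e ∈ (FF n).K m →
      e = (e.1, 0, 0) ∧ e.1 ∈ Fs m ∧ e.1 ∈ FB n := by
    intro m e hm he
    rw [FF_K, mem_KK hm] at he
    refine ⟨?_, he.1⟩
    apply Prod.ext
    · rfl
    · rw [he.2]; rfl
  -- descending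
  have hdesc : ∀ e, 1 ≤ e → e + 1 ≤ n → Fd (FF n) e Z → Fd (FF n) (e + 1) Z := by
    intro e he1 hen hZe
    have hCz := hCdeg e hen hZe
    have hCapp : ∀ z v, Z (VV A y0 n z v) = C z v + VV A y0 n z (Z v) := by
      intro z v
      simp only [hC, LinearMap.sub_apply, Module.End.mul_apply]
      abel
    have ha : ∀ φ ∈ FB n, Z (φ, 0, 0) ∈ (FF n).K (n + 1 - (e + 1)) := by
      intro φ hφ
      have e0 : ((φ, 0, 0) : EE) = (cut0 n φ, 0, 0) + (φ - cut0 n φ, 0, 0) := by
        simp
      rw [e0, map_add]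
      refine Submodule.add_mem _ ?_ ?_
      · have e1 : ((cut0 n φ, 0, 0) : EE) = VV A y0 n r (0, φ, 0) := by
          rw [VV_apply, hVr, hyr, one_smul]
          simp
        rw [e1, hCapp]
        refine Submodule.add_mem _ ?_ ?_
        · have := hCz r (n + 2) (0, φ, 0) (htop _)
          have e2 : n + 2 - (e + 2) = n + 1 - (e + 1) := by omega
          rwa [e2] at this
        · obtain ⟨e3, e4, e5⟩ := hform (by omega) (hZe (n + 2) (0, φ, 0) (htop _))
          rw [e3, VV_inl _ e5, hVr, LinearMap.zero_apply]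
          exact Submodule.zero_mem _
      · have e6 : φ - cut0 n φ ∈ FB n := Submodule.sub_mem _ hφ (cut0_mem n φ)
        have e7 : φ - cut0 n φ ∈ Fs n := by
          intro s hs
          rw [Pi.sub_apply, cut0_apply]
          obtain ⟨u, j⟩ := s
          split_ifs with h
          · rw [sub_self]
          · rw [sub_zero]
            apply hφ
            simp only [bd, dg] at h hs ⊢
            by_contra hle
            apply h
            omega
        have := hZe n (φ - cut0 n φ, 0, 0) (inl_mem e7 e6)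
        have e2 : n + 1 - (e + 1) = n - e := by omega
        rwa [e2]
    have hb : ∀ j m, m + j = n + 1 → ∀ φ ∈ Fs m, φ ∈ FB n →
        Z (φ, 0, 0) ∈ (FF n).K (m - (e + 1)) := by
      intro j
      induction j with
      | zero =>
        intro m hm φ _ hφ
        rw [add_zero] at hm
        rw [hm]
        exact ha φ hφ
      | succ j ih =>
        intro m hm φ hφ hφB
        have h1 : VV A y0 n (A.a1 + A.a2) (rr n φ, 0, 0) = (φ, 0, 0) := by
          rw [VV_inl _ (rr_memB φ), map_add, A.V0_a1, A.V0_a2, opP_rr (by omega) hφ hφB]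
        rw [← h1, hCapp]
        refine Submodule.add_mem _ ?_ ?_
        · have := hCz (A.a1 + A.a2) (m + 1) (rr n φ, 0, 0) (inl_mem (rr_mem hφ) (rr_memB φ))
          have e2 : m + 1 - (e + 2) = m - (e + 1) := by omega
          rwa [e2] at this
        · have h2 := ih (m + 1) (by omega) (rr n φ) (rr_mem hφ) (rr_memB φ)
          have h3 := VV_fd A y0 n (A.a1 + A.a2) _ _ h2
          have e2 : m + 1 - (e + 1) - 1 = m - (e + 1) := by omega
          rwa [e2] at h3
    intro m v hv
    rcases Nat.lt_or_ge (n + 1) m with hm | hm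
    · apply (FF n).mono (by omega : n + 1 - e ≤ m - (e + 1))
      obtain ⟨e3, e4, e4'⟩ := hform (by omega) (hZe (n + 2) v (htop _))
      have h1 : ∀ z, A.V0 z (Z v).1 ∈ Fs (n - e) := by
        intro z
        have h2 := hCapp z v
        have h3 : VV A y0 n z v ∈ (FF n).K (n + 1) := by
          have := VV_fd A y0 n z (n + 2) v (htop _)
          have e2 : n + 2 - 1 = n + 1 := by omega
          rwa [e2] at this
        obtain ⟨e5, e6, e6'⟩ := hform le_rfl h3
        have h4 := hb 0 (n + 1) rfl _ e6 e6'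
        rw [← e5] at h4
        have h5 := hCz z (n + 2) v (htop _)
        have e2 : n + 2 - (e + 2) = n - e := by omega
        have e7 : n + 1 - (e + 1) = n - e := by omega
        rw [e2] at h5
        rw [e7] at h4
        have h6 := Submodule.sub_mem _ h4 h5
        rw [h2, add_sub_cancel_left, e3, VV_inl _ e4'] at h6
        exact (hform (by omega) h6).2.1
      have h2 : (Z v).1 ∈ Fs (n + 1 - e) := by
        apply Fr.obs (by omega)
        · have e2 : n + 1 - e + 1 = n + 2 - e := by omega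
          rw [e2]; exact e4
        · have e2 : n + 1 - e - 1 = n - e := by omega
          rw [e2, ← A.V0_a1]; exact h1 _
        · have e2 : n + 1 - e - 1 = n - e := by omega
          rw [e2, ← A.V0_a2]; exact h1 _
        · have e2 : n + 1 - e - 1 = n - e := by omega
          rw [e2, ← A.V0_b2]; exact h1 _
      rw [e3]
      exact inl_mem h2 e4'
    · obtain ⟨e3, e4, e4'⟩ := hform hm hv
      rw [e3]
      exact hb (n + 1 - m) m (by omega) _ e4 e4'
  have hall : ∀ e, 1 ≤ e → e ≤ n → Fd (FF n) e Z := by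
    intro e he
    induction e, he using Nat.le_induction with
    | base => intro _; exact hZ1
    | succ e he ih => intro hen; exact hdesc e he hen (ih (by omega))
  have hZn := hall n hn1 le_rfl
  have hCn : ∀ x, C (cls x) = Δ x := by
    intro x
    have h1 : Fd (FF n) (n + 2) (Z * (Ψ x - 1 - VV A y0 n (cls x)) -
        (Ψ x - 1 - VV A y0 n (cls x)) * Z) := by
      refine (hZn.mul (hΨ2 x)).sub ?_
      have := (hΨ2 x).mul hZn
      rwa [add_comm 2 n] at this
    rw [hCcls, h1.eq_zero le_rfl, sub_zero]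
  -- functionals
  set fv : EE → RG g →ₗ[ℚ] ℚ := fun v =>
    { toFun := fun y => ev0 (fext Ψ y v).1
      map_add' := fun a b => by rw [map_add, LinearMap.add_apply, Prod.fst_add, map_add]
      map_smul' := fun r a => by
        rw [map_smul, LinearMap.smul_apply, Prod.smul_fst, map_smul]; rfl } with hfv
  have hfv_apply : ∀ v y, fv v y = ev0 (fext Ψ y v).1 := fun _ _ => rfl
  have hkill : ∀ v, ∀ x ∈ I (Surf g) ^ (n + 2), fv v x = 0 := by
    intro v x hx
    rw [hfv_apply, (fext_deg hΨ1 hx).eq_zero le_rfl]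
    simp
  have hval : ∀ v x, ev0 (Δ x v).1 = fv v (Mag.ev D n (cf0 w) (nv (cls x))) := by
    intro v x
    rw [hΔ', ← hfv_apply]
    have h1 : Df G (dl x) - Mag.ev D n (cf0 w) (nv (cls x)) ∈ I (Surf g) ^ (n + 2) := by
      have h2 := hdeg 1 _ (dl_sub_nv x) le_rfl
      have e2 : 1 + 1 + n = n + 2 := by omega
      rw [e2, map_sub] at h2
      have h3 := Submodule.add_mem _ h2 (hev (nv (cls x)))
      rwa [sub_add_sub_cancel] at h3
    have h2 := hkill v _ h1
    rwa [map_sub, sub_eq_zero] at h2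
  -- values of the commutator
  have hCval : ∀ (z : Hq g) (v : EE), ev0 (C z v).1 = fv v (Mag.ev D n (cf0 w) (nv z)) := by
    intro z v
    obtain ⟨N, hN, x, hx⟩ := exists_int z
    have hN' : (N : ℚ) ≠ 0 := by exact_mod_cast hN
    have h1 := hval v x
    rw [← hCn, hx, hCsmul, LinearMap.smul_apply, Prod.smul_fst, map_smul, map_smul, map_smul,
      map_smul] at h1
    exact smul_right_injective ℚ hN' h1
  have hempty : ∀ (z : Hq g) (v : EE), om A.b1 z = 0 → om A.a2 z = 0 →
      ev0 (VV A y0 n z (Z v)).1 = 0 := by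
    intro z v hz1 hz2
    have h3 := hZn (n + 2) v (htop _)
    obtain ⟨e3, e4, e5⟩ := hform (by omega) h3
    rw [e3, VV_inl _ e5, ev0_apply, A.V0_apply, hz1, hz2]
    simp [opQ_apply, opP'_apply, dd]
  refine ⟨fv (0, dlt w₀, 0), fv (0, 0, dlt w₀), (Z (dlt w₀, 0, 0)).1 ([], 0), hkill _, hkill _,
    ?_, ?_, ?_⟩
  · refine start_aux hΨ1 hΨ2 (v := (0, dlt w₀, 0)) (fun z => ?_) le_rfl
      (fun x _ => rfl) (fun ψ hψ => ?_)
    · rw [VV_apply]
      simp only [map_zero, smul_zero, zero_add, add_zero]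
      rw [hn, cut0_dlt]
    · rw [Nat.sub_self, Fs_zero, Submodule.mem_bot] at hψ
      rw [hψ, map_zero]
  · refine start_aux hΨ1 hΨ2 (v := (0, 0, dlt w₀)) (fun z => ?_) le_rfl
      (fun x _ => rfl) (fun ψ hψ => ?_)
    · rw [VV_apply]
      simp only [map_zero, smul_zero, zero_add]
      rw [hn, cut0_dlt]
    · rw [Nat.sub_self, Fs_zero, Submodule.mem_bot] at hψ
      rw [hψ, map_zero]
  · intro z hz1 hz2
    constructor
    · rw [← hCval]
      have e1 : VV A y0 n z (0, dlt w₀, 0) = om y0 z • (dlt w₀, 0, 0) := by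
        rw [VV_apply]
        simp only [map_zero, smul_zero, zero_add, add_zero]
        rw [hn, cut0_dlt]
        simp
      simp only [hC, LinearMap.sub_apply, Module.End.mul_apply]
      rw [e1, Prod.fst_sub, map_sub, hempty z _ hz1 hz2, sub_zero, map_smul, Prod.smul_fst,
        map_smul, ev0_apply, smul_eq_mul, mul_comm]
    · rw [← hCval]
      have e1 : VV A y0 n z (0, 0, dlt w₀) = om A.b2 z • (dlt w₀, 0, 0) := by
        rw [VV_apply]
        simp only [map_zero, smul_zero, zero_add]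
        rw [hn, cut0_dlt]
        simp
      simp only [hC, LinearMap.sub_apply, Module.End.mul_apply]
      rw [e1, Prod.fst_sub, map_sub, hempty z _ hz1 hz2, sub_zero, map_smul, Prod.smul_fst,
        map_smul, ev0_apply, smul_eq_mul, mul_comm]

end TG
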