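import Mathlib

/-!
# Two-generator subgroups of the Torelli group: definitions

`Surf g` is the fundamental group of the closed orientable surface of genus `g`, `OutG G` the outer
automorphism group of `G`, `BP g` the type of bounding pair maps (conjugates, by orientation
preserving automorphisms, of the standard bounding pair automorphisms `stdBP k`).
-/

open scoped commutatorElement

namespace TG

/-- generators of the surface group: `Sum.inl i` is `α_i`, `Sum.inr i` is `β_i` -/
abbrev Gen (g : ℕ) := Fin g ⊕ Fin g

/-- the surface relator `[α_0,β_0] ⋯ [α_{g-1},β_{g-1}]` -/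
def relator (g : ℕ) : FreeGroup (Gen g) :=
  (List.ofFn fun i : Fin g =>
    ⁅FreeGroup.of (Sum.inl i : Gen g), FreeGroup.of (Sum.inr i : Gen g)⁆).prod

/-- the fundamental group of the closed orientable surface of genus `g` -/
def Surf (g : ℕ) : Type := PresentedGroup ({relator g} : Set (FreeGroup (Gen g)))

instance instGroupSurf (g : ℕ) : Group (Surf g) :=
  instGroupPresentedGroup ({relator g} : Set (FreeGroup (Gen g)))

variable {g : ℕ}

/-- the standard generator `α_i` -/
def al (i : Fin g) : Surf g :=
  PresentedGroup.of (rels := ({relator g} : Set (FreeGroup (Gen g)))) (Sum.inl i)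

/-- the standard generator `β_i` -/
def be (i : Fin g) : Surf g :=
  PresentedGroup.of (rels := ({relator g} : Set (FreeGroup (Gen g)))) (Sum.inr i)

/-- rational first homology of the surface, in coordinates of the standard symplectic basis -/
abbrev Hq (g : ℕ) := (Fin g → ℚ) × (Fin g → ℚ)

/-- the algebraic intersection form on `Hq g` -/
def inter (u v : Hq g) : ℚ := ∑ i, (u.1 i * v.2 i - u.2 i * v.1 i)

/-- homology classes of the generators -/
def genCls (g : ℕ) : Gen g → Multiplicative (Hq g) :=
  Sum.elim (fun i => Multiplicative.ofAdd (Pi.single i 1, 0))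
    (fun i => Multiplicative.ofAdd (0, Pi.single i 1))

theorem lift_genCls_relator (g : ℕ) :
    ∀ r ∈ ({relator g} : Set (FreeGroup (Gen g))), FreeGroup.lift (genCls g) r = 1 := by
  intro r hr
  rw [Set.mem_singleton_iff] at hr
  subst hr
  unfold relator
  rw [map_list_prod, List.map_ofFn]
  apply List.prod_eq_one
  intro x hx
  rw [List.mem_ofFn] at hx
  obtain ⟨i, rfl⟩ := hx
  simp only [Function.comp_apply, map_commutatorElement]
  exact commutatorElement_eq_one_iff_mul_comm.2 (mul_comm _ _)

/-- the homology class, as a group homomorphism -/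
def clsHom : Surf g →* Multiplicative (Hq g) :=
  PresentedGroup.toGroup (lift_genCls_relator g)

/-- the rational homology class of an element of the surface group -/
def cls (x : Surf g) : Hq g := (clsHom x).toAdd

/-- inner automorphisms form a normal subgroup -/
instance conjRangeNormal (G : Type*) [Group G] :
    ((MulAut.conj : G →* MulAut G).range).Normal := by
  constructor
  rintro _ ⟨x, rfl⟩ φ
  refine ⟨φ x, ?_⟩
  ext y
  simp [MulAut.conj_apply]

/-- the outer automorphism group of `G` -/
def OutG (G : Type*) [Group G] : Type _ := MulAut G ⧸ (MulAut.conj : G →* MulAut G).range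

instance instGroupOutG (G : Type*) [Group G] : Group (OutG G) :=
  QuotientGroup.Quotient.group (MulAut.conj : G →* MulAut G).range

/-- the class in `OutG G` of an automorphism -/
def toOut {G : Type*} [Group G] : MulAut G →* OutG G :=
  QuotientGroup.mk' (MulAut.conj : G →* MulAut G).range

theorem toOut_eq_one {G : Type*} [Group G] {F : MulAut G} :
    toOut F = 1 ↔ F ∈ (MulAut.conj : G →* MulAut G).range :=
  QuotientGroup.eq_one_iff F

/-- the product `[u_0,v_0] ⋯ [u_{j-1},v_{j-1}]` of the first `j` commutators -/
def cpart {G : Type*} [Group G] (u v : Fin g → G) (j : ℕ) : G :=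
  ((List.ofFn fun i => ⁅u i, v i⁆).take j).prod

/-- the product of the commutators with index at least `j` -/
def cdrop {G : Type*} [Group G] (u v : Fin g → G) (j : ℕ) : G :=
  ((List.ofFn fun i => ⁅u i, v i⁆).drop j).prod

/-- the product of all commutators `[u_i,v_i]` -/
def cprod {G : Type*} [Group G] (u v : Fin g → G) : G := (List.ofFn fun i => ⁅u i, v i⁆).prod

section cprod

variable {G : Type*} [Group G] {G' : Type*} [Group G']

theorem cprod_split (u v : Fin g → G) (k : Fin g) :
    cprod u v = cpart u v k * ⁅u k, v k⁆ * cdrop u v (k + 1) := by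
  unfold cprod cpart cdrop
  rw [← List.prod_take_mul_prod_drop (List.ofFn fun i => ⁅u i, v i⁆) k, mul_assoc]
  congr 1
  rw [List.drop_eq_getElem_cons (by simp), List.prod_cons]
  simp

theorem cpart_congr {u v u' v' : Fin g → G} (j : ℕ)
    (h : ∀ i : Fin g, (i : ℕ) < j → u i = u' i ∧ v i = v' i) : cpart u v j = cpart u' v' j := by
  unfold cpart
  congr 1
  apply List.ext_getElem (by simp)
  intro i h1 h2
  simp only [List.getElem_take, List.getElem_ofFn]
  have hi : i < j := by simp at h1; omega
  obtain ⟨h3, h4⟩ := h ⟨i, by simp at h1; omega⟩ hi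
  rw [h3, h4]

theorem cdrop_congr {u v u' v' : Fin g → G} (j : ℕ)
    (h : ∀ i : Fin g, j ≤ (i : ℕ) → u i = u' i ∧ v i = v' i) : cdrop u v j = cdrop u' v' j := by
  unfold cdrop
  congr 1
  apply List.ext_getElem (by simp)
  intro i h1 h2
  simp only [List.getElem_drop, List.getElem_ofFn]
  obtain ⟨h3, h4⟩ := h ⟨j + i, by simp at h1; omega⟩ (by simp)
  rw [h3, h4]

theorem map_cpart (f : G →* G') (u v : Fin g → G) (j : ℕ) :
    f (cpart u v j) = cpart (f ∘ u) (f ∘ v) j := by
  unfold cpart
  rw [map_list_prod, List.map_take, List.map_ofFn]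
  congr 3
  funext i
  simp [map_commutatorElement]

theorem map_cprod (f : G →* G') (u v : Fin g → G) :
    f (cprod u v) = cprod (f ∘ u) (f ∘ v) := by
  unfold cprod
  rw [map_list_prod, List.map_ofFn]
  congr 2
  funext i
  simp [map_commutatorElement]

theorem cpart_conj (c : G) (u v : Fin g → G) (j : ℕ) :
    cpart (fun i => c * u i * c⁻¹) (fun i => c * v i * c⁻¹) j = c * cpart u v j * c⁻¹ := by
  have h := map_cpart (MulAut.conj c).toMonoidHom u v j
  simp only [MulEquiv.coe_toMonoidHom, MulAut.conj_apply] at h
  rw [h]
  rfl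

theorem cpart_mul_comm_form (u v : Fin g → G) (k : Fin g) (h : cprod u v = 1) :
    cdrop u v (k + 1) = (cpart u v k * ⁅u k, v k⁆)⁻¹ := by
  rw [cprod_split u v k] at h
  exact (inv_eq_of_mul_eq_one_right h).symm

end cprod

theorem cprod_al_be : cprod (al : Fin g → Surf g) be = 1 := by
  have h : (PresentedGroup.mk ({relator g} : Set (FreeGroup (Gen g)))) (relator g) = 1 :=
    PresentedGroup.one_of_mem (Set.mem_singleton _)
  exact (map_cprod (PresentedGroup.mk ({relator g} : Set (FreeGroup (Gen g))))
    (fun i => FreeGroup.of (Sum.inl i)) (fun i => FreeGroup.of (Sum.inr i))).symm.trans h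

/-- homomorphisms out of the surface group -/
def surfLift {G : Type*} [Group G] (u v : Fin g → G) (h : cprod u v = 1) : Surf g →* G :=
  PresentedGroup.toGroup (rels := {relator g}) (f := Sum.elim u v) (by
    intro r hr
    rw [Set.mem_singleton_iff] at hr
    subst hr
    unfold relator
    rw [map_list_prod, List.map_ofFn, ← h]
    unfold cprod
    congr 2
    funext i
    simp [map_commutatorElement])

@[simp] theorem surfLift_al {G : Type*} [Group G] (u v : Fin g → G) (h : cprod u v = 1)
    (i : Fin g) : surfLift u v h (al i) = u i :=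
  PresentedGroup.toGroup.of (rels := {relator g}) (f := Sum.elim u v) _

@[simp] theorem surfLift_be {G : Type*} [Group G] (u v : Fin g → G) (h : cprod u v = 1)
    (i : Fin g) : surfLift u v h (be i) = v i :=
  PresentedGroup.toGroup.of (rels := {relator g}) (f := Sum.elim u v) _

theorem surf_hom_ext {G : Type*} [Group G] {f f' : Surf g →* G}
    (h1 : ∀ i, f (al i) = f' (al i)) (h2 : ∀ i, f (be i) = f' (be i)) : f = f' := by
  refine PresentedGroup.ext (rels := {relator g}) (φ := f) (ψ := f') ?_
  rintro (i | i)
  · exact h1 i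
  · exact h2 i

/-- the product `Π_k = [α_0,β_0] ⋯ [α_{k-1},β_{k-1}]` -/
def pp (k : Fin g) : Surf g := cpart al be k

/-- the curve `b_k = Π_k α_k`, disjoint from and homologous to `α_k` -/
def bb (k : Fin g) : Surf g := pp k * al k

/-- images of `α_i` under the standard bounding pair map -/
def bpAl (k i : Fin g) : Surf g :=
  if i < k then bb k * al i * (bb k)⁻¹ else if i = k then pp k * al k * (pp k)⁻¹ else al i

/-- images of `β_i` under the standard bounding pair map -/
def bpBe (k i : Fin g) : Surf g :=
  if i < k then bb k * be i * (bb k)⁻¹ else if i = k then be k * (pp k)⁻¹ else be i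

/-- images of `α_i` under the inverse of the standard bounding pair map -/
def bpAlInv (k i : Fin g) : Surf g :=
  if i < k then (bb k)⁻¹ * al i * bb k
    else if i = k then (bb k)⁻¹ * (pp k)⁻¹ * bb k * bb k else al i

/-- images of `β_i` under the inverse of the standard bounding pair map -/
def bpBeInv (k i : Fin g) : Surf g :=
  if i < k then (bb k)⁻¹ * be i * bb k
    else if i = k then be k * (bb k)⁻¹ * pp k * bb k else be i

theorem cpart_bp (k : Fin g) : cpart (bpAl k) (bpBe k) k = bb k * pp k * (bb k)⁻¹ := by
  unfold pp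
  rw [← cpart_conj]
  apply cpart_congr
  intro i hi
  have hi' : i < k := hi
  simp [bpAl, bpBe, hi']

theorem cpart_bpInv (k : Fin g) :
    cpart (bpAlInv k) (bpBeInv k) k = (bb k)⁻¹ * pp k * bb k := by
  have h := cpart_conj (bb k)⁻¹ (al : Fin g → Surf g) be k
  rw [inv_inv] at h
  unfold pp
  rw [← h]
  apply cpart_congr
  intro i hi
  have hi' : i < k := hi
  simp [bpAlInv, bpBeInv, hi']

theorem cprod_bp (k : Fin g) : cprod (bpAl k) (bpBe k) = 1 := by
  rw [cprod_split _ _ k, cpart_bp]
  have h1 : cdrop (bpAl k) (bpBe k) (k + 1) = cdrop (al : Fin g → Surf g) be (k + 1) := by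
    apply cdrop_congr
    intro i hi
    have h1 : ¬ i < k := by rw [Fin.lt_def]; omega
    have h2 : i ≠ k := by rintro rfl; omega
    simp [bpAl, bpBe, h1, h2]
  rw [h1, cpart_mul_comm_form _ _ k cprod_al_be]
  have h2 : bpAl k k = pp k * al k * (pp k)⁻¹ := by simp [bpAl]
  have h3 : bpBe k k = be k * (pp k)⁻¹ := by simp [bpBe]
  rw [h2, h3]
  change _ * _ * (pp k * _)⁻¹ = 1
  simp only [commutatorElement_def, bb]
  group

theorem cprod_bpInv (k : Fin g) : cprod (bpAlInv k) (bpBeInv k) = 1 := by
  rw [cprod_split _ _ k, cpart_bpInv]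
  have h1 : cdrop (bpAlInv k) (bpBeInv k) (k + 1) = cdrop (al : Fin g → Surf g) be (k + 1) := by
    apply cdrop_congr
    intro i hi
    have h1 : ¬ i < k := by rw [Fin.lt_def]; omega
    have h2 : i ≠ k := by rintro rfl; omega
    simp [bpAlInv, bpBeInv, h1, h2]
  rw [h1, cpart_mul_comm_form _ _ k cprod_al_be]
  have h2 : bpAlInv k k = (bb k)⁻¹ * (pp k)⁻¹ * bb k * bb k := by simp [bpAlInv]
  have h3 : bpBeInv k k = be k * (bb k)⁻¹ * pp k * bb k := by simp [bpBeInv]
  rw [h2, h3]
  change _ * _ * (pp k * _)⁻¹ = 1
  simp only [commutatorElement_def, bb]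
  group

/-- the standard bounding pair map as an endomorphism -/
def bpHom (k : Fin g) : Surf g →* Surf g := surfLift (bpAl k) (bpBe k) (cprod_bp k)

/-- the inverse of the standard bounding pair map as an endomorphism -/
def bpHomInv (k : Fin g) : Surf g →* Surf g := surfLift (bpAlInv k) (bpBeInv k) (cprod_bpInv k)

theorem bpHom_pp (k : Fin g) : bpHom k (pp k) = bb k * pp k * (bb k)⁻¹ := by
  conv_lhs => rw [pp, map_cpart]
  rw [← cpart_bp]
  apply cpart_congr
  intro i _
  simp [bpHom]

theorem bpHomInv_pp (k : Fin g) : bpHomInv k (pp k) = (bb k)⁻¹ * pp k * bb k := by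
  conv_lhs => rw [pp, map_cpart]
  rw [← cpart_bpInv]
  apply cpart_congr
  intro i _
  simp [bpHomInv]

theorem bpHom_bb (k : Fin g) : bpHom k (bb k) = bb k := by
  conv_lhs => rw [bb, map_mul, bpHom_pp]
  simp only [bpHom, surfLift_al, bpAl, lt_irrefl, if_false, if_true, bb]
  group

theorem bpHomInv_bb (k : Fin g) : bpHomInv k (bb k) = bb k := by
  conv_lhs => rw [bb, map_mul, bpHomInv_pp]
  simp only [bpHomInv, surfLift_al, bpAlInv, lt_irrefl, if_false, if_true, bb]
  group

theorem bpHom_comp_inv (k : Fin g) : (bpHom k).comp (bpHomInv k) = MonoidHom.id _ := by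
  apply surf_hom_ext
  · intro i
    rw [MonoidHom.comp_apply, bpHomInv, surfLift_al, MonoidHom.id_apply, bpAlInv]
    split_ifs with h1 h2
    · simp only [map_mul, map_inv, bpHom_bb]
      rw [bpHom, surfLift_al, bpAl, if_pos h1]
      group
    · subst h2
      simp only [map_mul, map_inv, bpHom_bb, bpHom_pp]
      simp only [bb]
      group
    · rw [bpHom, surfLift_al, bpAl, if_neg h1, if_neg h2]
  · intro i
    rw [MonoidHom.comp_apply, bpHomInv, surfLift_be, MonoidHom.id_apply, bpBeInv]
    split_ifs with h1 h2
    · simp only [map_mul, map_inv, bpHom_bb]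
      rw [bpHom, surfLift_be, bpBe, if_pos h1]
      group
    · subst h2
      simp only [map_mul, map_inv, bpHom_bb, bpHom_pp]
      rw [bpHom, surfLift_be, bpBe, if_neg (lt_irrefl _), if_pos rfl]
      simp only [bb]
      group
    · rw [bpHom, surfLift_be, bpBe, if_neg h1, if_neg h2]

theorem bpHomInv_comp (k : Fin g) : (bpHomInv k).comp (bpHom k) = MonoidHom.id _ := by
  apply surf_hom_ext
  · intro i
    rw [MonoidHom.comp_apply, bpHom, surfLift_al, MonoidHom.id_apply, bpAl]
    split_ifs with h1 h2
    · simp only [map_mul, map_inv, bpHomInv_bb]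
      rw [bpHomInv, surfLift_al, bpAlInv, if_pos h1]
      group
    · subst h2
      simp only [map_mul, map_inv, bpHomInv_pp]
      rw [bpHomInv, surfLift_al, bpAlInv, if_neg (lt_irrefl _), if_pos rfl]
      simp only [bb]
      group
    · rw [bpHomInv, surfLift_al, bpAlInv, if_neg h1, if_neg h2]
  · intro i
    rw [MonoidHom.comp_apply, bpHom, surfLift_be, MonoidHom.id_apply, bpBe]
    split_ifs with h1 h2
    · simp only [map_mul, map_inv, bpHomInv_bb]
      rw [bpHomInv, surfLift_be, bpBeInv, if_pos h1]
      group
    · subst h2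
      simp only [map_mul, map_inv, bpHomInv_pp]
      rw [bpHomInv, surfLift_be, bpBeInv, if_neg (lt_irrefl _), if_pos rfl]
      simp only [bb]
      group
    · rw [bpHomInv, surfLift_be, bpBeInv, if_neg h1, if_neg h2]

/-- the standard bounding pair map `T_a T_b⁻¹` for the curves `a = α_k` and `b = Π_k α_k`: it
conjugates `α_i, β_i` (`i < k`) by `b`, sends `α_k` to `Π_k α_k Π_k⁻¹`, `β_k` to `β_k Π_k⁻¹` and
fixes the other generators -/
def stdBP (k : Fin g) : MulAut (Surf g) :=
  MonoidHom.toMulEquiv (bpHom k) (bpHomInv k) (bpHomInv_comp k) (bpHom_comp_inv k)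

/-- the Torelli group: outer automorphisms acting trivially on the homology of the surface -/
def InTorelli (f : OutG (Surf g)) : Prop :=
  ∃ F : MulAut (Surf g), toOut F = f ∧ ∀ x, cls (F x) = cls x

/-- the third term `γ₃ = [[π,π],π]` of the lower central series of the surface group -/
def gam3 (g : ℕ) : Subgroup (Surf g) :=
  ⁅⁅(⊤ : Subgroup (Surf g)), (⊤ : Subgroup (Surf g))⁆, (⊤ : Subgroup (Surf g))⁆

/-- the Johnson kernel: outer automorphisms acting trivially on `π / γ₃(π)` -/
def InJohnsonKernel (f : OutG (Surf g)) : Prop :=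
  ∃ F : MulAut (Surf g), toOut F = f ∧ ∀ x, F x * x⁻¹ ∈ gam3 g

/-- A bounding pair map of the closed surface of genus `g`: a conjugate `φ B_k φ⁻¹` of one of the
standard bounding pair maps `B_k` (`0 < k`, `k + 1 < g`, so that both complementary pieces have
positive genus) by an orientation preserving automorphism `φ` of the surface group. -/
structure BP (g : ℕ) where
  /-- genus of the first piece -/
  k : Fin g
  /-- the first piece has positive genus -/
  pos : 0 < (k : ℕ)
  /-- the second piece has positive genus `g - 1 - k` -/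
  lt : (k : ℕ) + 1 < g
  /-- the conjugating automorphism -/
  φ : MulAut (Surf g)
  /-- it preserves the orientation, that is, the algebraic intersection form -/
  orient : ∀ x y, inter (cls (φ x)) (cls (φ y)) = inter (cls x) (cls y)

namespace BP

/-- an automorphism representing the bounding pair map -/
def aut (d : BP g) : MulAut (Surf g) := d.φ * stdBP d.k * d.φ⁻¹

/-- the bounding pair map, as an outer automorphism -/
def map (d : BP g) : OutG (Surf g) := toOut d.aut

/-- the homology class of the curves of the bounding pair -/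
def a (d : BP g) : Hq g := cls (d.φ (al d.k))

/-- homology classes of the images of the curves `α_i` -/
def A (d : BP g) (i : Fin g) : Hq g := cls (d.φ (al i))

/-- homology classes of the images of the curves `β_i` -/
def B (d : BP g) (i : Fin g) : Hq g := cls (d.φ (be i))

/-- the handles on the two sides of the bounding pair -/
def side (d : BP g) (s : Bool) : Finset (Fin g) :=
  Finset.univ.filter fun i => if s then i < d.k else d.k < i

/-- the image in the homology of the surface of the homology of one of the two pieces -/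
def H (d : BP g) (s : Bool) : Submodule ℚ (Hq g) :=
  Submodule.span ℚ (insert d.a (d.A '' d.side s ∪ d.B '' d.side s))

/-- the orthogonal projection to the span of the handles on one side,
`z ↦ ∑ (⟨z, B_i⟩ A_i - ⟨z, A_i⟩ B_i)` -/
def proj (d : BP g) (s : Bool) (z : Hq g) : Hq g :=
  ∑ i ∈ d.side s, (inter z (d.B i) • d.A i - inter z (d.A i) • d.B i)

end BP

/-- Two bounding pair maps are homologically separated if for some choice of sides, the class of
each pair lies in the homology of the other side of the other pair, and the product of the two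
projections is nilpotent. -/
def Separated (d₁ d₂ : BP g) : Prop :=
  ∃ s t, d₂.a ∈ d₁.H (!s) ∧ d₁.a ∈ d₂.H (!t) ∧ ∃ N : ℕ, ∀ z, (d₁.proj s ∘ d₂.proj t)^[N] z = 0

/-- the elements `f` and `h` freely generate a free group of rank two -/
def FreelyGenerate {G : Type*} [Group G] (f h : G) : Prop :=
  Function.Injective (FreeGroup.lift ![f, h])

end TG
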