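import Pool.Agent.H40.TG.Defs

/-!
# Separating twists

`stdTw j` is the Dehn twist about the separating curve `c_j = [α_0,β_0] ⋯ [α_{j-1},β_{j-1}]`, as an
automorphism of the surface group; `ST g` is the type of the Dehn twists about separating curves.
-/

open scoped commutatorElement

namespace TG

variable {g : ℕ}

/-- the separating curve `c_j = [α_0,β_0] ⋯ [α_{j-1},β_{j-1}]` -/
def sepc (j : ℕ) : Surf g := cpart al be j

/-- images of `α_i` under the standard separating twist -/
def twAl (j : ℕ) (i : Fin g) : Surf g :=
  if (i : ℕ) < j then sepc j * al i * (sepc j)⁻¹ else al i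

/-- images of `β_i` under the standard separating twist -/
def twBe (j : ℕ) (i : Fin g) : Surf g :=
  if (i : ℕ) < j then sepc j * be i * (sepc j)⁻¹ else be i

/-- images of `α_i` under the inverse of the standard separating twist -/
def twAlInv (j : ℕ) (i : Fin g) : Surf g :=
  if (i : ℕ) < j then (sepc j)⁻¹ * al i * sepc j else al i

/-- images of `β_i` under the inverse of the standard separating twist -/
def twBeInv (j : ℕ) (i : Fin g) : Surf g :=
  if (i : ℕ) < j then (sepc j)⁻¹ * be i * sepc j else be i

theorem cprod_take_drop {G : Type*} [Group G] (u v : Fin g → G) (j : ℕ) :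
    cprod u v = cpart u v j * cdrop u v j := by
  unfold cprod cpart cdrop
  rw [List.prod_take_mul_prod_drop]

theorem cpart_tw (j : ℕ) : cpart (twAl j) (twBe j) j = (sepc j : Surf g) := by
  have h := cpart_conj (sepc j) (al : Fin g → Surf g) be j
  have h1 : (cpart (twAl j) (twBe j) j : Surf g) = cpart (fun i => sepc j * al i * (sepc j)⁻¹)
      (fun i => sepc j * be i * (sepc j)⁻¹) j := by
    apply cpart_congr
    intro i hi
    simp [twAl, twBe, hi]
  rw [h1, h]
  change sepc j * sepc j * (sepc j)⁻¹ = _
  group

theorem cpart_twInv (j : ℕ) : cpart (twAlInv j) (twBeInv j) j = (sepc j : Surf g) := by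
  have h := cpart_conj (sepc j)⁻¹ (al : Fin g → Surf g) be j
  rw [inv_inv] at h
  have h1 : (cpart (twAlInv j) (twBeInv j) j : Surf g) = cpart (fun i => (sepc j)⁻¹ * al i * sepc j)
      (fun i => (sepc j)⁻¹ * be i * sepc j) j := by
    apply cpart_congr
    intro i hi
    simp [twAlInv, twBeInv, hi]
  rw [h1, h]
  change (sepc j)⁻¹ * sepc j * sepc j = _
  group

theorem cprod_tw (j : ℕ) : cprod (twAl j) (twBe j) = (1 : Surf g) := by
  rw [cprod_take_drop _ _ j, cpart_tw]
  have h1 : (cdrop (twAl j) (twBe j) j : Surf g) = cdrop (al : Fin g → Surf g) be j := by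
    apply cdrop_congr
    intro i hi
    simp [twAl, twBe, not_lt.2 hi]
  rw [h1]
  exact (cprod_take_drop _ _ j).symm.trans cprod_al_be

theorem cprod_twInv (j : ℕ) : cprod (twAlInv j) (twBeInv j) = (1 : Surf g) := by
  rw [cprod_take_drop _ _ j, cpart_twInv]
  have h1 : (cdrop (twAlInv j) (twBeInv j) j : Surf g) = cdrop (al : Fin g → Surf g) be j := by
    apply cdrop_congr
    intro i hi
    simp [twAlInv, twBeInv, not_lt.2 hi]
  rw [h1]
  exact (cprod_take_drop _ _ j).symm.trans cprod_al_be

/-- the standard separating twist as an endomorphism -/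
def twHom (j : ℕ) : Surf g →* Surf g := surfLift (twAl j) (twBe j) (cprod_tw j)

/-- the inverse of the standard separating twist as an endomorphism -/
def twHomInv (j : ℕ) : Surf g →* Surf g := surfLift (twAlInv j) (twBeInv j) (cprod_twInv j)

theorem twHom_sepc (j : ℕ) : twHom j (sepc j) = (sepc j : Surf g) := by
  conv_lhs => rw [sepc, map_cpart]
  rw [← cpart_tw]
  apply cpart_congr
  intro i _
  simp [twHom]

theorem twHomInv_sepc (j : ℕ) : twHomInv j (sepc j) = (sepc j : Surf g) := by
  conv_lhs => rw [sepc, map_cpart]
  rw [← cpart_twInv]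
  apply cpart_congr
  intro i _
  simp [twHomInv]

theorem twHom_comp_inv (j : ℕ) : (twHom j : Surf g →* Surf g).comp (twHomInv j) =
    MonoidHom.id _ := by
  apply surf_hom_ext
  · intro i
    rw [MonoidHom.comp_apply, twHomInv, surfLift_al, MonoidHom.id_apply, twAlInv]
    split_ifs with h1
    · simp only [map_mul, map_inv, twHom_sepc]
      rw [twHom, surfLift_al, twAl, if_pos h1]
      group
    · rw [twHom, surfLift_al, twAl, if_neg h1]
  · intro i
    rw [MonoidHom.comp_apply, twHomInv, surfLift_be, MonoidHom.id_apply, twBeInv]
    split_ifs with h1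
    · simp only [map_mul, map_inv, twHom_sepc]
      rw [twHom, surfLift_be, twBe, if_pos h1]
      group
    · rw [twHom, surfLift_be, twBe, if_neg h1]

theorem twHomInv_comp (j : ℕ) : (twHomInv j : Surf g →* Surf g).comp (twHom j) =
    MonoidHom.id _ := by
  apply surf_hom_ext
  · intro i
    rw [MonoidHom.comp_apply, twHom, surfLift_al, MonoidHom.id_apply, twAl]
    split_ifs with h1
    · simp only [map_mul, map_inv, twHomInv_sepc]
      rw [twHomInv, surfLift_al, twAlInv, if_pos h1]
      group
    · rw [twHomInv, surfLift_al, twAlInv, if_neg h1]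
  · intro i
    rw [MonoidHom.comp_apply, twHom, surfLift_be, MonoidHom.id_apply, twBe]
    split_ifs with h1
    · simp only [map_mul, map_inv, twHomInv_sepc]
      rw [twHomInv, surfLift_be, twBeInv, if_pos h1]
      group
    · rw [twHomInv, surfLift_be, twBeInv, if_neg h1]

/-- the standard separating twist: the Dehn twist about `c_j`, which conjugates `α_i, β_i`
(`i < j`) by `c_j` and fixes the other generators -/
def stdTw (j : ℕ) : MulAut (Surf g) :=
  MonoidHom.toMulEquiv (twHom j) (twHomInv j) (twHomInv_comp j) (twHom_comp_inv j)

/-- A Dehn twist about an essential separating curve: a conjugate `φ T_j φ⁻¹` of a standard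
separating twist `T_j` (`0 < j < g`) by an orientation preserving automorphism `φ` of the surface
group. -/
structure ST (g : ℕ) where
  /-- genus of the first piece -/
  j : ℕ
  /-- the first piece has positive genus -/
  pos : 0 < j
  /-- the second piece has positive genus -/
  lt : j < g
  /-- the conjugating automorphism -/
  φ : MulAut (Surf g)
  /-- it preserves the orientation, that is, the algebraic intersection form -/
  orient : ∀ x y, inter (cls (φ x)) (cls (φ y)) = inter (cls x) (cls y)

namespace ST

/-- an automorphism representing the separating twist -/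
def aut (T : ST g) : MulAut (Surf g) := T.φ * stdTw T.j * T.φ⁻¹

/-- the separating twist, as an outer automorphism -/
def map (T : ST g) : OutG (Surf g) := toOut T.aut

/-- homology classes of the images of the curves `α_i` -/
def A (T : ST g) (i : Fin g) : Hq g := cls (T.φ (al i))

/-- homology classes of the images of the curves `β_i` -/
def B (T : ST g) (i : Fin g) : Hq g := cls (T.φ (be i))

/-- the handles on the two sides of the separating curve -/
def side (T : ST g) (s : Bool) : Finset (Fin g) :=
  Finset.univ.filter fun i => if s then (i : ℕ) < T.j else T.j ≤ (i : ℕ)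

/-- the homology of one of the two pieces -/
def H (T : ST g) (s : Bool) : Submodule ℚ (Hq g) :=
  Submodule.span ℚ (T.A '' T.side s ∪ T.B '' T.side s)

/-- the orthogonal projection to the homology of one of the two pieces,
`z ↦ ∑ (⟨z, B_i⟩ A_i - ⟨z, A_i⟩ B_i)` -/
def proj (T : ST g) (s : Bool) (z : Hq g) : Hq g :=
  ∑ i ∈ T.side s, (inter z (T.B i) • T.A i - inter z (T.A i) • T.B i)

end ST

/-- A bounding pair map and a separating twist are homologically separated if for some choice of
sides, the class of the pair lies in the homology of the other side of the separating curve, and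
the projection of the homology of the chosen side of the pair to the homology of the chosen side of
the curve is isotropic. -/
def HomSep (d : BP g) (T : ST g) : Prop :=
  ∃ s t, d.a ∈ T.H (!t) ∧ ∀ u ∈ d.H s, ∀ v ∈ d.H s, inter (T.proj t u) (T.proj t v) = 0

/-- the term `γ₄ = [[[π,π],π],π]` of the lower central series of the surface group -/
def gam4 (g : ℕ) : Subgroup (Surf g) := ⁅gam3 g, (⊤ : Subgroup (Surf g))⁆

/-- outer automorphisms acting trivially on `π / γ₄(π)` -/
def InJohnson3 (f : OutG (Surf g)) : Prop :=
  ∃ F : MulAut (Surf g), toOut F = f ∧ ∀ x, F x * x⁻¹ ∈ gam4 g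

end TG
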