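import Pool.Agent.H40.TG.Step2
import Pool.Agent.H40.TG.MagW

/-!
# Iterating the steps
-/

open scoped commutatorElement

namespace TG

open Aug

variable {g : ℕ}

/-- the operators on functions attached to the letters -/
def Ox (A : Fr g) (a : Hq g) (x : Bool) : Module.End ℚ Fn := if x then opR else A.V0 a

/-- composition of the operators; the first letter acts first -/
def Oy (A : Fr g) (a : Hq g) : List Bool → Fn → Fn
  | [], φ => φ
  | x :: w, φ => Oy A a w (Ox A a x φ)

section Iter

variable {d : BP g} {T : ST g} {q t : Bool} {A : Fr g} (h : Cf d.dat T.spl q t A)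
  {F : Bool → MulAut (Surf g)} {c : Bool → ℚ} (hF0 : Sy 1 (F false) (c false • d.sy q))
  (hF1 : Sy 2 (F true) (c true • T.sy t))

include h hF0 hF1

theorem iter (w : List Bool) : ∀ {m : ℕ} {f : RG g →ₗ[ℚ] ℚ} {l : Fn →ₗ[ℚ] ℚ} {δ k e : ℤ}
    {y : Hq g} {φ : Fn}, Good A A.Hom y φ (m + wl w) f l δ →
    (∀ x ∈ I (Surf g) ^ (m + wl w + 2), f x = 0) → LW k l → Fr.Sp e φ → A.rho y = y →
    e = k + δ →
    Good A A.Hom (Ty A d.dat T.spl q t c w y) (Oy A d.a w φ) m
      (f ∘ₗ (w.map fun x => Df (F x)).prod) l (δ - nu w) := by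
  induction w with
  | nil =>
    intro m f l δ k e y φ hG _ _ _ _ _
    simp only [wl, add_zero, Ty, Oy, List.map_nil, List.prod_nil, nu, Nat.cast_zero,
      sub_zero] at hG ⊢
    exact hG
  | cons x w ih =>
    intro m f l δ k e y φ hG hf hl hφ hy he
    have hcomp : f ∘ₗ ((x :: w).map fun x => Df (F x)).prod =
        (f ∘ₗ Df (F x)) ∘ₗ (w.map fun x => Df (F x)).prod := by
      rw [List.map_cons, List.prod_cons]; rfl
    rw [hcomp]
    cases x
    · have e1 : m + wl (false :: w) = m + wl w + 1 := by
        simp only [wl, Bool.false_eq_true, if_false]; omega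
      rw [e1] at hG hf
      have h1 := stepU h hF0 hG hf hl hφ (Or.inl ⟨hy, rfl⟩) (by omega)
      have h2 := ih (k := k) (e := e - 1) h1 (fun x hx => by
        rw [LinearMap.comp_apply]
        apply hf
        have := hF0.Df_mem (m := m + wl w + 1) hx
        exact this) hl (A.V0_sp h.hom_a hφ) (by
          have := rho_Tx h c false hy
          simpa [Tx] using this) (by omega)
      have e2 : δ - 1 - (nu w : ℤ) = δ - (nu (false :: w) : ℤ) := by
        simp only [nu, Bool.false_eq_true, if_false]; push_cast; omega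
      rw [e2] at h2
      exact h2
    · have e1 : m + wl (true :: w) = m + wl w + 2 := by
        simp only [wl, if_true]; omega
      rw [e1] at hG hf
      have hyc : Yc A y φ 0 := Or.inl ⟨hy, rfl⟩
      have h1 := stepT h hF1 hyc hG hf
      have h2 := ih (k := k) (e := e) h1 (fun x hx => by
        rw [LinearMap.comp_apply]
        apply hf
        have := hF1.Df_mem (m := m + wl w + 1) hx
        exact this) hl (Fr.opR_sp hφ) (by
          have := rho_Tx h c true hy
          have h5 : Tx A d.dat T.spl q t c true y = c true • T.pr t y := rfl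
          rwa [h5] at this) (by omega)
      have e2 : δ - (nu w : ℤ) = δ - (nu (true :: w) : ℤ) := by
        simp only [nu, if_true]; push_cast; omega
      rw [e2] at h2
      exact h2

theorem iterV (w : List Bool) {m : ℕ} {f : RG g →ₗ[ℚ] ℚ} {δ : ℤ} (hG : Van A.Hom (m + wl w) f δ)
    (hf : ∀ x ∈ I (Surf g) ^ (m + wl w + 2), f x = 0) :
    Van A.Hom m (f ∘ₗ (w.map fun x => Df (F x)).prod) (δ - nu w) := by
  have h1 := iter h hF0 hF1 w (hG.good 0 0) hf (k := -δ) (e := 0)
    (fun _ _ _ _ => rfl) (fun _ _ => rfl) (map_zero _) (by omega)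
  exact h1.van rfl

theorem iterB (w : List Bool) : ∀ {m : ℕ} {f : RG g →ₗ[ℚ] ℚ} {l : Fn →ₗ[ℚ] ℚ} {δ k e : ℤ}
    {y : Hq g} {φ : Fn}, 1 ≤ nu w → Good A A.Hom y φ (m + wl w) f l δ →
    (∀ x ∈ I (Surf g) ^ (m + wl w + 2), f x = 0) → LW k l → Fr.Sp e φ →
    Yc A y φ 1 → (∃ κ : ℚ, y = κ • A.b2) → e + 1 = k + δ →
    Van A.Hom m (f ∘ₗ (w.map fun x => Df (F x)).prod) (δ - nu w) := by
  induction w with
  | nil => intro m f l δ k e y φ hn; simp [nu] at hn
  | cons x w ih =>
    intro m f l δ k e y φ hn hG hf hl hφ hy hyb he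
    have hcomp : f ∘ₗ ((x :: w).map fun x => Df (F x)).prod =
        (f ∘ₗ Df (F x)) ∘ₗ (w.map fun x => Df (F x)).prod := by
      rw [List.map_cons, List.prod_cons]; rfl
    rw [hcomp]
    cases x
    · have e1 : m + wl (false :: w) = m + wl w + 1 := by
        simp only [wl, Bool.false_eq_true, if_false]; omega
      rw [e1] at hG hf
      have h1 := stepU h hF0 hG hf hl hφ hy (by omega)
      have h0 : c false • A.e d.dat q y = 0 := by
        obtain ⟨κ, rfl⟩ := hyb
        rw [map_smul, A.e_apply, A.rho_b2]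
        simp
      have h2 := iterV h hF0 hF1 w (h1.van_y h0) (fun x hx => by
        rw [LinearMap.comp_apply]
        apply hf
        have := hF0.Df_mem (m := m + wl w + 1) hx
        exact this)
      have e2 : δ - 1 - (nu w : ℤ) = δ - (nu (false :: w) : ℤ) := by
        simp only [nu, Bool.false_eq_true, if_false]; push_cast; omega
      rw [e2] at h2
      exact h2
    · have e1 : m + wl (true :: w) = m + wl w + 2 := by
        simp only [wl, if_true]; omega
      rw [e1] at hG hf
      have h1 := stepT h hF1 hy hG hf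
      have hb2 : T.pr t A.b2 = A.b2 := h.hb2
      have h2 := ih (k := k) (e := e) (by simpa [nu] using hn) h1 (fun x hx => by
        rw [LinearMap.comp_apply]
        apply hf
        have := hF1.Df_mem (m := m + wl w + 1) hx
        exact this) hl (Fr.opR_sp hφ) (hy.pr h _) (by
          obtain ⟨κ, rfl⟩ := hyb
          exact ⟨c true * κ, by rw [map_smul, hb2, smul_smul]⟩) (by omega)
      have e2 : δ - (nu w : ℤ) = δ - (nu (true :: w) : ℤ) := by
        simp only [nu, if_true]; push_cast; omega
      rw [e2] at h2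
      exact h2

end Iter

end TG
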