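import Pool.Agent.H40.TG.St

/-!
# Linear algebra of a bounding pair map and a separating twist
-/

namespace TG

variable {g : ℕ}

/-- an orthogonal splitting of the homology -/
structure Spl (g : ℕ) where
  /-- the two projections -/
  s : Bool → Module.End ℚ (Hq g)
  adj : ∀ t x y, om (s t x) y = om x (s t y)
  idem : ∀ t x, s t (s t x) = s t x
  sum : ∀ t x, s t x + s (!t) x = x

namespace Spl

variable (S : Spl g)

theorem disj (t : Bool) (x : Hq g) : S.s t (S.s (!t) x) = 0 := by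
  have h := S.sum t x
  have h1 := congrArg (S.s t) h
  rw [map_add, S.idem] at h1
  exact add_eq_left.1 h1

theorem disj' (t : Bool) (x : Hq g) : S.s (!t) (S.s t x) = 0 := by
  have h := S.disj (!t) x
  rwa [Bool.not_not] at h

end Spl

/-- a frame adapted to a bounding pair map and a splitting -/
structure Cf (D : Dat (om : Hq g →ₗ[ℚ] Hq g →ₗ[ℚ] ℚ)) (S : Spl g) (q t : Bool) (A : Fr g) :
    Prop where
  sum : A.a1 + A.a2 = D.a
  ha1 : S.s t A.a1 = 0
  ha2 : S.s t A.a2 = A.a2
  hb1 : S.s t A.b1 = 0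
  hb2 : S.s t A.b2 = A.b2
  beta : D.p q (A.b1 - A.b2) = 0

/-- exchanging the two hyperbolic pairs -/
def Fr.swap (A : Fr g) : Fr g where
  a1 := A.a2
  b1 := A.b2
  a2 := A.a1
  b2 := A.b1
  h11 := A.h22
  h22 := A.h11
  haa := A.haa'
  hab := A.hba'
  hba := A.hab'
  hbb := A.hbb'

theorem Fr.rho_swap (A : Fr g) : A.swap.rho = A.rho := by
  apply LinearMap.ext
  intro z
  rw [rho_apply, rho_apply]
  change z - om A.b2 z • A.a2 + om A.a2 z • A.b2 - om A.b1 z • A.a1 + om A.a1 z • A.b1 = _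
  abel

/-- the compression of the projection of the bounding pair map -/
def Fr.e (A : Fr g) (D : Dat (om : Hq g →ₗ[ℚ] Hq g →ₗ[ℚ] ℚ)) (q : Bool) : Module.End ℚ (Hq g) :=
  A.rho * D.p q * A.rho

theorem Fr.e_apply (A : Fr g) (D : Dat (om : Hq g →ₗ[ℚ] Hq g →ₗ[ℚ] ℚ)) (q : Bool) (z : Hq g) :
    A.e D q z = A.rho (D.p q (A.rho z)) := rfl

namespace Cf

variable {D : Dat (om : Hq g →ₗ[ℚ] Hq g →ₗ[ℚ] ℚ)} {S : Spl g} {q t : Bool} {A : Fr g}

theorem swap (h : Cf D S q t A) : Cf D S q (!t) A.swap where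
  sum := by
    rw [← h.sum, add_comm]; rfl
  ha1 := by
    change S.s (!t) A.a2 = 0
    rw [← h.ha2, S.disj']
  ha2 := by
    change S.s (!t) A.a1 = A.a1
    have := S.sum t A.a1
    rwa [h.ha1, zero_add] at this
  hb1 := by
    change S.s (!t) A.b2 = 0
    rw [← h.hb2, S.disj']
  hb2 := by
    change S.s (!t) A.b1 = A.b1
    have := S.sum t A.b1
    rwa [h.hb1, zero_add] at this
  beta := by
    change D.p q (A.b2 - A.b1) = 0
    rw [← neg_sub, map_neg, h.beta, neg_zero]

variable (h : Cf D S q t A)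
include h

theorem pb (x : Hq g) : om A.b1 (D.p q x) = om A.b2 (D.p q x) := by
  have h1 := h.beta
  rw [map_sub, sub_eq_zero] at h1
  rw [← D.adj, ← D.adj, h1]

theorem pa' : D.p q A.a2 = -D.p q A.a1 := by
  have h1 := D.pa q
  rw [← h.sum, map_add, add_comm] at h1
  exact eq_neg_of_add_eq_zero_left h1

theorem pa (x : Hq g) : om A.a2 (D.p q x) = -om A.a1 (D.p q x) := by
  rw [← D.adj, ← D.adj, h.pa', map_neg, LinearMap.neg_apply]

/-- decomposition of the elements in the image of the projection -/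
theorem p_decomp (x : Hq g) : D.p q x = A.rho (D.p q x) + om A.b1 (D.p q x) • D.a -
    om A.a1 (D.p q x) • (A.b1 - A.b2) := by
  rw [A.rho_apply, ← h.pb, h.pa, ← h.sum]
  module

theorem p_rho_p (x : Hq g) : D.p q (A.rho (D.p q x)) = D.p q x := by
  have h1 := congrArg (D.p q) (h.p_decomp x)
  rw [D.idem, map_sub, map_add, map_smul, map_smul, D.pa, h.beta, smul_zero, smul_zero, add_zero,
    sub_zero] at h1
  exact h1.symm

omit h in
theorem rho_e (x : Hq g) : A.rho (A.e D q x) = A.e D q x := A.rho_rho _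

omit h in
theorem e_rho (x : Hq g) : A.e D q (A.rho x) = A.e D q x := by
  rw [A.e_apply, A.rho_rho, A.e_apply]

theorem e_idem : A.e D q * A.e D q = A.e D q := by
  apply LinearMap.ext
  intro x
  rw [Module.End.mul_apply, A.e_apply, rho_e, A.e_apply, h.p_rho_p]

theorem e_ne : A.e D q ≠ 0 := by
  intro h0
  obtain ⟨x, hx⟩ := D.ne q
  have h1 : A.e D q (D.p q x) = 0 := by rw [h0]; rfl
  rw [A.e_apply, h.p_rho_p] at h1
  have h2 := h.p_rho_p x
  rw [h1, map_zero] at h2
  exact hx h2.symm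

omit h in
theorem e_adj (x y : Hq g) : om (A.e D q x) y = om x (A.e D q y) := by
  rw [A.e_apply, A.rho_adj, D.adj, A.rho_adj, A.e_apply]

/-- one of the two compressions is not nilpotent -/
theorem exists_nil : (∀ n : ℕ, (A.e D q * S.s t * A.e D q) ^ n ≠ 0) ∨
    ∀ n : ℕ, (A.e D q * S.s (!t) * A.e D q) ^ n ≠ 0 := by
  by_contra hc
  push Not at hc
  obtain ⟨⟨n, hn⟩, ⟨m, hm⟩⟩ := hc
  set e := A.e D q with he
  have hee : e * e = e := h.e_idem
  have hsum : S.s (!t) = 1 - S.s t := by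
    apply LinearMap.ext
    intro x
    rw [LinearMap.sub_apply, Module.End.one_apply]
    exact eq_sub_of_add_eq (by rw [add_comm]; exact S.sum t x)
  have hXY : e * S.s t * e + e * S.s (!t) * e = e := by
    rw [hsum, mul_sub, sub_mul, mul_one, hee]
    abel
  have hY : e * S.s (!t) * e = e - e * S.s t * e := eq_sub_of_add_eq (by rw [add_comm]; exact hXY)
  have hcomm : Commute (e * S.s t * e) (e * S.s (!t) * e) := by
    rw [hY]
    refine Commute.sub_right ?_ (Commute.refl _)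
    change e * S.s t * e * e = e * (e * S.s t * e)
    rw [mul_assoc, hee, ← mul_assoc, ← mul_assoc, hee]
  have hnil := hcomm.isNilpotent_add ⟨n, hn⟩ ⟨m, hm⟩
  rw [hXY] at hnil
  obtain ⟨k, hk⟩ := hnil
  have hpow : ∀ k : ℕ, e ^ (k + 1) = e := by
    intro k
    induction k with
    | zero => rw [zero_add, pow_one]
    | succ k ih => rw [pow_succ, ih, hee]
  have h1 := hpow k
  rw [pow_succ, hk, zero_mul] at h1
  exact h.e_ne h1.symm

theorem s_rho (x : Hq g) : S.s t (A.rho x) = A.rho (S.s t x) := by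
  have e1 : om A.b1 (S.s t x) = 0 := by rw [← S.adj, h.hb1]; simp
  have e2 : om A.a1 (S.s t x) = 0 := by rw [← S.adj, h.ha1]; simp
  have e3 : om A.b2 (S.s t x) = om A.b2 x := by rw [← S.adj, h.hb2]
  have e4 : om A.a2 (S.s t x) = om A.a2 x := by rw [← S.adj, h.ha2]
  rw [A.rho_apply, A.rho_apply, e1, e2, e3, e4]
  simp only [map_add, map_sub, map_smul, h.ha1, h.ha2, h.hb1, h.hb2]
  simp

end Cf

/-- existence of adapted frames -/
theorem exists_cf0 (D : Dat (om : Hq g →ₗ[ℚ] Hq g →ₗ[ℚ] ℚ)) (S : Spl g) (t : Bool)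
    (h1 : S.s t D.a ≠ 0) (h2 : S.s (!t) D.a ≠ 0) : ∃ q A, Cf D S q t A := by
  have hω := om_symp (g := g)
  set aS := S.s (!t) D.a with haS
  obtain ⟨q, hq⟩ : ∃ q, aS ∉ D.H q := by
    by_contra hc
    push Not at hc
    have h3 := D.inter (hc true) (hc false)
    have h4 : S.s t aS = 0 := S.disj t _
    rw [h3, map_smul] at h4
    rcases smul_eq_zero.1 h4 with h5 | h5
    · rw [h5, zero_smul] at h3
      exact h2 h3
    · exact h1 h5
  obtain ⟨β, hβ, hβa⟩ := D.exists_of_not_mem hω hq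
  rw [D.mem_H, Bool.not_not] at hβ
  have hsplit : ∀ x, S.s (!t) x = x - S.s t x := fun x =>
    eq_sub_of_add_eq (by rw [add_comm]; exact S.sum t x)
  have e1 : om (S.s (!t) β) (S.s (!t) D.a) = 1 := by
    rw [S.adj, S.idem]; exact hβa
  have e2 : om (S.s t β) (S.s t D.a) = -1 := by
    rw [S.adj, S.idem]
    have h3 : S.s t D.a = D.a - aS := by rw [haS, hsplit]; abel
    rw [h3, map_sub, hβ.2, hβa]; ring
  refine ⟨q, ⟨S.s (!t) D.a, S.s (!t) β, S.s t D.a, -S.s t β, e1, ?_, ?_, ?_, ?_, ?_⟩,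
    ⟨?_, ?_, ?_, ?_, ?_, ?_⟩⟩
  · rw [map_neg, LinearMap.neg_apply, e2, neg_neg]
  · rw [S.adj, S.disj', map_zero]
  · rw [S.adj, map_neg, S.disj', neg_zero, map_zero]
  · rw [S.adj, S.disj', map_zero]
  · rw [S.adj, map_neg, S.disj', neg_zero, map_zero]
  · change S.s (!t) D.a + S.s t D.a = D.a
    rw [add_comm]; exact S.sum t _
  · exact S.disj t _
  · exact S.idem t _
  · exact S.disj t _
  · change S.s t (-S.s t β) = -S.s t β
    rw [map_neg, S.idem]
  · change D.p q (S.s (!t) β - -S.s t β) = 0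
    rw [sub_neg_eq_add, add_comm, S.sum]
    exact hβ.1

/-- **existence of good adapted frames** -/
theorem exists_cf (D : Dat (om : Hq g →ₗ[ℚ] Hq g →ₗ[ℚ] ℚ)) (S : Spl g)
    (h : ∀ t, S.s t D.a ≠ 0) :
    ∃ q t A, Cf D S q t A ∧ ∀ n : ℕ, (A.e D q * S.s t * A.e D q) ^ n ≠ 0 := by
  obtain ⟨q, A, hA⟩ := exists_cf0 D S true (h true) (h _)
  rcases hA.exists_nil with h1 | h1
  · exact ⟨q, true, A, hA, h1⟩
  · refine ⟨q, _, A.swap, hA.swap, ?_⟩
    have h2 : A.swap.e D q = A.e D q := by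
      unfold Fr.e
      rw [A.rho_swap]
    rw [h2]
    exact h1

/-! ### Words in the two operators -/

/-- the operators of the letters -/
def Tx (A : Fr g) (D : Dat (om : Hq g →ₗ[ℚ] Hq g →ₗ[ℚ] ℚ)) (S : Spl g) (q t : Bool)
    (c : Bool → ℚ) (x : Bool) : Module.End ℚ (Hq g) :=
  c x • if x then S.s t else A.e D q

/-- composition of the operators of the letters of a word; the first letter acts first -/
def Ty (A : Fr g) (D : Dat (om : Hq g →ₗ[ℚ] Hq g →ₗ[ℚ] ℚ)) (S : Spl g) (q t : Bool)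
    (c : Bool → ℚ) : List Bool → Hq g → Hq g
  | [], y => y
  | x :: w, y => Ty A D S q t c w (Tx A D S q t c x y)

/-- the same as an operator, without the scalars -/
def Tm (A : Fr g) (D : Dat (om : Hq g →ₗ[ℚ] Hq g →ₗ[ℚ] ℚ)) (S : Spl g) (q t : Bool) :
    List Bool → Module.End ℚ (Hq g)
  | [] => 1
  | x :: w => Tm A D S q t w * if x then S.s t else A.e D q

theorem Ty_eq (A : Fr g) (D : Dat (om : Hq g →ₗ[ℚ] Hq g →ₗ[ℚ] ℚ)) (S : Spl g) (q t : Bool)
    (c : Bool → ℚ) (w : List Bool) (y : Hq g) :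
    Ty A D S q t c w y = (w.map c).prod • Tm A D S q t w y := by
  induction w generalizing y with
  | nil => simp [Ty, Tm]
  | cons x w ih =>
    simp only [Ty, Tm, List.map_cons, List.prod_cons]
    rw [ih, Tx, LinearMap.smul_apply, map_smul, Module.End.mul_apply, smul_smul, mul_comm]

theorem Tm_ne {A : Fr g} {D : Dat (om : Hq g →ₗ[ℚ] Hq g →ₗ[ℚ] ℚ)} {S : Spl g} {q t : Bool}
    (h : Cf D S q t A) : ∀ (l : ℕ) (w : List Bool), w.length = l →
      ∃ m : ℕ, A.e D q * Tm A D S q t w * A.e D q =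
        A.e D q * (A.e D q * S.s t * A.e D q) ^ m := by
  have hee := h.e_idem
  have hss : S.s t * S.s t = S.s t := LinearMap.ext fun x => S.idem t x
  set e := A.e D q with he
  set X := e * S.s t * e with hX
  have heX : e * X = X := by rw [hX, ← mul_assoc, ← mul_assoc, hee]
  intro l
  induction l using Nat.strong_induction_on with
  | _ l ih =>
    intro w hw
    cases w with
    | nil => exact ⟨0, by rw [Tm, mul_one, pow_zero, mul_one, hee]⟩
    | cons x w =>
      cases x
      · obtain ⟨m, hm⟩ := ih w.length (by rw [← hw]; simp) w rfl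
        refine ⟨m, ?_⟩
        rw [← hm, Tm]
        simp only [Bool.false_eq_true, if_false]
        rw [← he, mul_assoc, mul_assoc, mul_assoc, hee]
      · cases w with
        | nil =>
          refine ⟨1, ?_⟩
          rw [pow_one, heX, Tm, Tm, one_mul]
          simp only [if_true]
          exact hX.symm
        | cons x w =>
          cases x
          · obtain ⟨m, hm⟩ := ih w.length (by rw [← hw]; simp) w rfl
            refine ⟨m + 1, ?_⟩
            rw [pow_succ, ← mul_assoc, ← hm, Tm, Tm]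
            simp only [Bool.false_eq_true, if_false, if_true]
            rw [← he]
            have h1 : e * (Tm A D S q t w * e * S.s t) * e = e * Tm A D S q t w * (e * X) := by
              rw [heX, hX]; simp only [mul_assoc]
            rw [h1]
            simp only [mul_assoc]
          · obtain ⟨m, hm⟩ := ih (true :: w).length (by rw [← hw]; simp) (true :: w) rfl
            refine ⟨m, ?_⟩
            rw [← hm, Tm, Tm]
            simp only [if_true]
            rw [mul_assoc (Tm A D S q t w), hss]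

/-- good starting vectors -/
theorem exists_y {A : Fr g} {D : Dat (om : Hq g →ₗ[ℚ] Hq g →ₗ[ℚ] ℚ)} {S : Spl g} {q t : Bool}
    (h : Cf D S q t A) (hn : ∀ n : ℕ, (A.e D q * S.s t * A.e D q) ^ n ≠ 0) {c : Bool → ℚ}
    (hc : ∀ x, c x ≠ 0) (w : List Bool) :
    ∃ y, A.rho y = y ∧ Ty A D S q t c w y ≠ 0 := by
  obtain ⟨m, hm⟩ := Tm_ne h w.length w rfl
  have h1 : A.e D q * Tm A D S q t w * A.e D q ≠ 0 := by
    rw [hm]
    intro h0
    have h2 : (A.e D q * S.s t * A.e D q) ^ (m + 1) =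
        (A.e D q * S.s t) * (A.e D q * (A.e D q * S.s t * A.e D q) ^ m) := by
      rw [pow_succ', ← mul_assoc (A.e D q * S.s t)]
    rw [h0, mul_zero] at h2
    exact hn _ h2
  obtain ⟨y, hy⟩ : ∃ y, Tm A D S q t w (A.e D q y) ≠ 0 := by
    by_contra hc
    push Not at hc
    apply h1
    apply LinearMap.ext
    intro y
    rw [Module.End.mul_apply, Module.End.mul_apply, hc, map_zero]
    rfl
  refine ⟨A.e D q y, Cf.rho_e y, ?_⟩
  rw [Ty_eq]
  refine smul_ne_zero ?_ hy
  intro h0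
  rw [List.prod_eq_zero_iff, List.mem_map] at h0
  obtain ⟨x, _, hx⟩ := h0
  exact hc x hx

theorem rho_Tx {A : Fr g} {D : Dat (om : Hq g →ₗ[ℚ] Hq g →ₗ[ℚ] ℚ)} {S : Spl g} {q t : Bool}
    (h : Cf D S q t A) (c : Bool → ℚ) (x : Bool) {y : Hq g} (hy : A.rho y = y) :
    A.rho (Tx A D S q t c x y) = Tx A D S q t c x y := by
  unfold Tx
  cases x
  · simp only [Bool.false_eq_true, if_false, LinearMap.smul_apply, map_smul, Cf.rho_e]
  · simp only [if_true, LinearMap.smul_apply, map_smul]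
    rw [← h.s_rho, hy]

theorem rho_Ty {A : Fr g} {D : Dat (om : Hq g →ₗ[ℚ] Hq g →ₗ[ℚ] ℚ)} {S : Spl g} {q t : Bool}
    (h : Cf D S q t A) (c : Bool → ℚ) (w : List Bool) {y : Hq g} (hy : A.rho y = y) :
    A.rho (Ty A D S q t c w y) = Ty A D S q t c w y := by
  induction w generalizing y with
  | nil => exact hy
  | cons x w ih => exact ih (rho_Tx h c x hy)

end TG
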