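import Pool.Agent.H40.TG.Lin2

/-!
# Linear algebra of a bounding pair map and a separating twist whose class lies on one side
-/

namespace TG

variable {g : ℕ}

/-- self-adjoint operators -/
def Sa (M : Module.End ℚ (Hq g)) : Prop := ∀ x y, om (M x) y = om x (M y)

theorem Sa.self {M : Module.End ℚ (Hq g)} (h : Sa M) (x : Hq g) : om x (M x) = 0 := by
  have h1 := h x x
  rw [om_anti] at h1
  linarith

theorem Sa.pow {M : Module.End ℚ (Hq g)} (h : Sa M) (k : ℕ) : Sa (M ^ k) := by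
  induction k with
  | zero => intro x y; rfl
  | succ k ih =>
    intro x y
    conv_lhs => rw [pow_succ, Module.End.mul_apply, ih, h]
    rw [pow_succ', Module.End.mul_apply]

theorem om_ext {x y : Hq g} (h : ∀ z, om x z = om y z) : x = y := by
  rw [← sub_eq_zero]
  apply om_symp.nondeg
  intro z
  rw [map_sub, LinearMap.sub_apply, h, sub_self]

theorem exists_om_ne {x : Hq g} (h : x ≠ 0) : ∃ y, om x y ≠ 0 := by
  by_contra hc
  push Not at hc
  exact h (om_symp.nondeg x hc)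

/-- a vector avoiding two kernels -/
theorem avoid {V : Type*} [AddCommGroup V] [Module ℚ V] {W W' : Type*} [AddCommGroup W]
    [Module ℚ W] [AddCommGroup W'] [Module ℚ W'] {f : V →ₗ[ℚ] W} {f' : V →ₗ[ℚ] W'}
    (h : f ≠ 0) (h' : f' ≠ 0) : ∃ x, f x ≠ 0 ∧ f' x ≠ 0 := by
  obtain ⟨u, hu⟩ : ∃ u, f u ≠ 0 := by
    by_contra hc
    push Not at hc
    exact h (LinearMap.ext hc)
  obtain ⟨v, hv⟩ : ∃ v, f' v ≠ 0 := by
    by_contra hc
    push Not at hc
    exact h' (LinearMap.ext hc)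
  by_cases h1 : f' u = 0
  · by_cases h2 : f v = 0
    · refine ⟨u + v, ?_, ?_⟩
      · rwa [map_add, h2, add_zero]
      · rwa [map_add, h1, zero_add]
    · exact ⟨v, h2, hv⟩
  · exact ⟨u, hu, h1⟩

section

variable {D : Dat (om : Hq g →ₗ[ℚ] Hq g →ₗ[ℚ] ℚ)} {S : Spl g} {t : Bool} {ξ : Hq g}

theorem q_a (s : Bool) (hξa : om ξ D.a = 1) : D.q s ξ D.a = 0 :=
  D.q_zero_of_mem om_symp hξa (D.a_mem om_symp _)

theorem q_idem (s : Bool) (hξa : om ξ D.a = 1) (x : Hq g) :
    D.q s ξ (D.q s ξ x) = D.q s ξ x :=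
  D.q_fix hξa (D.q_mem om_symp s ξ x) (D.q_ker om_symp s hξa x)

theorem q_disj (s : Bool) (hξa : om ξ D.a = 1) (x : Hq g) :
    D.q s ξ (D.q (!s) ξ x) = 0 :=
  D.q_zero_of_mem om_symp hξa (D.q_mem om_symp _ ξ x)

theorem q_disj' (s : Bool) (hξa : om ξ D.a = 1) (x : Hq g) :
    D.q (!s) ξ (D.q s ξ x) = 0 := by
  have := q_disj (!s) hξa x
  rwa [Bool.not_not] at this

theorem q_sum (s : Bool) (hξa : om ξ D.a = 1) (x : Hq g) :
    D.q s ξ x + D.q (!s) ξ x = x - om ξ x • D.a + om D.a x • ξ := by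
  have h1 : ∀ y : Hq g, D.p s y + D.p (!s) y = y - om y D.b • D.a + om y D.a • D.b := by
    intro y
    have := D.decomp' s y
    rw [eq_sub_iff_add_eq] at this
    rw [sub_add_eq_add_sub, this]
    abel
  have h2 := h1 ξ
  have h3 := h1 x
  rw [hξa, one_smul] at h2
  have h4 : D.q s ξ x + D.q (!s) ξ x = (D.p s x + D.p (!s) x) -
      om (D.p s ξ + D.p (!s) ξ) x • D.a - om x D.a • (D.p s ξ + D.p (!s) ξ) := by
    rw [D.q_apply, D.q_apply, map_add, LinearMap.add_apply]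
    module
  rw [h4, h2, h3, map_add, map_sub, map_smul, LinearMap.add_apply, LinearMap.sub_apply,
    LinearMap.smul_apply, om_anti x D.a, om_anti x D.b, smul_eq_mul]
  module

/-- the compression -/
def Xc (D : Dat (om : Hq g →ₗ[ℚ] Hq g →ₗ[ℚ] ℚ)) (S : Spl g) (t : Bool) (ξ : Hq g) (s : Bool) :
    Module.End ℚ (Hq g) := S.s t * D.q s ξ * S.s t

theorem Xc_apply (s : Bool) (x : Hq g) :
    Xc D S t ξ s x = S.s t (D.q s ξ (S.s t x)) := rfl

theorem Xc_sa (s : Bool) : Sa (Xc D S t ξ s) := by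
  intro x y
  rw [Xc_apply, Xc_apply, S.adj, D.q_adj om_symp, S.adj]

theorem Xc_s (s : Bool) (x : Hq g) : Xc D S t ξ s (S.s t x) = Xc D S t ξ s x := by
  rw [Xc_apply, Xc_apply, S.idem]

theorem s_Xc (s : Bool) (x : Hq g) : S.s t (Xc D S t ξ s x) = Xc D S t ξ s x := by
  rw [Xc_apply, S.idem]

theorem s_Xc_pow (s : Bool) (k : ℕ) (x : Hq g) :
    S.s t ((Xc D S t ξ s ^ k) (S.s t x)) = (Xc D S t ξ s ^ k) (S.s t x) := by
  cases k with
  | zero => exact S.idem t x
  | succ k => rw [pow_succ', Module.End.mul_apply, s_Xc]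

theorem Xc_pow_s (s : Bool) (k : ℕ) (x : Hq g) :
    (Xc D S t ξ s ^ k) (S.s t x) = S.s t ((Xc D S t ξ s ^ k) x) := by
  cases k with
  | zero => rfl
  | succ k =>
    have h1 : (Xc D S t ξ s ^ (k + 1)) (S.s t x) = (Xc D S t ξ s ^ (k + 1)) x := by
      rw [pow_succ, Module.End.mul_apply, Xc_s, Module.End.mul_apply]
    rw [h1, pow_succ', Module.End.mul_apply, s_Xc]

/-- the form vanishes on these pairs -/
theorem om_Xc_pow (s : Bool) (k : ℕ) (x : Hq g) : om x ((Xc D S t ξ s ^ k) (S.s t x)) = 0 := by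
  have h1 : Sa (Xc D S t ξ s ^ k * S.s t) := by
    intro x y
    rw [Module.End.mul_apply, Module.End.mul_apply, (Xc_sa s).pow k, S.adj, Xc_pow_s]
  exact h1.self x

theorem Xc_sum (s : Bool) (hξ : S.s t ξ = 0) (hξa : om ξ D.a = 1) (ha : S.s t D.a = 0)
    (x : Hq g) : Xc D S t ξ s x + Xc D S t ξ (!s) x = S.s t x := by
  have h1 : om ξ (S.s t x) = 0 := by rw [← S.adj, hξ]; simp
  have h2 : om D.a (S.s t x) = 0 := by rw [← S.adj, ha]; simp
  rw [Xc_apply, Xc_apply, ← map_add, q_sum s hξa, h1, h2, zero_smul, zero_smul, sub_zero,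
    add_zero, S.idem]

end

/-- a frame adapted to a bounding pair map and a splitting, the class being on one side -/
structure Nf (D : Dat (om : Hq g →ₗ[ℚ] Hq g →ₗ[ℚ] ℚ)) (S : Spl g) (q t : Bool) (A : Fr g) :
    Prop where
  ha : A.a1 = D.a
  sa : S.s t A.a1 = 0
  sb : S.s t A.b1 = 0
  p2a : D.q (!q) A.b1 A.a2 = A.a2
  p2b : D.q (!q) A.b1 A.b2 = A.b2
  kap : om A.b2 (S.s t A.a2) ≠ 0

/-- construction of the frame -/
theorem exists_nf_aux {D : Dat (om : Hq g →ₗ[ℚ] Hq g →ₗ[ℚ] ℚ)} {S : Spl g} {q t : Bool}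
    {ξ b2 : Hq g} (ha : S.s t D.a = 0) (hξ : S.s t ξ = 0) (hξa : om ξ D.a = 1)
    (hb : D.q (!q) ξ b2 = b2) (hb' : D.q (!q) ξ (S.s t b2) ≠ 0) :
    ∃ A : Fr g, A.b1 = ξ ∧ A.b2 = b2 ∧ Nf D S q t A := by
  have hb0 : b2 ≠ 0 := by
    rintro rfl
    apply hb'
    rw [map_zero, map_zero]
  obtain ⟨v, hv1, hv2⟩ : ∃ v, om b2 v ≠ 0 ∧ om (D.q (!q) ξ (S.s t b2)) v ≠ 0 := by
    apply avoid
    · intro h0
      obtain ⟨y, hy⟩ := exists_om_ne hb0
      apply hy
      rw [h0]; rfl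
    · intro h0
      obtain ⟨y, hy⟩ := exists_om_ne hb'
      apply hy
      rw [h0]; rfl
  set v' := (om b2 v)⁻¹ • v with hv'
  have h1 : om b2 v' = 1 := by rw [hv', map_smul, smul_eq_mul, inv_mul_cancel₀ hv1]
  have h2 : om (D.q (!q) ξ (S.s t b2)) v' ≠ 0 := by
    rw [hv', map_smul]
    exact smul_ne_zero (inv_ne_zero hv1) hv2
  have e1 : om b2 (D.q (!q) ξ v') = 1 := by rw [← D.q_adj om_symp, hb, h1]
  have e2 : om D.a (D.q (!q) ξ v') = 0 := by
    rw [← D.q_adj om_symp, q_a _ hξa]; simp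
  have e3 : om D.a b2 = 0 := by
    rw [← hb, ← D.q_adj om_symp, q_a _ hξa]; simp
  have e4 : om ξ (D.q (!q) ξ v') = 0 := D.q_ker om_symp _ hξa _
  have e5 : om ξ b2 = 0 := by
    rw [← hb]; exact D.q_ker om_symp _ hξa _
  refine ⟨⟨D.a, ξ, D.q (!q) ξ v', b2, hξa, e1, e2, e3, e4, e5⟩, rfl, rfl,
    ⟨rfl, ha, hξ, q_idem _ hξa _, hb, ?_⟩⟩
  change om b2 (S.s t (D.q (!q) ξ v')) ≠ 0
  rw [← S.adj, ← D.q_adj om_symp]
  exact h2

/-- **existence of the frame and of a good starting class** -/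
theorem exists_nf (D : Dat (om : Hq g →ₗ[ℚ] Hq g →ₗ[ℚ] ℚ)) (S : Spl g) (t : Bool)
    (ha0 : D.a ≠ 0) (ha : S.s t D.a = 0)
    (hN : ∀ s, ∃ u ∈ D.H s, ∃ v ∈ D.H s, om (S.s t u) (S.s t v) ≠ 0) :
    ∃ q A, Nf D S q t A ∧ ∃ y0, S.s t y0 = y0 ∧ (∀ k : ℕ, (Xc D S t A.b1 q ^ k) y0 ≠ 0) ∧
      ∀ k : ℕ, om A.b2 ((Xc D S t A.b1 q ^ k) y0) = 0 := by
  obtain ⟨Y, hY⟩ := exists_om_ne ha0
  set ξ := (om (S.s (!t) Y) D.a)⁻¹ • S.s (!t) Y with hξdef
  have hsa : S.s (!t) D.a = D.a := by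
    have := S.sum t D.a
    rwa [ha, zero_add] at this
  have hξa : om ξ D.a = 1 := by
    rw [hξdef, map_smul, LinearMap.smul_apply, smul_eq_mul, inv_mul_cancel₀]
    rw [S.adj, hsa, om_anti, neg_ne_zero]
    exact hY
  have hξ : S.s t ξ = 0 := by rw [hξdef, map_smul, S.disj, smul_zero]
  clear_value ξ
  have hσ : ∃ z, S.s t z ≠ 0 := by
    obtain ⟨u, _, v, _, huv⟩ := hN true
    refine ⟨u, ?_⟩
    intro h0
    apply huv
    rw [h0]; simp
  -- nilpotency
  have hsum : ∀ s x, Xc D S t ξ s x + Xc D S t ξ (!s) x = S.s t x := fun s x =>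
    Xc_sum s hξ hξa ha x
  have hcomm : ∀ s, Commute (Xc D S t ξ s) (Xc D S t ξ (!s)) := by
    intro s
    have h1 : ∀ x, Xc D S t ξ (!s) x = S.s t x - Xc D S t ξ s x := fun x =>
      eq_sub_of_add_eq (by rw [add_comm]; exact hsum s x)
    apply LinearMap.ext
    intro x
    rw [Module.End.mul_apply, Module.End.mul_apply, h1, h1, map_sub, Xc_s, s_Xc]
  have hnn : ∃ q, ∀ n : ℕ, Xc D S t ξ q ^ n ≠ 0 := by
    by_contra hc
    push Not at hc
    obtain ⟨n, hn⟩ := hc true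
    obtain ⟨m, hm⟩ := hc (!true)
    have hnil := (hcomm true).isNilpotent_add ⟨n, hn⟩ ⟨m, hm⟩
    have h1 : Xc D S t ξ true + Xc D S t ξ (!true) = S.s t := LinearMap.ext fun x => hsum true x
    rw [h1] at hnil
    obtain ⟨k, hk⟩ := hnil
    have hpow : ∀ k : ℕ, S.s t ^ (k + 1) = S.s t := by
      intro k
      induction k with
      | zero => rw [zero_add, pow_one]
      | succ k ih =>
        rw [pow_succ, ih]
        exact LinearMap.ext fun x => S.idem t x
    have h2 := hpow k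
    rw [pow_succ, hk, zero_mul] at h2
    obtain ⟨z, hz⟩ := hσ
    apply hz
    rw [← h2]; rfl
  obtain ⟨q, hq⟩ := hnn
  set X := Xc D S t ξ q with hX
  set X' := Xc D S t ξ (!q) with hX'
  have hX'eq : ∀ x, X' x = S.s t x - X x := fun x =>
    eq_sub_of_add_eq (by rw [add_comm]; exact hsum q x)
  by_cases hnil : ∃ M : ℕ, X' ^ M = 0
  · -- the other compression is nilpotent
    obtain ⟨M, hM⟩ := hnil
    obtain ⟨u, hu, v, hv, huv⟩ := hN (!q)
    have hfix : ∀ w ∈ D.H (!q), S.s t (D.q (!q) ξ w) = S.s t w := by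
      intro w hw
      have h1 : D.q (!q) ξ (w - om ξ w • D.a) = w - om ξ w • D.a := by
        apply D.q_fix hξa
        · exact Submodule.sub_mem _ hw (Submodule.smul_mem _ _ (D.a_mem om_symp _))
        · rw [map_sub, map_smul (om ξ), hξa, smul_eq_mul, mul_one, sub_self]
      rw [map_sub, map_smul, q_a _ hξa, smul_zero, sub_zero] at h1
      rw [h1, map_sub, map_smul, ha, smul_zero, sub_zero]
    have hb' : D.q (!q) ξ (S.s t (D.q (!q) ξ u)) ≠ 0 := by
      intro h0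
      apply huv
      rw [← hfix u hu, ← hfix v hv, S.adj, S.idem, ← S.adj, ← D.q_adj om_symp, h0]
      simp
    obtain ⟨A, hA1, hA2, hA⟩ := exists_nf_aux (q := q) ha hξ hξa (q_idem (!q) hξa u) hb'
    refine ⟨q, A, hA, S.s t A.b2, S.idem t _, ?_, ?_⟩
    · rw [hA1, ← hX]
      have hy : S.s t A.b2 ≠ 0 := by
        rw [hA2]
        intro h0
        apply hb'
        rw [h0, map_zero]
      have hinj : ∀ y, S.s t y = y → X y = 0 → y = 0 := by
        intro y hy1 hy2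
        have h1 : X' y = y := by rw [hX'eq, hy1, hy2, sub_zero]
        have h2 : ∀ M : ℕ, (X' ^ M) y = y := by
          intro M
          induction M with
          | zero => rfl
          | succ M ih => rw [pow_succ, Module.End.mul_apply, h1, ih]
        rw [← h2 M, hM]; rfl
      intro k
      induction k with
      | zero => exact hy
      | succ k ih =>
        intro h0
        rw [pow_succ', Module.End.mul_apply] at h0
        exact ih (hinj _ (by rw [hX, s_Xc_pow]) h0)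
    · intro k
      rw [om_Xc_pow]
  · push Not at hnil
    obtain ⟨x0, hx1, hx2⟩ : ∃ x, (X ^ Module.finrank ℚ (Hq g)) x ≠ 0 ∧ (X' ^ 2) x ≠ 0 := by
      apply avoid
      · exact hq _
      · exact hnil _
    set x := S.s t x0 with hxdef
    have hxx : S.s t x = x := S.idem t _
    have hx1' : (X ^ Module.finrank ℚ (Hq g)) x ≠ 0 := by
      cases hm : Module.finrank ℚ (Hq g) with
      | zero =>
        rw [pow_zero, Module.End.one_apply]
        intro h0
        apply hx2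
        have h1 : X' x0 = 0 := by rw [hX', ← Xc_s, ← hxdef, h0, map_zero]
        rw [pow_two, Module.End.mul_apply, h1, map_zero]
      | succ m =>
        rw [hm] at hx1
        intro h0
        apply hx1
        rw [pow_succ, Module.End.mul_apply] at h0 ⊢
        rw [hX] at h0 ⊢
        rw [hxdef, Xc_s] at h0
        exact h0
    have hx2' : X' (X' x) ≠ 0 := by
      intro h0
      apply hx2
      rw [pow_two, Module.End.mul_apply]
      rw [hxdef, hX', Xc_s, ← hX'] at h0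
      exact h0
    have hb' : D.q (!q) ξ (S.s t (D.q (!q) ξ x)) ≠ 0 := by
      intro h0
      apply hx2'
      rw [hX', Xc_apply, s_Xc, Xc_apply, hxx, h0, map_zero]
    obtain ⟨A, hA1, hA2, hA⟩ := exists_nf_aux (q := q) ha hξ hξa (q_idem (!q) hξa x) hb'
    refine ⟨q, A, hA, x, hxx, ?_, ?_⟩
    · rw [hA1, ← hX]
      intro k h0
      apply hx1'
      have h1 := Module.End.ker_pow_le_ker_pow_finrank X k
      have h2 : x ∈ LinearMap.ker (X ^ k) := h0
      exact h1 h2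
    · rw [hA1, hA2, ← hX]
      intro k
      have e1 : S.s t ((X ^ k) x) = (X ^ k) x := by
        have := s_Xc_pow (D := D) (S := S) (t := t) (ξ := ξ) q k x
        rwa [hxx] at this
      have e2 : ∀ k : ℕ, om x ((X ^ k) x) = 0 := by
        intro k
        have := om_Xc_pow (D := D) (S := S) (t := t) (ξ := ξ) q k x
        rwa [hxx] at this
      have e3 : om (D.q (!q) ξ x) ((X ^ k) x) = om x (X' ((X ^ k) x)) := by
        rw [D.q_adj om_symp, hX', Xc_apply, e1]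
        rw [← S.adj, hxx]
      rw [e3, hX'eq, e1, map_sub, e2, ← Module.End.mul_apply, ← pow_succ', e2, sub_zero]

end TG
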