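import Pool.Agent.H40.TG.NotInner2

/-!
# Bounding pair maps and separating twists
-/

open scoped commutatorElement

namespace TG

open Aug

variable {g : ℕ}

/-! ### Sides -/

theorem BP.H_le_dat (d : BP g) (s : Bool) : d.H s ≤ d.dat.H s := by
  unfold BP.H
  rw [Submodule.span_le]
  rintro y (rfl | ⟨i, hi, rfl⟩ | ⟨i, hi, rfl⟩)
  · exact d.dat.a_mem om_symp s
  · rw [SetLike.mem_coe, d.dat.mem_H]
    constructor
    · change d.projL (!s) (d.A i) = 0
      rw [d.proj_A, if_neg (d.side_disj s hi)]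
    · exact d.AA i d.k
  · rw [SetLike.mem_coe, d.dat.mem_H]
    constructor
    · change d.projL (!s) (d.B i) = 0
      rw [d.proj_B, if_neg (d.side_disj s hi)]
    · change om (d.B i) (d.A d.k) = 0
      rw [d.BA, if_neg]
      rintro rfl
      exact d.k_not_mem s hi

theorem BP.a_ne (d : BP g) : d.a ≠ 0 := by
  intro h
  have h1 := d.AB d.k d.k
  rw [← d.a_eq, h, map_zero, LinearMap.zero_apply, if_pos rfl] at h1
  exact zero_ne_one h1

theorem ST.proj_eq (T : ST g) (s : Bool) (z : Hq g) : T.proj s z = T.pr s z := by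
  rw [T.pr_apply]; rfl

/-! ### Deep automorphisms -/

theorem gam3_le_dimS : gam3 g ≤ dimS (Surf g) 2 := by
  have h0 : (⊤ : Subgroup (Surf g)) ≤ dimS (Surf g) 0 := by rw [dimS_zero]
  have h1 := dimS_comm (G := Surf g) 0 0
  have h2 := dimS_comm (G := Surf g) 1 0
  unfold gam3
  refine le_trans (Subgroup.commutator_mono (le_trans (Subgroup.commutator_mono h0 h0) h1) h0) h2

theorem gam4_le_dimS : gam4 g ≤ dimS (Surf g) 3 := by
  have h0 : (⊤ : Subgroup (Surf g)) ≤ dimS (Surf g) 0 := by rw [dimS_zero]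
  have h2 := dimS_comm (G := Surf g) 2 0
  unfold gam4
  exact le_trans (Subgroup.commutator_mono gam3_le_dimS h0) h2

theorem gam4_le_gam3 : gam4 g ≤ gam3 g := by
  have h : (gam3 g).Normal := by
    unfold gam3
    infer_instance
  unfold gam4
  exact Subgroup.commutator_le_left _ _

theorem triv_of_gam3 {F : MulAut (Surf g)} (h : ∀ x, F x * x⁻¹ ∈ gam3 g) : Triv F :=
  johnson_le_triv h

theorem ST.toOut_autS (T : ST g) (s : Bool) : toOut (T.autS s) = T.map := by
  unfold ST.autS ST.map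
  split_ifs
  · rfl
  · rw [map_mul]
    have : toOut (MulAut.conj (T.φ (sepc T.j))⁻¹) = 1 := by
      rw [toOut_eq_one]
      exact ⟨_, rfl⟩
    rw [this, one_mul]

/-! ### Transport -/

/-- from automorphisms to outer automorphisms -/
theorem inj_of_not_inner {F : Bool → MulAut (Surf g)}
    (h : ∀ w : FreeGroup Bool, w ≠ 1 → ∀ ζ : Surf g, FreeGroup.lift F w ≠ MulAut.conj ζ) :
    Function.Injective (FreeGroup.lift ![toOut (F false), toOut (F true)]) := by
  have hlift : FreeGroup.lift ![toOut (F false), toOut (F true)] =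
      (toOut.comp (FreeGroup.lift F)).comp
        (FreeGroup.freeGroupCongr finTwoEquiv).toMonoidHom := by
    apply FreeGroup.ext_hom
    rw [Fin.forall_fin_two]
    constructor
    · rw [FreeGroup.lift_apply_of, MonoidHom.comp_apply, MonoidHom.comp_apply]
      have : (FreeGroup.freeGroupCongr finTwoEquiv).toMonoidHom (FreeGroup.of 0) =
          FreeGroup.of false := by
        simp [FreeGroup.freeGroupCongr]
        rfl
      rw [this, FreeGroup.lift_apply_of]
      rfl
    · rw [FreeGroup.lift_apply_of, MonoidHom.comp_apply, MonoidHom.comp_apply]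
      have : (FreeGroup.freeGroupCongr finTwoEquiv).toMonoidHom (FreeGroup.of 1) =
          FreeGroup.of true := by
        simp [FreeGroup.freeGroupCongr]
        rfl
      rw [this, FreeGroup.lift_apply_of]
      rfl
  rw [injective_iff_map_eq_one]
  intro w hw
  by_contra hne
  rw [hlift, MonoidHom.comp_apply, MonoidHom.comp_apply, toOut_eq_one] at hw
  obtain ⟨ζ, hζ⟩ := hw
  refine h _ ?_ ζ hζ.symm
  intro h1
  apply hne
  apply (FreeGroup.freeGroupCongr finTwoEquiv).injective
  rw [map_one]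
  exact h1

/-- **a bounding pair map and a separating twist** -/
theorem main2 {d : BP g} {T : ST g} (hsep : ¬ HomSep d T) {m n : ℤ} (hm : m ≠ 0) (hn : n ≠ 0)
    {k₁ k₂ : OutG (Surf g)} (h₁ : InJohnsonKernel k₁) (h₂ : InJohnson3 k₂) :
    Function.Injective (FreeGroup.lift ![d.map ^ m * k₁, T.map ^ n * k₂]) := by
  obtain ⟨κ₁, rfl, hκ₁⟩ := h₁
  obtain ⟨κ₂, rfl, hκ₂⟩ := h₂
  have hκ₁t : Triv κ₁ := triv_of_gam3 hκ₁
  have hκ₂t : Triv κ₂ := triv_of_gam3 fun x => gam4_le_gam3 (hκ₂ x)
  -- the automorphisms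
  set F : Bool → Bool → Bool → MulAut (Surf g) := fun q t x =>
    if x then T.autS t ^ n * κ₂ else d.autS q ^ m * κ₁ with hF
  set c : Bool → Bool → ℚ := fun q x => if x then (n : ℚ) else (m : ℚ) * sgn q with hc
  have hcne : ∀ q x, c q x ≠ 0 := by
    intro q x
    cases x
    · exact mul_ne_zero (by exact_mod_cast hm) (sgn_ne q)
    · exact (by exact_mod_cast hn : (n : ℚ) ≠ 0)
  have hF0 : ∀ q t, Sy 1 (F q t false) (c q false • d.sy q) := by
    intro q t
    have h1 := Sy.mul le_rfl ((d.sy_autS q).zpow le_rfl m)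
      (Sy.of_deep (k := 1) gam3_le_dimS le_rfl hκ₁ hκ₁t)
    rw [add_zero, smul_smul] at h1
    exact h1
  have hF1 : ∀ q t, Sy 2 (F q t true) (c q true • T.sy t) := by
    intro q t
    have h1 := Sy.mul (by norm_num) ((T.sy_autS t).zpow (by norm_num) n)
      (Sy.of_deep (k := 2) gam4_le_dimS (by norm_num) hκ₂ hκ₂t)
    rw [add_zero] at h1
    exact h1
  have hfin : ∀ q t, (∀ w : FreeGroup Bool, w ≠ 1 → ∀ ζ : Surf g,
      FreeGroup.lift (F q t) w ≠ MulAut.conj ζ) →
      Function.Injective (FreeGroup.lift ![d.map ^ m * toOut κ₁, T.map ^ n * toOut κ₂]) := by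
    intro q t h
    have h1 := inj_of_not_inner h
    have e1 : toOut (F q t false) = d.map ^ m * toOut κ₁ := by
      change toOut (d.autS q ^ m * κ₁) = _
      rw [map_mul, map_zpow, toOut_autS]
    have e2 : toOut (F q t true) = T.map ^ n * toOut κ₂ := by
      change toOut (T.autS t ^ n * κ₂) = _
      rw [map_mul, map_zpow, ST.toOut_autS]
    rwa [e1, e2] at h1
  by_cases ha : ∃ t, T.pr t d.a = 0
  · obtain ⟨t, ht⟩ := ha
    have hmem : d.a ∈ T.H (!t) := by
      have h1 : T.pr t d.a + T.pr (!t) d.a = d.a := T.spl.sum t d.a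
      rw [ht, zero_add] at h1
      rw [← h1]
      exact T.pr_mem _ _
    have hN : ∀ s, ∃ u ∈ d.dat.H s, ∃ v ∈ d.dat.H s,
        om (T.spl.s t u) (T.spl.s t v) ≠ 0 := by
      intro s
      by_contra hcon
      push Not at hcon
      refine hsep ⟨s, t, hmem, fun u hu v hv => ?_⟩
      rw [T.proj_eq, T.proj_eq, ← om_eq_inter]
      exact hcon u (d.H_le_dat s hu) v (d.H_le_dat s hv)
    obtain ⟨q, A, hA, y0, hy0, hyne, hyb⟩ := exists_nf d.dat T.spl t d.a_ne ht hN
    exact hfin q t fun w hw ζ =>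
      not_inner3 hA hy0 hyne hyb (hcne q) (hF0 q t) (hF1 q t) hw ζ
  · push Not at ha
    obtain ⟨q, t, A, hA, hnil⟩ := exists_cf d.dat T.spl ha
    exact hfin q t fun w hw ζ =>
      not_inner2 hA hnil (hcne q) (hF0 q t) (hF1 q t) hw ζ

theorem ST.map_mem_torelli (T : ST g) : T.map ∈ torelli g :=
  ⟨T.aut, triv_le_torelli T.aut_triv, rfl⟩

theorem johnson3_mem_torelli {f : OutG (Surf g)} (h : InJohnson3 f) : f ∈ torelli g := by
  obtain ⟨F, rfl, hF⟩ := h
  exact ⟨F, triv_le_torelli (triv_of_gam3 fun x => gam4_le_gam3 (hF x)), rfl⟩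

end TG
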