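import Pool.Agent.H40.TG.St

/-!
# The filtered module

Functions on the states `(w, j)` with `wl w + 2 j ≤ n`, together with two more columns.
-/

namespace TG

/-- three copies of the functions on states -/
abbrev EE := Fn × Fn × Fn

/-- the bound -/
def bd (s : List Bool × ℕ) : ℕ := wl s.1 + 2 * s.2

theorem dg_le_bd (s : List Bool × ℕ) : dg s ≤ bd s := by unfold dg bd; omega

/-- functions supported on states of bound at most `n` -/
def FB (n : ℕ) : Submodule ℚ Fn where
  carrier := {φ | ∀ s, n < bd s → φ s = 0}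
  add_mem' := by
    intro φ ψ h h' s hs
    rw [Pi.add_apply, h s hs, h' s hs, add_zero]
  zero_mem' := fun _ _ => rfl
  smul_mem' := by
    intro r φ h s hs
    rw [Pi.smul_apply, h s hs, smul_zero]

theorem mem_FB {n : ℕ} {φ : Fn} : φ ∈ FB n ↔ ∀ s, n < bd s → φ s = 0 := Iff.rfl

/-- truncation -/
def cutB (n : ℕ) : Module.End ℚ Fn where
  toFun φ s := if bd s ≤ n then φ s else 0
  map_add' φ φ' := by
    funext s; simp only [Pi.add_apply]; split_ifs <;> simp
  map_smul' r φ := by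
    funext s; simp only [Pi.smul_apply, smul_eq_mul, RingHom.id_apply]; split_ifs <;> simp

/-- truncation to words of degree at most `n` -/
def cut0 (n : ℕ) : Module.End ℚ Fn where
  toFun φ s := if bd s ≤ n ∧ s.2 = 0 then φ s else 0
  map_add' φ φ' := by
    funext s; simp only [Pi.add_apply]; split_ifs <;> simp
  map_smul' r φ := by
    funext s; simp only [Pi.smul_apply, smul_eq_mul, RingHom.id_apply]; split_ifs <;> simp

theorem cutB_apply (n : ℕ) (φ : Fn) (s : List Bool × ℕ) :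
    cutB n φ s = if bd s ≤ n then φ s else 0 := rfl

theorem cut0_apply (n : ℕ) (φ : Fn) (s : List Bool × ℕ) :
    cut0 n φ s = if bd s ≤ n ∧ s.2 = 0 then φ s else 0 := rfl

theorem FB_le_Fs (n : ℕ) : FB n ≤ Fs (n + 1) := fun φ h s hs =>
  h s (by have := dg_le_bd s; omega)

theorem cutB_mem (n : ℕ) (φ : Fn) : cutB n φ ∈ FB n := by
  intro s hs
  rw [cutB_apply, if_neg (by omega)]

theorem cut0_mem (n : ℕ) (φ : Fn) : cut0 n φ ∈ FB n := by
  intro s hs
  rw [cut0_apply, if_neg (by omega)]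

theorem cutB_of_mem {n : ℕ} {φ : Fn} (h : φ ∈ FB n) : cutB n φ = φ := by
  funext s
  rw [cutB_apply]
  split_ifs with h1
  · rfl
  · rw [h s (by omega)]

theorem opQ'_cut0 (n : ℕ) (φ : Fn) : opQ' (cut0 n φ) = 0 := by
  funext s
  rw [opQ'_apply, cut0_apply, if_neg (by simp)]
  rfl

/-- pieces of the filtration -/
def KK (n m : ℕ) : Submodule ℚ EE := if m ≤ n + 1 then (Fs m ⊓ FB n).prod ⊥ else ⊤

theorem mem_KK {n m : ℕ} (h : m ≤ n + 1) {e : EE} :
    e ∈ KK n m ↔ (e.1 ∈ Fs m ∧ e.1 ∈ FB n) ∧ e.2 = 0 := by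
  unfold KK
  rw [if_pos h, Submodule.mem_prod, Submodule.mem_bot, Submodule.mem_inf]

theorem KK_top {n m : ℕ} (h : n + 2 ≤ m) : KK n m = ⊤ := by
  unfold KK
  rw [if_neg (by omega)]

/-- the filtration -/
def FF (n : ℕ) : Filt EE (n + 2) where
  K := KK n
  mono := by
    intro m m' h e he
    rcases Nat.lt_or_ge (n + 1) m' with h1 | h1
    · rw [KK_top (by omega)]; exact Submodule.mem_top
    · rw [mem_KK (by omega)] at he ⊢
      exact ⟨⟨Fs_mono h he.1.1, he.1.2⟩, he.2⟩
  bot := by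
    rw [eq_bot_iff]
    intro e he
    rw [mem_KK (by omega), Fs_zero, Submodule.mem_bot] at he
    rw [Submodule.mem_bot]
    exact Prod.ext he.1.1 he.2
  top := KK_top le_rfl

theorem FF_K (n m : ℕ) : (FF n).K m = KK n m := rfl

theorem inl_mem {n m : ℕ} {φ : Fn} (h : φ ∈ Fs m) (h' : φ ∈ FB n) :
    ((φ, 0, 0) : EE) ∈ KK n m := by
  rcases Nat.lt_or_ge (n + 1) m with h1 | h1
  · rw [KK_top (by omega)]; exact Submodule.mem_top
  · rw [mem_KK h1]; exact ⟨⟨h, h'⟩, rfl⟩

/-! ### The operators preserve the bound -/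

section Bound

variable {φ : Fn} {s : List Bool × ℕ}

theorem opP_bd (h : ∀ t, bd s ≤ bd t → φ t = 0) : opP φ s = 0 := by
  apply h
  simp only [bd, wl, Bool.false_eq_true, if_false]; omega

theorem opQ_bd (h : ∀ t, bd s ≤ bd t → φ t = 0) : opQ φ s = 0 := by
  rw [opQ_apply]
  apply dd_zero
  intro v h1 _
  apply h
  simp only [bd]; omega

theorem opP'_bd (h : ∀ t, bd s ≤ bd t → φ t = 0) : opP' φ s = 0 := by
  rw [opP'_apply]
  obtain ⟨w, j⟩ := s
  cases j with
  | zero => simp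
  | succ j =>
    rw [h, mul_zero]
    simp only [bd, wl, if_true, Nat.add_sub_cancel]; omega

theorem opQ'_bd (h : ∀ t, bd s ≤ bd t → φ t = 0) : opQ' φ s = 0 := by
  apply h
  simp only [bd]; omega

end Bound

variable {g : ℕ}

theorem Fr.V0_FB (A : Fr g) (z : Hq g) {n : ℕ} {φ : Fn} (hφ : φ ∈ FB n) : A.V0 z φ ∈ FB n := by
  rw [A.V0_apply]
  have h : ∀ s : List Bool × ℕ, n < bd s → ∀ t, bd s ≤ bd t → φ t = 0 := fun s hs t ht =>
    hφ t (by omega)
  refine Submodule.sub_mem _ (Submodule.add_mem _ (Submodule.sub_mem _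
    (Submodule.smul_mem _ _ ?_) (Submodule.smul_mem _ _ ?_)) (Submodule.smul_mem _ _ ?_))
    (Submodule.smul_mem _ _ ?_)
  · intro s hs; exact opP_bd (h s hs)
  · intro s hs; exact opQ_bd (h s hs)
  · intro s hs; exact opP'_bd (h s hs)
  · intro s hs; exact opQ'_bd (h s hs)

/-- the degree one operators -/
def VV (A : Fr g) (y : Hq g) (n : ℕ) : Hq g →ₗ[ℚ] Module.End ℚ EE :=
  LinearMap.mk₂ ℚ (fun z e => ((A.V0 z (cutB n e.1) + om y z • cut0 n e.2.1 +
    om A.b2 z • cut0 n e.2.2, 0, 0) : EE))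
    (fun z z' e => by
      simp only [map_add, LinearMap.add_apply, add_smul, Prod.mk_add_mk, add_zero]
      congr 1
      abel)
    (fun r z e => by
      simp only [map_smul, LinearMap.smul_apply, smul_eq_mul, mul_smul, Prod.smul_mk, smul_add,
        smul_zero])
    (fun z e e' => by
      simp only [Prod.fst_add, Prod.snd_add, map_add, smul_add, Prod.mk_add_mk, add_zero]
      congr 1
      abel)
    (fun r z e => by
      simp only [Prod.smul_fst, Prod.smul_snd, map_smul, Prod.smul_mk, smul_add, smul_zero]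
      rw [smul_comm r (om y z), smul_comm r (om A.b2 z)])

theorem VV_apply (A : Fr g) (y : Hq g) (n : ℕ) (z : Hq g) (e : EE) :
    VV A y n z e = (A.V0 z (cutB n e.1) + om y z • cut0 n e.2.1 + om A.b2 z • cut0 n e.2.2,
      0, 0) := rfl

variable (A : Fr g) (y : Hq g) (n : ℕ)

theorem VV_fst_mem (z : Hq g) (e : EE) : (VV A y n z e).1 ∈ FB n := by
  rw [VV_apply]
  exact Submodule.add_mem _ (Submodule.add_mem _ (A.V0_FB z (cutB_mem n _))
    (Submodule.smul_mem _ _ (cut0_mem n _))) (Submodule.smul_mem _ _ (cut0_mem n _))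

theorem VV_fd (z : Hq g) : Fd (FF n) 1 (VV A y n z) := by
  intro m e he
  rw [FF_K] at he ⊢
  rcases Nat.lt_or_ge (n + 1) m with h1 | h1
  · have h2 : VV A y n z e = ((VV A y n z e).1, 0, 0) := rfl
    rw [h2]
    exact inl_mem (Fs_mono (by omega) (FB_le_Fs n (VV_fst_mem A y n z e)))
      (VV_fst_mem A y n z e)
  · rw [VV_apply]
    rw [mem_KK h1] at he
    obtain ⟨⟨h2, h2'⟩, h3⟩ := he
    rw [h3]
    simp only [Prod.fst_zero, Prod.snd_zero, map_zero, smul_zero, add_zero]
    rw [cutB_of_mem h2']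
    refine inl_mem ?_ (A.V0_FB z h2')
    cases m with
    | zero =>
      rw [Fs_zero, Submodule.mem_bot] at h2
      rw [h2, map_zero]
      exact Submodule.zero_mem _
    | succ m => exact A.V0_Fs z h2

variable {A y n}

theorem VV_inl (z : Hq g) {φ : Fn} (hφ : φ ∈ FB n) :
    VV A y n z (φ, 0, 0) = (A.V0 z φ, 0, 0) := by
  rw [VV_apply, cutB_of_mem hφ]
  simp

/-- the classes allowed in the columns -/
def Cl (A : Fr g) (y : Hq g) : Prop := om A.b1 y = 0 ∧ om A.a1 y = 0 ∧ om A.b2 y = 0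

theorem Cl.V0 (h : Cl A y) : A.V0 y = -(om A.a2 y • opQ') := by
  rw [A.V0_eq, h.1, h.2.1, h.2.2]
  module

theorem cl_b2 (A : Fr g) : Cl A A.b2 := ⟨A.hbb, A.hab, om_self _⟩

theorem cl_rho (A : Fr g) {y : Hq g} (h : A.rho y = y) : Cl A y := by
  refine ⟨?_, ?_, ?_⟩
  · rw [← h, A.b1_rho]
  · rw [← h, A.a1_rho]
  · rw [← h, A.b2_rho]

theorem VV_rel (hy : Cl A y) :
    ∑ i, (VV A y n (ea i) * VV A y n (eb i) - VV A y n (eb i) * VV A y n (ea i)) = 0 := by
  apply LinearMap.ext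
  intro e
  rw [LinearMap.sum_apply]
  have h1 : ∀ x z, (VV A y n x * VV A y n z) e = (A.V0 x (A.V0 z (cutB n e.1)) +
      om y z • A.V0 x (cut0 n e.2.1) + om A.b2 z • A.V0 x (cut0 n e.2.2), 0, 0) := by
    intro x z
    rw [Module.End.mul_apply]
    have h2 : VV A y n z e = ((VV A y n z e).1, 0, 0) := rfl
    rw [h2, VV_inl x (VV_fst_mem A y n z e), VV_apply]
    simp only [map_add, map_smul]
  have h3 : ∀ i, (VV A y n (ea i) * VV A y n (eb i) - VV A y n (eb i) * VV A y n (ea i)) e =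
      ((A.V0 (ea i) * A.V0 (eb i) - A.V0 (eb i) * A.V0 (ea i)) (cutB n e.1) +
        (om y (eb i) • A.V0 (ea i) - om y (ea i) • A.V0 (eb i)) (cut0 n e.2.1) +
        (om A.b2 (eb i) • A.V0 (ea i) - om A.b2 (ea i) • A.V0 (eb i)) (cut0 n e.2.2), 0, 0) := by
    intro i
    rw [LinearMap.sub_apply, h1, h1]
    simp only [LinearMap.sub_apply, LinearMap.smul_apply, Module.End.mul_apply, Prod.mk_sub_mk,
      sub_self]
    congr 1
    abel
  rw [Finset.sum_congr rfl fun i _ => h3 i]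
  have h4 : ∀ f : Fin g → Fn, ∑ i, ((f i, 0, 0) : EE) = (∑ i, f i, 0, 0) := by
    intro f
    apply Prod.ext
    · rw [Prod.fst_sum]
    · rw [Prod.snd_sum]
      apply Prod.ext
      · rw [Prod.fst_sum]; simp
      · rw [Prod.snd_sum]; simp
  rw [h4, Finset.sum_add_distrib, Finset.sum_add_distrib, ← LinearMap.sum_apply,
    ← LinearMap.sum_apply, ← LinearMap.sum_apply, A.V0_rel, contract, contract, hy.V0,
    A.V0_b2, opQ'_cut0, LinearMap.neg_apply, LinearMap.smul_apply, opQ'_cut0]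
  simp

/-- a right inverse of the operator of `a₁ + a₂` -/
def rr (n : ℕ) : Module.End ℚ Fn where
  toFun φ s := match s.1 with
    | [] => 0
    | x :: w => if x then (if bd s = n then φ (w, s.2 + 1) / (s.2 + 1 : ℚ) else 0)
        else if bd s ≤ n then φ (w, s.2) else 0
  map_add' φ φ' := by
    funext s
    obtain ⟨w, j⟩ := s
    cases w with
    | nil => simp
    | cons x w =>
      simp only [Pi.add_apply]
      split_ifs <;> simp [add_div]
  map_smul' r φ := by
    funext s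
    obtain ⟨w, j⟩ := s
    cases w with
    | nil => simp
    | cons x w =>
      simp only [Pi.smul_apply, smul_eq_mul, RingHom.id_apply]
      split_ifs <;> simp [mul_div_assoc]

theorem rr_false (n : ℕ) (φ : Fn) (w : List Bool) (j : ℕ) :
    rr n φ (false :: w, j) = if bd (false :: w, j) ≤ n then φ (w, j) else 0 := rfl

theorem rr_true (n : ℕ) (φ : Fn) (w : List Bool) (j : ℕ) :
    rr n φ (true :: w, j) = if bd (true :: w, j) = n then φ (w, j + 1) / (j + 1 : ℚ) else 0 :=
  rfl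

theorem rr_mem {m : ℕ} {φ : Fn} (h : φ ∈ Fs m) : rr n φ ∈ Fs (m + 1) := by
  rintro ⟨w, j⟩ hs
  cases w with
  | nil => rfl
  | cons x w =>
    cases x
    · rw [rr_false, h (w, j) (by simp only [dg, wl, Bool.false_eq_true, if_false] at hs ⊢; omega)]
      simp
    · rw [rr_true, h (w, j + 1) (by simp only [dg, wl, if_true] at hs ⊢; omega)]
      simp

theorem rr_memB (φ : Fn) : rr n φ ∈ FB n := by
  rintro ⟨w, j⟩ hs
  cases w with
  | nil => rfl
  | cons x w =>
    cases x
    · rw [rr_false, if_neg (by omega)]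
    · rw [rr_true, if_neg (by omega)]

theorem opP_rr {m : ℕ} (hm : m ≤ n) {φ : Fn} (h : φ ∈ Fs m) (h' : φ ∈ FB n) :
    (opP + opP') (rr n φ) = φ := by
  funext s
  obtain ⟨w, j⟩ := s
  rw [LinearMap.add_apply, Pi.add_apply, opP_apply, opP'_apply]
  simp only
  rw [rr_false, rr_true]
  cases j with
  | zero =>
    rw [Nat.cast_zero, zero_mul, add_zero]
    split_ifs with h1
    · rfl
    · rw [h (w, 0) (by simp only [dg, bd, wl, Bool.false_eq_true, if_false] at h1 ⊢; omega)]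
  | succ j =>
    have hj : ((j + 1 : ℕ) : ℚ) ≠ 0 := by exact_mod_cast Nat.succ_ne_zero j
    rw [Nat.add_sub_cancel]
    by_cases h1 : bd (false :: w, j + 1) ≤ n
    · rw [if_pos h1, if_neg (by
        simp only [bd, wl, Bool.false_eq_true, if_false, if_true] at h1 ⊢; omega)]
      simp
    · rw [if_neg h1, zero_add]
      by_cases h2 : bd (true :: w, j) = n
      · rw [if_pos h2]
        push_cast at hj ⊢
        field_simp
      · rw [if_neg h2, mul_zero, h' (w, j + 1) (by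
          simp only [bd, wl, Bool.false_eq_true, if_false, if_true] at h1 h2 ⊢; omega)]

/-- solving with a right inverse -/
theorem solv_of_right {E : Type*} [AddCommGroup E] [Module ℚ E] {n : ℕ} {F : Filt E (n + 2)}
    {v ρ : Module.End ℚ E} (hv : Fd F 1 v)
    (hρ : ∀ m ≤ n, ∀ e ∈ F.K m, ρ e ∈ F.K (m + 1) ∧ v (ρ e) = e) : Solv F v := by
  intro k hk r hr
  -- powers of the right inverse
  have hpow : ∀ (i c : ℕ) (e : E), e ∈ F.K c → c + i ≤ n + 1 → (ρ ^ i) e ∈ F.K (c + i) := by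
    intro i
    induction i with
    | zero => intro c e he _; simpa using he
    | succ i ih =>
      intro c e he hc
      rw [pow_succ', Module.End.mul_apply, ← add_assoc]
      exact (hρ (c + i) (by omega) _ (ih c e he (by omega))).1
  -- reduction to `m ≤ n + 2`
  have hred : ∀ {M : Module.End ℚ E} {a : ℕ},
      (∀ m ≤ n + 2, ∀ e ∈ F.K m, M e ∈ F.K (m - a)) → Fd F a M := by
    intro M a h m e he
    rcases Nat.lt_or_ge (n + 2) m with h1 | h1
    · refine F.mono (by omega : n + 2 - a ≤ m - a) (h (n + 2) le_rfl e ?_)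
      rw [F.top]; exact Submodule.mem_top
    · exact h m h1 e he
  have hzero : ∀ {c : ℕ} {e : E}, e ∈ F.K c → c = 0 → e = 0 := by
    intro c e he hc
    rw [hc, F.bot, Submodule.mem_bot] at he
    exact he
  have hmem : ∀ j m, ∀ e ∈ F.K m, (r * v ^ j) e ∈ F.K (m - (j + (k + 1))) := by
    intro j m e he
    have h1 := (hr.mul (hv.pow j)) m e he
    rwa [add_comm (k + 1) j] at h1
  have hT : ∀ j, Fd F k (ρ ^ (j + 1) * (r * v ^ j)) := by
    intro j
    apply hred
    intro m hm e he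
    rw [Module.End.mul_apply]
    have h1 := hmem j m e he
    by_cases hc : m - (j + (k + 1)) = 0
    · rw [hzero h1 hc, map_zero]; exact Submodule.zero_mem _
    · have h2 := hpow (j + 1) _ _ h1 (by omega)
      have h3 : m - (j + (k + 1)) + (j + 1) = m - k := by omega
      rwa [h3] at h2
  have hvT : ∀ j, v * (ρ ^ (j + 1) * (r * v ^ j)) = ρ ^ j * (r * v ^ j) := by
    intro j
    apply LinearMap.ext
    intro e
    have he : e ∈ F.K (n + 2) := by rw [F.top]; exact Submodule.mem_top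
    change v ((ρ ^ (j + 1)) ((r * v ^ j) e)) = (ρ ^ j) ((r * v ^ j) e)
    rw [pow_succ', Module.End.mul_apply ρ]
    have h1 := hmem j _ e he
    by_cases hc : n + 2 - (j + (k + 1)) = 0
    · rw [hzero h1 hc]; simp
    · exact (hρ _ (by omega) _ (hpow j _ _ h1 (by omega))).2
  refine ⟨-∑ j ∈ Finset.range (n + 2), ρ ^ (j + 1) * (r * v ^ j),
    (Fd.sum _ fun j _ => hT j).neg, ?_⟩
  have h0 : v * -∑ j ∈ Finset.range (n + 2), ρ ^ (j + 1) * (r * v ^ j) -
      (-∑ j ∈ Finset.range (n + 2), ρ ^ (j + 1) * (r * v ^ j)) * v + r = 0 := by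
    have e1 : v * -∑ j ∈ Finset.range (n + 2), ρ ^ (j + 1) * (r * v ^ j) =
        -∑ j ∈ Finset.range (n + 2), ρ ^ j * (r * v ^ j) := by
      rw [mul_neg, Finset.mul_sum]
      congr 1
      exact Finset.sum_congr rfl fun j _ => hvT j
    have e2 : (-∑ j ∈ Finset.range (n + 2), ρ ^ (j + 1) * (r * v ^ j)) * v =
        -∑ j ∈ Finset.range (n + 2), ρ ^ (j + 1) * (r * v ^ (j + 1)) := by
      rw [neg_mul, Finset.sum_mul]
      congr 1
    have e3 := Finset.sum_range_succ (fun j => ρ ^ j * (r * v ^ j)) (n + 2)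
    have e4 := Finset.sum_range_succ' (fun j => ρ ^ j * (r * v ^ j)) (n + 2)
    have e5 : v ^ (n + 2) = 0 := (hv.pow (n + 2)).eq_zero le_rfl
    rw [e5, mul_zero, mul_zero, add_zero] at e3
    rw [e3] at e4
    rw [e1, e2, e4, pow_zero, pow_zero, one_mul, mul_one]
    abel
  rw [h0]
  exact Fd.zero

theorem VV_solv (A : Fr g) (y : Hq g) (n : ℕ) : Solv (FF n) (VV A y n (A.a1 + A.a2)) := by
  apply solv_of_right (ρ := (LinearMap.inl ℚ Fn (Fn × Fn)).comp
    ((rr n).comp (LinearMap.fst ℚ Fn (Fn × Fn)))) (VV_fd A y n _)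
  intro m hm e he
  rw [FF_K, mem_KK (by omega)] at he
  obtain ⟨⟨h1, h1'⟩, h2⟩ := he
  have h3 : ((LinearMap.inl ℚ Fn (Fn × Fn)).comp
    ((rr n).comp (LinearMap.fst ℚ Fn (Fn × Fn)))) e = (rr n e.1, 0, 0) := rfl
  rw [h3]
  refine ⟨inl_mem (rr_mem h1) (rr_memB _), ?_⟩
  rw [VV_inl _ (rr_memB _), map_add, A.V0_a1, A.V0_a2, opP_rr hm h1 h1']
  exact Prod.ext rfl h2.symm

/-- **the representation** -/
theorem exists_psi (A : Fr g) {y : Hq g} (hy : Cl A y) (n : ℕ) :
    ∃ Ψ : Surf g →* Module.End ℚ EE, (∀ x, Fd (FF n) 1 (Ψ x - 1)) ∧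
      ∀ x, Fd (FF n) 2 (Ψ x - 1 - VV A y n (cls x)) :=
  exists_rep (VV_fd A y n) (VV_rel hy) (VV_solv A y n)

end TG
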