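import Pool.Agent.H40.TG.Iter
import Pool.Agent.H40.TG.Core

/-!
# Words in a bounding pair map and a crossing separating twist are not inner
-/

open scoped commutatorElement

namespace TG

open Aug

variable {g : ℕ}

/-- only the leading word contributes -/
theorem lead_eval {F : Bool → MulAut (Surf g)} {s0 s1 : Hq g →ₗ[ℚ] RG g}
    (hF0 : Sy 1 (F false) s0) (hF1 : Sy 2 (F true) s1) {w : FreeGroup Bool} {w₀ : List Bool}
    (hw₀ : w₀ ≠ []) (hc₀ : Mag.coef w w₀ ≠ 0)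
    (hmin : ∀ v : List Bool, v ≠ [] → Mag.coef w v ≠ 0 → wl w₀ ≤ wl v)
    {f : RG g →ₗ[ℚ] ℚ} (hf : ∀ x ∈ I (Surf g) ^ (wl w₀ + 2), f x = 0) {z : Hq g}
    {X : List Bool → ℚ}
    (h : ∀ v : List Bool, v ≠ [] → Mag.coef w v ≠ 0 → wl v = wl w₀ →
      f ((v.map fun x => Df (F x)).prod (nv z)) = X v * if v = w₀ then 1 else 0) :
    f (Mag.ev (fun x => Df (F x)) (wl w₀) (cf0 w) (nv z)) = Mag.coef w w₀ * X w₀ := by
  have h1 := Mag.ev_one_word (fun x => Df (F x)) (Mag.length_le_wl w₀) (c := cf0 w) (f := f)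
    (x := nv z) (fun v _ hvw hv => by
      obtain ⟨hv1, hv2⟩ := cf0_ne hv
      rcases Nat.lt_or_ge (wl w₀) (wl v) with h2 | h2
      · apply hf
        have := word_mem hF0 hF1 v (m := 0) (nv_mem z)
        exact I_anti (by omega) (by omega) this
      · rw [h v hv1 hv2 (le_antisymm h2 (hmin v hv1 hv2)), if_neg hvw, mul_zero])
  rw [h1, h w₀ hw₀ hc₀ rfl, if_pos rfl, mul_one, cf0_eq hw₀]

theorem dlt_eval (v w : List Bool) : dlt w (v, 0) = if v = w then 1 else 0 := by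
  unfold dlt
  by_cases hv : v = w
  · rw [if_pos hv, if_pos (by rw [hv])]
  · rw [if_neg hv, if_neg (by intro h8; exact hv (congrArg Prod.fst h8))]

/-- reduction to words with vanishing exponent sum -/
theorem not_inner_of {F : Bool → MulAut (Surf g)}
    (H : ∀ w : FreeGroup Bool, w ≠ 1 → Mag.coef w [true] = 0 → ∀ ζ : Surf g,
      FreeGroup.lift F w ≠ MulAut.conj ζ) {w : FreeGroup Bool} (hw : w ≠ 1) (ζ : Surf g) :
    FreeGroup.lift F w ≠ MulAut.conj ζ := by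
  intro hinn
  rcases Mag.reduce hw with h1 | ⟨h1, h2⟩
  · exact H _ hw h1 ζ hinn
  · refine H _ h2 h1 (ζ * F false ζ⁻¹) ?_
    rw [map_mul, map_mul, map_mul, map_inv, map_inv, hinn, FreeGroup.lift_apply_of]
    ext x
    simp [MulAut.conj_apply, mul_assoc]

section Core

variable {d : BP g} {T : ST g} {q t : Bool} {A : Fr g} (h : Cf d.dat T.spl q t A)

include h in
theorem Oy_eval (w : List Bool) : ∀ (v : List Bool) (φ : Fn),
    Oy A d.a w φ (v, 0) = φ (w ++ v, 0) := by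
  induction w with
  | nil => intro v φ; rfl
  | cons x w ih =>
    intro v φ
    rw [Oy, ih]
    cases x
    · simp only [Ox, Bool.false_eq_true, if_false]
      rw [h.V0_a', LinearMap.add_apply, Pi.add_apply, opP_apply, opP'_apply]
      simp
    · rfl

variable (hnil : ∀ n : ℕ, (A.e d.dat q * T.spl.s t * A.e d.dat q) ^ n ≠ 0)
  {F : Bool → MulAut (Surf g)} {c : Bool → ℚ} (hc : ∀ x, c x ≠ 0)
  (hF0 : Sy 1 (F false) (c false • d.sy q)) (hF1 : Sy 2 (F true) (c true • T.sy t))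

include h hnil hc hF0 hF1

theorem core {w : FreeGroup Bool} (hw : w ≠ 1) (hw0 : Mag.coef w [true] = 0) (ζ : Surf g) :
    FreeGroup.lift F w ≠ MulAut.conj ζ := by
  intro hinn
  obtain ⟨w₀, hw₀, hc₀, hmin, hmax⟩ := Mag.exists_lead hw
  have hJ : ∀ v, v ≠ [] → Mag.coef w v ≠ 0 → 1 ≤ nu v := fun v hv hcv => Mag.nu_pos hw0 hv hcv
  obtain ⟨y0, hy0, hTy⟩ := exists_y h hnil hc w₀
  have hρ : A.rho y0 ≠ 0 := by
    rw [hy0]
    rintro rfl
    apply hTy
    rw [Ty_eq, map_zero, smul_zero]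
  obtain ⟨fA, fB, Z0, hkA, hkB, hGA, hGB, hZ⟩ :=
    core_abs (cl_rho A hy0) hρ hF0 hF1 hw₀ hmin hinn
  obtain ⟨z1, hz1, hTz1⟩ := exists_rho_vec A (u := Ty A d.dat T.spl q t c w₀ y0)
    (by rw [rho_Ty h c w₀ hy0]; exact hTy)
  -- the last column
  have hB := lead_eval hF0 hF1 hw₀ hc₀ hmin hkB (z := A.a2) (X := fun _ => 0)
    (fun v hv1 hv2 h3 => by
      have h4 := hmax v hv1 hv2 h3
      have h6 := iterB h hF0 hF1 v (m := 0) (k := 0) (e := nu w₀) (hJ v hv1 hv2)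
        (by rw [zero_add, h3]; exact hGB.good (Hm := A.Hom) ((nu w₀ : ℤ) + 1))
        (by rw [zero_add, h3]; exact hkB) ev0_LW (dlt_sp w₀)
        (Or.inr ⟨⟨1, (one_smul _ _).symm⟩, rfl, dlt_Q' w₀⟩) ⟨1, (one_smul _ _).symm⟩
        (by omega)
      have h7 := h6 A.a2 1 A.hom_a2 (by omega)
      rw [LinearMap.comp_apply] at h7
      rw [h7, zero_mul])
  have hZ0 : Z0 = 0 := by
    have h1 := (hZ A.a2 A.hba (om_self _)).2
    rwa [hB, mul_zero, A.h22, mul_one] at h1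
  -- the middle column
  have hA := lead_eval hF0 hF1 hw₀ hc₀ hmin hkA (z := z1)
    (X := fun v => om (Ty A d.dat T.spl q t c v y0) z1)
    (fun v hv1 hv2 h3 => by
      have h4 := hmax v hv1 hv2 h3
      have h6 := iter h hF0 hF1 v (m := 0) (k := 0) (e := nu w₀)
        (by rw [zero_add, h3]; exact hGA.good (Hm := A.Hom) (nu w₀ : ℤ))
        (by rw [zero_add, h3]; exact hkA) ev0_LW (dlt_sp w₀) hy0 (by omega)
      have h7 := h6 z1 0 (Or.inr (Or.inl ⟨rfl, hz1⟩)) (by omega)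
      rw [LinearMap.comp_apply] at h7
      rw [h7, ev0_apply, Oy_eval h, List.append_nil, dlt_eval])
  have h1 := (hZ z1 (by rw [← hz1, A.b1_rho]) (by rw [← hz1, A.a2_rho])).1
  rw [hA, hTz1, hZ0, zero_mul, mul_one] at h1
  exact hc₀ h1.symm

/-- **nontrivial words are not inner** -/
theorem not_inner2 {w : FreeGroup Bool} (hw : w ≠ 1) (ζ : Surf g) :
    FreeGroup.lift F w ≠ MulAut.conj ζ :=
  not_inner_of (fun _ hw hw0 ζ => core h hnil hc hF0 hF1 hw hw0 ζ) hw ζ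

end Core

end TG
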