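import Pool.Agent.H40.TG.Step3
import Pool.Agent.H40.TG.NotInner

/-!
# Words in a bounding pair map and a separating twist, the class lying on one side
-/

open scoped commutatorElement

namespace TG

open Aug

variable {g : ℕ}

/-- the operators of the letters -/
def Nx (d : BP g) (T : ST g) (q t : Bool) (A : Fr g) (c : Bool → ℚ) (x : Bool) :
    Module.End ℚ (Hq g) :=
  if x then (c true * om A.b2 (T.pr t A.a2)) • T.pr t else c false • pn d q A

/-- composition of the operators; the first letter acts first -/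
def Ny (d : BP g) (T : ST g) (q t : Bool) (A : Fr g) (c : Bool → ℚ) : List Bool → Hq g → Hq g
  | [], y => y
  | x :: w, y => Ny d T q t A c w (Nx d T q t A c x y)

/-- the operators on functions -/
def Nf.O (x : Bool) : Module.End ℚ Fn := if x then opR else opP

/-- composition of the operators on functions -/
def Nf.Oy : List Bool → Fn → Fn
  | [], φ => φ
  | x :: w, φ => Nf.Oy w (Nf.O x φ)

theorem Nf.Oy_eval (w : List Bool) : ∀ (v : List Bool) (φ : Fn),
    Nf.Oy w φ (v, 0) = φ (w ++ v, 0) := by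
  induction w with
  | nil => intro v φ; rfl
  | cons x w ih =>
    intro v φ
    rw [Nf.Oy, ih]
    cases x <;> rfl

theorem Nf.O_Q' {φ : Fn} (hφ : opQ' φ = 0) (x : Bool) : opQ' (Nf.O x φ) = 0 := by
  cases x
  · have : opQ' (Nf.O false φ) = opP (opQ' φ) := rfl
    rw [this, hφ, map_zero]
  · have : opQ' (Nf.O true φ) = opR (opQ' φ) := rfl
    rw [this, hφ, map_zero]

section

variable {d : BP g} {T : ST g} {q t : Bool} {A : Fr g}

/-- a property of all the classes obtained from one class -/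
def Ia (d : BP g) (T : ST g) (q t : Bool) (A : Fr g) (P : Hq g → Prop) (y : Hq g) : Prop :=
  (∀ k : ℕ, P ((Xc d.dat T.spl t A.b1 q ^ k) (T.pr t y))) ∧
    ∀ k : ℕ, P ((Xc d.dat T.spl t A.b1 q ^ k) (T.pr t (pn d q A y)))

theorem pr_pr (t : Bool) (y : Hq g) : T.pr t (T.pr t y) = T.pr t y := T.spl.idem t y

theorem pr_pn (h : Nf d.dat T.spl q t A) (y : Hq g) :
    T.pr t (pn d q A (T.pr t y)) = Xc d.dat T.spl t A.b1 q (T.pr t y) := by
  have h1 : Xc d.dat T.spl t A.b1 q (T.pr t y) = T.pr t (pn d q A (T.pr t (T.pr t y))) := rfl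
  rw [h1, pr_pr]

variable (h : Nf d.dat T.spl q t A) {c : Bool → ℚ}

include h

theorem Ia.base {P : Hq g → Prop} {y : Hq g} (hy : T.pr t y = y)
    (hP : ∀ k : ℕ, P ((Xc d.dat T.spl t A.b1 q ^ k) y)) : Ia d T q t A P y := by
  refine ⟨fun k => by rw [hy]; exact hP k, fun k => ?_⟩
  have h1 := pr_pn h y
  rw [hy] at h1
  rw [h1, ← Module.End.mul_apply, ← pow_succ]
  exact hP _

theorem Ia.step {P : Hq g → Prop} (hP : ∀ (r : ℚ) z, r ≠ 0 → P z → P (r • z)) {y : Hq g}
    (hy : Ia d T q t A P y) (hc : ∀ x, c x ≠ 0) (x : Bool) :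
    Ia d T q t A P (Nx d T q t A c x y) := by
  cases x
  · have e : Nx d T q t A c false y = c false • pn d q A y := rfl
    rw [e]
    refine ⟨fun k => ?_, fun k => ?_⟩
    · rw [map_smul, map_smul]
      exact hP _ _ (hc _) (hy.2 k)
    · rw [map_smul, map_smul, map_smul, h.pn_idem]
      exact hP _ _ (hc _) (hy.2 k)
  · have e : Nx d T q t A c true y = (c true * om A.b2 (T.pr t A.a2)) • T.pr t y := rfl
    have hk : c true * om A.b2 (T.pr t A.a2) ≠ 0 := mul_ne_zero (hc _) h.kap
    rw [e]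
    refine ⟨fun k => ?_, fun k => ?_⟩
    · rw [map_smul, map_smul, pr_pr]
      exact hP _ _ hk (hy.1 k)
    · rw [map_smul, map_smul, map_smul, pr_pn h, ← Module.End.mul_apply, ← pow_succ]
      exact hP _ _ hk (hy.1 _)

theorem Ia.word {P : Hq g → Prop} (hP : ∀ (r : ℚ) z, r ≠ 0 → P z → P (r • z))
    (hc : ∀ x, c x ≠ 0) (w : List Bool) {y : Hq g} (hy : Ia d T q t A P y) :
    Ia d T q t A P (Ny d T q t A c w y) := by
  induction w generalizing y with
  | nil => exact hy
  | cons x w ih => exact ih (hy.step h hP hc x)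

theorem Ny_concat (w : List Bool) (x : Bool) (y : Hq g) :
    Ny d T q t A c (w ++ [x]) y = Nx d T q t A c x (Ny d T q t A c w y) := by
  induction w generalizing y with
  | nil => rfl
  | cons a w ih => exact ih _

/-- classes orthogonal to `a` and `b₂` -/
theorem Ny_orth (hc : ∀ x, c x ≠ 0) {w : List Bool} (hw : w ≠ []) {y : Hq g}
    (hy : Ia d T q t A (fun z => om A.b2 z = 0) y) :
    om (Ny d T q t A c w y) A.a1 = 0 ∧ om (Ny d T q t A c w y) A.b2 = 0 := by
  have hP : ∀ (r : ℚ) (z : Hq g), r ≠ 0 → om A.b2 z = 0 → om A.b2 (r • z) = 0 := by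
    intro r z _ hz
    rw [map_smul, hz, smul_zero]
  obtain ⟨w', x, rfl⟩ : ∃ w' x, w = w' ++ [x] := ⟨_, _, (List.dropLast_append_getLast hw).symm⟩
  rw [Ny_concat h]
  have h1 := hy.word h hP hc w'
  set y' := Ny d T q t A c w' y
  cases x
  · have e : Nx d T q t A c false y' = c false • pn d q A y' := rfl
    rw [e, map_smul, LinearMap.smul_apply, LinearMap.smul_apply, Nf.pn_adj, Nf.pn_adj, h.pn_b2,
      h.a1_eq, h.pn_a]
    simp
  · have e : Nx d T q t A c true y' = (c true * om A.b2 (T.pr t A.a2)) • T.pr t y' := rfl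
    have h2 := h1.1 0
    rw [pow_zero, Module.End.one_apply] at h2
    have h3 : om (T.pr t y') A.a1 = 0 := by
      have h4 : om (T.pr t y') A.a1 = om y' (T.spl.s t A.a1) := T.spl.adj t _ _
      rw [h4, h.sa, map_zero]
    rw [e, map_smul, LinearMap.smul_apply, LinearMap.smul_apply, h3, om_anti _ A.b2, h2]
    simp

theorem iterN {F : Bool → MulAut (Surf g)} (hF0 : Sy 1 (F false) (c false • d.sy q))
    (hF1 : Sy 2 (F true) (c true • T.sy t)) (hc : ∀ x, c x ≠ 0) (w : List Bool) :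
    ∀ {m : ℕ} {f : RG g →ₗ[ℚ] ℚ} {l : Fn →ₗ[ℚ] ℚ} {y : Hq g} {φ : Fn},
    Good A H0 y φ (m + wl w) f l 0 → (∀ x ∈ I (Surf g) ^ (m + wl w + 2), f x = 0) →
    Ia d T q t A (fun z => om A.b2 z = 0) y → opQ' φ = 0 →
    Good A H0 (Ny d T q t A c w y) (Nf.Oy w φ) m (f ∘ₗ (w.map fun x => Df (F x)).prod) l 0 := by
  have hP : ∀ (r : ℚ) (z : Hq g), r ≠ 0 → om A.b2 z = 0 → om A.b2 (r • z) = 0 := by
    intro r z _ hz
    rw [map_smul, hz, smul_zero]
  induction w with
  | nil => intro m f l y φ hG _ _ _; exact hG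
  | cons x w ih =>
    intro m f l y φ hG hf hy hφ
    have hcomp : f ∘ₗ ((x :: w).map fun x => Df (F x)).prod =
        (f ∘ₗ Df (F x)) ∘ₗ (w.map fun x => Df (F x)).prod := by
      rw [List.map_cons, List.prod_cons]; rfl
    rw [hcomp]
    cases x
    · have e1 : m + wl (false :: w) = m + wl w + 1 := by
        simp only [wl, Bool.false_eq_true, if_false]; omega
      rw [e1] at hG hf
      have h1 := h.stepU hF0 hG hf
      exact ih h1 (fun x hx => by
        rw [LinearMap.comp_apply]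
        apply hf
        have := hF0.Df_mem (m := m + wl w + 1) hx
        exact this) (hy.step h hP hc false) (Nf.O_Q' hφ false)
    · have e1 : m + wl (true :: w) = m + wl w + 2 := by
        simp only [wl, if_true]; omega
      rw [e1] at hG hf
      have h2 := hy.1 0
      rw [pow_zero, Module.End.one_apply] at h2
      have h1 := h.stepT hF1 h2 hφ hG hf
      exact ih h1 (fun x hx => by
        rw [LinearMap.comp_apply]
        apply hf
        have := hF1.Df_mem (m := m + wl w + 1) hx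
        exact this) (hy.step h hP hc true) (Nf.O_Q' hφ true)

/-- if `b₂` is fixed by the projection of the twist then words with a letter `a` kill it -/
theorem Ny_b2 (hb : T.pr t A.b2 = A.b2) (w : List Bool) (hw : 1 ≤ nu w) (r : ℚ) :
    Ny d T q t A c w (r • A.b2) = 0 := by
  induction w generalizing r with
  | nil => simp [nu] at hw
  | cons x w ih =>
    cases x
    · have e : Ny d T q t A c (false :: w) (r • A.b2) =
          Ny d T q t A c w (c false • pn d q A (r • A.b2)) := rfl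
      rw [e, map_smul, h.pn_b2, smul_zero, smul_zero]
      have hz : ∀ w : List Bool, Ny d T q t A c w 0 = 0 := by
        intro w
        induction w with
        | nil => rfl
        | cons x w ih =>
          have e : Ny d T q t A c (x :: w) 0 = Ny d T q t A c w (Nx d T q t A c x 0) := rfl
          rw [e, map_zero, ih]
      exact hz w
    · have e : Ny d T q t A c (true :: w) (r • A.b2) =
          Ny d T q t A c w ((c true * om A.b2 (T.pr t A.a2)) • T.pr t (r • A.b2)) := rfl
      rw [e, map_smul, hb, smul_smul]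
      exact ih (by simpa [nu] using hw) _

variable {y0 : Hq g} (hy0 : T.pr t y0 = y0)
  (hyne : ∀ k : ℕ, (Xc d.dat T.spl t A.b1 q ^ k) y0 ≠ 0)
  (hyb : ∀ k : ℕ, om A.b2 ((Xc d.dat T.spl t A.b1 q ^ k) y0) = 0)
  {F : Bool → MulAut (Surf g)} (hc : ∀ x, c x ≠ 0)
  (hF0 : Sy 1 (F false) (c false • d.sy q)) (hF1 : Sy 2 (F true) (c true • T.sy t))

include hy0 hyne hyb hc hF0 hF1

theorem coreN {w : FreeGroup Bool} (hw : w ≠ 1) (hw0 : Mag.coef w [true] = 0) (ζ : Surf g) :
    FreeGroup.lift F w ≠ MulAut.conj ζ := by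
  intro hinn
  obtain ⟨w₀, hw₀, hc₀, hmin, hmax⟩ := Mag.exists_lead hw
  have hJ : 1 ≤ nu w₀ := Mag.nu_pos hw0 hw₀ hc₀
  have hP : ∀ (r : ℚ) (z : Hq g), r ≠ 0 → om A.b2 z = 0 → om A.b2 (r • z) = 0 := by
    intro r z _ hz
    rw [map_smul, hz, smul_zero]
  have hP' : ∀ (r : ℚ) (z : Hq g), r ≠ 0 → z ≠ 0 → r • z ≠ 0 := fun r z hr hz =>
    smul_ne_zero hr hz
  -- the starting classes
  have hIy : Ia d T q t A (fun z => om A.b2 z = 0) y0 := Ia.base h hy0 hyb
  have hIn : Ia d T q t A (fun z => z ≠ 0) y0 := Ia.base h hy0 hyne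
  have hIb : Ia d T q t A (fun z => om A.b2 z = 0) A.b2 := by
    refine ⟨fun k => ?_, fun k => ?_⟩
    · exact om_Xc_pow q k A.b2
    · rw [h.pn_b2, map_zero, map_zero]
      exact map_zero _
  have hcl : Cl A y0 := by
    refine ⟨?_, ?_, ?_⟩
    · rw [← hy0]
      have h1 : om (T.spl.s t A.b1) y0 = om A.b1 (T.pr t y0) := T.spl.adj t _ _
      rw [h.sb] at h1
      rw [← h1]; simp
    · rw [← hy0]
      have h1 : om (T.spl.s t A.a1) y0 = om A.a1 (T.pr t y0) := T.spl.adj t _ _
      rw [h.sa] at h1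
      rw [← h1]; simp
    · exact hyb 0
  have hρ : A.rho y0 ≠ 0 := by
    intro h0
    rw [A.rho_apply, hcl.1, hcl.2.1, hcl.2.2] at h0
    have h1 : y0 = -om A.a2 y0 • A.b2 := by
      rw [neg_smul, eq_neg_iff_add_eq_zero]
      rw [← h0]; module
    apply hyne 1
    have h2 : Xc d.dat T.spl t A.b1 q y0 = T.pr t (pn d q A (T.pr t y0)) := rfl
    rw [pow_one, h2, hy0, h1, map_smul, h.pn_b2, smul_zero, map_zero]
  obtain ⟨fA, fB, Z0, hkA, hkB, hGA, hGB, hZ⟩ :=
    core_abs hcl hρ hF0 hF1 hw₀ hmin hinn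
  -- the values
  have hval : ∀ {f : RG g →ₗ[ℚ] ℚ} {y : Hq g}, (∀ x ∈ I (Surf g) ^ (wl w₀ + 2), f x = 0) →
      GoodU A y (dlt w₀) (wl w₀) f ev0 → Ia d T q t A (fun z => om A.b2 z = 0) y → ∀ z,
      f (Mag.ev (fun x => Df (F x)) (wl w₀) (cf0 w) (nv z)) =
        Mag.coef w w₀ * om (Ny d T q t A c w₀ y) z := by
    intro f y hk hG hI z
    refine lead_eval hF0 hF1 hw₀ hc₀ hmin hk (X := fun v => om (Ny d T q t A c v y) z)
      (fun v hv1 hv2 h3 => ?_)
    have h6 := iterN h hF0 hF1 hc v (m := 0)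
      (by rw [zero_add, h3]; exact hG.good (Hm := H0) 0)
      (by rw [zero_add, h3]; exact hk) hI (dlt_Q' w₀)
    have h7 := h6 z 0 rfl le_rfl
    rw [LinearMap.comp_apply] at h7
    rw [h7, ev0_apply, Nf.Oy_eval, List.append_nil, dlt_eval]
  -- extension to all classes
  have hext : ∀ {y : Hq g}, om y A.a1 = 0 → om y A.b2 = 0 →
      Ia d T q t A (fun z => om A.b2 z = 0) y →
      (∀ z, om A.b1 z = 0 → om A.a2 z = 0 →
        Z0 * om y z = Mag.coef w w₀ * om (Ny d T q t A c w₀ y) z) →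
      Z0 • y = Mag.coef w w₀ • Ny d T q t A c w₀ y := by
    intro y h1 h2 hI hz
    apply om_ext
    intro z
    obtain ⟨h3, h4⟩ := Ny_orth h hc hw₀ hI
    have h5 := hz (z - om A.b1 z • A.a1 + om A.a2 z • A.b2) (by
      simp only [map_add, map_sub, map_smul, smul_eq_mul, A.h11, A.hbb]; ring) (by
      simp only [map_add, map_sub, map_smul, smul_eq_mul, A.haa', A.h22']; ring)
    simp only [map_add, map_sub, map_smul, smul_eq_mul, h1, h2, h3, h4, mul_zero, sub_zero,
      add_zero] at h5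
    rw [map_smul, map_smul, LinearMap.smul_apply, LinearMap.smul_apply, smul_eq_mul, smul_eq_mul]
    exact h5
  have hA := hext (y := y0) (by rw [om_anti, hcl.2.1, neg_zero]) (by
    rw [om_anti, hcl.2.2, neg_zero]) hIy
    (fun z h1 h2 => by rw [(hZ z h1 h2).1, hval hkA hGA hIy])
  have hB := hext (y := A.b2) A.hab' (om_self _) hIb
    (fun z h1 h2 => by rw [(hZ z h1 h2).2, hval hkB hGB hIb])
  -- the scalar is not zero
  have hZ0 : Z0 ≠ 0 := by
    intro h0
    rw [h0, zero_smul] at hA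
    have h1 : Ny d T q t A c w₀ y0 = 0 := by
      rcases smul_eq_zero.1 hA.symm with h2 | h2
      · exact absurd h2 hc₀
      · exact h2
    have h2 := (hIn.word h hP' hc w₀).1 0
    apply h2
    rw [h1, map_zero, map_zero]
  have hb0 : A.b2 ≠ 0 := by
    intro h0
    have := A.h22
    rw [h0] at this
    simp at this
  obtain ⟨w', x, hw'⟩ : ∃ w' x, w₀ = w' ++ [x] :=
    ⟨_, _, (List.dropLast_append_getLast hw₀).symm⟩
  have hBx : A.b2 = (Z0⁻¹ * Mag.coef w w₀) • Ny d T q t A c w₀ A.b2 := by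
    rw [mul_smul, ← hB, smul_smul, inv_mul_cancel₀ hZ0, one_smul]
  cases x
  · -- the last letter is the bounding pair map
    have e : Ny d T q t A c w₀ A.b2 = c false • pn d q A (Ny d T q t A c w' A.b2) := by
      rw [hw', Ny_concat h]; rfl
    apply hb0
    have h1 : d.dat.q (!q) A.b1 A.b2 = 0 := by
      rw [hBx, e, map_smul, map_smul]
      have h2 : d.dat.q (!q) A.b1 (pn d q A (Ny d T q t A c w' A.b2)) = 0 :=
        q_disj' q h.xa _
      rw [h2, smul_zero, smul_zero]
    rw [h.p2b] at h1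
    exact h1
  · -- the last letter is the separating twist
    have e : Ny d T q t A c w₀ A.b2 =
        (c true * om A.b2 (T.pr t A.a2)) • T.pr t (Ny d T q t A c w' A.b2) := by
      rw [hw', Ny_concat h]; rfl
    have hb : T.pr t A.b2 = A.b2 := by
      rw [e] at hBx
      rw [hBx, map_smul, map_smul, pr_pr]
    apply hb0
    have h1 := Ny_b2 h (c := c) hb w₀ hJ 1
    rw [one_smul] at h1
    rw [hBx, h1, smul_zero]

/-- **nontrivial words are not inner** -/
theorem not_inner3 {w : FreeGroup Bool} (hw : w ≠ 1) (ζ : Surf g) :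
    FreeGroup.lift F w ≠ MulAut.conj ζ :=
  not_inner_of (fun _ hw hw0 ζ => coreN h hy0 hyne hyb hc hF0 hF1 hw hw0 ζ) hw ζ

end

end TG
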