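import Pool.Agent.H40.TG.Step

/-!
# The two steps
-/

open scoped commutatorElement

namespace TG

open Aug

variable {g : ℕ} {A : Fr g} {y : Hq g} {φ : Fn}

theorem comm_a_beta : (opP + opP') * (opQ - opQ') - (opQ - opQ') * (opP + opP') =
    (2 : ℚ) • opR := by
  have h1 : (opP + opP') * (opQ - opQ') - (opQ - opQ') * (opP + opP') =
      (opP * opQ - opQ * opP) - (opP * opQ' - opQ' * opP) + (opP' * opQ - opQ * opP') -
        (opP' * opQ' - opQ' * opP') := by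
    simp only [add_mul, mul_add, sub_mul, mul_sub]; abel
  rw [h1, rel_PQ, comm_PQ', comm_P'Q, rel_PQ']
  have h2 : opQ * opP + opR - opQ * opP - (opQ' * opP - opQ' * opP) +
      (opQ * opP' - opQ * opP') - (opQ' * opP' - opR - opQ' * opP') = opR + opR := by abel
  rw [h2, two_smul]

section U

variable {d : BP g} {S : Spl g} {q t : Bool} (h : Cf d.dat S q t A)

include h

/-- interior letters, for the bounding pair map -/
theorem stepU_int {m : ℕ} {f : RG g →ₗ[ℚ] ℚ} {l : Fn →ₗ[ℚ] ℚ} {δ k c ωy : ℤ}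
    (hG : Good A A.Hom y φ (m + 2) f l δ) (hl : LW k l) (hφ : Fr.Sp c φ) (hy : Yc A y φ ωy)
    (hc : c + ωy = k + δ) {z : Hq g} {ω : ℤ} (hz : A.Hom z ω) :
    Van A.Hom m (ml f (d.sy q z)) (δ - 1 - ω) := by
  have hrho : ∀ x : Hq g, Van A.Hom m (ml f (br (nv d.a) (nv (A.rho x)))) (δ - 1) := by
    intro x
    have h1 := hG.comm2 h.hom_a (A.hom_rho x)
    rw [A.V0_rho, mul_zero, zero_mul, sub_zero, LinearMap.comp_zero] at h1
    exact (h1.van rfl).mono (by omega)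
  rcases hz with ⟨rfl, α, β, rfl⟩ | ⟨rfl, hz⟩ | ⟨rfl, α, β, rfl⟩
  · rw [h.sy_one, ml_smul]
    exact ((hrho _).smul _).mono (by omega)
  · rw [h.sy_zero hz, ml_sub, ml_smul]
    refine ((hrho _).mono (by omega)).sub (Van.smul ?_ _)
    have h1 := hG.comm2 h.hom_a (hom_beta A)
    rw [h.V0_a', V0_beta, comm_a_beta] at h1
    exact (h1.van_wt (hl.comp_R 2) hφ hy.wt (by omega)).mono (by omega)
  · rw [h.sy_neg, ml_smul, ml_sum]
    refine Van.smul (Van.sum _ fun i _ => ?_) _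
    rw [ml_sub, ml_sub, ml_smul, ml_smul]
    refine (Van.sub ?_ (Van.smul ?_ _)).sub (Van.smul ?_ _)
    · have h1 := hG.comm2 (A.hom_rho (d.A i)) (A.hom_rho (d.B i))
      rw [A.V0_rho, A.V0_rho, mul_zero, sub_zero, LinearMap.comp_zero] at h1
      exact (h1.van rfl).mono (by omega)
    · have h1 := hG.comm2 (A.hom_rho (d.A i)) (hom_beta A)
      rw [A.V0_rho, mul_zero, zero_mul, sub_zero, LinearMap.comp_zero] at h1
      exact (h1.van rfl).mono (by omega)
    · have h1 := hG.comm2 (hom_beta A) (A.hom_rho (d.B i))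
      rw [A.V0_rho, mul_zero, zero_mul, sub_zero, LinearMap.comp_zero] at h1
      exact (h1.van rfl).mono (by omega)

/-- the last letter, for the bounding pair map -/
theorem stepU_base {f : RG g →ₗ[ℚ] ℚ} {l : Fn →ₗ[ℚ] ℚ} {δ k c ωy : ℤ}
    (hG : Good A A.Hom y φ 1 f l δ) (hl : LW k l) (hφ : Fr.Sp c φ) (hy : Yc A y φ ωy)
    (hc : c + ωy = k + δ) {z : Hq g} {ω : ℤ} (hz : A.Hom z ω) (hω : ω ≤ δ - 1) :
    f (d.sy q z) = om (A.e d.dat q y) z * l (A.V0 d.a φ) := by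
  have e2 : ∀ {x x' : Hq g} {ωx ωx' : ℤ}, A.Hom x ωx → A.Hom x' ωx' → ωx + ωx' ≤ δ →
      f (br (nv x) (nv x')) = om y x' * l (A.V0 x φ) - om y x * l (A.V0 x' φ) := by
    intro x x' ωx ωx' hx hx' hle
    have h1 := hG x ωx hx x' ωx' hx' (by omega)
    have h2 := hG x' ωx' hx' x ωx hx (by omega)
    rw [ml_apply, LinearMap.comp_apply] at h1 h2
    unfold br
    rw [map_sub, h1, h2]
  have hρ0 : ∀ x, l (A.V0 (A.rho x) φ) = 0 := by
    intro x
    rw [A.V0_rho]; simp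
  have hrho : ∀ x : Hq g, 1 ≤ δ → f (br (nv d.a) (nv (A.rho x))) =
      om y (A.rho x) * l (A.V0 d.a φ) := by
    intro x hδ
    rw [e2 h.hom_a (A.hom_rho x) (by omega), hρ0, mul_zero, sub_zero]
  rcases hz with ⟨rfl, α, β, rfl⟩ | ⟨rfl, hz⟩ | ⟨rfl, α, β, rfl⟩
  · have h0 : om (A.e d.dat q y) (α • A.a1 + β • A.a2) = 0 := by
      rw [Cf.e_adj, map_add, map_smul, map_smul, A.e_apply, A.e_apply, A.rho_a1, A.rho_a2]
      simp
    rw [h.sy_one, map_smul, hrho _ (by omega), h0, zero_mul]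
    rcases hy with ⟨hy, rfl⟩ | ⟨⟨κ, rfl⟩, rfl, _⟩
    · rw [hl (c - 1) _ (A.V0_sp h.hom_a hφ) (by omega), mul_zero, smul_zero]
    · rw [map_smul, LinearMap.smul_apply, A.b2_rho, smul_zero, zero_mul, smul_zero]
  · have h0 : om (A.e d.dat q y) z = om y (A.rho (d.projL q z)) := by
      rw [Cf.e_adj, A.e_apply, hz]; rfl
    have h3 : f (br (nv d.a) (nv (A.b1 - A.b2))) = 0 := by
      rw [e2 h.hom_a (hom_beta A) (by omega)]
      rcases hy with ⟨hy, rfl⟩ | ⟨⟨κ, rfl⟩, rfl, _⟩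
      · have e3 : om y (A.b1 - A.b2) = 0 := by
          rw [← hy, A.rho_adj, map_sub, A.rho_b1, A.rho_b2, sub_zero, map_zero]
        have e4 : om y d.a = 0 := by
          rw [← hy, A.rho_adj, ← h.a_eq, map_add, A.rho_a1, A.rho_a2, add_zero, map_zero]
        rw [e3, e4, zero_mul, zero_mul, sub_zero]
      · have e3 : om (κ • A.b2) (A.b1 - A.b2) = 0 := by
          rw [map_smul, LinearMap.smul_apply, map_sub, A.hbb', om_self, sub_zero, smul_zero]
        rw [e3, zero_mul, hl (c - -1) _ (A.V0_sp (hom_beta A) hφ) (by omega), mul_zero,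
          sub_zero]
    rw [h.sy_zero hz, map_sub, map_smul, h3, smul_zero, sub_zero, hrho _ (by omega), h0]
  · have h0 : om (A.e d.dat q y) (α • A.b1 + β • A.b2) = 0 := by
      rw [Cf.e_adj, map_add, map_smul, map_smul, A.e_apply, A.e_apply, A.rho_b1, A.rho_b2]
      simp
    have h4 : ∀ x, om y (A.rho x) * l (A.V0 (A.b1 - A.b2) φ) = 0 := by
      intro x
      rcases hy with ⟨hy, rfl⟩ | ⟨⟨κ, rfl⟩, rfl, _⟩
      · rw [hl (c - -1) _ (A.V0_sp (hom_beta A) hφ) (by omega), mul_zero]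
      · rw [map_smul, LinearMap.smul_apply, A.b2_rho, smul_zero, zero_mul]
    rw [h.sy_neg, map_smul, map_sum, h0, zero_mul, Finset.sum_eq_zero, smul_zero]
    intro i _
    rw [map_sub, map_sub, map_smul, map_smul, e2 (A.hom_rho _) (A.hom_rho _) (by omega),
      e2 (A.hom_rho _) (hom_beta A) (by omega), e2 (hom_beta A) (A.hom_rho _) (by omega),
      hρ0, hρ0, h4, h4]
    simp

/-- **the step of the bounding pair map** -/
theorem stepU {r : ℚ} {F : MulAut (Surf g)} (hF : Sy 1 F (r • d.sy q)) {m : ℕ} :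
    ∀ {f : RG g →ₗ[ℚ] ℚ} {l : Fn →ₗ[ℚ] ℚ} {δ k c ωy : ℤ}, Good A A.Hom y φ (m + 1) f l δ →
      (∀ x ∈ I (Surf g) ^ (m + 3), f x = 0) → LW k l → Fr.Sp c φ → Yc A y φ ωy →
      c + ωy = k + δ → Good A A.Hom (r • A.e d.dat q y) (A.V0 d.a φ) m (f ∘ₗ Df F) l (δ - 1) := by
  induction m with
  | zero =>
    intro f l δ k c ωy hG hf hl hφ hy hc z ω hz hω
    have h1 : f (Df F (nv z)) = f ((r • d.sy q) z) := by
      have := hf _ (hF.nv z)
      rwa [map_sub, sub_eq_zero] at this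
    rw [LinearMap.comp_apply, h1, LinearMap.smul_apply, map_smul,
      stepU_base h hG hl hφ hy hc hz hω, map_smul, LinearMap.smul_apply, smul_eq_mul, smul_eq_mul,
      mul_assoc]
  | succ m ih =>
    intro f l δ k c ωy hG hf hl hφ hy hc z ω hz
    have h1 := ih (hG z ω hz) (fun x hx => hf _ (by
        have := mul_mem_pow (nv_mem z) hx
        have e : 1 + (m + 3) = m + 1 + 3 := by omega
        rwa [e] at this)) (hl.comp_V0 hz) hφ hy (by omega)
    have h2 : δ - ω - 1 = δ - 1 - ω := by omega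
    rw [h2] at h1
    have h3 : Van A.Hom m (ml f ((r • d.sy q) z)) (δ - 1 - ω) := by
      rw [LinearMap.smul_apply, ml_smul]
      exact (stepU_int h hG hl hφ hy hc hz).smul r
    refine (h1.add_van h3).congr fun x hx => ?_
    exact leib_ml (k := 1) le_rfl hF hf z x hx

end U

section T

variable {D : Dat (om : Hq g →ₗ[ℚ] Hq g →ₗ[ℚ] ℚ)} {T : ST g} {q t : Bool}
  (h : Cf D T.spl q t A)

include h

theorem Cf.pr_rho_dec {x : Hq g} (hx : T.pr t x = x) :
    nv x = nv (A.rho x) + om A.b2 x • nv A.a2 - om A.a2 x • nv A.b2 := by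
  have e1 : om A.b1 x = 0 := by
    have h1 : om (T.spl.s t A.b1) x = om A.b1 (T.spl.s t x) := T.spl.adj t _ _
    rw [h.hb1] at h1
    change _ = om A.b1 (T.pr t x) at h1
    rw [hx] at h1
    rw [← h1]; simp
  have e2 : om A.a1 x = 0 := by
    have h1 : om (T.spl.s t A.a1) x = om A.a1 (T.spl.s t x) := T.spl.adj t _ _
    rw [h.ha1] at h1
    change _ = om A.a1 (T.pr t x) at h1
    rw [hx] at h1
    rw [← h1]; simp
  have h1 : x = A.rho x + om A.b2 x • A.a2 - om A.a2 x • A.b2 := by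
    rw [A.rho_apply, e1, e2]
    module
  conv_lhs => rw [h1]
  rw [map_sub, map_add, map_smul, map_smul]

omit h in
theorem br_identity2 (X Y P Q : RG g) (u v s s' : ℚ) :
    br (X + u • P - s • Q) (Y + v • P - s' • Q) =
      br X Y + br (v • X - u • Y) P - br (s' • X - s • Y) Q + (s * v - u * s') • br P Q := by
  have h1 : br P Y = -br Y P := br_anti _ _
  have h2 : br Q Y = -br Y Q := br_anti _ _
  have h3 : br Q P = -br P Q := br_anti _ _
  simp only [br_add_left, br_add_right, br_sub_left, br_sub_right, br_smul_left, br_smul_right,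
    br_self, h1, h2, h3]
  module

/-- the bivector of one side of the separating twist -/
theorem Cf.Th_eq : T.Th t = ∑ i ∈ T.side t, br (nv (A.rho (T.A i))) (nv (A.rho (T.B i))) +
    br (nv A.b2) (nv A.a2) := by
  have h1 : T.Th t = ∑ i ∈ T.side t, (br (nv (A.rho (T.A i))) (nv (A.rho (T.B i))) +
      br (nv (A.rho (om A.b2 (T.B i) • T.A i - om A.b2 (T.A i) • T.B i))) (nv A.a2) -
      br (nv (A.rho (om A.a2 (T.B i) • T.A i - om A.a2 (T.A i) • T.B i))) (nv A.b2) +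
      (om A.a2 (T.A i) * om A.b2 (T.B i) - om A.b2 (T.A i) * om A.a2 (T.B i)) •
        br (nv A.a2) (nv A.b2)) := by
    unfold ST.Th
    refine Finset.sum_congr rfl fun i hi => ?_
    have hA : T.pr t (T.A i) = T.A i := by rw [T.pr_A, if_pos hi]
    have hB : T.pr t (T.B i) = T.B i := by rw [T.pr_B, if_pos hi]
    rw [h.pr_rho_dec hA, h.pr_rho_dec hB, br_identity2]
    simp only [map_sub, map_smul]
  have hs : ∀ x : Hq g, T.pr t x = x → ∑ i ∈ T.side t,
      (om x (T.B i) • T.A i - om x (T.A i) • T.B i) = x := by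
    intro x hx
    rw [← T.pr_apply, hx]
  have ha2 : T.pr t A.a2 = A.a2 := h.ha2
  have hb2 : T.pr t A.b2 = A.b2 := h.hb2
  rw [h1, Finset.sum_add_distrib, Finset.sum_sub_distrib, Finset.sum_add_distrib,
    ← br_sum_left, ← br_sum_left, ← map_sum, ← map_sum, ← map_sum, ← map_sum, hs _ hb2,
    hs _ ha2, A.rho_b2, A.rho_a2, map_zero, br_zero_left, br_zero_left, ← Finset.sum_smul]
  have h2 : ∑ i ∈ T.side t, (om A.a2 (T.A i) * om A.b2 (T.B i) -
      om A.b2 (T.A i) * om A.a2 (T.B i)) = -1 := by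
    have h3 := congrArg (om A.a2) (hs _ hb2)
    rw [map_sum, A.h22'] at h3
    rw [← h3]
    refine Finset.sum_congr rfl fun i _ => ?_
    rw [map_sub, map_smul, map_smul, smul_eq_mul, smul_eq_mul]
    ring
  rw [h2, neg_one_smul, br_anti (nv A.a2), neg_neg, add_zero, sub_zero]

theorem Cf.hom_pr {z : Hq g} {ω : ℤ} (hz : A.Hom z ω) : A.Hom (T.pr t z) ω := by
  have ha1 : T.pr t A.a1 = 0 := h.ha1
  have ha2 : T.pr t A.a2 = A.a2 := h.ha2
  have hb1 : T.pr t A.b1 = 0 := h.hb1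
  have hb2 : T.pr t A.b2 = A.b2 := h.hb2
  rcases hz with ⟨rfl, α, β, rfl⟩ | ⟨rfl, hz⟩ | ⟨rfl, α, β, rfl⟩
  · refine Or.inl ⟨rfl, 0, β, ?_⟩
    rw [map_add, map_smul, map_smul, ha1, ha2, smul_zero, zero_smul]
  · refine Or.inr (Or.inl ⟨rfl, ?_⟩)
    have h1 := h.s_rho z
    change T.pr t (A.rho z) = A.rho (T.pr t z) at h1
    rw [← h1, hz]
  · refine Or.inr (Or.inr ⟨rfl, 0, β, ?_⟩)
    rw [map_add, map_smul, map_smul, hb1, hb2, smul_zero, zero_smul]

theorem Cf.V0_pr_comm {z : Hq g} {ω : ℤ} (hz : A.Hom z ω) :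
    opR * A.V0 (T.pr t z) = A.V0 (T.pr t z) * opR := by
  have ha1 : T.pr t A.a1 = 0 := h.ha1
  have ha2 : T.pr t A.a2 = A.a2 := h.ha2
  have hb1 : T.pr t A.b1 = 0 := h.hb1
  have hb2 : T.pr t A.b2 = A.b2 := h.hb2
  rcases hz with ⟨rfl, α, β, rfl⟩ | ⟨rfl, hz⟩ | ⟨rfl, α, β, rfl⟩
  · rw [map_add, map_smul, map_smul, ha1, ha2, smul_zero, zero_add, map_smul, A.V0_a2,
      mul_smul_comm, smul_mul_assoc, comm_PR]
  · have h1 := h.s_rho z
    change T.pr t (A.rho z) = A.rho (T.pr t z) at h1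
    rw [← hz, h1, A.V0_rho, mul_zero, zero_mul]
  · rw [map_add, map_smul, map_smul, hb1, hb2, smul_zero, zero_add, map_smul, A.V0_b2,
      mul_smul_comm, smul_mul_assoc, comm_QR]

omit h in
theorem V0_b2_a2 (A : Fr g) : A.V0 A.b2 * A.V0 A.a2 - A.V0 A.a2 * A.V0 A.b2 = opR := by
  rw [A.V0_b2, A.V0_a2, rel_PQ']
  abel

/-- interior letters, for the separating twist -/
theorem stepT_int {m : ℕ} {f : RG g →ₗ[ℚ] ℚ} {l : Fn →ₗ[ℚ] ℚ} {δ : ℤ}
    (hG : Good A A.Hom y φ (m + 3) f l δ) {z : Hq g} {ω : ℤ} (hz : A.Hom z ω) :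
    Van A.Hom m (ml f (T.sy t z)) (δ - ω) := by
  rw [T.sy_apply, h.Th_eq, br_add_left, br_sum_left, ml_add, ml_sum]
  refine Van.add (Van.sum _ fun i _ => ?_) ?_
  · refine (hG.comm3 (A.hom_rho (T.A i)) (A.hom_rho (T.B i)) (h.hom_pr hz) ?_).mono (by omega)
    rw [A.V0_rho, A.V0_rho, mul_zero, sub_zero, zero_mul, mul_zero]
  · refine (hG.comm3 A.hom_b2 A.hom_a2 (h.hom_pr hz) ?_).mono (by omega)
    rw [V0_b2_a2]
    exact h.V0_pr_comm hz

/-- the last letter, for the separating twist -/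
theorem stepT_base {f : RG g →ₗ[ℚ] ℚ} {l : Fn →ₗ[ℚ] ℚ} {δ ωy : ℤ}
    (hG : Good A A.Hom y φ 2 f l δ) (hy : Yc A y φ ωy) {z : Hq g} {ω : ℤ} (hz : A.Hom z ω)
    (hω : ω ≤ δ) : f (T.sy t z) = om (T.pr t y) z * l (opR φ) := by
  have e2 : ∀ {x x' w : Hq g} {ωx ωx' ωw : ℤ}, A.Hom x ωx → A.Hom x' ωx' → A.Hom w ωw →
      ωx + ωx' + ωw ≤ δ → f (br (br (nv x) (nv x')) (nv w)) =
        om y w * l ((A.V0 x * A.V0 x' - A.V0 x' * A.V0 x) φ) -
        (om y x' * l (A.V0 w (A.V0 x φ)) - om y x * l (A.V0 w (A.V0 x' φ))) := by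
    intro x x' w ωx ωx' ωw hx hx' hw hle
    have h1 := hG x ωx hx x' ωx' hx' w ωw hw (by omega)
    have h2 := hG x' ωx' hx' x ωx hx w ωw hw (by omega)
    have h3 := hG w ωw hw x ωx hx x' ωx' hx' (by omega)
    have h4 := hG w ωw hw x' ωx' hx' x ωx hx (by omega)
    simp only [ml_apply, LinearMap.comp_apply] at h1 h2 h3 h4
    have h5 : br (br (nv x) (nv x')) (nv w) = nv x * (nv x' * nv w) - nv x' * (nv x * nv w) -
        (nv w * (nv x * nv x') - nv w * (nv x' * nv x)) := by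
      unfold br; noncomm_ring
    rw [h5, map_sub, map_sub, map_sub, h1, h2, h3, h4, LinearMap.sub_apply, map_sub,
      Module.End.mul_apply, Module.End.mul_apply]
    ring
  rw [T.sy_apply, h.Th_eq, br_add_left, br_sum_left, map_add, map_sum, Finset.sum_eq_zero,
    zero_add, e2 A.hom_b2 A.hom_a2 (h.hom_pr hz) (by omega), V0_b2_a2]
  · have h6 : om y A.a2 * l (A.V0 (T.pr t z) (A.V0 A.b2 φ)) = 0 := by
      rcases hy with ⟨hy, _⟩ | ⟨_, _, hφ⟩
      · rw [← hy, A.rho_adj, A.rho_a2, map_zero, zero_mul]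
      · rw [A.V0_b2, hφ, map_zero, map_zero, mul_zero]
    have h7 : om y A.b2 = 0 := by
      rcases hy with ⟨hy, _⟩ | ⟨⟨κ, rfl⟩, _, _⟩
      · rw [← hy, A.rho_adj, A.rho_b2, map_zero]
      · rw [map_smul, LinearMap.smul_apply, om_self, smul_zero]
    have h8 : om (T.pr t y) z = om y (T.pr t z) := T.spl.adj t y z
    rw [h6, h7, h8, zero_mul, sub_zero, sub_zero]
  · intro i _
    rw [e2 (A.hom_rho _) (A.hom_rho _) (h.hom_pr hz) (by omega), A.V0_rho, A.V0_rho]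
    simp

/-- **the step of the separating twist** -/
theorem stepT {r : ℚ} {F : MulAut (Surf g)} (hF : Sy 2 F (r • T.sy t)) {m : ℕ} {ωy : ℤ}
    (hy : Yc A y φ ωy) :
    ∀ {f : RG g →ₗ[ℚ] ℚ} {l : Fn →ₗ[ℚ] ℚ} {δ : ℤ}, Good A A.Hom y φ (m + 2) f l δ →
      (∀ x ∈ I (Surf g) ^ (m + 4), f x = 0) →
      Good A A.Hom (r • T.pr t y) (opR φ) m (f ∘ₗ Df F) l δ := by
  induction m with
  | zero =>
    intro f l δ hG hf z ω hz hω
    have h1 : f (Df F (nv z)) = f ((r • T.sy t) z) := by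
      have := hf _ (hF.nv z)
      rwa [map_sub, sub_eq_zero] at this
    rw [LinearMap.comp_apply, h1, LinearMap.smul_apply, map_smul,
      stepT_base h hG hy hz hω, map_smul, LinearMap.smul_apply, smul_eq_mul, smul_eq_mul,
      mul_assoc]
  | succ m ih =>
    intro f l δ hG hf z ω hz
    have h1 := ih (hG z ω hz) (fun x hx => hf _ (by
        have := mul_mem_pow (nv_mem z) hx
        have e : 1 + (m + 4) = m + 1 + 4 := by omega
        rwa [e] at this))
    have h3 : Van A.Hom m (ml f ((r • T.sy t) z)) (δ - ω) := by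
      rw [LinearMap.smul_apply, ml_smul]
      exact (stepT_int h hG hz).smul r
    refine (h1.add_van h3).congr fun x hx => ?_
    exact leib_ml (k := 2) (by norm_num) hF hf z x hx

theorem Yc.pr {ωy : ℤ} (hy : Yc A y φ ωy) (r : ℚ) : Yc A (r • T.pr t y) (opR φ) ωy := by
  rcases hy with ⟨hy, rfl⟩ | ⟨⟨κ, rfl⟩, rfl, hφ⟩
  · left
    refine ⟨?_, rfl⟩
    have h1 := h.s_rho y
    change T.pr t (A.rho y) = A.rho (T.pr t y) at h1
    rw [map_smul, ← h1, hy]
  · right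
    have hb2 : T.pr t A.b2 = A.b2 := h.hb2
    refine ⟨⟨r * κ, ?_⟩, rfl, ?_⟩
    · rw [map_smul, hb2, smul_smul]
    · have : opQ' (opR φ) = opR (opQ' φ) := rfl
      rw [this, hφ, map_zero]

end T

end TG
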