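import Pool.Agent.H40.TG.Lin3
import Pool.Agent.H40.TG.Core

/-!
# The two steps, when the class of the bounding pair lies on one side of the separating curve
-/

open scoped commutatorElement

namespace TG

open Aug

variable {g : ℕ}

/-- no restriction on the classes -/
def H0 : Hq g → ℤ → Prop := fun _ ω => ω = 0

section

variable {d : BP g} {T : ST g} {q t : Bool} {A : Fr g} {y : Hq g} {φ : Fn}

/-- the projection attached to the bounding pair map -/
def pn (d : BP g) (q : Bool) (A : Fr g) : Module.End ℚ (Hq g) := d.dat.q q A.b1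

theorem pn_apply (z : Hq g) : pn d q A z = d.projL q z - om (d.projL q A.b1) z • d.a -
    om z d.a • d.projL q A.b1 := rfl

namespace Nf

variable (h : Nf d.dat T.spl q t A)

include h

theorem xa : om A.b1 d.dat.a = 1 := by rw [← h.ha, A.h11]

theorem a1_eq : A.a1 = d.a := h.ha

theorem pn_a : pn d q A d.a = 0 := q_a q h.xa

theorem pn_b2 : pn d q A A.b2 = 0 := by
  rw [← h.p2b]
  exact q_disj q h.xa _

theorem pn_a2 : pn d q A A.a2 = 0 := by
  rw [← h.p2a]
  exact q_disj q h.xa _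

theorem pn_idem (z : Hq g) : pn d q A (pn d q A z) = pn d q A z := q_idem q h.xa z

omit h in
theorem pn_adj (x z : Hq g) : om (pn d q A x) z = om x (pn d q A z) :=
  d.dat.q_adj om_symp q A.b1 x z

theorem V0_pn (z : Hq g) : A.V0 (pn d q A z) = 0 := by
  have e1 : om A.b1 (pn d q A z) = 0 := d.dat.q_ker om_symp q h.xa z
  have e2 : om A.a1 (pn d q A z) = 0 := by
    rw [← pn_adj, h.a1_eq, h.pn_a]; simp
  have e3 : om A.b2 (pn d q A z) = 0 := by
    rw [← pn_adj, h.pn_b2]; simp
  have e4 : om A.a2 (pn d q A z) = 0 := by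
    rw [← pn_adj, h.pn_a2]; simp
  rw [A.V0_eq, e1, e2, e3, e4]
  module

/-- the symbol of the bounding pair map -/
theorem sy_eq (z : Hq g) : d.sy q z = br (nv d.a) (nv (pn d q A z)) +
    om z d.a • ∑ i ∈ d.side q, br (nv (pn d q A (d.A i))) (nv (pn d q A (d.B i))) := by
  have hA : ∀ i ∈ d.side q, pn d q A (d.A i) = d.A i - om A.b1 (d.A i) • d.a := by
    intro i hi
    have e1 : d.projL q (d.A i) = d.A i := by rw [d.proj_A, if_pos hi]
    have e2 : om (d.projL q A.b1) (d.A i) = om A.b1 (d.A i) := by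
      have := d.dat.adj q A.b1 (d.A i)
      change om (d.projL q A.b1) (d.A i) = om A.b1 (d.projL q (d.A i)) at this
      rw [this, e1]
    have e3 : om (d.A i) d.a = 0 := d.AA i d.k
    rw [pn_apply, e1, e2, e3, zero_smul, sub_zero]
  have hB : ∀ i ∈ d.side q, pn d q A (d.B i) = d.B i - om A.b1 (d.B i) • d.a := by
    intro i hi
    have e1 : d.projL q (d.B i) = d.B i := by rw [d.proj_B, if_pos hi]
    have e2 : om (d.projL q A.b1) (d.B i) = om A.b1 (d.B i) := by
      have := d.dat.adj q A.b1 (d.B i)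
      change om (d.projL q A.b1) (d.B i) = om A.b1 (d.projL q (d.B i)) at this
      rw [this, e1]
    have e3 : om (d.B i) d.a = 0 := by
      rw [d.a_eq, d.BA, if_neg]
      rintro rfl
      exact d.k_not_mem q hi
    rw [pn_apply, e1, e2, e3, zero_smul, sub_zero]
  have hS : ∑ i ∈ d.side q, br (nv (pn d q A (d.A i))) (nv (pn d q A (d.B i))) =
      d.Th q + br (nv d.a) (nv (d.projL q A.b1)) := by
    rw [d.proj_apply, map_sum, br_sum_right, BP.Th, ← Finset.sum_add_distrib]
    refine Finset.sum_congr rfl fun i hi => ?_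
    rw [hA i hi, hB i hi]
    simp only [map_sub, map_smul, br_sub_left, br_sub_right, br_smul_left, br_smul_right, br_self]
    rw [br_anti (nv (d.A i)) (nv d.a)]
    module
  rw [hS, d.sy_apply, pn_apply]
  simp only [map_sub, map_smul, br_sub_right, br_smul_right, br_self]
  module

theorem V0_a' : A.V0 d.a = opP := by rw [← h.a1_eq, A.V0_a1]

/-- **the step of the bounding pair map** -/
theorem stepU {r : ℚ} {F : MulAut (Surf g)} (hF : Sy 1 F (r • d.sy q)) {m : ℕ} :
    ∀ {f : RG g →ₗ[ℚ] ℚ} {l : Fn →ₗ[ℚ] ℚ}, Good A H0 y φ (m + 1) f l 0 →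
      (∀ x ∈ I (Surf g) ^ (m + 3), f x = 0) →
      Good A H0 (r • pn d q A y) (opP φ) m (f ∘ₗ Df F) l 0 := by
  induction m with
  | zero =>
    intro f l hG hf z ω hz hω
    have h1 : f (Df F (nv z)) = f ((r • d.sy q) z) := by
      have := hf _ (hF.nv z)
      rwa [map_sub, sub_eq_zero] at this
    have e2 : ∀ x x' : Hq g, f (br (nv x) (nv x')) =
        om y x' * l (A.V0 x φ) - om y x * l (A.V0 x' φ) := by
      intro x x'
      have h1 := hG x 0 rfl x' 0 rfl (by norm_num)
      have h2 := hG x' 0 rfl x 0 rfl (by norm_num)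
      rw [ml_apply, LinearMap.comp_apply] at h1 h2
      unfold br
      rw [map_sub, h1, h2]
    have e3 : f (d.sy q z) = om (pn d q A y) z * l (opP φ) := by
      rw [h.sy_eq, map_add, map_smul, map_sum, Finset.sum_eq_zero, smul_zero, add_zero, e2,
        h.V0_pn, h.V0_a', pn_adj]
      · simp
      · intro i _
        rw [e2, h.V0_pn, h.V0_pn]; simp
    rw [LinearMap.comp_apply, h1, LinearMap.smul_apply, map_smul, e3, map_smul,
      LinearMap.smul_apply, smul_eq_mul, smul_eq_mul, mul_assoc]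
  | succ m ih =>
    intro f l hG hf z ω hz
    obtain rfl : ω = 0 := hz
    have h1 := ih (hG z 0 rfl) (fun x hx => hf _ (by
        have := mul_mem_pow (nv_mem z) hx
        have e : 1 + (m + 3) = m + 1 + 3 := by omega
        rwa [e] at this))
    have h3 : Van H0 m (ml f ((r • d.sy q) z)) 0 := by
      rw [LinearMap.smul_apply, ml_smul, h.sy_eq, ml_add, ml_smul, ml_sum]
      refine Van.smul (Van.add ?_ (Van.smul (Van.sum _ fun i _ => ?_) _)) r
      · have h2 := hG.comm2 (x := d.a) (x' := pn d q A z) rfl rfl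
        rw [h.V0_pn, mul_zero, zero_mul, sub_zero, LinearMap.comp_zero] at h2
        exact h2.van rfl
      · have h2 := hG.comm2 (x := pn d q A (d.A i)) (x' := pn d q A (d.B i)) rfl rfl
        rw [h.V0_pn, h.V0_pn, mul_zero, sub_zero, LinearMap.comp_zero] at h2
        exact h2.van rfl
    refine (Good.add_van h1 h3).congr fun x hx => ?_
    exact leib_ml (k := 1) le_rfl hF hf z x hx

theorem V0_pr (z : Hq g) : A.V0 (T.pr t z) = om A.b2 (T.pr t z) • opP' -
    om A.a2 (T.pr t z) • opQ' := by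
  have e1 : om A.b1 (T.pr t z) = 0 := by
    have h1 : om (T.spl.s t A.b1) z = om A.b1 (T.spl.s t z) := T.spl.adj t _ _
    rw [h.sb] at h1
    change _ = om A.b1 (T.pr t z) at h1
    rw [← h1]; simp
  have e2 : om A.a1 (T.pr t z) = 0 := by
    have h1 : om (T.spl.s t A.a1) z = om A.a1 (T.spl.s t z) := T.spl.adj t _ _
    rw [h.sa] at h1
    change _ = om A.a1 (T.pr t z) at h1
    rw [← h1]; simp
  rw [A.V0_eq, e1, e2]
  module

omit h in
theorem comm_form (α β γ δ : ℚ) : (α • opP' - β • opQ') * (γ • opP' - δ • opQ') -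
    (γ • opP' - δ • opQ') * (α • opP' - β • opQ') = (α * δ - β * γ) • opR := by
  have h1 : (α • opP' - β • opQ') * (γ • opP' - δ • opQ') -
      (γ • opP' - δ • opQ') * (α • opP' - β • opQ') =
      (α * δ - β * γ) • (opQ' * opP') - (α * δ - β * γ) • (opP' * opQ') := by
    simp only [sub_mul, mul_sub, smul_mul_smul_comm]
    module
  rw [h1, rel_PQ', smul_sub]
  abel

theorem comm_AB {i : Fin g} (hi : i ∈ T.side t) :
    A.V0 (T.A i) * A.V0 (T.B i) - A.V0 (T.B i) * A.V0 (T.A i) =
      (om A.b2 (T.A i) * om A.a2 (T.B i) - om A.a2 (T.A i) * om A.b2 (T.B i)) • opR := by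
  have hA : T.pr t (T.A i) = T.A i := by rw [T.pr_A, if_pos hi]
  have hB : T.pr t (T.B i) = T.B i := by rw [T.pr_B, if_pos hi]
  have h1 := h.V0_pr (T.A i)
  have h2 := h.V0_pr (T.B i)
  rw [hA] at h1
  rw [hB] at h2
  rw [h1, h2, comm_form]

theorem kap_eq : ∑ i ∈ T.side t, (om A.b2 (T.A i) * om A.a2 (T.B i) -
    om A.a2 (T.A i) * om A.b2 (T.B i)) = om A.b2 (T.pr t A.a2) := by
  rw [T.pr_apply, map_sum]
  refine Finset.sum_congr rfl fun i _ => ?_
  rw [map_sub, map_smul, map_smul, smul_eq_mul, smul_eq_mul]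
  ring

theorem R_comm (z : Hq g) (r : ℚ) : (r • opR) * A.V0 (T.pr t z) = A.V0 (T.pr t z) * (r • opR) := by
  rw [h.V0_pr, mul_sub, sub_mul]
  simp only [smul_mul_smul_comm, comm_PR, comm_QR]
  rw [mul_comm r, mul_comm r]

/-- the last letter, for the separating twist -/
theorem stepT_base {f : RG g →ₗ[ℚ] ℚ} {l : Fn →ₗ[ℚ] ℚ} (hG : Good A H0 y φ 2 f l 0)
    (hy : om A.b2 (T.pr t y) = 0) (hφ : opQ' φ = 0) (z : Hq g) :
    f (T.sy t z) = om (T.pr t y) z * (om A.b2 (T.pr t A.a2) * l (opR φ)) := by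
  have e2 : ∀ x x' w : Hq g, f (br (br (nv x) (nv x')) (nv w)) =
        om y w * l ((A.V0 x * A.V0 x' - A.V0 x' * A.V0 x) φ) -
        (om y x' * l (A.V0 w (A.V0 x φ)) - om y x * l (A.V0 w (A.V0 x' φ))) := by
    intro x x' w
    have h1 := hG x 0 rfl x' 0 rfl w 0 rfl (by norm_num)
    have h2 := hG x' 0 rfl x 0 rfl w 0 rfl (by norm_num)
    have h3 := hG w 0 rfl x 0 rfl x' 0 rfl (by norm_num)
    have h4 := hG w 0 rfl x' 0 rfl x 0 rfl (by norm_num)
    simp only [ml_apply, LinearMap.comp_apply] at h1 h2 h3 h4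
    have h5 : br (br (nv x) (nv x')) (nv w) = nv x * (nv x' * nv w) - nv x' * (nv x * nv w) -
        (nv w * (nv x * nv x') - nv w * (nv x' * nv x)) := by
      unfold br; noncomm_ring
    rw [h5, map_sub, map_sub, map_sub, h1, h2, h3, h4, LinearMap.sub_apply, map_sub,
      Module.End.mul_apply, Module.End.mul_apply]
    ring
  have e3 : f (T.sy t z) = ∑ i ∈ T.side t, (om y (T.pr t z) *
      ((om A.b2 (T.A i) * om A.a2 (T.B i) - om A.a2 (T.A i) * om A.b2 (T.B i)) * l (opR φ)) -
      (om y (T.B i) * l (A.V0 (T.pr t z) (A.V0 (T.A i) φ)) -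
        om y (T.A i) * l (A.V0 (T.pr t z) (A.V0 (T.B i) φ)))) := by
    rw [T.sy_apply, ST.Th, br_sum_left, map_sum]
    refine Finset.sum_congr rfl fun i hi => ?_
    rw [e2, h.comm_AB hi, LinearMap.smul_apply, map_smul, smul_eq_mul]
  have e4 : ∑ i ∈ T.side t, (om y (T.B i) * l (A.V0 (T.pr t z) (A.V0 (T.A i) φ)) -
        om y (T.A i) * l (A.V0 (T.pr t z) (A.V0 (T.B i) φ))) =
      l (A.V0 (T.pr t z) (A.V0 (T.pr t y) φ)) := by
    rw [T.pr_apply t y, map_sum, LinearMap.sum_apply, map_sum, map_sum]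
    refine Finset.sum_congr rfl fun i _ => ?_
    simp only [map_sub, map_smul, LinearMap.sub_apply, LinearMap.smul_apply, smul_eq_mul]
  have e5 : A.V0 (T.pr t y) φ = 0 := by
    rw [h.V0_pr, hy, zero_smul, zero_sub, LinearMap.neg_apply, LinearMap.smul_apply, hφ,
      smul_zero, neg_zero]
  have e6 : om (T.pr t y) z = om y (T.pr t z) := T.spl.adj t y z
  rw [e3, Finset.sum_sub_distrib, e4, e5, map_zero, map_zero, sub_zero, ← Finset.mul_sum,
    ← Finset.sum_mul, h.kap_eq, e6]

/-- **the step of the separating twist** -/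
theorem stepT {r : ℚ} {F : MulAut (Surf g)} (hF : Sy 2 F (r • T.sy t)) {m : ℕ}
    (hy : om A.b2 (T.pr t y) = 0) (hφ : opQ' φ = 0) :
    ∀ {f : RG g →ₗ[ℚ] ℚ} {l : Fn →ₗ[ℚ] ℚ}, Good A H0 y φ (m + 2) f l 0 →
      (∀ x ∈ I (Surf g) ^ (m + 4), f x = 0) →
      Good A H0 ((r * om A.b2 (T.pr t A.a2)) • T.pr t y) (opR φ) m (f ∘ₗ Df F) l 0 := by
  induction m with
  | zero =>
    intro f l hG hf z ω hz hω
    have h1 : f (Df F (nv z)) = f ((r • T.sy t) z) := by
      have := hf _ (hF.nv z)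
      rwa [map_sub, sub_eq_zero] at this
    rw [LinearMap.comp_apply, h1, LinearMap.smul_apply, map_smul,
      h.stepT_base hG hy hφ z, map_smul, LinearMap.smul_apply, smul_eq_mul, smul_eq_mul]
    ring
  | succ m ih =>
    intro f l hG hf z ω hz
    obtain rfl : ω = 0 := hz
    have h1 := ih (hG z 0 rfl) (fun x hx => hf _ (by
        have := mul_mem_pow (nv_mem z) hx
        have e : 1 + (m + 4) = m + 1 + 4 := by omega
        rwa [e] at this))
    have h3 : Van H0 m (ml f ((r • T.sy t) z)) 0 := by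
      rw [LinearMap.smul_apply, ml_smul, T.sy_apply, ST.Th, br_sum_left, ml_sum]
      refine Van.smul (Van.sum _ fun i hi => ?_) r
      refine hG.comm3 (x := T.A i) (x' := T.B i) (x'' := T.pr t z) rfl rfl rfl ?_
      rw [h.comm_AB hi, h.R_comm]
    refine (Good.add_van h1 h3).congr fun x hx => ?_
    exact leib_ml (k := 2) (by norm_num) hF hf z x hx

end Nf

end

end TG
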