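import Pool.Agent.H40.TG.Flag
import Pool.Agent.H40.TG.BPsym

/-!
# Symbols in the group ring
-/

open scoped commutatorElement

namespace TG

open Aug

/-- the group ring of the surface group -/
abbrev RG (g : ℕ) := MonoidAlgebra ℚ (Surf g)

section General

variable {G : Type*} [Group G]

/-- the commutator in the group ring -/
noncomputable def br (x y : MonoidAlgebra ℚ G) : MonoidAlgebra ℚ G := x * y - y * x

theorem br_mem {a b : ℕ} {x y : MonoidAlgebra ℚ G} (hx : x ∈ I G ^ a) (hy : y ∈ I G ^ b) :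
    br x y ∈ I G ^ (a + b) := by
  unfold br
  refine Submodule.sub_mem _ (mul_mem_pow hx hy) ?_
  rw [add_comm]
  exact mul_mem_pow hy hx

theorem br_sub_left (x x' y : MonoidAlgebra ℚ G) : br (x - x') y = br x y - br x' y := by
  unfold br; noncomm_ring

theorem br_sub_right (x y y' : MonoidAlgebra ℚ G) : br x (y - y') = br x y - br x y' := by
  unfold br; noncomm_ring

theorem br_add_left (x x' y : MonoidAlgebra ℚ G) : br (x + x') y = br x y + br x' y := by
  unfold br; noncomm_ring

theorem br_add_right (x y y' : MonoidAlgebra ℚ G) : br x (y + y') = br x y + br x y' := by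
  unfold br; noncomm_ring

theorem br_smul_left (r : ℚ) (x y : MonoidAlgebra ℚ G) : br (r • x) y = r • br x y := by
  unfold br; rw [smul_sub, smul_mul_assoc, mul_smul_comm]

theorem br_smul_right (r : ℚ) (x y : MonoidAlgebra ℚ G) : br x (r • y) = r • br x y := by
  unfold br; rw [smul_sub, smul_mul_assoc, mul_smul_comm]

theorem br_self (x : MonoidAlgebra ℚ G) : br x x = 0 := by
  unfold br; rw [sub_self]

theorem br_zero_right (x : MonoidAlgebra ℚ G) : br x 0 = 0 := by
  unfold br; rw [mul_zero, zero_mul, sub_self]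

theorem br_zero_left (x : MonoidAlgebra ℚ G) : br 0 x = 0 := by
  unfold br; rw [mul_zero, zero_mul, sub_self]

theorem br_anti (x y : MonoidAlgebra ℚ G) : br x y = -br y x := by
  unfold br; abel

theorem br_sum_left {ι : Type*} (s : Finset ι) (x : ι → MonoidAlgebra ℚ G)
    (y : MonoidAlgebra ℚ G) : br (∑ i ∈ s, x i) y = ∑ i ∈ s, br (x i) y := by
  unfold br; rw [Finset.sum_mul, Finset.mul_sum, Finset.sum_sub_distrib]

theorem br_sum_right {ι : Type*} (s : Finset ι) (x : ι → MonoidAlgebra ℚ G)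
    (y : MonoidAlgebra ℚ G) : br y (∑ i ∈ s, x i) = ∑ i ∈ s, br y (x i) := by
  unfold br; rw [Finset.sum_mul, Finset.mul_sum, Finset.sum_sub_distrib]

theorem br_congr {a b : ℕ} {x x' y y' : MonoidAlgebra ℚ G} (hx : x ∈ I G ^ a)
    (hxx : x - x' ∈ I G ^ (a + 1)) (hy : y' ∈ I G ^ b) (hyy : y - y' ∈ I G ^ (b + 1)) :
    br x y - br x' y' ∈ I G ^ (a + b + 1) := by
  have h : br x y - br x' y' = br x (y - y') + br (x - x') y' := by
    rw [br_sub_right, br_sub_left]; abel
  rw [h]
  refine Submodule.add_mem _ ?_ ?_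
  · have := br_mem hx hyy
    rwa [← add_assoc] at this
  · have := br_mem hxx hy
    have h2 : a + 1 + b = a + b + 1 := by omega
    rwa [h2] at this

theorem of_mul_mem {m : ℕ} (hm : 1 ≤ m) {y : MonoidAlgebra ℚ G} (hy : y ∈ I G ^ m) (x : G) :
    MonoidAlgebra.of ℚ G x * y ∈ I G ^ m := by
  rw [Aug.of_eq, add_mul, one_mul]
  refine Submodule.add_mem _ hy (I_anti hm (Nat.le_succ m) ?_)
  have := mul_mem_pow (dl_mem_one x) hy
  rwa [add_comm] at this

theorem dl_inv (x : G) : dl x⁻¹ = -(dl x * MonoidAlgebra.of ℚ G x⁻¹) := by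
  have h1 : MonoidAlgebra.of ℚ G x * MonoidAlgebra.of ℚ G x⁻¹ = 1 := by
    rw [← map_mul, mul_inv_cancel, map_one]
  unfold dl
  rw [sub_mul, h1, one_mul]
  abel

/-- elements with `x - 1` in a power of the augmentation ideal -/
def dimS (G : Type*) [Group G] (n : ℕ) : Subgroup G where
  carrier := {x | dl x ∈ I G ^ (n + 1)}
  mul_mem' := by
    intro x y hx hy
    change dl (x * y) ∈ I G ^ (n + 1)
    rw [dl_mul]
    refine Submodule.add_mem _ (Submodule.add_mem _ hx hy) ?_
    exact I_anti (by omega) (by omega : n + 1 ≤ n + 1 + (n + 1)) (mul_mem_pow hx hy)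
  one_mem' := by
    change dl (1 : G) ∈ I G ^ (n + 1)
    rw [dl_one]; exact Submodule.zero_mem _
  inv_mem' := by
    intro x hx
    change dl x⁻¹ ∈ I G ^ (n + 1)
    rw [dl_inv]
    exact Submodule.neg_mem _ (mul_of_mem (by omega) hx _)

theorem mem_dimS {n : ℕ} {x : G} : x ∈ dimS G n ↔ dl x ∈ I G ^ (n + 1) := Iff.rfl

theorem dimS_zero : dimS G 0 = ⊤ := by
  rw [eq_top_iff]
  intro x _
  rw [mem_dimS]
  exact dl_mem_one x

theorem dl_comm (x y : G) :
    dl ⁅x, y⁆ = br (dl x) (dl y) * MonoidAlgebra.of ℚ G (x⁻¹ * y⁻¹) := by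
  have h1 : br (dl x) (dl y) =
      MonoidAlgebra.of ℚ G (x * y) - MonoidAlgebra.of ℚ G (y * x) := by
    unfold dl br
    rw [map_mul, map_mul]
    noncomm_ring
  rw [h1, sub_mul, ← map_mul, ← map_mul]
  have h2 : y * x * (x⁻¹ * y⁻¹) = 1 := by group
  have h3 : x * y * (x⁻¹ * y⁻¹) = ⁅x, y⁆ := by rw [commutatorElement_def]; group
  rw [h2, h3, map_one]
  rfl

theorem dimS_comm (a b : ℕ) : ⁅dimS G a, dimS G b⁆ ≤ dimS G (a + b + 1) := by
  rw [Subgroup.commutator_le]
  intro x hx y hy
  rw [mem_dimS] at hx hy ⊢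
  rw [dl_comm]
  refine mul_of_mem (by omega) ?_ _
  have := br_mem hx hy
  have h2 : a + 1 + (b + 1) = a + b + 1 + 1 := by omega
  rwa [h2] at this

theorem dl_comm_mod (x y : G) : dl ⁅x, y⁆ - br (dl x) (dl y) ∈ I G ^ 3 := by
  have h : dl ⁅x, y⁆ - br (dl x) (dl y) = br (dl x) (dl y) * dl (x⁻¹ * y⁻¹) := by
    rw [dl_comm, Aug.of_eq, mul_add, mul_one]; abel
  rw [h]
  exact mul_mem_pow (m := 2) (n := 1) (br_mem (dl_mem_one x) (dl_mem_one y)) (dl_mem_one _)

/-- conjugation -/
theorem dl_conj (c x : G) {k : ℕ} (hc : dl c ∈ I G ^ (k + 1)) :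
    dl (c * x * c⁻¹) - dl x - br (dl c) (dl x) ∈ I G ^ (2 * k + 3) := by
  have hc' : dl c⁻¹ ∈ I G ^ (k + 1) := (dimS G k).inv_mem (x := c) hc
  have h1 : dl (c * x * c⁻¹) = MonoidAlgebra.of ℚ G c * dl x * MonoidAlgebra.of ℚ G c⁻¹ := by
    have h2 : MonoidAlgebra.of ℚ G c * MonoidAlgebra.of ℚ G c⁻¹ = 1 := by
      rw [← map_mul, mul_inv_cancel, map_one]
    unfold dl
    rw [map_mul, map_mul, mul_sub, mul_one, sub_mul, h2]
  have h2 : dl c⁻¹ + dl c = -(dl c * dl c⁻¹) := by
    have h3 := dl_mul c c⁻¹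
    rw [mul_inv_cancel, dl_one] at h3
    have h4 : dl c⁻¹ + dl c = (dl c + dl c⁻¹ + dl c * dl c⁻¹) - dl c * dl c⁻¹ := by abel
    rw [h4, ← h3]; abel
  have h3 : dl (c * x * c⁻¹) - dl x - br (dl c) (dl x) =
      dl x * (dl c⁻¹ + dl c) + dl c * dl x * dl c⁻¹ := by
    rw [h1, Aug.of_eq, Aug.of_eq]
    unfold br
    noncomm_ring
  rw [h3, h2]
  have e1 : 1 + (k + 1 + (k + 1)) = 2 * k + 3 := by omega
  have e2 : k + 1 + 1 + (k + 1) = 2 * k + 3 := by omega
  refine Submodule.add_mem _ ?_ ?_
  · have := mul_mem_pow (dl_mem_one x) (Submodule.neg_mem _ (mul_mem_pow hc hc'))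
    rwa [e1] at this
  · have := mul_mem_pow (mul_mem_pow hc (dl_mem_one x)) hc'
    rwa [e2] at this

end General

variable {g : ℕ}

/-- the linear lift of homology classes -/
noncomputable def nv : Hq g →ₗ[ℚ] RG g where
  toFun z := ∑ i, (z.1 i • dl (al i) + z.2 i • dl (be i))
  map_add' z w := by
    rw [← Finset.sum_add_distrib]
    refine Finset.sum_congr rfl fun i _ => ?_
    rw [Prod.fst_add, Prod.snd_add, Pi.add_apply, Pi.add_apply, add_smul, add_smul]
    abel
  map_smul' r z := by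
    rw [Finset.smul_sum]
    refine Finset.sum_congr rfl fun i _ => ?_
    rw [Prod.smul_fst, Prod.smul_snd, Pi.smul_apply, Pi.smul_apply, smul_add, smul_assoc,
      smul_assoc]
    rfl

theorem nv_apply (z : Hq g) : nv z = ∑ i, (z.1 i • dl (al i) + z.2 i • dl (be i)) := rfl

theorem nv_ea (j : Fin g) : nv (ea j) = dl (al j) := by
  rw [nv_apply, Finset.sum_eq_single j]
  · simp [ea]
  · intro i _ hi
    simp [ea, hi]
  · intro h; exact absurd (Finset.mem_univ j) h

theorem nv_eb (j : Fin g) : nv (eb j) = dl (be j) := by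
  rw [nv_apply, Finset.sum_eq_single j]
  · simp [eb]
  · intro i _ hi
    simp [eb, hi]
  · intro h; exact absurd (Finset.mem_univ j) h

theorem nv_mem (z : Hq g) : nv z ∈ I (Surf g) ^ 1 := by
  rw [nv_apply]
  exact Submodule.sum_mem _ fun i _ => Submodule.add_mem _
    (Submodule.smul_mem _ _ (dl_mem_one _)) (Submodule.smul_mem _ _ (dl_mem_one _))

theorem dl_sub_nv (x : Surf g) : dl x - nv (cls x) ∈ I (Surf g) ^ 2 := by
  induction x using surf_induction with
  | h1 => rw [dl_one, cls_one, map_zero, sub_zero]; exact Submodule.zero_mem _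
  | ha i => rw [cls_al, nv_ea, sub_self]; exact Submodule.zero_mem _
  | hb i => rw [cls_be, nv_eb, sub_self]; exact Submodule.zero_mem _
  | hm x y hx hy =>
    have h : dl (x * y) - nv (cls (x * y)) = (dl x - nv (cls x)) + (dl y - nv (cls y)) +
        dl x * dl y := by
      rw [dl_mul, cls_mul, map_add]; abel
    rw [h]
    exact Submodule.add_mem _ (Submodule.add_mem _ hx hy)
      (mul_mem_pow (dl_mem_one x) (dl_mem_one y))
  | hi x hx =>
    have h : dl x⁻¹ - nv (cls x⁻¹) = -(dl x - nv (cls x)) - dl x * dl x⁻¹ := by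
      have h0 : dl x⁻¹ = -dl x - dl x * dl x⁻¹ := by
        conv_lhs => rw [dl_inv, Aug.of_eq, mul_add, mul_one]
        abel
      conv_lhs => rw [h0, cls_inv, map_neg]
      abel
    rw [h]
    exact Submodule.sub_mem _ (Submodule.neg_mem _ hx)
      (mul_mem_pow (dl_mem_one x) (dl_mem_one _))

/-- `F` acts on the group ring by `1 + D` with `D` of degree `k` and symbol `s` -/
structure Sy (k : ℕ) (F : MulAut (Surf g)) (s : Hq g →ₗ[ℚ] RG g) : Prop where
  triv : Triv F
  mem : ∀ z, s z ∈ I (Surf g) ^ (k + 1)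
  eq : ∀ x, Df F (dl x) - s (cls x) ∈ I (Surf g) ^ (k + 2)

theorem Df_mul_apply {G : Type*} [Group G] (F : MulAut G) (x y : MonoidAlgebra ℚ G) :
    Df F (x * y) = Df F x * hat F y + x * Df F y := by
  rw [Df_apply, Df_apply, Df_apply, hat_mul_apply]
  noncomm_ring

/-- derivation property -/
theorem Df_leib {G : Type*} [Group G] (F : MulAut G) (x y : MonoidAlgebra ℚ G) :
    Df F (x * y) = Df F x * y + x * Df F y + Df F x * Df F y := by
  rw [Df_apply, Df_apply, Df_apply, hat_mul_apply]
  noncomm_ring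

theorem Df_comp {G : Type*} [Group G] (F F' : MulAut G) :
    Df (F * F') = Df F + Df F' + Df F * Df F' := by
  unfold Df
  rw [map_mul, sub_mul, mul_sub, mul_sub, one_mul, mul_one, mul_one]
  abel

namespace Sy

variable {k : ℕ} {F F' : MulAut (Surf g)} {s s' : Hq g →ₗ[ℚ] RG g}

theorem dl_mem (h : Sy k F s) (x : Surf g) : Df F (dl x) ∈ I (Surf g) ^ (k + 1) := by
  have h1 := Submodule.add_mem _ (I_anti (by omega) (by omega : k + 1 ≤ k + 2) (h.eq x))
    (h.mem (cls x))
  rwa [sub_add_cancel] at h1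

theorem Df_mem (h : Sy k F s) {m : ℕ} {y : RG g} (hy : y ∈ I (Surf g) ^ (m + 1)) :
    Df F y ∈ I (Surf g) ^ (m + 1 + k) := by
  have h1 : ∀ y ∈ I (Surf g), Df F y ∈ I (Surf g) ^ (k + 1) := by
    intro y hy
    unfold I at hy
    induction hy using Submodule.span_induction with
    | mem b hb =>
      obtain ⟨x, rfl⟩ := hb
      exact h.dl_mem x
    | zero => rw [map_zero]; exact Submodule.zero_mem _
    | add b b' _ _ h h' => rw [map_add]; exact Submodule.add_mem _ h h'
    | smul r b _ h => rw [map_smul]; exact Submodule.smul_mem _ _ h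
  induction m generalizing y with
  | zero =>
    rw [zero_add, pow_one] at hy
    have := h1 y hy
    rwa [add_comm k 1] at this
  | succ m ih =>
    rw [pow_succ] at hy
    refine Submodule.mul_induction_on hy ?_ ?_
    · intro a ha b hb
      rw [Df_mul_apply]
      refine Submodule.add_mem _ ?_ ?_
      · have h2 := mul_mem_pow (ih ha) (hat_mem (F := F) (m := 1) (by rwa [pow_one]))
        have h3 : m + 1 + k + 1 = m + 1 + 1 + k := by omega
        rwa [h3] at h2
      · have h2 := mul_mem_pow ha (h1 b hb)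
        have h3 : m + 1 + (k + 1) = m + 1 + 1 + k := by omega
        rwa [h3] at h2
    · intro a b ha hb
      rw [map_add]; exact Submodule.add_mem _ ha hb

theorem nv (h : Sy k F s) (z : Hq g) : Df F (TG.nv z) - s z ∈ I (Surf g) ^ (k + 2) := by
  have h1 : Df F (TG.nv z) - s z = ∑ i, (z.1 i • (Df F (dl (al i)) - s (cls (al i))) +
      z.2 i • (Df F (dl (be i)) - s (cls (be i)))) := by
    have h2 : s z = ∑ i, (z.1 i • s (ea i) + z.2 i • s (eb i)) := by
      conv_lhs => rw [hq_decomp z]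
      rw [map_sum]
      exact Finset.sum_congr rfl fun i _ => by rw [map_add, map_smul, map_smul]
    rw [h2, nv_apply, map_sum, ← Finset.sum_sub_distrib]
    refine Finset.sum_congr rfl fun i _ => ?_
    rw [map_add, map_smul, map_smul, cls_al, cls_be, smul_sub, smul_sub]
    abel
  rw [h1]
  exact Submodule.sum_mem _ fun i _ => Submodule.add_mem _
    (Submodule.smul_mem _ _ (h.eq _)) (Submodule.smul_mem _ _ (h.eq _))

theorem congr (h : Sy k F s) (hs : ∀ z, s z - s' z ∈ I (Surf g) ^ (k + 2)) : Sy k F s' where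
  triv := h.triv
  mem z := by
    have h1 := Submodule.sub_mem _ (h.mem z) (I_anti (by omega) (by omega : k + 1 ≤ k + 2) (hs z))
    rwa [sub_sub_cancel] at h1
  eq x := by
    have h1 := Submodule.add_mem _ (h.eq x) (hs (cls x))
    rwa [sub_add_sub_cancel] at h1

theorem mul (hk : 1 ≤ k) (h : Sy k F s) (h' : Sy k F' s') : Sy k (F * F') (s + s') where
  triv := (trivSub g).mul_mem h.triv h'.triv
  mem z := Submodule.add_mem _ (h.mem z) (h'.mem z)
  eq x := by
    rw [Df_comp]
    have h1 : (Df F + Df F' + Df F * Df F') (dl x) - (s + s') (cls x) =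
        (Df F (dl x) - s (cls x)) + (Df F' (dl x) - s' (cls x)) + Df F (Df F' (dl x)) := by
      rw [LinearMap.add_apply, LinearMap.add_apply, Module.End.mul_apply, LinearMap.add_apply]
      abel
    rw [h1]
    refine Submodule.add_mem _ (Submodule.add_mem _ (h.eq x) (h'.eq x)) ?_
    exact I_anti (by omega) (by omega) (h.Df_mem (h'.dl_mem x))

theorem one : Sy k (1 : MulAut (Surf g)) 0 where
  triv := (trivSub g).one_mem
  mem z := by rw [LinearMap.zero_apply]; exact Submodule.zero_mem _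
  eq x := by
    have h : Df (1 : MulAut (Surf g)) = 0 := by
      unfold Df; rw [map_one, sub_self]
    rw [h, LinearMap.zero_apply, LinearMap.zero_apply, sub_zero]
    exact Submodule.zero_mem _

theorem inv (h : Sy k F s) : Sy k F⁻¹ (-s) where
  triv := (trivSub g).inv_mem h.triv
  mem z := by rw [LinearMap.neg_apply]; exact Submodule.neg_mem _ (h.mem z)
  eq x := by
    have h1 := h.eq (F⁻¹ x)
    have h2 : cls (F⁻¹ x) = cls x := triv_le_torelli ((trivSub g).inv_mem h.triv) x
    have h3 : Df F (dl (F⁻¹ x)) = -Df F⁻¹ (dl x) := by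
      rw [Df_apply, Df_apply, hat_dl, hat_dl, MulAut.apply_inv_self]
      abel
    rw [h2, h3] at h1
    have h4 := Submodule.neg_mem _ h1
    rw [LinearMap.neg_apply]
    have h5 : -(-Df F⁻¹ (dl x) - s (cls x)) = Df F⁻¹ (dl x) - -s (cls x) := by abel
    rwa [h5] at h4

theorem zpow (h : Sy k F s) (hk : 1 ≤ k) (m : ℤ) : Sy k (F ^ m) ((m : ℚ) • s) := by
  induction m using Int.induction_on with
  | zero =>
    rw [zpow_zero, Int.cast_zero, zero_smul]
    exact one
  | succ m ih =>
    rw [zpow_add_one]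
    have h1 := mul hk ih h
    have h2 : ((m : ℤ) : ℚ) • s + s = (((m : ℤ) + 1 : ℤ) : ℚ) • s := by
      push_cast; rw [add_smul, one_smul]
    rwa [h2] at h1
  | pred m ih =>
    rw [zpow_sub_one]
    have h1 := mul hk ih h.inv
    have h2 : ((-(m : ℤ) : ℤ) : ℚ) • s + -s = ((-(m : ℤ) - 1 : ℤ) : ℚ) • s := by
      push_cast; module
    rwa [h2] at h1

/-- checking the symbol on the images of the generators -/
theorem of_gens (hT : Triv F) (hs : ∀ z, s z ∈ I (Surf g) ^ (k + 1)) (φ : MulAut (Surf g))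
    (h1 : ∀ i, Df F (dl (φ (al i))) - s (cls (φ (al i))) ∈ I (Surf g) ^ (k + 2))
    (h2 : ∀ i, Df F (dl (φ (be i))) - s (cls (φ (be i))) ∈ I (Surf g) ^ (k + 2)) :
    Sy k F s where
  triv := hT
  mem := hs
  eq := by
    have key : ∀ x : Surf g, Df F (dl (φ x)) - s (cls (φ x)) ∈ I (Surf g) ^ (k + 2) := by
      intro x
      have hm : ∀ y : Surf g, Df F (dl y) - s (cls y) ∈ I (Surf g) ^ (k + 2) →
          Df F (dl y) ∈ I (Surf g) ^ (k + 1) := by
        intro y hy
        have h1 := Submodule.add_mem _ (I_anti (by omega) (by omega : k + 1 ≤ k + 2) hy)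
          (hs (cls y))
        rwa [sub_add_cancel] at h1
      induction x using surf_induction with
      | h1 =>
        rw [map_one, dl_one, map_zero, cls_one, map_zero, sub_zero]
        exact Submodule.zero_mem _
      | ha i => exact h1 i
      | hb i => exact h2 i
      | hm x y hx hy =>
        have h : Df F (dl (φ (x * y))) - s (cls (φ (x * y))) =
            (Df F (dl (φ x)) - s (cls (φ x))) + (Df F (dl (φ y)) - s (cls (φ y))) +
              (Df F (dl (φ x)) * hat F (dl (φ y)) + dl (φ x) * Df F (dl (φ y))) := by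
          rw [map_mul, dl_mul, map_add, map_add, Df_mul_apply, cls_mul, map_add]
          abel
        rw [h]
        refine Submodule.add_mem _ (Submodule.add_mem _ hx hy) (Submodule.add_mem _ ?_ ?_)
        · exact mul_mem_pow (m := k + 1) (n := 1) (hm _ hx) (hat_mem (dl_mem_one _))
        · have := mul_mem_pow (dl_mem_one (φ x)) (hm _ hy)
          have h3 : 1 + (k + 1) = k + 2 := by omega
          rwa [h3] at this
      | hi x hx =>
        rw [map_inv, cls_inv, map_neg, sub_neg_eq_add]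
        set y := φ x with hy
        have e1 : Df F (dl y⁻¹) = -(MonoidAlgebra.of ℚ _ y⁻¹ * Df F (dl y) *
            MonoidAlgebra.of ℚ _ (F y⁻¹)) := by
          rw [Df_apply, Df_apply, hat_dl, hat_dl]
          unfold dl
          have a1 : MonoidAlgebra.of ℚ (Surf g) y⁻¹ * MonoidAlgebra.of ℚ _ y = 1 := by
            rw [← map_mul, inv_mul_cancel, map_one]
          have a2 : MonoidAlgebra.of ℚ (Surf g) (F y) * MonoidAlgebra.of ℚ _ (F y⁻¹) = 1 := by
            rw [← map_mul, ← map_mul, mul_inv_cancel, map_one, map_one]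
          have a3 : MonoidAlgebra.of ℚ (Surf g) (F y) - 1 - (MonoidAlgebra.of ℚ (Surf g) y - 1) =
            MonoidAlgebra.of ℚ (Surf g) (F y) - MonoidAlgebra.of ℚ (Surf g) y := by abel
          rw [a3, mul_sub, sub_mul, mul_assoc _ _ (MonoidAlgebra.of ℚ _ (F y⁻¹)), a2, a1,
            mul_one, one_mul]
          abel
        have h3 := hm y hx
        have e2 : Df F (dl y⁻¹) + s (cls y) = -(Df F (dl y) - s (cls y)) -
            (MonoidAlgebra.of ℚ _ y⁻¹ * Df F (dl y) * dl (F y⁻¹) + dl y⁻¹ * Df F (dl y)) := by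
          rw [e1, Aug.of_eq (F y⁻¹), Aug.of_eq y⁻¹]
          noncomm_ring
        rw [e2]
        refine Submodule.sub_mem _ (Submodule.neg_mem _ hx) (Submodule.add_mem _ ?_ ?_)
        · exact mul_mem_pow (m := k + 1) (n := 1) (of_mul_mem (by omega) h3 _) (dl_mem_one _)
        · have := mul_mem_pow (dl_mem_one y⁻¹) h3
          have h4 : 1 + (k + 1) = k + 2 := by omega
          rwa [h4] at this
    intro x
    have h := key (φ⁻¹ x)
    rwa [MulAut.apply_inv_self] at h

/-- symbol of an inner automorphism -/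
theorem conj (hk : 1 ≤ k) {c : Surf g} {θ : RG g} (hθ : θ ∈ I (Surf g) ^ k)
    (hc : dl c - θ ∈ I (Surf g) ^ (k + 1)) {s : Hq g →ₗ[ℚ] RG g}
    (hs : ∀ z, s z = br θ (TG.nv z)) : Sy k (MulAut.conj c) s where
  triv := conj_triv c
  mem z := by
    rw [hs]
    exact br_mem hθ (nv_mem z)
  eq x := by
    obtain ⟨k, rfl⟩ : ∃ l, k = l + 1 := ⟨k - 1, by omega⟩
    have hcm : dl c ∈ I (Surf g) ^ (k + 1) := by
      have h1 := Submodule.add_mem _ (I_anti (by omega) (by omega : k + 1 ≤ k + 1 + 1) hc) hθ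
      rwa [sub_add_cancel] at h1
    have h1 := dl_conj c x hcm
    have h2 := br_congr hcm hc (nv_mem (cls x)) (dl_sub_nv x)
    have h3 : Df (MulAut.conj c) (dl x) - s (cls x) =
        (dl (c * x * c⁻¹) - dl x - br (dl c) (dl x)) +
          (br (dl c) (dl x) - br θ (TG.nv (cls x))) := by
      rw [Df_apply, hat_dl, MulAut.conj_apply, hs]
      abel
    rw [h3]
    exact Submodule.add_mem _ (I_anti (by omega) (by omega) h1) h2

/-- deep automorphisms have symbol zero -/
theorem of_deep {G' : Subgroup (Surf g)} (hG : G' ≤ dimS (Surf g) (k + 1)) (hk : 1 ≤ k)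
    (hF : ∀ x, F x * x⁻¹ ∈ G') (hT : Triv F) : Sy k F 0 where
  triv := hT
  mem z := by rw [LinearMap.zero_apply]; exact Submodule.zero_mem _
  eq x := by
    rw [LinearMap.zero_apply, sub_zero]
    have h : Df F (dl x) = dl (F x * x⁻¹) * MonoidAlgebra.of ℚ _ x := by
      have h1 : MonoidAlgebra.of ℚ (Surf g) (F x * x⁻¹) * MonoidAlgebra.of ℚ _ x =
          MonoidAlgebra.of ℚ (Surf g) (F x) := by
        rw [← map_mul, inv_mul_cancel_right]
      rw [Df_apply, hat_dl]
      unfold dl
      rw [sub_mul, h1, one_mul]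
      abel
    rw [h]
    exact mul_of_mem (by omega) (hG (hF x)) x

end Sy

/-! ### Products of commutators -/

theorem dl_list (L : List (Surf g)) (hL : ∀ x ∈ L, dl x ∈ I (Surf g) ^ 2) :
    dl L.prod - (L.map dl).sum ∈ I (Surf g) ^ 3 ∧ dl L.prod ∈ I (Surf g) ^ 2 := by
  induction L with
  | nil =>
    simp only [List.prod_nil, List.map_nil, List.sum_nil, dl_one, sub_zero]
    exact ⟨Submodule.zero_mem _, Submodule.zero_mem _⟩
  | cons x L ih =>
    obtain ⟨h1, h2⟩ := ih fun y hy => hL y (List.mem_cons_of_mem _ hy)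
    have hx := hL x List.mem_cons_self
    rw [List.prod_cons, List.map_cons, List.sum_cons, dl_mul]
    have h3 := mul_mem_pow hx h2
    constructor
    · have h4 : dl x + dl L.prod + dl x * dl L.prod - (dl x + (L.map dl).sum) =
        (dl L.prod - (L.map dl).sum) + dl x * dl L.prod := by abel
      rw [h4]
      exact Submodule.add_mem _ h1 (I_anti (by omega) (by omega) h3)
    · exact Submodule.add_mem _ (Submodule.add_mem _ hx h2) (I_anti (by omega) (by omega) h3)

theorem dl_cpart (u v : Fin g → Surf g) (j : ℕ) :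
    dl (cpart u v j) - ∑ i : Fin g with i.val < j, br (nv (cls (u i))) (nv (cls (v i))) ∈
      I (Surf g) ^ 3 ∧ dl (cpart u v j) ∈ I (Surf g) ^ 2 := by
  have hc : ∀ i, dl ⁅u i, v i⁆ ∈ I (Surf g) ^ 2 := by
    intro i
    rw [dl_comm]
    exact mul_of_mem (by norm_num) (br_mem (dl_mem_one _) (dl_mem_one _)) _
  have h := dl_list ((List.ofFn fun i : Fin g => ⁅u i, v i⁆).take j) (by
    intro x hx
    have := List.mem_of_mem_take hx
    rw [List.mem_ofFn] at this
    obtain ⟨i, rfl⟩ := this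
    exact hc i)
  refine ⟨?_, h.2⟩
  have h1 := h.1
  rw [List.map_take, List.map_ofFn, List.sum_take_ofFn] at h1
  have h2 : ∑ i : Fin g with i.val < j, (dl ∘ fun i : Fin g => ⁅u i, v i⁆) i -
      ∑ i : Fin g with i.val < j, br (nv (cls (u i))) (nv (cls (v i))) ∈ I (Surf g) ^ 3 := by
    rw [← Finset.sum_sub_distrib]
    refine Submodule.sum_mem _ fun i _ => ?_
    have h3 := br_congr (dl_mem_one (u i)) (dl_sub_nv (u i)) (nv_mem (cls (v i)))
      (dl_sub_nv (v i))
    have h4 := Submodule.add_mem _ (dl_comm_mod (u i) (v i)) h3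
    rwa [sub_add_sub_cancel] at h4
  have h5 := Submodule.add_mem _ h1 h2
  rwa [sub_add_sub_cancel] at h5

theorem cpart_top {G : Type*} [Group G] (u v : Fin g → G) : cpart u v g = cprod u v := by
  unfold cpart cprod
  rw [List.take_of_length_le (by simp)]

/-- the closed relation -/
theorem closed_rel (φ : MulAut (Surf g)) :
    ∑ i : Fin g, br (nv (cls (φ (al i)))) (nv (cls (φ (be i)))) ∈ I (Surf g) ^ 3 := by
  have h := (dl_cpart (fun i => φ (al i)) (fun i => φ (be i)) g).1
  have h1 : cpart (fun i => φ (al i)) (fun i => φ (be i)) g = 1 := by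
    rw [cpart_top]
    have h2 := map_cprod φ.toMonoidHom (al : Fin g → Surf g) be
    rw [cprod_al_be, map_one] at h2
    exact h2.symm
  rw [h1, dl_one, zero_sub] at h
  have h2 := Submodule.neg_mem _ h
  rw [neg_neg] at h2
  have h3 : (Finset.univ.filter fun i : Fin g => i.val < g) = Finset.univ := by
    ext i; simp
  rwa [h3] at h2

end TG
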