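import Pool.Agent.H40.TG.Sym2
import Pool.Agent.H40.TG.Defs2
import Pool.Agent.H40.TG.Lin2

/-!
# The symbols of bounding pair maps and separating twists in the group ring
-/

open scoped commutatorElement

namespace TG

open Aug

variable {g : ℕ}

/-- the commutator with a fixed element -/
noncomputable def brR (θ : RG g) : Hq g →ₗ[ℚ] RG g :=
  (LinearMap.mulLeft ℚ θ - LinearMap.mulRight ℚ θ).comp nv

theorem brR_apply (θ : RG g) (z : Hq g) : brR θ z = br θ (nv z) := rfl

/-! ### Bounding pair maps -/

namespace BP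

variable (d : BP g)

/-- the bivector of one side -/
noncomputable def Th (s : Bool) : RG g := ∑ i ∈ d.side s, br (nv (d.A i)) (nv (d.B i))

/-- the symbol -/
noncomputable def sy (s : Bool) : Hq g →ₗ[ℚ] RG g :=
  (brR (nv d.a)).comp (d.projL s) + (om.flip d.a).smulRight (d.Th s)

theorem sy_apply (s : Bool) (z : Hq g) :
    d.sy s z = br (nv d.a) (nv (d.projL s z)) + om z d.a • d.Th s := rfl

theorem Th_mem (s : Bool) : d.Th s ∈ I (Surf g) ^ 2 :=
  Submodule.sum_mem _ fun _ _ => br_mem (a := 1) (b := 1) (nv_mem _) (nv_mem _)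

theorem sy_mem (s : Bool) (z : Hq g) : d.sy s z ∈ I (Surf g) ^ 2 :=
  Submodule.add_mem _ (br_mem (a := 1) (b := 1) (nv_mem _) (nv_mem _))
    (Submodule.smul_mem _ _ (d.Th_mem s))

theorem cls_bb' : cls (d.φ (bb d.k)) = d.a := by
  have h : cls (d.φ (bb d.k)) - d.a = 0 := by
    apply om_symp.nondeg'
    intro ξ
    rw [map_sub, cls_bb, sub_self]
  exact sub_eq_zero.1 h

theorem side_true : d.side true = Finset.univ.filter fun i : Fin g => i.val < d.k.val := by
  ext i
  rw [d.mem_side]
  simp only [if_true, Finset.mem_filter, Finset.mem_univ, true_and]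
  exact Iff.rfl

theorem dl_pp : dl (d.φ (pp d.k)) - d.Th true ∈ I (Surf g) ^ 3 ∧
    dl (d.φ (pp d.k)) ∈ I (Surf g) ^ 2 := by
  have h := dl_cpart (fun i => d.φ (al i)) (fun i => d.φ (be i)) d.k.val
  have h1 : cpart (fun i => d.φ (al i)) (fun i => d.φ (be i)) d.k.val = d.φ (pp d.k) :=
    (map_cpart d.φ.toMonoidHom al be d.k.val).symm
  rw [h1] at h
  unfold Th
  rw [side_true]
  exact h

theorem sy_aut : Sy 1 d.aut (d.sy true) := by
  refine Sy.of_gens (k := 1) (aut_triv d) (d.sy_mem true) d.φ ?_ ?_
  · intro i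
    have e0 : Df d.aut (dl (d.φ (al i))) = dl (d.φ (bpAl d.k i)) - dl (d.φ (al i)) := by
      rw [Df_apply, hat_dl, d.aut_apply, MulAut.inv_apply_self, stdBP_al]
    have e1 : d.sy true (cls (d.φ (al i))) =
        br (nv d.a) (nv (if i ∈ d.side true then d.A i else 0)) := by
      change d.sy true (d.A i) = _
      rw [sy_apply, d.proj_A, d.a_eq, d.AA, zero_smul, add_zero]
    rw [e0, e1, bpAl]
    simp only [d.mem_side, if_true]
    rcases lt_trichotomy i d.k with h1 | h1 | h1
    · rw [if_pos h1, if_pos h1, map_mul, map_mul, map_inv]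
      have h2 := dl_conj (k := 0) (d.φ (bb d.k)) (d.φ (al i)) (dl_mem_one _)
      have h3 := br_congr (dl_mem_one (d.φ (bb d.k))) (dl_sub_nv (d.φ (bb d.k)))
        (nv_mem (cls (d.φ (al i)))) (dl_sub_nv (d.φ (al i)))
      rw [d.cls_bb'] at h3
      have h4 := Submodule.add_mem _ h2 h3
      rw [sub_add_sub_cancel] at h4
      exact h4
    · rw [if_neg (by rw [h1]; exact lt_irrefl _), if_pos h1,
        if_neg (by rw [h1]; exact lt_irrefl _), map_zero, br_zero_right, sub_zero, h1, map_mul,
        map_mul, map_inv]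
      have h2 := dl_conj (k := 1) (d.φ (pp d.k)) (d.φ (al d.k)) d.dl_pp.2
      have h3 := br_mem d.dl_pp.2 (dl_mem_one (d.φ (al d.k)))
      have h4 := Submodule.add_mem _ (I_anti (by norm_num) (by norm_num : 3 ≤ 2 * 1 + 3) h2) h3
      rw [sub_add_cancel] at h4
      exact h4
    · rw [if_neg (not_lt.2 h1.le), if_neg h1.ne', if_neg (not_lt.2 h1.le), map_zero,
        br_zero_right, sub_self, sub_zero]
      exact Submodule.zero_mem _
  · intro i
    have e0 : Df d.aut (dl (d.φ (be i))) = dl (d.φ (bpBe d.k i)) - dl (d.φ (be i)) := by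
      rw [Df_apply, hat_dl, d.aut_apply, MulAut.inv_apply_self, stdBP_be]
    have e1 : d.sy true (cls (d.φ (be i))) =
        br (nv d.a) (nv (if i ∈ d.side true then d.B i else 0)) +
          (if i = d.k then (-1 : ℚ) else 0) • d.Th true := by
      change d.sy true (d.B i) = _
      rw [sy_apply, d.proj_B, d.a_eq, d.BA]
    rw [e0, e1, bpBe]
    simp only [d.mem_side, if_true]
    rcases lt_trichotomy i d.k with h1 | h1 | h1
    · rw [if_pos h1, if_pos h1, if_neg h1.ne, zero_smul, add_zero, map_mul, map_mul, map_inv]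
      have h2 := dl_conj (k := 0) (d.φ (bb d.k)) (d.φ (be i)) (dl_mem_one _)
      have h3 := br_congr (dl_mem_one (d.φ (bb d.k))) (dl_sub_nv (d.φ (bb d.k)))
        (nv_mem (cls (d.φ (be i)))) (dl_sub_nv (d.φ (be i)))
      rw [d.cls_bb'] at h3
      have h4 := Submodule.add_mem _ h2 h3
      rw [sub_add_sub_cancel] at h4
      exact h4
    · rw [if_neg (by rw [h1]; exact lt_irrefl _), if_pos h1,
        if_neg (by rw [h1]; exact lt_irrefl _), if_pos h1, map_zero, br_zero_right, zero_add,
        h1, map_mul, map_inv, neg_smul, one_smul]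
      set c := d.φ (pp d.k) with hc
      set x := d.φ (be d.k) with hx
      obtain ⟨h2, h3⟩ := d.dl_pp
      have h3' : dl c⁻¹ ∈ I (Surf g) ^ 2 := (dimS (Surf g) 1).inv_mem (x := c) h3
      have h4 : dl (x * c⁻¹) - dl x - -d.Th true = -(dl c - d.Th true) - dl c * dl c⁻¹ +
          dl x * dl c⁻¹ := by
        have h5 : dl c⁻¹ = -dl c - dl c * dl c⁻¹ := by
          conv_lhs => rw [dl_inv, Aug.of_eq, mul_add, mul_one]
          abel
        rw [dl_mul, ← sub_eq_zero]
        have h6 : dl x + dl c⁻¹ + dl x * dl c⁻¹ - dl x - -d.Th true -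
            (-(dl c - d.Th true) - dl c * dl c⁻¹ + dl x * dl c⁻¹) =
            dl c⁻¹ - (-dl c - dl c * dl c⁻¹) := by abel
        rw [h6, sub_eq_zero]
        exact h5
      rw [h4]
      refine Submodule.add_mem _ (Submodule.sub_mem _ (Submodule.neg_mem _ h2) ?_) ?_
      · exact I_anti (by norm_num) (by norm_num : 3 ≤ 2 + 2) (mul_mem_pow h3 h3')
      · exact mul_mem_pow (m := 1) (n := 2) (dl_mem_one x) h3'
    · rw [if_neg (not_lt.2 h1.le), if_neg h1.ne', if_neg (not_lt.2 h1.le), if_neg h1.ne',
        map_zero, br_zero_right, sub_self, zero_smul, add_zero, sub_zero]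
      exact Submodule.zero_mem _

/-- the relation between the two sides -/
theorem Th_rel : d.Th true + d.Th false + br (nv d.a) (nv (d.B d.k)) ∈ I (Surf g) ^ 3 := by
  have h := closed_rel d.φ
  have h1 : ∀ F : Fin g → RG g,
      ∑ i, F i = ∑ i ∈ d.side true, F i + ∑ i ∈ d.side false, F i + F d.k := by
    intro F
    have h : (Finset.univ : Finset (Fin g)) = insert d.k (d.side true ∪ d.side false) := by
      ext i
      simp only [Finset.mem_univ, Finset.mem_insert, Finset.mem_union, mem_side, true_iff,
        if_true, Bool.false_eq_true, if_false]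
      rcases lt_trichotomy i d.k with h | h | h
      · exact Or.inr (Or.inl h)
      · exact Or.inl h
      · exact Or.inr (Or.inr h)
    have hk : d.k ∉ d.side true ∪ d.side false := by
      rw [Finset.mem_union, not_or]
      exact ⟨d.k_not_mem true, d.k_not_mem false⟩
    have hd : Disjoint (d.side true) (d.side false) := by
      rw [Finset.disjoint_left]
      intro i hi
      exact d.side_disj true hi
    rw [h, Finset.sum_insert hk, Finset.sum_union hd]
    abel
  rw [h1] at h
  exact h

/-- **the symbol of a bounding pair map** -/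
theorem sy_autS (s : Bool) : Sy 1 (d.autS s) (sgn s • d.sy s) := by
  cases s
  swap
  · have : sgn true • d.sy true = d.sy true := by simp [sgn]
    rw [this]
    exact d.sy_aut
  · have h1 : Sy 1 (MulAut.conj (d.φ (bb d.k))⁻¹) (-brR (nv d.a)) := by
      refine Sy.conj le_rfl (θ := -nv d.a) (Submodule.neg_mem _ (nv_mem _)) ?_ ?_
      · have h2 := dl_sub_nv (d.φ (bb d.k))⁻¹
        rwa [cls_inv, d.cls_bb', map_neg] at h2
      · intro z
        rw [LinearMap.neg_apply, brR_apply]
        unfold br; noncomm_ring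
    have h2 := Sy.mul le_rfl h1 d.sy_aut
    have h3 : d.autS false = MulAut.conj (d.φ (bb d.k))⁻¹ * d.aut := by
      simp [autS]
    rw [h3]
    refine h2.congr fun z => ?_
    have h4 := d.dat.decomp z
    change z = d.projL true z + d.projL false z + om z (d.B d.k) • d.a -
      om z d.a • d.B d.k at h4
    have h5 : (-brR (nv d.a) + d.sy true) z - (sgn false • d.sy false) z =
        om z d.a • (d.Th true + d.Th false + br (nv d.a) (nv (d.B d.k))) := by
      have h6 : br (nv d.a) (nv z) = br (nv d.a) (nv (d.projL true z)) +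
          br (nv d.a) (nv (d.projL false z)) - om z d.a • br (nv d.a) (nv (d.B d.k)) := by
        conv_lhs => rw [h4]
        rw [map_sub, map_add, map_add, map_smul, map_smul, br_sub_right, br_add_right,
          br_add_right, br_smul_right, br_smul_right, br_self, smul_zero, add_zero]
      rw [LinearMap.add_apply, LinearMap.neg_apply, brR_apply, LinearMap.smul_apply, sy_apply,
        sy_apply, h6]
      simp only [sgn, Bool.false_eq_true, if_false]
      module
    rw [h5]
    exact Submodule.smul_mem _ _ d.Th_rel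

end BP

/-! ### Separating twists -/

namespace ST

variable (T : ST g)

theorem orient' (x y : Surf g) : om (cls (T.φ x)) (cls (T.φ y)) = om (cls x) (cls y) :=
  T.orient x y

theorem AA (i j : Fin g) : om (T.A i) (T.A j) = 0 := by
  unfold A
  rw [T.orient', cls_al, cls_al, om_ea]
  simp [ea]

theorem BB (i j : Fin g) : om (T.B i) (T.B j) = 0 := by
  unfold B
  rw [T.orient', cls_be, cls_be, om_eb]
  simp [eb]

theorem AB (i j : Fin g) : om (T.A i) (T.B j) = if i = j then 1 else 0 := by
  unfold A B
  rw [T.orient', cls_al, cls_be, om_eb]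
  simp [ea, Pi.single_apply, eq_comm]

theorem BA (i j : Fin g) : om (T.B i) (T.A j) = if i = j then -1 else 0 := by
  rw [om_symp.anti, AB]
  by_cases h : i = j
  · simp [h]
  · simp [h, Ne.symm h]

theorem mem_side {s : Bool} {i : Fin g} :
    i ∈ T.side s ↔ if s then (i : ℕ) < T.j else T.j ≤ (i : ℕ) := by
  simp [side]

/-- the orthogonal projections -/
def pr (s : Bool) : Module.End ℚ (Hq g) :=
  ∑ i ∈ T.side s, ((om.flip (T.B i)).smulRight (T.A i) - (om.flip (T.A i)).smulRight (T.B i))

theorem pr_apply (s : Bool) (z : Hq g) :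
    T.pr s z = ∑ i ∈ T.side s, (om z (T.B i) • T.A i - om z (T.A i) • T.B i) := by
  simp [pr]

theorem pr_mem (s : Bool) (z : Hq g) : T.pr s z ∈ T.H s := by
  rw [pr_apply]
  refine Submodule.sum_mem _ fun i hi => Submodule.sub_mem _
    (Submodule.smul_mem _ _ (Submodule.subset_span ?_))
    (Submodule.smul_mem _ _ (Submodule.subset_span ?_))
  · exact Or.inl ⟨i, hi, rfl⟩
  · exact Or.inr ⟨i, hi, rfl⟩

theorem pr_A (s : Bool) (j : Fin g) : T.pr s (T.A j) = if j ∈ T.side s then T.A j else 0 := by
  rw [pr_apply]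
  simp only [AB, AA, zero_smul, sub_zero, ite_smul, one_smul]
  rw [Finset.sum_ite_eq]

theorem pr_B (s : Bool) (j : Fin g) : T.pr s (T.B j) = if j ∈ T.side s then T.B j else 0 := by
  rw [pr_apply]
  simp only [BB, BA, zero_smul, zero_sub, ite_smul, neg_smul, one_smul]
  rw [Finset.sum_neg_distrib, Finset.sum_ite_eq]
  split_ifs <;> simp

/-- the map induced on homology -/
def Phi : Hq g →ₗ[ℚ] Hq g where
  toFun z := ∑ i, (z.1 i • T.A i + z.2 i • T.B i)
  map_add' z w := by
    rw [← Finset.sum_add_distrib]
    refine Finset.sum_congr rfl fun i _ => ?_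
    rw [Prod.fst_add, Prod.snd_add, Pi.add_apply, Pi.add_apply, add_smul, add_smul]
    abel
  map_smul' r z := by
    rw [Finset.smul_sum]
    refine Finset.sum_congr rfl fun i _ => ?_
    rw [Prod.smul_fst, Prod.smul_snd, Pi.smul_apply, Pi.smul_apply, smul_add, smul_assoc,
      smul_assoc]
    rfl

theorem Phi_apply (z : Hq g) : T.Phi z = ∑ i, (z.1 i • T.A i + z.2 i • T.B i) := rfl

theorem om_Phi_B (z : Hq g) (j : Fin g) : om (T.Phi z) (T.B j) = z.1 j := by
  rw [Phi_apply, map_sum, LinearMap.sum_apply, Finset.sum_eq_single j]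
  · simp [AB, BB]
  · intro i _ hi
    simp [AB, BB, hi]
  · intro h; exact absurd (Finset.mem_univ j) h

theorem om_Phi_A (z : Hq g) (j : Fin g) : om (T.Phi z) (T.A j) = -z.2 j := by
  rw [Phi_apply, map_sum, LinearMap.sum_apply, Finset.sum_eq_single j]
  · simp [AA, BA]
  · intro i _ hi
    simp [AA, BA, hi]
  · intro h; exact absurd (Finset.mem_univ j) h

theorem Phi_surj : Function.Surjective T.Phi := by
  rw [← LinearMap.injective_iff_surjective, injective_iff_map_eq_zero]
  intro z hz
  apply Prod.ext
  · funext j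
    rw [← T.om_Phi_B, hz, map_zero]; rfl
  · funext j
    have := T.om_Phi_A z j
    rw [hz, map_zero, LinearMap.zero_apply] at this
    simp only [Prod.snd_zero, Pi.zero_apply]
    linarith

theorem complete (z : Hq g) : z = ∑ i, (om z (T.B i) • T.A i - om z (T.A i) • T.B i) := by
  obtain ⟨w, rfl⟩ := T.Phi_surj z
  conv_lhs => rw [Phi_apply]
  refine Finset.sum_congr rfl fun i _ => ?_
  rw [om_Phi_B, om_Phi_A, neg_smul, sub_neg_eq_add]

theorem univ_split {M : Type*} [AddCommMonoid M] (F : Fin g → M) :
    ∑ i, F i = ∑ i ∈ T.side true, F i + ∑ i ∈ T.side false, F i := by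
  have h : (Finset.univ : Finset (Fin g)) = T.side true ∪ T.side false := by
    ext i
    simp only [Finset.mem_univ, Finset.mem_union, mem_side, true_iff, if_true,
      Bool.false_eq_true, if_false]
    exact lt_or_ge _ _
  have hd : Disjoint (T.side true) (T.side false) := by
    rw [Finset.disjoint_left]
    intro i hi hi'
    rw [mem_side] at hi hi'
    simp only [if_true, Bool.false_eq_true, if_false] at hi hi'
    omega
  rw [h, Finset.sum_union hd]

/-- the splitting of the homology -/
def spl : Spl g where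
  s := T.pr
  adj t x y := by
    rw [pr_apply, pr_apply, map_sum, map_sum, LinearMap.sum_apply]
    refine Finset.sum_congr rfl fun i _ => ?_
    simp only [map_sub, map_smul, LinearMap.sub_apply, LinearMap.smul_apply, smul_eq_mul]
    rw [om_symp.anti y (T.B i), om_symp.anti y (T.A i)]
    ring
  idem t x := by
    conv_lhs => rw [pr_apply T t x]
    rw [map_sum, pr_apply]
    refine Finset.sum_congr rfl fun i hi => ?_
    rw [map_sub, map_smul, map_smul, pr_A, pr_B, if_pos hi, if_pos hi]
  sum t x := by
    have h : T.pr true x + T.pr false x = x := by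
      conv_rhs => rw [T.complete x]
      rw [T.univ_split, pr_apply, pr_apply]
    cases t
    · rw [Bool.not_false, add_comm]; exact h
    · exact h

/-- the bivector of one side -/
noncomputable def Th (s : Bool) : RG g := ∑ i ∈ T.side s, br (nv (T.A i)) (nv (T.B i))

theorem Th_mem (s : Bool) : T.Th s ∈ I (Surf g) ^ 2 :=
  Submodule.sum_mem _ fun _ _ => br_mem (a := 1) (b := 1) (nv_mem _) (nv_mem _)

theorem Th_rel : T.Th true + T.Th false ∈ I (Surf g) ^ 3 := by
  have h := closed_rel T.φ
  rw [T.univ_split] at h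
  exact h

/-- the symbol -/
noncomputable def sy (s : Bool) : Hq g →ₗ[ℚ] RG g := (brR (T.Th s)).comp (T.pr s)

theorem sy_apply (s : Bool) (z : Hq g) : T.sy s z = br (T.Th s) (nv (T.pr s z)) := rfl

theorem sy_mem (s : Bool) (z : Hq g) : T.sy s z ∈ I (Surf g) ^ 3 :=
  br_mem (a := 2) (b := 1) (T.Th_mem s) (nv_mem _)

theorem side_true : T.side true = Finset.univ.filter fun i : Fin g => i.val < T.j := by
  ext i
  rw [T.mem_side]
  simp

theorem dl_sepc : dl (T.φ (sepc T.j)) - T.Th true ∈ I (Surf g) ^ 3 ∧
    dl (T.φ (sepc T.j)) ∈ I (Surf g) ^ 2 := by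
  have h := dl_cpart (fun i => T.φ (al i)) (fun i => T.φ (be i)) T.j
  have h1 : cpart (fun i => T.φ (al i)) (fun i => T.φ (be i)) T.j = T.φ (sepc T.j) :=
    (map_cpart T.φ.toMonoidHom al be T.j).symm
  rw [h1] at h
  unfold Th
  rw [side_true]
  exact h

theorem stdTw_al (j : ℕ) (i : Fin g) : stdTw j (al i) = twAl j i := by
  change twHom j (al i) = _
  rw [twHom, surfLift_al]

theorem stdTw_be (j : ℕ) (i : Fin g) : stdTw j (be i) = twBe j i := by
  change twHom j (be i) = _
  rw [twHom, surfLift_be]

theorem stdTw_triv (j : ℕ) : Triv (stdTw j : MulAut (Surf g)) := by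
  have h : (Abelianization.of.comp (stdTw j).toMonoidHom : Surf g →* Abelianization (Surf g)) =
      Abelianization.of := by
    apply surf_hom_ext
    · intro i
      change Abelianization.of (stdTw j (al i)) = _
      rw [stdTw_al, twAl]
      split_ifs with h1
      · rw [map_mul, map_mul, map_inv, mul_comm (Abelianization.of (sepc j)), mul_assoc,
          mul_inv_cancel, mul_one]
      · rfl
    · intro i
      change Abelianization.of (stdTw j (be i)) = _
      rw [stdTw_be, twBe]
      split_ifs with h1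
      · rw [map_mul, map_mul, map_inv, mul_comm (Abelianization.of (sepc j)), mul_assoc,
          mul_inv_cancel, mul_one]
      · rfl
  intro x
  rw [← Abelianization.ker_of, MonoidHom.mem_ker, map_mul, map_inv]
  have := DFunLike.congr_fun h x
  change Abelianization.of (stdTw j x) = _ at this
  rw [this, mul_inv_cancel]

theorem aut_triv : Triv T.aut := conjAut_triv (stdTw_triv T.j)

theorem aut_apply (x : Surf g) : T.aut x = T.φ (stdTw T.j (T.φ⁻¹ x)) := rfl

theorem conj_mod (x : Surf g) :
    dl (T.φ (sepc T.j) * T.φ x * (T.φ (sepc T.j))⁻¹) - dl (T.φ x) -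
      br (T.Th true) (nv (cls (T.φ x))) ∈ I (Surf g) ^ 4 := by
  obtain ⟨h1, h2⟩ := T.dl_sepc
  have h3 := dl_conj (k := 1) (T.φ (sepc T.j)) (T.φ x) h2
  have h4 := br_congr h2 h1 (nv_mem (cls (T.φ x))) (dl_sub_nv (T.φ x))
  have h5 := Submodule.add_mem _ (I_anti (by norm_num) (by norm_num : 4 ≤ 2 * 1 + 3) h3) h4
  rwa [sub_add_sub_cancel] at h5

theorem sy_aut : Sy 2 T.aut (T.sy true) := by
  refine Sy.of_gens (k := 2) T.aut_triv (T.sy_mem true) T.φ ?_ ?_
  · intro i
    have e0 : Df T.aut (dl (T.φ (al i))) = dl (T.φ (twAl T.j i)) - dl (T.φ (al i)) := by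
      rw [Df_apply, hat_dl, T.aut_apply, MulAut.inv_apply_self, stdTw_al]
    have e1 : T.sy true (cls (T.φ (al i))) =
        br (T.Th true) (nv (if i ∈ T.side true then T.A i else 0)) := by
      change T.sy true (T.A i) = _
      rw [sy_apply, T.pr_A]
    rw [e0, e1, twAl]
    simp only [T.mem_side, if_true]
    split_ifs with h1
    · rw [map_mul, map_mul, map_inv]
      exact T.conj_mod _
    · rw [map_zero, br_zero_right, sub_self, sub_zero]
      exact Submodule.zero_mem _
  · intro i
    have e0 : Df T.aut (dl (T.φ (be i))) = dl (T.φ (twBe T.j i)) - dl (T.φ (be i)) := by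
      rw [Df_apply, hat_dl, T.aut_apply, MulAut.inv_apply_self, stdTw_be]
    have e1 : T.sy true (cls (T.φ (be i))) =
        br (T.Th true) (nv (if i ∈ T.side true then T.B i else 0)) := by
      change T.sy true (T.B i) = _
      rw [sy_apply, T.pr_B]
    rw [e0, e1, twBe]
    simp only [T.mem_side, if_true]
    split_ifs with h1
    · rw [map_mul, map_mul, map_inv]
      exact T.conj_mod _
    · rw [map_zero, br_zero_right, sub_self, sub_zero]
      exact Submodule.zero_mem _

/-- representatives, for each side -/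
def autS (s : Bool) : MulAut (Surf g) :=
  if s then T.aut else MulAut.conj (T.φ (sepc T.j))⁻¹ * T.aut

/-- **the symbol of a separating twist** -/
theorem sy_autS (s : Bool) : Sy 2 (T.autS s) (T.sy s) := by
  cases s
  swap
  · exact T.sy_aut
  · have h1 : Sy 2 (MulAut.conj (T.φ (sepc T.j))⁻¹) (-brR (T.Th true)) := by
      refine Sy.conj (by norm_num) (θ := -T.Th true) (Submodule.neg_mem _ (T.Th_mem _)) ?_ ?_
      · obtain ⟨h2, h3⟩ := T.dl_sepc
        set c := T.φ (sepc T.j) with hc
        have h3' : dl c⁻¹ ∈ I (Surf g) ^ 2 := (dimS (Surf g) 1).inv_mem (x := c) h3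
        have h5 : dl c⁻¹ = -dl c - dl c * dl c⁻¹ := by
          conv_lhs => rw [dl_inv, Aug.of_eq, mul_add, mul_one]
          abel
        have h4 : dl c⁻¹ - -T.Th true = -(dl c - T.Th true) - dl c * dl c⁻¹ := by
          conv_lhs => rw [h5]
          abel
        rw [h4]
        exact Submodule.sub_mem _ (Submodule.neg_mem _ h2)
          (I_anti (by norm_num) (by norm_num : 3 ≤ 2 + 2) (mul_mem_pow h3 h3'))
      · intro z
        rw [LinearMap.neg_apply, brR_apply]
        unfold br; noncomm_ring
    have h2 := Sy.mul (by norm_num) h1 T.sy_aut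
    refine h2.congr fun z => ?_
    have h4 : T.pr true z + T.pr false z = z := T.spl.sum true z
    have h5 : (-brR (T.Th true) + T.sy true) z - T.sy false z =
        -br (T.Th true + T.Th false) (nv (T.pr false z)) := by
      have h6 : br (T.Th true) (nv z) = br (T.Th true) (nv (T.pr true z)) +
          br (T.Th true) (nv (T.pr false z)) := by
        conv_lhs => rw [← h4]
        rw [map_add, br_add_right]
      rw [LinearMap.add_apply, LinearMap.neg_apply, brR_apply, sy_apply, sy_apply, h6,
        br_add_left]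
      abel
    rw [h5]
    exact Submodule.neg_mem _ (br_mem (a := 3) (b := 1) T.Th_rel (nv_mem _))

end ST

end TG
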